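import Pool.Agent.Work.MP_9079fe_co.Final

namespace Pool.Agent.Work.EMC.CliqueRange

/-- The Erdős matching conjecture for `k (s+1) ≤ n ≤ (k + δ)(s+1)` and large `s`, whenever
`(1 + δ/k)^k < 1 + 1/e`. -/
theorem result :
    ∀ (k : ℕ) (δ : ℝ), 2 ≤ k → 0 ≤ δ → (1 + δ / k) ^ k < 1 + Real.exp (-1) →
      ∃ s₀ : ℕ, ∀ n s : ℕ, s₀ ≤ s → k * (s + 1) ≤ n → (n : ℝ) ≤ (k + δ) * (s + 1) →
        IsGreatest
          {m : ℕ | ∃ F : Finset (Finset (Fin n)),
            (∀ A ∈ F, A.card = k) ∧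
            (∀ M ⊆ F, (M : Set (Finset (Fin n))).PairwiseDisjoint id → M.card ≤ s) ∧
            F.card = m}
          (max (n.choose k - (n - s).choose k) ((k * (s + 1) - 1).choose k)) :=
  fun k δ hk hδ h => Pool.Agent.Work.EMC.emc_range k δ hk hδ h

end Pool.Agent.Work.EMC.CliqueRange
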