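import Pool.Agent.Work.MP_9079fe_co.KMid

-- merged part: Pool.Agent.Work.MP_9079fe_co.KCover
section
-- merged part: Pool.Agent.Work.MP_9079fe_co.Sparse
section
/-! The case of a shifted family containing an edge among its largest vertices. -/

namespace Pool.Agent.Work.EMC
open Finset

lemma perfect {F : Finset (Finset ℕ)} {r : ℕ} : ∀ (t : ℕ) (W Tp Low : Finset ℕ),
    W.card = (r + 1) * t → Tp ⊆ W → Low ⊆ W \ Tp → r * Tp.card ≤ Low.card →
    (∀ v ∈ Tp, ∀ X ⊆ Low, X.card = r → insert v X ∈ F) →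
    (∀ A ⊆ W \ Tp, A.card = r + 1 → A ∈ F) →
    ∃ M ⊆ F, (M : Set (Finset ℕ)).PairwiseDisjoint id ∧ M.card = t ∧ ∀ A ∈ M, A ⊆ W := by
  intro t
  induction t with
  | zero => intros; exact ⟨∅, by simp, by simp, rfl, by simp⟩
  | succ t ih =>
    intro W Tp Low hW hT hL hc h1 h2
    have glue : ∀ A ∈ F, A ⊆ W → A.card = r + 1 →
        (∃ M ⊆ F, (M : Set (Finset ℕ)).PairwiseDisjoint id ∧ M.card = t ∧ ∀ B ∈ M, B ⊆ W \ A) →
        ∃ M ⊆ F, (M : Set (Finset ℕ)).PairwiseDisjoint id ∧ M.card = t + 1 ∧ ∀ A ∈ M, A ⊆ W := by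
      rintro A hA hAW hAc ⟨M, a1, a2, a3, a4⟩
      have hAM : A ∉ M := by
        intro h
        obtain ⟨x, hx⟩ : A.Nonempty := card_pos.mp (by omega)
        exact (mem_sdiff.mp (a4 A h hx)).2 hx
      refine ⟨insert A M, insert_subset hA a1, ?_, by rw [card_insert_of_notMem hAM, a3], ?_⟩
      · rw [coe_insert]
        exact a2.insert fun B hB _ => (subset_sdiff.mp (a4 B hB)).2.symm
      · intro B hB
        rcases mem_insert.mp hB with h | h
        · rwa [h]
        · exact (a4 B h).trans sdiff_subset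
    rcases Tp.eq_empty_or_nonempty with hT0 | ⟨v, hv⟩
    · obtain ⟨A, hA1, hA2⟩ := exists_subset_card_eq (s := W) (n := r + 1) (by rw [hW]; linarith only [mul_nonneg_of_nonpos_of_nonpos (Mathlib.Tactic.Linarith.sub_nonpos_of_le (Mathlib.Tactic.Linarith.natCast_nonneg ℤ r)) (Mathlib.Tactic.Linarith.sub_nonpos_of_le (Mathlib.Tactic.Linarith.natCast_nonneg ℤ t))])
      subst hT0
      refine glue A (h2 A (by simpa using hA1) hA2) hA1 hA2
        (ih (W \ A) ∅ ∅ ?_ (by simp) (by simp) (by simp) (by simp) ?_)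
      · rw [card_sdiff_of_subset hA1, hW, hA2, mul_add]; omega
      · intro B hB; apply h2; simp only [sdiff_empty] at hB ⊢; exact hB.trans sdiff_subset
    · have hTc := card_pos.mpr ⟨v, hv⟩
      obtain ⟨X, hX1, hX2⟩ := exists_subset_card_eq (s := Low) (n := r) (by nlinarith only [hc, hTc])
      have hvX : v ∉ X := fun h => (mem_sdiff.mp (hL (hX1 h))).2 hv
      have hAW : insert v X ⊆ W := insert_subset (hT hv) (hX1.trans (hL.trans sdiff_subset))
      have hAc : (insert v X).card = r + 1 := by rw [card_insert_of_notMem hvX, hX2]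
      refine glue _ (h1 v hv X hX1 hX2) hAW hAc
        (ih (W \ insert v X) (Tp.erase v) (Low \ X) ?_ ?_ ?_ ?_ ?_ ?_)
      · rw [card_sdiff_of_subset hAW, hW, hAc, mul_add]; omega
      · intro x hx
        obtain ⟨a1, a2⟩ := mem_erase.mp hx
        refine mem_sdiff.mpr ⟨hT a2, ?_⟩
        rw [mem_insert]; rintro (h | h)
        · exact a1 h
        · exact (mem_sdiff.mp (hL (hX1 h))).2 a2
      · intro x hx
        obtain ⟨a1, a2⟩ := mem_sdiff.mp hx
        obtain ⟨a3, a4⟩ := mem_sdiff.mp (hL a1)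
        refine mem_sdiff.mpr ⟨mem_sdiff.mpr ⟨a3, ?_⟩, fun h => a4 (mem_of_mem_erase h)⟩
        rw [mem_insert]; rintro (h | h)
        · exact a4 (h ▸ hv)
        · exact a2 h
      · rw [card_sdiff_of_subset hX1, hX2, card_erase_of_mem hv]
        obtain ⟨c, hc'⟩ : ∃ c, Tp.card = c + 1 := ⟨Tp.card - 1, by omega⟩
        rw [hc'] at hc ⊢
        rw [mul_add] at hc
        simp only [add_tsub_cancel_right]
        omega
      · intro w hw Y hY
        exact h1 w (mem_of_mem_erase hw) Y (hY.trans sdiff_subset)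
      · intro B hB
        refine h2 B fun x hx => ?_
        obtain ⟨a1, a2⟩ := mem_sdiff.mp (hB hx)
        obtain ⟨a3, a4⟩ := mem_sdiff.mp a1
        refine mem_sdiff.mpr ⟨a3, fun h => a2 (mem_erase.mpr ⟨?_, h⟩)⟩
        rintro rfl
        exact a4 (mem_insert_self _ _)

/-- Large vertices that form no edge with `r` vertices of the middle range. -/
noncomputable def badSet (F : Finset (Finset ℕ)) (r ℓ g m : ℕ) : Finset ℕ := by
  classical
  exact (Ico g m).filter fun v => ¬ ∃ X ⊆ Ico ℓ g, X.card = r ∧ insert v X ∈ F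

lemma mem_badSet {F : Finset (Finset ℕ)} {r ℓ g m v : ℕ} : v ∈ badSet F r ℓ g m ↔
    (g ≤ v ∧ v < m) ∧ ¬ ∃ X ⊆ Ico ℓ g, X.card = r ∧ insert v X ∈ F := by
  unfold badSet
  rw [mem_filter, mem_Ico]

lemma bad_card_le (F : Finset (Finset ℕ)) (r ℓ g m : ℕ) : (badSet F r ℓ g m).card ≤ m - g := by
  rw [← Nat.card_Ico]
  exact card_le_card fun v hv => mem_Ico.mpr (mem_badSet.mp hv).1

lemma link_mat {F : Finset (Finset ℕ)} {r s m ℓ g : ℕ} (hm : m + 1 = (r + 1) * (s + 1))
    (hS : Shifted F) (hM : Mat F s) (hℓg : ℓ ≤ g) (hgm : g ≤ m) (hs : m - g ≤ s)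
    (hℓ : (2 * r + 1) * (m - g) + r ≤ ℓ) {B : Finset ℕ} (hB : B ∈ F) (hBc : B.card = r + 1)
    (hBg : ∀ x ∈ B, g ≤ x) :
    Mat (link F r (m + (badSet F r ℓ g m).card) m) (badSet F r ℓ g m).card := by
  set b := (badSet F r ℓ g m).card with hb
  have hbe : b ≤ m - g := bad_card_le F r ℓ g m
  intro M₀ hM₀ hd₀
  by_contra hc
  obtain ⟨M, hM1, hM2⟩ := exists_subset_card_eq (s := M₀) (n := b + 1) (by omega)
  have hML : ∀ G ∈ M, G ⊆ range m ∧ G.card = r ∧ G ∈ link F r (m + b) m := fun G hG =>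
    ⟨(mem_link.mp (hM₀ (hM1 hG))).1, (mem_link.mp (hM₀ (hM1 hG))).2.1, hM₀ (hM1 hG)⟩
  have hd : (M : Set (Finset ℕ)).PairwiseDisjoint id := hd₀.subset (coe_subset.mpr hM1)
  obtain ⟨φ, hφ1, hφ2⟩ : ∃ φ : Finset ℕ → ℕ, (∀ G ∈ M, m ≤ φ G ∧ φ G ≤ m + b) ∧ Set.InjOn φ M := by
    let e := M.equivFinOfCardEq hM2
    refine ⟨fun G => if h : G ∈ M then m + (e ⟨G, h⟩ : ℕ) else 0, fun G hG => ?_, ?_⟩
    · simp only [hG, dif_pos]
      have := (e ⟨G, hG⟩).2
      omega
    · intro G hG G' hG' h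
      have hG1 : G ∈ M := hG
      have hG2 : G' ∈ M := hG'
      simp only [hG1, hG2, dif_pos, add_right_inj] at h
      have := e.injective (Fin.ext h)
      exact congrArg Subtype.val this
  have hφG : ∀ G ∈ M, ∀ G' ∈ M, φ G ∉ G' := fun G hG G' hG' h => by
    have := mem_range.mp ((hML G' hG').1 h)
    have := (hφ1 G hG).1
    omega
  set U := M.biUnion id with hU
  have hUc : U.card = r * (b + 1) := by
    rw [hU, card_biUnion hd, mul_comm, ← hM2, ← smul_eq_mul, ← sum_const]
    exact sum_congr rfl fun G hG => (hML G hG).2.1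
  have hUm : U ⊆ range m := biUnion_subset.mpr fun G hG => (hML G hG).1
  set W := range m \ U with hW
  obtain ⟨t, ht⟩ : ∃ t, s = b + t := ⟨s - b, by omega⟩
  have hWc : W.card = (r + 1) * t + b := by
    rw [hW, card_sdiff_of_subset hUm, card_range, hUc]
    have : m = r * (b + 1) + ((r + 1) * t + b) := by
      have : (r + 1) * (s + 1) = r * (b + 1) + ((r + 1) * t + b) + 1 := by rw [ht]; ring
      omega
    omega
  obtain ⟨Z, hZ1, hZ2, hZ3⟩ := exists_subsuperset_card_eq
    (s := badSet F r ℓ g m ∩ W) (t := W) (n := b) inter_subset_right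
    (card_le_card inter_subset_left) (by omega)
  set W' := W \ Z with hW'
  have hW'c : W'.card = (r + 1) * t := by rw [hW', card_sdiff_of_subset hZ2, hWc, hZ3]; omega
  have hW'm : ∀ x ∈ W', x < m := fun x hx =>
    mem_range.mp (mem_sdiff.mp (mem_sdiff.mp hx).1).1
  obtain ⟨M₂, a1, a2, a3, a4⟩ := perfect (F := F) (r := r) t W' (W'.filter fun x => g ≤ x)
    (W'.filter fun x => x < ℓ) hW'c (filter_subset _ _)
    (by
      intro x hx
      obtain ⟨h1, h2⟩ := mem_filter.mp hx
      exact mem_sdiff.mpr ⟨h1, fun h => by have := (mem_filter.mp h).2; omega⟩)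
    (by
      have c1 : (W'.filter fun x => g ≤ x).card ≤ m - g := by
        rw [← Nat.card_Ico]
        exact card_le_card fun x hx =>
          mem_Ico.mpr ⟨(mem_filter.mp hx).2, hW'm x (mem_filter.mp hx).1⟩
      have c2 : range ℓ ⊆ (W'.filter fun x => x < ℓ) ∪ (U ∪ Z) := by
        intro x hx
        have hx' := mem_range.mp hx
        by_cases h1 : x ∈ U ∪ Z
        · exact mem_union_right _ h1
        · rw [mem_union, not_or] at h1
          exact mem_union_left _ (mem_filter.mpr ⟨mem_sdiff.mpr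
            ⟨mem_sdiff.mpr ⟨mem_range.mpr (by omega), h1.1⟩, h1.2⟩, hx'⟩)
      have c3 := (card_le_card c2).trans (card_union_le _ _)
      have c4 := card_union_le U Z
      rw [card_range] at c3
      rw [hUc, hZ3] at c4
      have c5 := Nat.mul_le_mul_left r c1
      have c6 := Nat.mul_le_mul_left r hbe
      have c7 : (2 * r + 1) * (m - g) = r * (m - g) + r * (m - g) + (m - g) := by ring
      rw [mul_add] at c4
      omega)
    (by
      intro v hv X hX hXc
      obtain ⟨h1, h2⟩ := mem_filter.mp hv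
      have hgood : ∃ X ⊆ Ico ℓ g, X.card = r ∧ insert v X ∈ F := by
        by_contra hn
        exact (mem_sdiff.mp h1).2 (hZ1 (mem_inter.mpr
          ⟨mem_badSet.mpr ⟨⟨h2, hW'm v h1⟩, hn⟩, (mem_sdiff.mp h1).1⟩))
      obtain ⟨X₀, b1, b2, b3⟩ := hgood
      refine hS.dom' b3 ?_
      rw [insert_val_of_notMem (fun h => by have := (mem_filter.mp (hX h)).2; omega),
        insert_val_of_notMem (fun h => by have := (mem_Ico.mp (b1 h)).2; omega)]
      refine Multiset.Rel.cons le_rfl (Multiset.rel_of_forall (fun x y hx hy => ?_) (hXc.trans b2.symm))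
      have := (mem_filter.mp (hX hx)).2
      have := (mem_Ico.mp (b1 hy)).1
      omega)
    (by
      intro A hA hAc
      refine hS.dom' hB (Multiset.rel_of_forall (fun x y hx hy => ?_) (hAc.trans hBc.symm))
      obtain ⟨h1, h2⟩ := mem_sdiff.mp (hA hx)
      have := hBg y hy
      have : ¬ g ≤ x := fun h => h2 (mem_filter.mpr ⟨h1, h⟩)
      omega)
  set M₁ := M.image fun G => insert (φ G) G with hM₁
  have hinj : Set.InjOn (fun G => insert (φ G) G) M := by
    intro G hG G' hG' h
    apply hφ2 hG hG'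
    have : φ G ∈ insert (φ G') G' := by
      simp only at h
      rw [← h]; exact mem_insert_self _ _
    rcases mem_insert.mp this with h1 | h1
    · exact h1
    · exact absurd h1 (hφG G hG G' hG')
  have hdis : ∀ A ∈ M₁, ∀ A' ∈ M₂, Disjoint A A' := by
    intro A hA A' hA'
    obtain ⟨G, hG, rfl⟩ := mem_image.mp hA
    rw [disjoint_left]
    intro x hx hx'
    have h1 := a4 A' hA' hx'
    rcases mem_insert.mp hx with h | h
    · have := hW'm x h1
      have := (hφ1 G hG).1
      omega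
    · exact (mem_sdiff.mp (mem_sdiff.mp h1).1).2 (mem_biUnion.mpr ⟨G, hG, h⟩)
  have hdis' : Disjoint M₁ M₂ := by
    rw [disjoint_left]
    intro A hA hA'
    have := hdis A hA A hA'
    obtain ⟨G, hG, rfl⟩ := mem_image.mp hA
    exact disjoint_left.mp this (mem_insert_self _ _) (mem_insert_self _ _)
  have := hM (M₁ ∪ M₂) (union_subset (by
      intro A hA
      obtain ⟨G, hG, rfl⟩ := mem_image.mp hA
      exact (mem_link.mp (link_anti hS (hφ1 G hG).1 (hφ1 G hG).2 (hML G hG).2.2)).2.2) a1) (by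
      rw [coe_union]
      refine Set.PairwiseDisjoint.union ?_ a2 fun A hA A' hA' _ => hdis A hA A' hA'
      intro A hA A' hA' hne
      obtain ⟨G, hG, rfl⟩ := mem_image.mp hA
      obtain ⟨G', hG', rfl⟩ := mem_image.mp hA'
      have hGG : G ≠ G' := fun h => hne (by rw [h])
      show Disjoint (insert (φ G) G) (insert (φ G') G')
      rw [disjoint_insert_left, disjoint_insert_right, mem_insert, not_or]
      exact ⟨⟨fun h => hGG (hφ2 hG hG' h), hφG G hG G' hG'⟩, hφG G' hG' G hG, hd hG hG' hGG⟩)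
  rw [card_union_of_disjoint hdis', card_image_of_injOn hinj, hM2, a3] at this
  omega

lemma nonedges (F : Finset (Finset ℕ)) {r ℓ g m : ℕ} (hU : ∀ A ∈ F, A.card = r + 1) :
    (inside F m).card + (badSet F r ℓ g m).card * (g - ℓ).choose r ≤ m.choose (r + 1) := by
  have h1 : (badSet F r ℓ g m ×ˢ powersetCard r (Ico ℓ g)).card
      ≤ (powersetCard (r + 1) (range m) \ inside F m).card := by
    refine card_le_card_of_injOn (fun p => insert p.1 p.2) ?_ ?_
    · rintro ⟨v, X⟩ hp
      obtain ⟨a1, a2⟩ := mem_product.mp hp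
      obtain ⟨⟨b1, b2⟩, b3⟩ := mem_badSet.mp a1
      obtain ⟨c1, c2⟩ := mem_powersetCard.mp a2
      simp only at b1 b2 b3 c1 c2
      refine mem_sdiff.mpr ⟨mem_powersetCard.mpr ⟨insert_subset (mem_range.mpr b2) fun x hx => ?_, ?_⟩,
        fun h => b3 ⟨X, c1, c2, (mem_filter.mp h).1⟩⟩
      · have := (mem_Ico.mp (c1 hx)).2
        exact mem_range.mpr (by omega)
      · rw [card_insert_of_notMem (fun h => by have := (mem_Ico.mp (c1 h)).2; omega), c2]
    · rintro ⟨v, X⟩ hp ⟨v', X'⟩ hp' h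
      obtain ⟨a1, a2⟩ := mem_product.mp hp
      obtain ⟨a1', a2'⟩ := mem_product.mp hp'
      have b1 := (mem_badSet.mp a1).1.1
      have b1' := (mem_badSet.mp a1').1.1
      have c1 := (mem_powersetCard.mp a2).1
      have c1' := (mem_powersetCard.mp a2').1
      simp only at b1 b1' c1 c1' h
      have n1 : v ∉ X := fun h => by have := (mem_Ico.mp (c1 h)).2; omega
      have n2 : v' ∉ X' := fun h => by have := (mem_Ico.mp (c1' h)).2; omega
      have hv : v = v' := by
        have : v ∈ insert v' X' := by rw [← h]; exact mem_insert_self _ _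
        rcases mem_insert.mp this with h1 | h1
        · exact h1
        · have := (mem_Ico.mp (c1' h1)).2; omega
      subst hv
      rw [← erase_insert n1, h, erase_insert n2]
  have h2 : inside F m ⊆ powersetCard (r + 1) (range m) := fun A hA =>
    mem_powersetCard.mpr ⟨(mem_filter.mp hA).2, hU A (mem_filter.mp hA).1⟩
  have h3 := card_le_card h2
  rw [card_sdiff_of_subset h2, card_product, card_powersetCard, card_powersetCard, Nat.card_Ico,
    card_range] at h1
  rw [card_powersetCard, card_range] at h3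
  omega

lemma link_small {F : Finset (Finset ℕ)} (hS : Shifted F) {r ℓ g m : ℕ}
    (hb : (badSet F r ℓ g m).Nonempty) :
    (link F r m m).card + (g - ℓ).choose r ≤ m.choose r := by
  obtain ⟨v, hv⟩ := hb
  obtain ⟨⟨b1, b2⟩, b3⟩ := mem_badSet.mp hv
  have hsub : ∀ X ⊆ Ico ℓ g, X ⊆ range g := fun X hX x hx =>
    mem_range.mpr (mem_Ico.mp (hX hx)).2
  have hd : Disjoint (link F r m m) (powersetCard r (Ico ℓ g)) := by
    rw [disjoint_left]
    intro X h1 h2
    obtain ⟨c1, c2⟩ := mem_powersetCard.mp h2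
    have := link_anti hS b1 b2.le (mem_link.mpr ⟨hsub X c1, c2, (mem_link.mp h1).2.2⟩)
    exact b3 ⟨X, c1, c2, (mem_link.mp this).2.2⟩
  have h := card_le_card (s := link F r m m ∪ powersetCard r (Ico ℓ g))
    (t := powersetCard r (range m)) (union_subset (filter_subset _ _) fun X hX =>
      mem_powersetCard.mpr ⟨(hsub X (mem_powersetCard.mp hX).1).trans
        (range_subset_range.mpr (by omega)), (mem_powersetCard.mp hX).2⟩)
  rwa [card_union_of_disjoint hd, card_powersetCard, card_powersetCard, Nat.card_Ico,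
    card_range] at h

theorem sparse_case {F : Finset (Finset ℕ)} {r s n m ℓ g : ℕ} (hr : 0 < r) (hs0 : 0 < s)
    (hm : m + 1 = (r + 1) * (s + 1)) (hU : Unif n (r + 1) F)
    (hS : Shifted F) (hM : Mat F s) (hmn : m ≤ n) (hℓg : ℓ ≤ g) (hgm : g ≤ m) (hs : m - g ≤ s)
    (hℓ : (2 * r + 1) * (m - g) + r ≤ ℓ) (c1 : 3 * m.choose r ≤ 4 * (g - ℓ).choose r)
    (c2 : 5 * n.choose (r + 1) ≤ 7 * m.choose (r + 1)) (c3 : 5 * n.choose r ≤ 7 * m.choose r)
    {B : Finset ℕ} (hB : B ∈ F) (hBg : ∀ x ∈ B, g ≤ x) : F.card ≤ m.choose (r + 1) := by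
  have hU' : ∀ A ∈ F, A.card = r + 1 := fun A hA => (hU A hA).2
  have h1 := link_mat hm hS hM hℓg hgm hs hℓ hB (hU' B hB) hBg
  have h2 := nonedges F (ℓ := ℓ) (g := g) (m := m) hU'
  have h3 := link_small hS (r := r) (ℓ := ℓ) (g := g) (m := m)
  set b := (badSet F r ℓ g m).card with hb
  have hms : m = r + (r + 1) * s := by
    have : (r + 1) * (s + 1) = r + (r + 1) * s + 1 := by ring
    omega
  have hrm : r ≤ m := by omega
  have hcp : 0 < m.choose r := Nat.choose_pos hrm
  have h4 := card_le_of_mat hr s (range m) _ b (by rw [card_range]; linarith only [hr, hs0, hm])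
    (filter_subset _ _) h1
  rw [card_range] at h4
  change (link F r (m + b) m).card * s ≤ _ at h4
  have h5 : m.choose (r + 1) = s * m.choose r := by
    have := Nat.choose_succ_right_eq m r
    rw [show m - r = (r + 1) * s by omega] at this
    refine Nat.eq_of_mul_eq_mul_right (Nat.succ_pos r) ?_
    rw [this]; simp only [Nat.succ_eq_add_one]; ring
  have h6 := inside_le hU' m n hmn
  have h7 : inside F n = F := filter_true_of_mem fun A hA => (hU A hA).1
  rw [h7] at h6
  have h8 := sum_choose_Ico r m n hmn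
  have term : ∀ v ∈ Ico m n, 20 * s * (link F r v v).card ≤
      (if v < m + b then 7 * s * m.choose r else 0) + 20 * b * v.choose r := by
    intro v hv
    obtain ⟨v1, v2⟩ := mem_Ico.mp hv
    have d1 := link_density hS (v := v) hrm v v1 le_rfl
    split_ifs with h
    · have d2 := card_le_card (link_anti hS (r := r) (N := m) le_rfl v1)
      have d3 := h3 (card_pos.mp (by omega))
      have d4 : v.choose r ≤ n.choose r := Nat.choose_le_choose r v2.le
      have d5 : 20 * (link F r v v).card ≤ 7 * m.choose r := by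
        refine Nat.le_of_mul_le_mul_right ?_ hcp
        calc _ = 20 * ((link F r v v).card * m.choose r) := by ring
          _ ≤ 20 * ((link F r m m).card * n.choose r) :=
            Nat.mul_le_mul_left _ (d1.trans (Nat.mul_le_mul d2 d4))
          _ = (4 * (link F r m m).card) * (5 * n.choose r) := by ring
          _ ≤ m.choose r * (7 * m.choose r) := Nat.mul_le_mul (by omega) c3
          _ = _ := by ring
      have := Nat.mul_le_mul_left s d5
      linarith only [this, Nat.zero_le (20 * b * v.choose r)]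
    · have d2 := card_le_card (link_anti hS (r := r) (N := m) (v := m + b) (v' := v)
        (by omega) (by omega))
      have d5 : s * (link F r v v).card ≤ b * v.choose r := by
        refine Nat.le_of_mul_le_mul_right ?_ hcp
        calc _ = s * ((link F r v v).card * m.choose r) := by ring
          _ ≤ s * ((link F r (m + b) m).card * v.choose r) :=
            Nat.mul_le_mul_left _ (d1.trans (Nat.mul_le_mul_right _ d2))
          _ = ((link F r (m + b) m).card * s) * v.choose r := by ring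
          _ ≤ (b * m.choose r) * v.choose r := Nat.mul_le_mul_right _ h4
          _ = _ := by ring
      linarith only [d5]
  have h9 := sum_le_sum term
  rw [sum_add_distrib, ← mul_sum, ← mul_sum, ← sum_filter, sum_const, smul_eq_mul] at h9
  have h10 : ((Ico m n).filter fun v => v < m + b).card ≤ b := by
    refine le_trans (card_le_card (t := Ico m (m + b)) fun v hv => ?_) (by simp)
    exact mem_Ico.mpr ⟨(mem_Ico.mp (mem_filter.mp hv).1).1, (mem_filter.mp hv).2⟩
  have h11 := Nat.mul_le_mul_right (7 * s * m.choose r) h10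
  set S1 := ∑ v ∈ Ico m n, (link F r v v).card
  set S2 := ∑ v ∈ Ico m n, v.choose r
  have h12 : 5 * S2 ≤ 2 * (s * m.choose r) := by omega
  have h13 : S1 ≤ b * (g - ℓ).choose r := by
    refine Nat.le_of_mul_le_mul_left ?_ (show 0 < 20 * s by omega)
    have a1 := Nat.mul_le_mul_left (4 * b) h12
    have a2 := Nat.mul_le_mul_left (5 * s * b) c1
    linarith only [h11, h9, a1, a2]
  omega

end Pool.Agent.Work.EMC
end

-- merged part: Pool.Agent.Work.MP_9079fe_co.Assemble
section
/-! Numerical assembly of the two cases. -/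

namespace Pool.Agent.Work.EMC
open Finset

lemma choose_ratio {a b : ℕ} {x : ℝ} (hx : 1 ≤ x) (hab : a ≤ b) : ∀ j ≤ a,
    (b + 1 - j : ℝ) ≤ x * (a + 1 - j) → (b.choose j : ℝ) ≤ x ^ j * a.choose j := by
  intro j
  induction j with
  | zero => intro _ _; simp
  | succ j ih =>
    intro hj h
    push_cast at h
    have h1 := ih (by omega) (by linarith only [hx, h])
    have e1 : (b.choose (j + 1) : ℝ) * (j + 1) = b.choose j * (b - j) := by
      have := Nat.choose_succ_right_eq b j
      rw [← Nat.cast_sub (by omega)]; exact_mod_cast this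
    have e2 : (a.choose (j + 1) : ℝ) * (j + 1) = a.choose j * (a - j) := by
      have := Nat.choose_succ_right_eq a j
      rw [← Nat.cast_sub (by omega)]; exact_mod_cast this
    have hp : (0:ℝ) < j + 1 := by positivity
    have hbj : (0:ℝ) ≤ b - j := by
      have : (j:ℝ) ≤ b := Nat.cast_le.mpr (by omega)
      linarith only [this]
    refine le_of_mul_le_mul_right ?_ hp
    calc _ = (b.choose j : ℝ) * (b - j) := e1
      _ ≤ (x ^ j * a.choose j) * (x * (a - j)) :=
        mul_le_mul h1 (by linarith only [h]) hbj (by positivity)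
      _ = x ^ (j + 1) * (a.choose j * (a - j)) := by ring
      _ = _ := by rw [← e2]; ring

lemma pow_sub_pow_le {N c : ℝ} (hN : 0 < N) (hc : c ≤ N) (j : ℕ) :
    N ^ j - (N - c) ^ j ≤ j * (c / N) * N ^ j := by
  have h1 := one_add_mul_le_pow (a := -(c / N)) (by
    have : c / N ≤ 1 := (div_le_one hN).mpr hc
    linarith only [this]) j
  have h2 : (N - c) ^ j = (1 + -(c / N)) ^ j * N ^ j := by
    rw [← mul_pow]; congr 1; field_simp; ring
  rw [h2]
  linarith only [h1, hN, mul_le_mul_of_nonneg_right h1 (pow_pos hN j).le]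

lemma dense_core {F : Finset (Finset ℕ)} {T r ℓ s n : ℕ} {R : ℝ} (hT : 0 < T) (hℓ : 0 < ℓ)
    (hU : Unif n (r + 1) F) (hS : Shifted F) (hM : Mat F s)
    (hN : (r + 1) * (s + (types T (r + 1)).card) < T * ℓ) (hN2 : 2 * (r + 1) ^ 2 ≤ T * ℓ)
    (hR : 1 ≤ R) (hn : (n.choose (r + 1) : ℝ) ≤ R * (T * ℓ).choose (r + 1)) :
    (F.card : ℝ) ≤ (inside F (T * ℓ)).card + (R - 1) *
      (Real.exp 1 * ((T * ℓ).choose (r + 1) - (inside F (T * ℓ)).card)
        + (6 * (r + 1) ^ 2 / (T * ℓ : ℕ) + 8 * (r + 1) / T) * (T * ℓ).choose (r + 1)) := by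
  have hU' : ∀ A ∈ F, A.card = r + 1 := fun A hA => (hU A hA).2
  have F1 := dense_ineq hT hℓ hU' hS hM hN
  set N := T * ℓ with hNd
  have hkN : r + 1 ≤ N := le_trans (Nat.le_self_pow two_ne_zero _) (by omega)
  have hℓN : ℓ ≤ N := Nat.le_mul_of_pos_left _ hT
  have hNp : (0:ℝ) < N := Nat.cast_pos.mpr (by omega)
  have hTp : (0:ℝ) < T := Nat.cast_pos.mpr hT
  obtain ⟨e2, e3⟩ := e_bounds
  set e := Real.exp 1
  set f : ℝ := ((inside F N).card : ℝ) with hf
  set L : ℝ := ((link F r N N).card : ℝ) with hL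
  set c : ℝ := (N.choose (r + 1) : ℝ) with hc
  set c' : ℝ := (N.choose r : ℝ) with hc'
  have hcp : 0 < c := Nat.cast_pos.mpr (Nat.choose_pos hkN)
  have hc'p : 0 < c' := Nat.cast_pos.mpr (Nat.choose_pos (by omega))
  have hL0 : 0 ≤ L := Nat.cast_nonneg _
  have hlT : (ℓ:ℝ) / N = 1 / T := by
    rw [hNd]; push_cast
    have : (ℓ:ℝ) ≠ 0 := Nat.cast_ne_zero.mpr hℓ.ne'
    field_simp
  have F2 := fun j => pow_sub_pow_le hNp (c := ℓ) (Nat.cast_le.mpr hℓN) j
  rw [hlT] at F2
  rw [Nat.cast_sub hℓN] at F1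
  set A : ℝ := (N:ℝ) ^ (r + 1) with hA
  have hAp : 0 < A := pow_pos hNp _
  set K : ℝ := ((r + 1).factorial : ℝ) with hK
  have hKp : 0 < K := Nat.cast_pos.mpr (Nat.factorial_pos _)
  have F3 : A - K * c ≤ (r + 1) ^ 2 / N * A := by
    clear * - N r T ℓ s hkN K c hK hc hNp A
    have h1 := Nat.pow_sub_le_descFactorial N (r + 1)
    rw [Nat.descFactorial_eq_factorial_mul_choose] at h1
    have h2 : (N - (r + 1)) ^ (r + 1) ≤ (N + 1 - (r + 1)) ^ (r + 1) :=
      Nat.pow_le_pow_left (by omega) _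
    have h3 : (((N - (r + 1)) ^ (r + 1) : ℕ) : ℝ) ≤ K * c := by
      rw [hK, hc]; exact_mod_cast h2.trans h1
    rw [Nat.cast_pow, Nat.cast_sub hkN] at h3
    have h4 := pow_sub_pow_le hNp (c := ((r + 1 : ℕ) : ℝ)) (Nat.cast_le.mpr hkN) (r + 1)
    push_cast at h3 h4
    have : ((r:ℝ) + 1) * ((r + 1) / N) = (r + 1) ^ 2 / N := by ring
    rw [this] at h4
    linarith only [h3, h4]
  have F3' : A ≤ 2 * (K * c) := by
    have : ((r:ℝ) + 1) ^ 2 / N ≤ 1 / 2 := by
      rw [div_le_iff₀ hNp]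
      have : ((2 * (r + 1) ^ 2 : ℕ) : ℝ) ≤ N := Nat.cast_le.mpr hN2
      push_cast at this
      linarith only [this]
    have := mul_le_mul_of_nonneg_right this hAp.le
    linarith only [F3, this]
  have F4 : K * c ≤ r.factorial * N * c' := by
    have h1 := Nat.choose_succ_right_eq N r
    have h2 : (r + 1).factorial * N.choose (r + 1) ≤ r.factorial * N * N.choose r := by
      rw [Nat.factorial_succ]
      calc _ = r.factorial * (N.choose (r + 1) * (r + 1)) := by ring
        _ = r.factorial * (N.choose r * (N - r)) := by rw [h1]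
        _ ≤ r.factorial * (N.choose r * N) :=
          Nat.mul_le_mul_left _ (Nat.mul_le_mul_left _ (Nat.sub_le _ _))
        _ = _ := by ring
    rw [hK, hc, hc']; exact_mod_cast h2
  have F5 : (F.card : ℝ) * c' ≤ f * c' + L * ((R - 1) * c) := by
    clear * - F n N r hU' hU hS T ℓ s hkN R c hcp hR hn f hf hc c' L hL hc' hL0 hc'p A hA
    have h1 := inside_le hU' N (max n N) (le_max_right _ _)
    have h7 : inside F (max n N) = F := filter_true_of_mem fun A hA =>
      (hU A hA).1.trans (range_subset_range.mpr (le_max_left _ _))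
    rw [h7] at h1
    have h2 := sum_choose_Ico r N (max n N) (le_max_right _ _)
    have h3 : (∑ v ∈ Ico N (max n N), (link F r v v).card) * N.choose r
        ≤ (link F r N N).card * ∑ v ∈ Ico N (max n N), v.choose r := by
      rw [sum_mul, mul_sum]
      refine sum_le_sum fun v hv => ?_
      have hv1 := (mem_Ico.mp hv).1
      exact (link_density hS (by omega) v hv1 le_rfl).trans
        (Nat.mul_le_mul_right _ (card_le_card (link_anti hS le_rfl hv1)))
    have h4 : ((max n N).choose (r + 1) : ℝ) ≤ R * c := by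
      rcases le_total n N with h | h
      · rw [max_eq_right h]; exact le_mul_of_one_le_left hcp.le hR
      · rwa [max_eq_left h]
    set S1 := ∑ v ∈ Ico N (max n N), (link F r v v).card
    set S2 := ∑ v ∈ Ico N (max n N), v.choose r
    have g1 : (F.card : ℝ) ≤ f + S1 := by rw [hf]; exact_mod_cast h1
    have g2 : c + S2 = ((max n N).choose (r + 1) : ℝ) := by rw [hc]; exact_mod_cast h2
    have g3 : (S1:ℝ) * c' ≤ L * S2 := by rw [hL, hc']; exact_mod_cast h3
    have g4 : L * S2 ≤ L * ((R - 1) * c) := mul_le_mul_of_nonneg_left (by linarith only [h4, g2]) hL0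
    have g5 := mul_le_mul_of_nonneg_right g1 hc'p.le
    linarith only [g3, g4, g5]
  have G1 : r.factorial * N * L ≤ e * (A - K * f) + 4 * (r + 1) / T * A := by
    clear * - N r ℓ T F2 A hNp hA e e2 e3 hT hℓ L K f F1
    have a1 := F2 r
    have a2 := F2 (r + 1)
    rw [← hA] at a2
    push_cast at a2
    have a3 : (N:ℝ) * (N ^ r - (N - ℓ) ^ r) ≤ r * (1 / T) * A := by
      have := mul_le_mul_of_nonneg_left a1 hNp.le
      rw [hA, pow_succ]; linarith only [this]
    have a4 : e * (A - (N - ℓ) ^ (r + 1)) ≤ 3 * ((r + 1) * (1 / T) * A) :=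
      (mul_le_mul_of_nonneg_left a2 (by linarith only [e2, e3])).trans
        (mul_le_mul_of_nonneg_right e3.le (by positivity))
    have a5 : (0:ℝ) ≤ (1 / T) * A := by positivity
    have a6 : 4 * ((r:ℝ) + 1) / T * A = 4 * (r + 1) * (1 / T * A) := by ring
    rw [a6]
    linarith only [F1, a3, a4, a5]
  set η : ℝ := 6 * (r + 1) ^ 2 / N + 8 * (r + 1) / T with hη
  have G2 : c * L ≤ (e * (c - f) + η * c) * c' := by
    clear * - K c L r N c' F4 hL0 e A F3 e2 e3 T ℓ hT hℓ F3' f η hη G1 hc'p hKp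
    have a1 : K * (c * L) ≤ (r.factorial * N * L) * c' := by
      have := mul_le_mul_of_nonneg_right F4 hL0
      linarith only [this]
    have a2 : e * (A - K * c) ≤ 3 * ((r + 1) ^ 2 / N * A) :=
      (mul_le_mul_of_nonneg_left F3 (by linarith only [e2, e3])).trans
        (mul_le_mul_of_nonneg_right e3.le (by positivity))
    have a3 : (3 * ((r + 1) ^ 2 / N) + 4 * (r + 1) / T) * A
        ≤ (3 * ((r + 1) ^ 2 / N) + 4 * (r + 1) / T) * (2 * (K * c)) :=
      mul_le_mul_of_nonneg_left F3' (by positivity)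
    have a4 : r.factorial * N * L ≤ K * (e * (c - f) + η * c) := by
      have : (3 * (((r:ℝ) + 1) ^ 2 / N) + 4 * (r + 1) / T) * (2 * (K * c)) = K * (η * c) := by
        rw [hη]; ring
      linarith only [G1, a2, a3, this]
    have a5 := mul_le_mul_of_nonneg_right a4 hc'p.le
    have : K * (c * L) ≤ K * ((e * (c - f) + η * c) * c') := by linarith only [a1, a5]
    exact le_of_mul_le_mul_left this hKp
  have G3 := mul_le_mul_of_nonneg_left G2 (sub_nonneg.mpr hR)
  refine le_of_mul_le_mul_right ?_ hc'p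
  linarith only [F5, G3]

lemma inside_add_le {F : Finset (Finset ℕ)} {k g N : ℕ} (hU : ∀ A ∈ F, A.card = k)
    (hno : ∀ B ∈ F, ¬ ∀ x ∈ B, g ≤ x) : (inside F N).card + (N - g).choose k ≤ N.choose k := by
  have hd : Disjoint (inside F N) (powersetCard k (Ico g N)) := by
    rw [disjoint_left]
    intro B h1 h2
    exact hno B (mem_filter.mp h1).1 fun x hx => (mem_Ico.mp ((mem_powersetCard.mp h2).1 hx)).1
  have h := card_le_card (s := inside F N ∪ powersetCard k (Ico g N))
    (t := powersetCard k (range N)) (union_subset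
      (fun A hA => mem_powersetCard.mpr ⟨(mem_filter.mp hA).2, hU A (mem_filter.mp hA).1⟩)
      fun X hX => mem_powersetCard.mpr ⟨fun x hx =>
        mem_range.mpr (mem_Ico.mp ((mem_powersetCard.mp hX).1 hx)).2, (mem_powersetCard.mp hX).2⟩)
  rwa [card_union_of_disjoint hd, card_powersetCard, card_powersetCard, Nat.card_Ico,
    card_range] at h

theorem dense_case (r : ℕ) {x : ℝ} (hx : 1 ≤ x) (hR : x ^ (r + 1) < 1 + Real.exp (-1)) :
    ∃ s₀ : ℕ, ∀ s ≥ s₀, ∀ (n m : ℕ) (F : Finset (Finset ℕ)), m + 1 = (r + 1) * (s + 1) →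
      (n : ℝ) - r ≤ x * ((r + 1) * s) → Unif n (r + 1) F → Shifted F → Mat F s →
      (∀ B ∈ F, ¬ ∀ y ∈ B, m - s / (20 * (r + 1)) ≤ y) → F.card ≤ m.choose (r + 1) := by
  obtain ⟨e2, e3⟩ := e_bounds
  have hee : Real.exp 1 * Real.exp (-1) = 1 := by rw [← Real.exp_add]; simp
  set R := x ^ (r + 1) with hRd
  have hR1 : 1 ≤ R := one_le_pow₀ hx
  set κ := 1 - Real.exp 1 * (R - 1) with hκ
  have hκp : 0 < κ := by linarith only [hee, hR, e2, mul_pos_of_neg_of_neg (Mathlib.Tactic.Linarith.sub_neg_of_lt e2) (Mathlib.Tactic.Linarith.sub_neg_of_lt hR)]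
  have hκ1 : κ ≤ 1 := by linarith only [hR1, e2, mul_nonneg_of_nonpos_of_nonpos (le_of_lt (Mathlib.Tactic.Linarith.sub_neg_of_lt e2)) (Mathlib.Tactic.Linarith.sub_nonpos_of_le hR1)]
  have hR2 : R - 1 ≤ 1 := by linarith only [e3, hee, hR, e2, hR1, mul_pos_of_neg_of_neg (Mathlib.Tactic.Linarith.sub_neg_of_lt e2) (Mathlib.Tactic.Linarith.sub_neg_of_lt e2), mul_pos_of_neg_of_neg (Mathlib.Tactic.Linarith.sub_neg_of_lt e2) (Mathlib.Tactic.Linarith.sub_neg_of_lt e3), mul_pos_of_neg_of_neg (Mathlib.Tactic.Linarith.sub_neg_of_lt e2) (Mathlib.Tactic.Linarith.sub_neg_of_lt hR), mul_nonneg_of_nonpos_of_nonpos (le_of_lt (Mathlib.Tactic.Linarith.sub_neg_of_lt e2)) (Mathlib.Tactic.Linarith.sub_nonpos_of_le hR1)]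
  set k : ℝ := r + 1 with hk
  have hk1 : 1 ≤ k := by rw [hk]; linarith [(Nat.cast_nonneg r : (0:ℝ) ≤ r)]
  set Λ : ℝ := (80 * k ^ 2) ^ (r + 1) with hΛ
  have h80 : 1 ≤ 80 * k ^ 2 := by linarith only [e2, e3, mul_nonneg_of_nonpos_of_nonpos (Mathlib.Tactic.Linarith.sub_nonpos_of_le (Mathlib.Tactic.Linarith.natCast_nonneg ℝ r)) (Mathlib.Tactic.Linarith.sub_nonpos_of_le (Mathlib.Tactic.Linarith.natCast_nonneg ℝ r))]
  have hΛ1 : 1 ≤ Λ := one_le_pow₀ h80
  set t := κ / Λ / 2 with ht
  have htp : 0 < t := by positivity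
  have ht1 : t ≤ 1 / 2 := by
    have : κ / Λ ≤ 1 := (div_le_one (by linarith only [e2, e3, hΛ1])).mpr (by linarith only [hκ1, hΛ1])
    linarith only [ht, this]
  obtain ⟨T, hT⟩ := exists_nat_gt (16 * k / t)
  have hTp : (0:ℝ) < T := lt_trans (by positivity) hT
  have hT0 : 0 < T := Nat.cast_pos.mp hTp
  set B := (types T (r + 1)).card with hB
  set D := (r + 1) * B + T + 1 with hD
  obtain ⟨s₁, hs₁⟩ := exists_nat_gt (max (12 * k / t) (D / t))
  refine ⟨s₁ + 40 * (r + 1) ^ 2 + D + (r + 1), fun s hs n m F hm hn hU hS hM hno => ?_⟩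
  have hs1 : (s₁:ℝ) ≤ s := Nat.cast_le.mpr (by omega)
  have hsa : 12 * k / t ≤ s := by linarith only [hs₁, hs1, le_max_left (12 * k / t) (D / t)]
  have hsb : D / t ≤ s := by linarith only [hs₁, hs1, le_max_right (12 * k / t) (D / t)]
  have hsp : (0:ℝ) < s := lt_of_lt_of_le (by clear * - k t r κ Λ hκp hsa; positivity) hsa
  set ℓ := (r + 1) * (s + B + 1) / T + 1 with hℓ
  have hN1 : (r + 1) * (s + B + 1) < T * ℓ := Nat.lt_mul_div_succ _ hT0
  have hN2 : T * ℓ ≤ (r + 1) * (s + B + 1) + T := by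
    rw [hℓ, mul_add T, mul_one]; exact Nat.add_le_add_right (Nat.mul_div_le _ _) _
  have hexp : (r + 1) * (s + B + 1) = m + 1 + (r + 1) * B := by rw [hm]; ring
  have hms : m = r + (r + 1) * s := by
    have : (r + 1) * (s + 1) = r + (r + 1) * s + 1 := by ring
    omega
  have hs40 : 40 * (r + 1) ^ 2 ≤ s := by omega
  have hks : s ≤ (r + 1) * s := Nat.le_mul_of_pos_left _ (Nat.succ_pos r)
  have core := dense_core (R := R) hT0 (ℓ := ℓ) (Nat.succ_pos _) hU hS hM
    (lt_of_le_of_lt (Nat.mul_le_mul_left _ (Nat.le_succ _)) hN1) (by omega) hR1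
  clear_value ℓ B
  generalize T * ℓ = N at *
  have hmN : m ≤ N := by omega
  have hNm : N ≤ m + D := by omega
  have hmR : (m:ℝ) = r + k * s := by rw [hms, hk]; push_cast; ring
  have hs2 : 1 ≤ s := by omega
  have hkN : r + 1 ≤ m := by
    have := Nat.mul_le_mul_left (r + 1) hs2
    omega
  have hmN' : (m:ℝ) ≤ N := Nat.cast_le.mpr hmN
  have hNm' : (N:ℝ) ≤ m + D := by exact_mod_cast hNm
  have core' := core (by
    clear * - n N r R hR1 x hx T B s₁ s hs m hm ℓ hexp hms hks hN1 hN2 k hmR hmN' hn e2 e3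
    rcases le_total n N with h | h
    · have : (n.choose (r + 1) : ℝ) ≤ N.choose (r + 1) := Nat.cast_le.mpr (Nat.choose_le_choose _ h)
      exact this.trans (le_mul_of_one_le_left (Nat.cast_nonneg _) hR1)
    · refine choose_ratio hx h _ (by omega) ?_
      push_cast
      have := mul_le_mul_of_nonneg_left (show k * s ≤ (N:ℝ) + 1 - (r + 1) by linarith only [hmR, hmN'])
        (show 0 ≤ x by linarith only [hx, e2, e3])
      linarith only [hn, this])
  set c : ℝ := (N.choose (r + 1) : ℝ) with hc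
  set f : ℝ := ((inside F N).card : ℝ) with hf
  have hc0 : 0 ≤ c := Nat.cast_nonneg _
  set e₀ := s / (20 * (r + 1)) with he₀
  have he1 : s < 20 * (r + 1) * (e₀ + 1) := Nat.lt_mul_div_succ _ (by omega)
  have he2 : e₀ ≤ s := Nat.div_le_self _ _
  have he3 : 2 * (r + 1) ≤ e₀ := by
    rw [he₀, Nat.le_div_iff_mul_le (by omega)]
    exact le_trans (le_of_eq (by ring)) hs40
  clear_value e₀
  have q1 : c ≤ Λ * (c - f) := by
    have a1 := inside_add_le (N := N) (fun A hA => (hU A hA).2) hno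
    have a2 : e₀.choose (r + 1) ≤ (N - (m - e₀)).choose (r + 1) :=
      Nat.choose_le_choose _ (by omega)
    have a3 : (e₀.choose (r + 1) : ℝ) ≤ c - f := by
      have : (inside F N).card + e₀.choose (r + 1) ≤ N.choose (r + 1) := by omega
      have : f + e₀.choose (r + 1) ≤ c := by rw [hf, hc]; exact_mod_cast this
      linarith only [this]
    have a4 : c ≤ Λ * e₀.choose (r + 1) := by
      refine choose_ratio h80 (by omega) _ (by omega) ?_
      have b1 : (s:ℝ) ≤ 20 * k * (e₀ + 1) := by rw [hk]; exact_mod_cast he1.le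
      have b2 : 2 * k ≤ e₀ := by rw [hk]; exact_mod_cast he3
      have b3 : (D:ℝ) ≤ s := Nat.cast_le.mpr (by omega)
      push_cast
      rw [← hk]
      have b6 := mul_le_mul_of_nonneg_right hk1 hsp.le
      have b4 : (N:ℝ) + 1 - k ≤ 2 * k * s := by linarith only [hmR, hNm', b3, b6]
      have b5 : 2 * k * s ≤ 2 * k * (20 * k * (e₀ + 1)) :=
        mul_le_mul_of_nonneg_left b1 (by linarith)
      have b7 := mul_le_mul_of_nonneg_left (show (e₀:ℝ) + 1 ≤ 2 * (e₀ + 1 - k) by linarith only [e2, e3, b2])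
        (show 0 ≤ 40 * k ^ 2 by positivity)
      linarith only [hmR, hNm', b3, b6, b5, b7]
    exact a4.trans (mul_le_mul_of_nonneg_left a3 (by linarith only [e2, e3, hΛ1]))
  have q2 : 6 * k ^ 2 / N + 8 * k / T ≤ t := by
    have a1 : 8 * k / T ≤ t / 2 := by
      rw [div_lt_iff₀ htp] at hT
      rw [div_le_iff₀ hTp]; linarith only [hT]
    have a2 : 6 * k ^ 2 / N ≤ t / 2 := by
      rw [div_le_iff₀ htp] at hsa
      have b1 : k * s ≤ N := by linarith only [hmR, hmN', (Nat.cast_nonneg r : (0:ℝ) ≤ r)]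
      have b0 : 0 < k * s := by positivity
      rw [div_le_iff₀ (by linarith only [hmR, hmN', b0])]
      have b2 := mul_le_mul_of_nonneg_left hsa (show 0 ≤ k by linarith)
      have b3 := mul_le_mul_of_nonneg_left b1 htp.le
      linarith only [b2, b3]
    linarith only [a1, a2]
  have q3 : (F.card : ℝ) ≤ (1 - t) * c := by
    clear * - R k N T c t r hT0 hR2 q2 hc0 κ f Λ ht hΛ1 hκp q1 x htp hκ F core'
    have a1 : (R - 1) * ((6 * k ^ 2 / N + 8 * k / T) * c) ≤ t * c := by
      clear * - k N T r hT0 R c t hR2 q2 hc0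
      have : (0:ℝ) ≤ 6 * k ^ 2 / N + 8 * k / T := by positivity
      calc _ ≤ 1 * ((6 * k ^ 2 / N + 8 * k / T) * c) :=
            mul_le_mul_of_nonneg_right hR2 (by positivity)
        _ ≤ _ := by rw [one_mul]; exact mul_le_mul_of_nonneg_right q2 hc0
    have a2 : 2 * t * c ≤ κ * (c - f) := by
      clear * - t Λ c f κ ht hΛ1 hκp q1 x r R k htp
      have : 2 * t * (Λ * (c - f)) = κ * (c - f) := by rw [ht]; field_simp
      rw [← this]
      exact mul_le_mul_of_nonneg_left q1 (by linarith only [htp])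
    have a3 : f + (R - 1) * (Real.exp 1 * (c - f)) = c - κ * (c - f) := by rw [hκ]; ring
    linarith only [core', a1, a2]
  have q4 : (1 - t) * c ≤ m.choose (r + 1) := by
    clear * - D s t hsp x r κ Λ R k htp hsb B T hT0 hs2 c m N hmN hkN hk1 hmR hNm' hk e2 e3 ht1
    have hDs : (D:ℝ) / s ≤ t := by
      rw [div_le_iff₀ htp] at hsb
      rw [div_le_iff₀ hsp]; linarith only [hsb]
    have hD0 : (0:ℝ) ≤ D / s := by positivity
    have a1 : c ≤ (1 + D / s / k) ^ (r + 1) * m.choose (r + 1) := by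
      clear * - m N D s k r B T hT0 hs2 hmN hkN hk1 hmR hNm'
      refine choose_ratio (by have : (0:ℝ) ≤ D / s / k := by positivity
                              linarith only [this]) hmN _ hkN ?_
      have : (1 + D / s / k) * (k * s) = k * s + D := by field_simp
      push_cast
      rw [hmR, show (r:ℝ) + k * s + 1 - (r + 1) = k * s by ring, this]
      linarith only [hmR, hNm']
    have a2 : (1 + D / s / k) ^ (r + 1) ≤ 1 / (1 - D / s) := by
      have b1 : (1 + D / s / k) ^ (r + 1) ≤ Real.exp (D / s / k) ^ (r + 1) :=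
        pow_le_pow_left₀ (by positivity) (by linarith only [Real.add_one_le_exp (D / s / k)]) _
      rw [← Real.exp_nat_mul] at b1
      have b2 : ((r + 1 : ℕ) : ℝ) * (D / s / k) = D / s := by
        push_cast; rw [← hk]; field_simp
      rw [b2] at b1
      exact b1.trans (Real.exp_bound_div_one_sub_of_interval hD0 (by linarith only [e2, e3, ht1, hDs]))
    have a3 : (1 - t) * (1 / (1 - D / s)) ≤ 1 := by
      clear * - t D s x r κ Λ R k e2 e3 ht1 hDs
      rw [mul_one_div, div_le_one (by linarith only [e2, e3, ht1, hDs])]; linarith only [hDs]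
    have hm0 : (0:ℝ) ≤ m.choose (r + 1) := Nat.cast_nonneg _
    calc _ ≤ (1 - t) * (1 / (1 - D / s) * m.choose (r + 1)) :=
          mul_le_mul_of_nonneg_left (a1.trans (mul_le_mul_of_nonneg_right a2 hm0)) (by linarith only [e2, e3, ht1])
      _ ≤ _ := by rw [← mul_assoc]; exact mul_le_of_le_one_left hm0 a3
  exact_mod_cast q3.trans q4

/-- Upper bound for families on the natural numbers. -/
theorem upper_nat (r : ℕ) (hr : 0 < r) {x : ℝ} (hx : 1 ≤ x) (hR : x ^ (r + 1) < 1 + Real.exp (-1)) :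
    ∃ s₀ : ℕ, ∀ s ≥ s₀, ∀ (n m : ℕ) (F : Finset (Finset ℕ)), m + 1 = (r + 1) * (s + 1) → m ≤ n →
      (n : ℝ) - r ≤ x * ((r + 1) * s) → Unif n (r + 1) F → Mat F s → F.card ≤ m.choose (r + 1) := by
  obtain ⟨s₀, h⟩ := dense_case r hx hR
  refine ⟨s₀ + 10 * (r + 1), fun s hs n m F₀ hm hmn hn hU₀ hM₀ => ?_⟩
  obtain ⟨F, hU, hM, hS, hc⟩ := exists_shifted _ F₀ rfl hU₀ hM₀
  rw [← hc]
  by_cases hno : ∀ B ∈ F, ¬ ∀ y ∈ B, m - s / (20 * (r + 1)) ≤ y
  · exact h s (by omega) n m F hm hn hU hS hM hno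
  push Not at hno
  obtain ⟨B, hB, hBg⟩ := hno
  set e₀ := s / (20 * (r + 1)) with he₀
  have he1 : 20 * (r + 1) * e₀ ≤ s := Nat.mul_div_le _ _
  clear_value e₀
  have hms : m = r + (r + 1) * s := by
    have : (r + 1) * (s + 1) = r + (r + 1) * s + 1 := by ring
    omega
  have hks : s ≤ (r + 1) * s := Nat.le_mul_of_pos_left _ (Nat.succ_pos r)
  set a := (2 * r + 2) * e₀ + r with ha
  have ha5 : 5 * a ≤ s := by
    have : 20 * (r + 1) * e₀ = 10 * ((2 * r + 2) * e₀) := by ring
    omega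
  have hae : a = (2 * r + 1) * e₀ + r + e₀ := by rw [ha]; ring
  have he2 : e₀ ≤ a := by rw [hae]; exact Nat.le_add_left _ _
  have e1 : m - (m - e₀) = e₀ := by omega
  have hR7 : x ^ (r + 1) ≤ 7 / 5 := by
    have := Real.exp_neg_one_lt_d9
    linarith only [hR, this]
  have hmR : (m:ℝ) = r + (r + 1) * s := by rw [hms]; push_cast; ring
  have hrp : (0:ℝ) < r := Nat.cast_pos.mpr hr
  refine sparse_case (ℓ := (2 * r + 1) * e₀ + r) (g := m - e₀) hr (by omega) hm hU hS hM hmn
    (by omega) (by omega) (by omega) (by rw [e1]) ?_ ?_ ?_ hB hBg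
  · have e2 : m - e₀ - ((2 * r + 1) * e₀ + r) = m - a := by omega
    rw [e2]
    have a1 : (m.choose r : ℝ) ≤ (1 + 1 / 4 / r) ^ r * (m - a).choose r := by
      clear * - m a r hr s₀ s n F₀ hm F e₀ he₀ hms hks ha5 hae e1 hmR
      refine choose_ratio (by have : (0:ℝ) ≤ 1 / 4 / r := by positivity
                              linarith only [this]) (Nat.sub_le _ _) _ (by omega) ?_
      rw [Nat.cast_sub (by omega), hmR]
      have b1 : (5:ℝ) * a ≤ s := by exact_mod_cast ha5
      have b2 : (1 + 1 / 4 / r) * ((r:ℝ) + (r + 1) * s - a + 1 - r)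
          = ((r + 1) * s - a + 1) + ((r + 1) * s - a + 1) / (4 * r) := by field_simp; ring
      rw [b2]
      have b3 : (a:ℝ) ≤ ((r + 1) * s - a + 1) / (4 * r) := by
        rw [le_div_iff₀ (by positivity)]
        have := mul_le_mul_of_nonneg_left b1 (show (0:ℝ) ≤ r + 1 by positivity)
        have : (0:ℝ) ≤ a := Nat.cast_nonneg _
        nlinarith
      linarith only [b3]
    have a2 : (1 + 1 / 4 / r : ℝ) ^ r ≤ 4 / 3 := by
      clear * - r hr x
      have b1 : (1 + 1 / 4 / r : ℝ) ^ r ≤ Real.exp (1 / 4 / r) ^ r :=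
        pow_le_pow_left₀ (by positivity) (by linarith only [Real.add_one_le_exp (1 / 4 / (r:ℝ))]) _
      rw [← Real.exp_nat_mul, show (r:ℝ) * (1 / 4 / r) = 1 / 4 by field_simp] at b1
      have b2 := Real.exp_bound_div_one_sub_of_interval (x := 1 / 4) (by norm_num) (by norm_num)
      linarith only [b1, b2]
    have a3 := mul_le_mul_of_nonneg_right a2 (Nat.cast_nonneg (α := ℝ) ((m - a).choose r))
    have : (3:ℝ) * m.choose r ≤ 4 * (m - a).choose r := by linarith only [a1, a3]
    exact_mod_cast this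
  · have a1 := choose_ratio hx hmn (r + 1) (by omega) (by
      push_cast; rw [hmR]; linarith only [hn])
    have a3 := mul_le_mul_of_nonneg_right hR7 (Nat.cast_nonneg (α := ℝ) (m.choose (r + 1)))
    have : (5:ℝ) * n.choose (r + 1) ≤ 7 * m.choose (r + 1) := by linarith only [a1, a3]
    exact_mod_cast this
  · have a1 := choose_ratio hx hmn r (by omega) (by rw [hmR]; linarith only [hx, hn])
    have a2 : x ^ r ≤ 7 / 5 := (pow_le_pow_right₀ hx (Nat.le_succ r)).trans hR7
    have a3 := mul_le_mul_of_nonneg_right a2 (Nat.cast_nonneg (α := ℝ) (m.choose r))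
    have : (5:ℝ) * n.choose r ≤ 7 * m.choose r := by linarith only [a1, a3]
    exact_mod_cast this

end Pool.Agent.Work.EMC
end

-- merged part: Pool.Agent.Work.MP_9079fe_co.KCover
section
/-! Families close to the cover. -/

namespace Pool.Agent.Work.EMC
open Finset

private lemma kcover_choose (r N a : ℕ) : ∀ d, a + d ≤ N + 1 →
    (a + d).choose (r + 1) ≤ a.choose (r + 1) + d * N.choose r := by
  intro d
  induction d with
  | zero => intro _; simp
  | succ d ih =>
    intro h
    have h1 := ih (by omega)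
    have h2 : (a + d).choose r ≤ N.choose r := Nat.choose_le_choose r (by omega)
    have h3 : (a + (d + 1)).choose (r + 1) = (a + d).choose r + (a + d).choose (r + 1) :=
      Nat.choose_succ_succ' (a + d) r
    rw [h3, add_mul]
    omega

private lemma kcover_card (k : ℕ) (Ω Z : Finset ℕ) (hZ : Z ⊆ Ω) :
    ((powersetCard k Ω).filter fun A => ¬ Disjoint A Z).card + (Ω.card - Z.card).choose k
      = Ω.card.choose k := by
  have h1 : (powersetCard k Ω).filter (fun A => Disjoint A Z) = powersetCard k (Ω \ Z) := by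
    ext A
    simp only [mem_filter, mem_powersetCard, subset_sdiff]
    tauto
  have h2 := card_filter_add_card_filter_not (s := powersetCard k Ω) fun A => Disjoint A Z
  rw [h1, card_powersetCard, card_powersetCard, card_sdiff_of_subset hZ] at h2
  omega

private lemma kcover_sum (k : ℕ) (G : Finset (Finset ℕ)) (hG : ∀ A ∈ G, A.card = k)
    (B : Finset ℕ) : ∑ v ∈ B, (G.filter fun A => v ∈ A).card ≤ k * G.card := by
  calc ∑ v ∈ B, (G.filter fun A => v ∈ A).card
      = ∑ A ∈ G, (B.filter fun v => v ∈ A).card := by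
        simp only [card_filter]
        exact sum_comm
    _ ≤ ∑ _A ∈ G, k := sum_le_sum fun A hA => by
        rw [← hG A hA]
        exact card_le_card fun v hv => (mem_filter.1 hv).2
    _ = k * G.card := by simp [mul_comm]

theorem near_cover (r : ℕ) (hr : 0 < r) :
    ∃ θ : ℝ, 0 < θ ∧ ∃ s₀ : ℕ, ∀ s ≥ s₀, ∀ (n : ℕ) (F : Finset (Finset ℕ)) (Z : Finset ℕ),
      (r + 1 + 1 / 4 : ℝ) * s ≤ n → n ≤ (r + 2) * s → Unif n (r + 1) F → Mat F s →
      (Z.card:ℝ) ≤ (1 + θ) * s → (∀ A ∈ F, ¬ Disjoint A Z) →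
      F.card ≤ n.choose (r + 1) - (n - s).choose (r + 1) := by
  obtain ⟨c, hc⟩ := cov_lemma r hr
  set L : ℝ := (8 * (r + 2) : ℝ) ^ r with hL
  have hL0 : 0 < L := by positivity
  refine ⟨1 / ((c + 1) * (r + 1) * L), by positivity, 8 * r + 8, ?_⟩
  intro s hs n F Z hn1 hn2 hU hM hZ hcov
  set θ : ℝ := 1 / ((c + 1) * (r + 1) * L) with hθ
  have hθ0 : 0 < θ := by positivity
  have hn3 : 4 * ((r + 1) * s) + s ≤ 4 * n := by
    have : (4 * ((r + 1) * s) + s : ℝ) ≤ 4 * n := by linarith only [hn1]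
    exact_mod_cast this
  have hrs : (r + 1) * s = r * s + s := by ring
  have hrs' : s ≤ r * s := Nat.le_mul_of_pos_left s hr
  set Y := Z ∩ range n with hY
  have hYr : Y ⊆ range n := inter_subset_right
  set H := (powersetCard (r + 1) (range n)).filter fun A => ¬ Disjoint A Y with hH
  have hFP : F ⊆ powersetCard (r + 1) (range n) := fun A hA => mem_powersetCard.2 (hU A hA)
  have hFH : F ⊆ H := by
    intro A hA
    refine mem_filter.2 ⟨hFP hA, fun hd => hcov A hA ?_⟩
    rw [disjoint_left] at hd ⊢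
    exact fun v hv hvZ => hd hv (mem_inter.2 ⟨hvZ, (hU A hA).1 hv⟩)
  have hHc := kcover_card (r + 1) (range n) Y hYr
  rw [card_range, ← hH] at hHc
  have hFc := card_le_card hFH
  by_cases hz : Y.card ≤ s
  · have := Nat.choose_le_choose (r + 1) (show n - s ≤ n - Y.card by omega)
    omega
  by_contra hcon
  have hYn : Y.card ≤ n := by simpa using card_le_card hYr
  have h1 := kcover_choose r n (n - Y.card) (Y.card - s) (by omega)
  rw [show n - Y.card + (Y.card - s) = n - s by omega] at h1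
  have h2 : (n - s).choose (r + 1) ≤ n.choose (r + 1) := Nat.choose_le_choose _ (by omega)
  have h3 : (H \ F).card ≤ (Y.card - s) * n.choose r := by
    rw [card_sdiff_of_subset hFH]
    omega
  have h4 : ((Y.card - s : ℕ) : ℝ) ≤ θ * s := by
    have : (Y.card : ℝ) ≤ Z.card := by exact_mod_cast card_le_card inter_subset_left
    rw [Nat.cast_sub (by omega)]
    linarith only [hZ, this]
  set a := n - 1 - (r + 1) * s with ha
  have ha1 : s ≤ 4 * (a + 1) := by omega
  have hra : r ≤ a := by omega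
  have h5 : (n.choose r : ℝ) ≤ L * a.choose r := by
    clear * - a n r hr s hs F Z hrs hrs' hra ha1 hn2
    refine choose_ratio (by linarith only [(Nat.cast_nonneg r : (0:ℝ) ≤ r)]) (by omega) r hra ?_
    have e1 : (s : ℝ) ≤ 8 * (a + 1 - r) := by
      have : s + 8 * r ≤ 8 * (a + 1) := by omega
      have : (s + 8 * r : ℝ) ≤ 8 * (a + 1) := by exact_mod_cast this
      linarith only [this]
    have e2 : (n : ℝ) ≤ (r + 2) * s := by exact_mod_cast hn2
    have e3 : (1 : ℝ) ≤ r := by exact_mod_cast hr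
    calc (n + 1 - r : ℝ) ≤ (r + 2) * s := by linarith only [e2, e3]
      _ ≤ (r + 2) * (8 * (a + 1 - r)) := mul_le_mul_of_nonneg_left e1 (by positivity)
      _ = 8 * (r + 2) * (a + 1 - r) := by ring
  have h6 : (0 : ℝ) < a.choose r := by exact_mod_cast Nat.choose_pos hra
  set B := Y.filter fun v =>
    a.choose r ≤ ((powersetCard (r + 1) (range n) \ F).filter fun A => v ∈ A).card with hB
  have hBY : B ⊆ Y := filter_subset _ _
  have h7 : B.card * a.choose r ≤ (r + 1) * (H \ F).card := by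
    refine le_trans ?_ (kcover_sum (r + 1) (H \ F) (fun A hA =>
      (mem_powersetCard.1 (mem_filter.1 (mem_sdiff.1 hA).1).1).2) B)
    rw [← smul_eq_mul, ← sum_const]
    refine sum_le_sum fun v hv => (mem_filter.1 hv).2.trans (card_le_card fun A hA => ?_)
    obtain ⟨hA1, hA2⟩ := mem_filter.1 hA
    obtain ⟨hA3, hA4⟩ := mem_sdiff.1 hA1
    exact mem_filter.2 ⟨mem_sdiff.2 ⟨mem_filter.2 ⟨hA3, fun hd =>
      disjoint_left.1 hd hA2 (hBY hv)⟩, hA4⟩, hA2⟩
  have h8 : (B.card : ℝ) ≤ (r + 1) * (θ * s) * L := by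
    clear * - B a r H F h7 Y s n h3 θ L h4 h5 c hr h6
    have e1 : (B.card * a.choose r : ℝ) ≤ (r + 1) * (H \ F).card := by exact_mod_cast h7
    have e2 : ((H \ F).card : ℝ) ≤ ((Y.card - s : ℕ) : ℝ) * n.choose r := by exact_mod_cast h3
    have e3 : ((Y.card - s : ℕ) : ℝ) * n.choose r ≤ (θ * s) * (L * a.choose r) :=
      mul_le_mul h4 h5 (by positivity) (by positivity)
    refine le_of_mul_le_mul_right ?_ h6
    calc (B.card * a.choose r : ℝ) ≤ (r + 1) * (H \ F).card := e1
      _ ≤ (r + 1) * ((θ * s) * (L * a.choose r)) :=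
          mul_le_mul_of_nonneg_left (e2.trans e3) (by positivity)
      _ = _ := by ring
  have h9 : c * B.card ≤ s := by
    clear * - c B s r θ L h8 hθ hr hL0 n F Z hrs
    have e1 : ((c + 1) * B.card : ℝ) ≤ s := by
      calc ((c + 1) * B.card : ℝ) ≤ (c + 1) * ((r + 1) * (θ * s) * L) :=
            mul_le_mul_of_nonneg_left h8 (by positivity)
        _ = s := by rw [hθ]; field_simp
    have e2 : (c + 1) * B.card ≤ s := by exact_mod_cast e1
    have e3 : (c + 1) * B.card = c * B.card + B.card := by ring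
    omega
  obtain ⟨D, hD1, hD2⟩ := exists_subset_card_eq (s := Y \ B) (n := s - B.card) (by
    rw [card_sdiff_of_subset hBY]; omega)
  have := hc s (range n) D F hFP hM (hD1.trans (sdiff_subset.trans hYr)) (by omega) ?_ ?_
  · rw [card_range] at this
    exact hcon this
  · intro v hv
    obtain ⟨hv1, hv2⟩ := mem_sdiff.1 (hD1 hv)
    rw [card_range, ← ha]
    by_contra hlt
    exact hv2 (mem_filter.2 ⟨hv1, not_lt.1 hlt⟩)
  · rw [card_range]
    have : c * (s - D.card) ≤ c * B.card := Nat.mul_le_mul_left c (by omega)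
    omega

end Pool.Agent.Work.EMC
end
end

-- merged part: Pool.Agent.Work.MP_9079fe_co.Final
section
-- merged part: Pool.Agent.Work.MP_9079fe_co.KClique
section
/-! Families close to the clique. -/

namespace Pool.Agent.Work.EMC
open Finset

theorem sparse_case' {F : Finset (Finset ℕ)} {r s n m ℓ g : ℕ} (hr : 0 < r) (hs0 : 0 < s)
    (hm : m + 1 = (r + 1) * (s + 1)) (hU : Unif n (r + 1) F)
    (hS : Shifted F) (hM : Mat F s) (hmn : m ≤ n) (hℓg : ℓ ≤ g) (hgm : g ≤ m) (hs : m - g ≤ s)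
    (hℓ : (2 * r + 1) * (m - g) + r ≤ ℓ) (c1 : 9 * m.choose r ≤ 10 * (g - ℓ).choose r)
    (c2 : 5 * n.choose (r + 1) ≤ 8 * m.choose (r + 1)) (c3 : 5 * n.choose r ≤ 8 * m.choose r)
    {B : Finset ℕ} (hB : B ∈ F) (hBg : ∀ x ∈ B, g ≤ x) : F.card ≤ m.choose (r + 1) := by
  have hU' : ∀ A ∈ F, A.card = r + 1 := fun A hA => (hU A hA).2
  have h1 := link_mat hm hS hM hℓg hgm hs hℓ hB (hU' B hB) hBg
  have h2 := nonedges F (ℓ := ℓ) (g := g) (m := m) hU'
  have h3 := link_small hS (r := r) (ℓ := ℓ) (g := g) (m := m)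
  set b := (badSet F r ℓ g m).card with hb
  have hms : m = r + (r + 1) * s := by
    have : (r + 1) * (s + 1) = r + (r + 1) * s + 1 := by ring
    omega
  have hrm : r ≤ m := by omega
  have hcp : 0 < m.choose r := Nat.choose_pos hrm
  have h4 := card_le_of_mat hr s (range m) _ b (by rw [card_range]; linarith only [hr, hs0, hm])
    (filter_subset _ _) h1
  rw [card_range] at h4
  change (link F r (m + b) m).card * s ≤ _ at h4
  have h5 : m.choose (r + 1) = s * m.choose r := by
    have := Nat.choose_succ_right_eq m r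
    rw [show m - r = (r + 1) * s by omega] at this
    refine Nat.eq_of_mul_eq_mul_right (Nat.succ_pos r) ?_
    rw [this]; simp only [Nat.succ_eq_add_one]; ring
  have h6 := inside_le hU' m n hmn
  have h7 : inside F n = F := filter_true_of_mem fun A hA => (hU A hA).1
  rw [h7] at h6
  have h8 := sum_choose_Ico r m n hmn
  have term : ∀ v ∈ Ico m n, 50 * s * (link F r v v).card ≤
      (if v < m + b then 8 * s * m.choose r else 0) + 50 * b * v.choose r := by
    intro v hv
    obtain ⟨v1, v2⟩ := mem_Ico.mp hv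
    have d1 := link_density hS (v := v) hrm v v1 le_rfl
    split_ifs with h
    · have d2 := card_le_card (link_anti hS (r := r) (N := m) le_rfl v1)
      have d3 := h3 (card_pos.mp (by omega))
      have d4 : v.choose r ≤ n.choose r := Nat.choose_le_choose r v2.le
      have d5 : 50 * (link F r v v).card ≤ 8 * m.choose r := by
        refine Nat.le_of_mul_le_mul_right ?_ hcp
        calc _ = 50 * ((link F r v v).card * m.choose r) := by ring
          _ ≤ 50 * ((link F r m m).card * n.choose r) :=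
            Nat.mul_le_mul_left _ (d1.trans (Nat.mul_le_mul d2 d4))
          _ = (10 * (link F r m m).card) * (5 * n.choose r) := by ring
          _ ≤ m.choose r * (8 * m.choose r) := Nat.mul_le_mul (by omega) c3
          _ = _ := by ring
      have := Nat.mul_le_mul_left s d5
      linarith only [this, Nat.zero_le (50 * b * v.choose r)]
    · have d2 := card_le_card (link_anti hS (r := r) (N := m) (v := m + b) (v' := v)
        (by omega) (by omega))
      have d5 : s * (link F r v v).card ≤ b * v.choose r := by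
        refine Nat.le_of_mul_le_mul_right ?_ hcp
        calc _ = s * ((link F r v v).card * m.choose r) := by ring
          _ ≤ s * ((link F r (m + b) m).card * v.choose r) :=
            Nat.mul_le_mul_left _ (d1.trans (Nat.mul_le_mul_right _ d2))
          _ = ((link F r (m + b) m).card * s) * v.choose r := by ring
          _ ≤ (b * m.choose r) * v.choose r := Nat.mul_le_mul_right _ h4
          _ = _ := by ring
      linarith only [d5]
  have h9 := sum_le_sum term
  rw [sum_add_distrib, ← mul_sum, ← mul_sum, ← sum_filter, sum_const, smul_eq_mul] at h9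
  have h10 : ((Ico m n).filter fun v => v < m + b).card ≤ b := by
    refine le_trans (card_le_card (t := Ico m (m + b)) fun v hv => ?_) (by simp)
    exact mem_Ico.mpr ⟨(mem_Ico.mp (mem_filter.mp hv).1).1, (mem_filter.mp hv).2⟩
  have h11 := Nat.mul_le_mul_right (8 * s * m.choose r) h10
  set S1 := ∑ v ∈ Ico m n, (link F r v v).card
  set S2 := ∑ v ∈ Ico m n, v.choose r
  have h12 : 5 * S2 ≤ 3 * (s * m.choose r) := by omega
  have h13 : S1 ≤ b * (g - ℓ).choose r := by
    refine Nat.le_of_mul_le_mul_left ?_ (show 0 < 50 * s by omega)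
    have a1 := Nat.mul_le_mul_left (10 * b) h12
    have a2 := Nat.mul_le_mul_left (5 * s * b) c1
    linarith only [h11, h9, a1, a2, mul_nonneg_of_nonpos_of_nonpos (Mathlib.Tactic.Linarith.sub_nonpos_of_le (Mathlib.Tactic.Linarith.natCast_nonneg ℤ s)) (Mathlib.Tactic.Linarith.sub_nonpos_of_le (Mathlib.Tactic.Linarith.natCast_nonneg ℤ S1))]
  omega

private lemma kcl_star {F : Finset (Finset ℕ)} {r n : ℕ} (hU : Unif n (r + 1) F) (y : ℕ) :
    (F.filter fun A => y ∈ A).card ≤ n.choose r := by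
  have h := card_le_card_of_injOn (s := F.filter fun A => y ∈ A) (t := powersetCard r (range n))
    (fun A => A.erase y) (fun A hA => by
      obtain ⟨h1, h2⟩ := mem_filter.mp hA
      refine mem_coe.mpr (mem_powersetCard.mpr ⟨(erase_subset _ _).trans (hU A h1).1, ?_⟩)
      rw [card_erase_of_mem h2, (hU A h1).2, Nat.add_sub_cancel]) (fun A hA B hB h => by
      have h' : A.erase y = B.erase y := h
      rw [← insert_erase (mem_filter.mp hA).2, h', insert_erase (mem_filter.mp hB).2])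
  rwa [card_powersetCard, card_range] at h

private lemma kcl_count {F : Finset (Finset ℕ)} {Y : Finset ℕ} {r n N m e P : ℕ}
    (hU : Unif n (r + 1) F) (hno : ∀ B ∈ F, ¬ ∀ x ∈ B, m - e ≤ x) (he : e ≤ m) (hmN : m ≤ N)
    (hN : N ≤ P) (hn : n ≤ P) (h : ∀ A ∈ F, A ⊆ range N ∨ ¬ Disjoint A Y) :
    F.card + e.choose (r + 1) ≤ m.choose (r + 1) + (N - m + Y.card) * P.choose r := by
  have h1 : F ⊆ inside F N ∪ Y.biUnion fun y => F.filter fun A => y ∈ A := by
    intro A hA
    rcases h A hA with h2 | h2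
    · exact mem_union_left _ (mem_filter.mpr ⟨hA, h2⟩)
    · obtain ⟨y, h3, h4⟩ := not_disjoint_iff.mp h2
      exact mem_union_right _ (mem_biUnion.mpr ⟨y, h4, mem_filter.mpr ⟨hA, h3⟩⟩)
  have h2 := (card_le_card h1).trans (card_union_le _ _)
  have h3 := card_biUnion_le_card_mul Y (fun y => F.filter fun A => y ∈ A) (P.choose r)
    fun y _ => (kcl_star hU y).trans (Nat.choose_le_choose r hn)
  have h4 := inside_add_le (N := N) (fun A hA => (hU A hA).2) hno
  have h5 : e.choose (r + 1) ≤ (N - (m - e)).choose (r + 1) := Nat.choose_le_choose _ (by omega)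
  have h6 := sum_choose_Ico r m N hmN
  have h7 := sum_le_card_nsmul (Ico m N) (fun v => v.choose r) (P.choose r)
    fun v hv => Nat.choose_le_choose r ((mem_Ico.mp hv).2.le.trans hN)
  rw [Nat.card_Ico, smul_eq_mul] at h7
  rw [add_mul]
  omega

theorem near_clique (r : ℕ) (hr : 0 < r) :
    ∃ θ : ℝ, 0 < θ ∧ ∃ s₀ : ℕ, ∀ s ≥ s₀, ∀ (n N : ℕ) (x : ℝ) (F : Finset (Finset ℕ))
      (Y : Finset ℕ), 1 ≤ x → x ^ (r + 1) ≤ 8 / 5 → (r + 1) * (s + 1) ≤ n →
      (n:ℝ) - r ≤ x * ((r + 1) * s) → Unif n (r + 1) F → Shifted F → Mat F s →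
      (N:ℝ) ≤ (r + 1 + θ) * s → (Y.card:ℝ) ≤ θ * s →
      (∀ A ∈ F, A ⊆ range N ∨ ¬ Disjoint A Y) →
      F.card ≤ ((r + 1) * (s + 1) - 1).choose (r + 1) := by
  have hrp : (0:ℝ) < r := Nat.cast_pos.mpr hr
  obtain ⟨y, hy⟩ : ∃ y : ℝ, y = 176 * (r + 1) ^ 2 := ⟨_, rfl⟩
  have hy1 : 1 ≤ y := by rw [hy]; linarith only [hrp, mul_nonneg_of_nonpos_of_nonpos (Mathlib.Tactic.Linarith.sub_nonpos_of_le (Mathlib.Tactic.Linarith.natCast_nonneg ℝ r)) (Mathlib.Tactic.Linarith.sub_nonpos_of_le (Mathlib.Tactic.Linarith.natCast_nonneg ℝ r))]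
  have hΛ : 1 ≤ y ^ r := one_le_pow₀ hy1
  have hyp : 0 < y ^ r * y := by positivity
  refine ⟨1 / (y ^ r * y), by positivity, 88 * (r + 1) ^ 2,
    fun s hs n N x F Y hx hR hn0 hn hU hS hM hN hY hF => ?_⟩
  have hθ : 1 / (y ^ r * y) * (y ^ r * y) = 1 := one_div_mul_cancel hyp.ne'
  have hθ1 : 1 / (y ^ r * y) ≤ 1 := (div_le_one hyp).mpr (one_le_mul_of_one_le_of_one_le hΛ hy1)
  have hθ0 : 0 < 1 / (y ^ r * y) := by positivity
  generalize 1 / (y ^ r * y) = θ at *
  have hexp : (r + 1) * (s + 1) = r + (r + 1) * s + 1 := by ring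
  obtain ⟨m, hms⟩ : ∃ m, m = r + (r + 1) * s := ⟨_, rfl⟩
  have hm : m + 1 = (r + 1) * (s + 1) := by omega
  rw [show (r + 1) * (s + 1) - 1 = m by omega]
  have hmn : m ≤ n := by omega
  obtain ⟨e₀, he₀⟩ : ∃ e₀, e₀ = s / (44 * (r + 1)) := ⟨_, rfl⟩
  have he1 : 44 * (r + 1) * e₀ ≤ s := he₀ ▸ Nat.mul_div_le _ _
  have he4 : s < 44 * (r + 1) * (e₀ + 1) := he₀ ▸ Nat.lt_mul_div_succ _ (by omega)
  have he3 : 2 * (r + 1) ≤ e₀ := by
    rw [he₀, Nat.le_div_iff_mul_le (by omega)]
    exact le_trans (le_of_eq (by ring)) hs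
  have hks : s ≤ (r + 1) * s := Nat.le_mul_of_pos_left _ (Nat.succ_pos r)
  have hsq : r + 1 ≤ (r + 1) ^ 2 := Nat.le_self_pow two_ne_zero _
  have hmR : (m:ℝ) = r + (r + 1) * s := by rw [hms]; push_cast; ring
  obtain ⟨a, ha⟩ : ∃ a, a = (2 * r + 1) * e₀ + r + e₀ := ⟨_, rfl⟩
  have ha5 : 11 * a ≤ s := by
    have : 44 * (r + 1) * e₀ = 22 * ((2 * r + 1) * e₀ + e₀) := by ring
    omega
  have hs0 : (0:ℝ) ≤ s := Nat.cast_nonneg _
  by_cases hno : ∀ B ∈ F, ¬ ∀ y ∈ B, m - e₀ ≤ y
  · have hx2 : x ≤ 2 := by linarith only [hR, hx, hr, hexp, hms, he₀, ha, le_self_pow₀ hx (show r + 1 ≠ 0 by omega)]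
    have hks0 : (0:ℝ) ≤ (r + 1) * s := by positivity
    obtain ⟨P, hP⟩ : ∃ P, P = r + 2 * ((r + 1) * s) := ⟨_, rfl⟩
    have hPR : (P:ℝ) = r + 2 * ((r + 1) * s) := by rw [hP]; push_cast; ring
    have hθs : θ * s ≤ s := mul_le_of_le_one_left hs0 hθ1
    have hθs0 : 0 ≤ θ * s := by positivity
    have hrs : (0:ℝ) ≤ r * s := by positivity
    have hNP : N ≤ P := by
      have : (N:ℝ) ≤ P := by rw [hPR]; linarith only [hrp, hN, hθs, hrs]
      exact_mod_cast this
    have hnP : n ≤ P := by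
      have : (n:ℝ) ≤ P := by rw [hPR]; linarith only [hn, hx2, hks0, mul_nonneg_of_nonpos_of_nonpos (Mathlib.Tactic.Linarith.sub_nonpos_of_le hx2) (Mathlib.Tactic.Linarith.sub_nonpos_of_le hks0)]
      exact_mod_cast this
    have h1 := kcl_count (N := max N m) (P := P) (Y := Y) hU hno (by omega) (le_max_right _ _)
      (max_le hNP (by omega)) hnP fun A hA => (hF A hA).imp_left fun h =>
        h.trans (range_subset_range.mpr (le_max_left _ _))
    have h2 : ((max N m - m : ℕ) : ℝ) ≤ θ * s := by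
      rcases le_total N m with h | h
      · rw [max_eq_right h, Nat.sub_self, Nat.cast_zero]
        exact hθs0
      · rw [max_eq_left h, Nat.cast_sub h, hmR]
        linarith only [hrp, hN]
    have b1 : (s:ℝ) + 1 ≤ 44 * (r + 1) * (e₀ + 1) := by exact_mod_cast he4
    have b2 : 2 * ((r:ℝ) + 1) ≤ e₀ := by exact_mod_cast he3
    have b3 : (s:ℝ) + 1 ≤ 88 * (r + 1) * (e₀ - r) := by
      have := mul_le_mul_of_nonneg_left (show (e₀:ℝ) + 1 ≤ 2 * (e₀ - r) by linarith only [b2])
        (show (0:ℝ) ≤ 44 * (r + 1) by positivity)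
      linarith only [b1, this]
    have b4 : 2 * (r + 1) * ((s:ℝ) + 1) ≤ y * (e₀ - r) := by
      have := mul_le_mul_of_nonneg_left b3 (show (0:ℝ) ≤ 2 * (r + 1) by positivity)
      rw [hy]
      linarith only [this]
    have h3 : (P.choose r : ℝ) ≤ y ^ r * e₀.choose r := by
      clear * - e₀ P y hy1 r hr s hs n N F Y hexp m hms he₀ hks hsq a ha ha5 hP he3 hPR hrp b4
      refine choose_ratio hy1 (by omega) r (by omega) ?_
      rw [hPR]
      linarith only [hrp, hy1, b4]
    have h4 : (e₀.choose (r + 1) : ℝ) * (r + 1) = e₀.choose r * (e₀ - r) := by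
      have := Nat.choose_succ_right_eq e₀ r
      rw [← Nat.cast_sub (by omega)]; exact_mod_cast this
    have h5 : 2 * (θ * s) * y ^ r * (r + 1) ≤ e₀ - r := by
      have c1 := mul_le_mul_of_nonneg_left b4 (show 0 ≤ θ * y ^ r by positivity)
      have c2 : θ * y ^ r * (y * (e₀ - r)) = θ * (y ^ r * y) * (e₀ - r) := by ring
      have c3 : 0 ≤ θ * y ^ r * (2 * (r + 1)) := by positivity
      rw [c2, hθ] at c1
      linarith only [c1, c3]
    have h6 : ((max N m - m + Y.card : ℕ) : ℝ) * P.choose r ≤ e₀.choose (r + 1) := by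
      clear * - r N m Y P e₀ θ s y hY h2 h3 hθ0 hr h5 h4
      refine le_of_mul_le_mul_right ?_ (show (0:ℝ) < r + 1 by positivity)
      have c0 : (0:ℝ) ≤ e₀.choose r := Nat.cast_nonneg _
      have c1 : ((max N m - m + Y.card : ℕ) : ℝ) * P.choose r ≤ 2 * (θ * s) * (y ^ r * e₀.choose r) :=
        mul_le_mul (by rw [Nat.cast_add]; linarith only [hY, h2]) h3 (Nat.cast_nonneg _) (by positivity)
      have c2 := mul_le_mul_of_nonneg_right c1 (show (0:ℝ) ≤ r + 1 by positivity)
      have c3 := mul_le_mul_of_nonneg_left h5 c0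
      rw [h4]
      linarith only [c2, c3]
    have h7 : (max N m - m + Y.card) * P.choose r ≤ e₀.choose (r + 1) := by exact_mod_cast h6
    omega
  push Not at hno
  obtain ⟨B, hB, hBg⟩ := hno
  have e1 : m - (m - e₀) = e₀ := by clear * - m e₀ r hr s hs n hexp hms he₀ hks hsq a ha ha5; omega
  refine sparse_case' (ℓ := (2 * r + 1) * e₀ + r) (g := m - e₀) hr (by omega) hm hU hS hM hmn
    (by omega) (by omega) (by omega) (by rw [e1]) ?_ ?_ ?_ hB hBg
  · have e2 : m - e₀ - ((2 * r + 1) * e₀ + r) = m - a := by clear * - m e₀ r a hr s hs n hexp hms he₀ hks hsq ha ha5 e1 hmR x; omega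
    rw [e2]
    have a1 : (m.choose r : ℝ) ≤ (1 + 1 / 10 / r) ^ r * (m - a).choose r := by
      clear * - m a r hr s hs n hexp hms e₀ he₀ hks hsq ha ha5 e1 hmR
      refine choose_ratio (by have : (0:ℝ) ≤ 1 / 10 / r := by positivity
                              linarith only [this]) (Nat.sub_le _ _) _ (by omega) ?_
      rw [Nat.cast_sub (by omega), hmR]
      have b1 : (11:ℝ) * a ≤ s := by exact_mod_cast ha5
      have b2 : (1 + 1 / 10 / r) * ((r:ℝ) + (r + 1) * s - a + 1 - r)
          = ((r + 1) * s - a + 1) + ((r + 1) * s - a + 1) / (10 * r) := by field_simp; ring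
      rw [b2]
      have b3 : (a:ℝ) ≤ ((r + 1) * s - a + 1) / (10 * r) := by
        rw [le_div_iff₀ (by positivity)]
        have := mul_le_mul_of_nonneg_left b1 (show (0:ℝ) ≤ r + 1 by positivity)
        have : (0:ℝ) ≤ a := Nat.cast_nonneg _
        nlinarith
      linarith only [b3]
    have a2 : (1 + 1 / 10 / r : ℝ) ^ r ≤ 10 / 9 := by
      clear * - r hr x
      have b1 : (1 + 1 / 10 / r : ℝ) ^ r ≤ Real.exp (1 / 10 / r) ^ r :=
        pow_le_pow_left₀ (by positivity) (by linarith only [Real.add_one_le_exp (1 / 10 / (r:ℝ))]) _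
      rw [← Real.exp_nat_mul, show (r:ℝ) * (1 / 10 / r) = 1 / 10 by field_simp] at b1
      have b2 := Real.exp_bound_div_one_sub_of_interval (x := 1 / 10) (by norm_num) (by norm_num)
      linarith only [b1, b2]
    have a3 := mul_le_mul_of_nonneg_right a2 (Nat.cast_nonneg (α := ℝ) ((m - a).choose r))
    have : (9:ℝ) * m.choose r ≤ 10 * (m - a).choose r := by linarith only [a1, a3]
    exact_mod_cast this
  · have a1 := choose_ratio hx hmn (r + 1) (by omega) (by
      push_cast; rw [hmR]; linarith only [hn])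
    have a3 := mul_le_mul_of_nonneg_right hR (Nat.cast_nonneg (α := ℝ) (m.choose (r + 1)))
    have : (5:ℝ) * n.choose (r + 1) ≤ 8 * m.choose (r + 1) := by linarith only [a1, a3]
    exact_mod_cast this
  · have a1 := choose_ratio hx hmn r (by omega) (by rw [hmR]; linarith only [hx, hn])
    have a2 : x ^ r ≤ 8 / 5 := (pow_le_pow_right₀ hx (Nat.le_succ r)).trans hR
    have a3 := mul_le_mul_of_nonneg_right a2 (Nat.cast_nonneg (α := ℝ) (m.choose r))
    have : (5:ℝ) * n.choose r ≤ 8 * m.choose r := by linarith only [a1, a3]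
    exact_mod_cast this

end Pool.Agent.Work.EMC
end

-- merged part: Pool.Agent.Work.MP_9079fe_co.Final
section
/-! Transfer to families on `Fin n` and the two extremal families. -/

namespace Pool.Agent.Work.EMC
open Finset

/-- Sizes of `k`-uniform families on `Fin n` with matching number at most `s`. -/
def sizes (n k s : ℕ) : Set ℕ :=
  {m : ℕ | ∃ F : Finset (Finset (Fin n)), (∀ A ∈ F, A.card = k) ∧
    (∀ M ⊆ F, (M : Set (Finset (Fin n))).PairwiseDisjoint id → M.card ≤ s) ∧ F.card = m}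

lemma exists_nat_family {n k s m : ℕ} (h : m ∈ sizes n k s) :
    ∃ F : Finset (Finset ℕ), Unif n k F ∧ Mat F s ∧ F.card = m := by
  obtain ⟨F, h1, h2, h3⟩ := h
  have inj : Function.Injective fun A : Finset (Fin n) => A.map Fin.valEmbedding :=
    map_injective _
  refine ⟨F.image fun A => A.map Fin.valEmbedding, ?_, ?_, by rw [card_image_of_injective _ inj, h3]⟩
  · intro B hB
    obtain ⟨A, hA, rfl⟩ := mem_image.mp hB
    refine ⟨fun x hx => ?_, by rw [card_map, h1 A hA]⟩
    obtain ⟨y, _, rfl⟩ := mem_map.mp hx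
    exact mem_range.mpr y.2
  · intro M hM hd
    obtain ⟨M', hM', rfl⟩ := subset_image_iff.mp hM
    rw [card_image_of_injective _ inj]
    refine h2 M' hM' fun A hA B hB hAB => ?_
    exact (disjoint_map _).mp (hd (mem_image_of_mem _ hA) (mem_image_of_mem _ hB)
      fun h => hAB (inj h))

lemma clique_mem {n k s : ℕ} (hk : 0 < k) (hn : k * (s + 1) ≤ n) :
    (k * (s + 1) - 1).choose k ∈ sizes n k s := by
  obtain ⟨W, -, hW⟩ := exists_subset_card_eq (s := (univ : Finset (Fin n))) (n := k * (s + 1) - 1)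
    (by rw [card_univ, Fintype.card_fin]; omega)
  refine ⟨powersetCard k W, fun A hA => (mem_powersetCard.mp hA).2, fun M hM hd => ?_,
    by rw [card_powersetCard, hW]⟩
  have h1 : (M.biUnion id).card = k * M.card := by
    rw [card_biUnion hd, mul_comm, ← smul_eq_mul, ← sum_const]
    exact sum_congr rfl fun G hG => (mem_powersetCard.mp (hM hG)).2
  have h2 := card_le_card (s := M.biUnion id) (t := W)
    (biUnion_subset.mpr fun G hG => (mem_powersetCard.mp (hM hG)).1)
  rw [h1, hW] at h2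
  have h3 : 0 < k * (s + 1) := Nat.mul_pos hk (Nat.succ_pos s)
  have h4 : k * M.card < k * (s + 1) := by omega
  exact Nat.lt_succ_iff.mp (Nat.lt_of_mul_lt_mul_left h4)

lemma cover_mem {n k s : ℕ} (hn : s ≤ n) : n.choose k - (n - s).choose k ∈ sizes n k s := by
  obtain ⟨S, -, hS⟩ := exists_subset_card_eq (s := (univ : Finset (Fin n))) (n := s)
    (by rw [card_univ, Fintype.card_fin]; omega)
  refine ⟨powersetCard k univ \ powersetCard k Sᶜ,
    fun A hA => (mem_powersetCard.mp (mem_sdiff.mp hA).1).2, fun M hM hd => ?_, ?_⟩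
  · have hex : ∀ A ∈ M, ∃ x, x ∈ A ∧ x ∈ S := by
      intro A hA
      obtain ⟨h1, h2⟩ := mem_sdiff.mp (hM hA)
      by_contra hc
      push Not at hc
      exact h2 (mem_powersetCard.mpr ⟨fun x hx => mem_compl.mpr (hc x hx),
        (mem_powersetCard.mp h1).2⟩)
    choose f hf using hex
    rw [← hS]
    refine card_le_card_of_forall_subsingleton' (fun x A => x ∈ A) ?_ ?_
    · intro A hA; exact ⟨f A hA, (hf A hA).2, (hf A hA).1⟩
    · intro x _ A hA B hB
      by_contra hne
      exact disjoint_left.mp (hd hA.1 hB.1 hne) hA.2 hB.2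
  · rw [card_sdiff_of_subset (powersetCard_mono (subset_univ _)), card_powersetCard,
      card_powersetCard, card_compl, card_univ, Fintype.card_fin, hS]

theorem emc_range (k : ℕ) (δ : ℝ) (hk : 2 ≤ k) (hδ : 0 ≤ δ)
    (h : (1 + δ / k) ^ k < 1 + Real.exp (-1)) :
    ∃ s₀ : ℕ, ∀ n s : ℕ, s₀ ≤ s → k * (s + 1) ≤ n → (n : ℝ) ≤ (k + δ) * (s + 1) →
      IsGreatest (sizes n k s) (max (n.choose k - (n - s).choose k) ((k * (s + 1) - 1).choose k)) := by
  obtain ⟨r, rfl⟩ : ∃ r, k = r + 1 := ⟨k - 1, by omega⟩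
  have hkp : (0:ℝ) < ((r + 1 : ℕ) : ℝ) := by positivity
  obtain ⟨ε, hε, h'⟩ : ∃ ε : ℝ, 0 < ε ∧
      (1 + (δ + ε) / ((r + 1 : ℕ) : ℝ)) ^ (r + 1) < 1 + Real.exp (-1) := by
    have hc : Continuous fun ε : ℝ => (1 + (δ + ε) / ((r + 1 : ℕ) : ℝ)) ^ (r + 1) := by fun_prop
    have ho : ∀ᶠ ε in nhds (0:ℝ), (1 + (δ + ε) / ((r + 1 : ℕ) : ℝ)) ^ (r + 1) < 1 + Real.exp (-1) :=
      hc.continuousAt.eventually_lt continuousAt_const (by simpa using h)
    obtain ⟨ε, h1, h2⟩ := ((ho.filter_mono nhdsWithin_le_nhds).and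
      (self_mem_nhdsWithin (a := (0:ℝ)) (s := Set.Ioi 0))).exists
    exact ⟨ε, h2, h1⟩
  obtain ⟨s₀, hs₀⟩ := upper_nat r (by omega) (x := 1 + (δ + ε) / ((r + 1 : ℕ) : ℝ))
    (by have : 0 ≤ (δ + ε) / ((r + 1 : ℕ) : ℝ) := by positivity
        linarith only [this]) h'
  obtain ⟨s₁, hs₁⟩ := exists_nat_gt ((δ + 1) / ε)
  refine ⟨s₀ + s₁, fun n s hs hn1 hn2 => ?_⟩
  have hpos : 0 < (r + 1) * (s + 1) := by positivity
  have up : ∀ m ∈ sizes n (r + 1) s, m ≤ ((r + 1) * (s + 1) - 1).choose (r + 1) := by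
    intro m hm
    obtain ⟨F, h1, h2, h3⟩ := exists_nat_family hm
    rw [← h3]
    refine hs₀ s (by omega) n _ F (by omega) (by omega) ?_ h1 h2
    have a1 : (s₁:ℝ) ≤ s := Nat.cast_le.mpr (by omega)
    rw [div_lt_iff₀ hε] at hs₁
    have a2 := mul_le_mul_of_nonneg_right a1 hε.le
    have a3 : (1 + (δ + ε) / ((r + 1 : ℕ) : ℝ)) * ((r + 1) * s) = (r + 1) * s + (δ + ε) * s := by
      push_cast; field_simp
    rw [a3]
    push_cast at hn2
    linarith only [hs₁, a2, hn2]
  have hsn : s ≤ n := by linarith only [hk, hn1, mul_nonneg_of_nonpos_of_nonpos (Mathlib.Tactic.Linarith.sub_nonpos_of_le (Mathlib.Tactic.Linarith.natCast_nonneg ℤ r)) (Mathlib.Tactic.Linarith.sub_nonpos_of_le (Mathlib.Tactic.Linarith.natCast_nonneg ℤ s))]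
  rw [max_eq_right (up _ (cover_mem hsn))]
  exact ⟨clique_mem (Nat.succ_pos r) hn1, up⟩

end Pool.Agent.Work.EMC
end
end
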