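import Pool.Agent.Work.MP_9079fe_co.KFr

/-! Box checker for the middle region. -/

namespace Pool.Agent.Work.EMC
open Fr

/-- Newton iteration for the root of `w (w - U) = M`. -/
def nwt (U M : ℕ) : ℕ → ℕ → ℕ
  | 0, w => w
  | (i+1), w => nwt U M i (Nat.succ (Nat.div (Nat.add (Nat.mul w w) M) (Nat.sub (Nat.mul 2 w) U)))

/-- A guess for the root of `w (w - u) = N`. -/
def omg (u N : Fr) : Fr :=
  mk' (nwt (up u 65535).n (up N 4294967295).n 6
    (Nat.add (up u 65535).n (Nat.add (up N 32767).n 32769))) 65535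

/-- Endpoint test. -/
def eok (b2 N1 N2 T1 x : Fr) : Bool :=
  let E := sub (add (div (mul (mk' 16 2) (sub (add N2 x) (mk' 9 19))) T1) b2)
    (add (mk' 9 4) (div x b2))
  le (mul E E) (add (mul (mk' 16 0) N1) (mul (mk' 12 0) x))

/-- Test that `R ≤ T`. -/
def vok (b2 N1 N2 vl vu T : Fr) : Bool :=
  le (add (mk' 1 0) (add N2 vu)) (mul T (mk' 29 19)) ||
    (lt (mk' 1 0) T && eok b2 N1 N2 (sub T (mk' 1 0)) vl && eok b2 N1 N2 (sub T (mk' 1 0)) vu)

/-- Lower bound for the tilted constant. -/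
def cLo (Z b2 io wm a : Fr) : Fr :=
  let dp := div (mk' 9 19) (add (mk' 1 0) (mul io (mk' 9 19)))
  let g := add (mk' 1 0) a
  let al := add g b2
  let al1 := add al (mk' 1 0)
  let A := add al1 (mul io (mk' 1 1))
  let W := mul (add (mk' 1 0) (mul io (mk' 9 19))) wm
  sub (add (add (add (inv al) (div dp (mul al al1)))
      (mul a (add (inv (mul al al)) (div (mul dp (add al al1)) (mul (mul al al1) (mul al al1))))))
      (div (mul W Z) (mul (mul A A) (add (add g (mk' 1 0)) (mul io (mk' 1 1))))))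
    (div (mul W (add (mk' 1 0) Z)) (mul (mul al al) g))

/-- Box test. -/
def tM (Z Y f1 f2 b1 b2 N1 N2 : Fr) : Bool :=
  let vl := mul f1 N1
  let vu := mn b2 (mul f2 N2)
  let xl := mn (sub (add N1 (mul b1 (mk' 9 19))) (mul b1 b1))
    (sub (add N1 (mul b2 (mk' 9 19))) (mul b2 b2))
  let u := add b2 (mk' 11 19)
  let om := omg u N2
  let io := up (div vu (add N1 vu)) 65535
  let wm := sub (add N2 vu) (mk' 9 19)
  lt b2 vl || lt (add N2 vu) (mk' 9 19) ||
  (le b2 (mk' 3 9) && le wm (mk' 3 4)) ||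
  (le u om && le (add N2 (mul om u)) (mul om om) &&
    vok b2 N1 N2 vl vu (dn (mul Y (add b1 (div xl om))) 1048575)) ||
  (le b2 (mk' 1 1) && le (mul io (add N2 vu)) (mk' 1 0) &&
    vok b2 N1 N2 vl vu (dn (mul Y (add b1 (mul xl (cLo Z b2 io wm
      (dn (div (mul (mk' 23 19) wm) (add (mk' 1 0) (mul (mk' 3 9) wm))) 63))))) 1048575))

/-- Branch and bound; `b = i / 2 ^ 20`, `N = j / 2 ^ 20`. -/
def bbM (Z Y f1 f2 : Fr) : ℕ → ℕ → ℕ → ℕ → ℕ → Bool
  | 0, _, _, _, _ => false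
  | (k+1), i1, i2, j1, j2 =>
    tM Z Y f1 f2 (mk' i1 1048575) (mk' i2 1048575) (mk' j1 1048575) (mk' j2 1048575) ||
      (cond (Nat.ble (Nat.mul (Nat.mul (Nat.sub j2 j1) (Nat.sub j2 j1)) 524288)
          (Nat.mul (Nat.mul (Nat.sub i2 i1) (Nat.sub i2 i1)) (Nat.add 1048576 (Nat.sub j1 1048576))))
        (bbM Z Y f1 f2 k i1 (Nat.div (Nat.add i1 i2) 2) j1 j2 &&
          bbM Z Y f1 f2 k (Nat.div (Nat.add i1 i2) 2) i2 j1 j2)
        (bbM Z Y f1 f2 k i1 i2 j1 (Nat.div (Nat.add j1 j2) 2) &&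
          bbM Z Y f1 f2 k i1 i2 (Nat.div (Nat.add j1 j2) 2) j2))

set_option maxRecDepth 100000 in
theorem bbM_A : bbM (mk' 291 499) (mk' 17182 9999) (mk' 0 0) (mk' 1 2) 30
    0 1835008 262144 38010880 = true := by
  decide +kernel

set_option maxRecDepth 100000 in
theorem bbM_B : bbM (mk' 2867 4999) (mk' 17439 9999) (mk' 1 1) (mk' 1 1) 30
    0 1835008 262144 38010880 = true := by
  decide +kernel

end Pool.Agent.Work.EMC
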