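import Pool.Agent.Work.MP_9079fe_co.KFr

/-! Box checker for the region near the clique. -/

namespace Pool.Agent.Work.EMC
open Fr

/-- Upper bound for the first loss coefficient. -/
def uL1 (a1 b1 b2 w1 w2 : Fr) : Fr :=
  let A1 := add (add (mk' 1 0) b1) (mul a1 w1)
  let A2 := add (add (mk' 2 0) b2) (mul a1 w2)
  let lu := add (inv A1) (div (mul a1 w2) (mul A1 A1))
  let ll := mul (mk' 1 1) (add (inv A2) (div (mul a1 w1) (mul A2 A2)))
  up (add lu (mul (mk' 291 499) (sub lu ll))) 16777215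

/-- Upper bound for the second loss coefficient. -/
def uL2 (a1 b1 b2 w1 w2 : Fr) : Fr :=
  let A1 := add (add (mk' 1 0) b1) (mul a1 w1)
  let A2 := add (add (mk' 2 0) b2) (mul a1 w2)
  let lu := add (div (mul a1 (mul a1 w2)) (mul A1 A1)) (inv (mul (mul A1 A1) (sub A1 b2)))
  let ll := add (div (mul a1 (mul a1 w1)) (mul (mk' 2 0) (mul A2 A2)))
    (inv (mul (mul A2 A2) (add (mk' 2 0) (mul a1 w2))))
  up (add lu (mul (mk' 291 499) (sub lu ll))) 16777215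

/-- The main test. -/
def tN0 (L1 L2 i1 i2 b1 b2 w2 : Fr) : Bool :=
  let t1 := sub (mk' 1 0) (mul (mk' 2 0) i1)
  let t2 := sub (mk' 1 0) (mul (mk' 2 0) i2)
  let c0 := add (mk' 49 39) (mul (mk' 27 799) t2)
  let dpl := div (mk' 9 19) (add (mk' 1 0) (mul (mk' 9 19) i2))
  let dpu := div (mk' 1 1) (add (mk' 1 0) (mul (mk' 1 1) i1))
  let el := sub (mul dpl t2) b2
  let eu := sub (mul dpu t1) b1
  let ru := div (sub (mk' 1 0) i1) (add (mk' 1 0) (mul (mk' 9 19) i1))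
  let rl := div (sub (mk' 1 0) i2) (add (mk' 1 0) (mul (mk' 1 1) i2))
  let xu := add (add (mul (sub (mk' 1 0) i1) dpu) (mul ru w2)) (mul b2 eu)
  let P1 := sub (add (mk' 1 0) (mul c0 el)) (mul L1 xu)
  let y := mul L2 (add w2 (mk' 1 1))
  lt (mk' 0 0) P1 && le y c0 &&
    lt (add (mul L2 (mul b2 eu)) (mk' 291 724)) (add (mul (mx i1 (div b1 w2)) P1) (mul rl (sub c0 y)))

/-- Box test. -/
def tN (i1 i2 b1 b2 w1 w2 : Fr) : Bool :=
  let a1 := dn (div (mk' 23 19) (add (mk' 1 0) (mul (mk' 19 99) (add w1 w2)))) 63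
  lt b2 (mul i1 w1) ||
  lt (mk' 3 9) (add (mul b1 (add (mk' 1 0) (mul (mk' 9 19) i1))) (mul (mk' 9 19) i1)) ||
  lt (mk' 3 4) (mul w1 (add (mk' 1 0) (mul (mk' 9 19) i1))) ||
  (lt (mk' 0 0) b2 && le b2 (mk' 1 1) &&
    tN0 (uL1 a1 b1 b2 w1 w2) (uL2 a1 b1 b2 w1 w2) i1 i2 b1 b2 w2)

/-- Branch and bound; all coordinates have denominator `2 ^ 20`. -/
def bbN : ℕ → ℕ → ℕ → ℕ → ℕ → ℕ → ℕ → Bool
  | 0, _, _, _, _, _, _ => false
  | (k+1), i1, i2, j1, j2, l1, l2 =>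
    tN (mk' i1 1048575) (mk' i2 1048575) (mk' j1 1048575) (mk' j2 1048575) (mk' l1 1048575)
        (mk' l2 1048575) ||
      (cond (Nat.ble (Nat.mul 2 (Nat.sub j2 j1)) (Nat.sub i2 i1) &&
          Nat.ble (Nat.mul 2 (Nat.sub l2 l1)) (Nat.sub i2 i1))
        (bbN k i1 (Nat.div (Nat.add i1 i2) 2) j1 j2 l1 l2 &&
          bbN k (Nat.div (Nat.add i1 i2) 2) i2 j1 j2 l1 l2)
        (cond (Nat.ble (Nat.sub l2 l1) (Nat.sub j2 j1))
          (bbN k i1 i2 j1 (Nat.div (Nat.add j1 j2) 2) l1 l2 &&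
            bbN k i1 i2 (Nat.div (Nat.add j1 j2) 2) j2 l1 l2)
          (bbN k i1 i2 j1 j2 l1 (Nat.div (Nat.add l1 l2) 2) &&
            bbN k i1 i2 j1 j2 (Nat.div (Nat.add l1 l2) 2) l2)))

set_option maxRecDepth 100000 in
theorem bbN_all : bbN 30 0 349526 0 314573 0 629146 = true := by
  decide +kernel

end Pool.Agent.Work.EMC
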