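import Mathlib

/-! Nonnegative fractions without normalisation, for fast kernel evaluation. -/

namespace Pool.Agent.Work.EMC

/-- A nonnegative fraction `n / d`. -/
structure Fr where
  n : ℕ
  d : ℕ
  h : d ≠ 0

namespace Fr

/-- The value. -/
noncomputable def v (a : Fr) : ℝ := (a.n : ℝ) / (a.d : ℝ)

/-- The fraction `p / (q + 1)`. -/
def mk' (p q : ℕ) : Fr := ⟨p, Nat.succ q, Nat.succ_ne_zero q⟩

/-- Sum. -/
def add (a b : Fr) : Fr :=
  ⟨Nat.add (Nat.mul a.n b.d) (Nat.mul b.n a.d), Nat.mul a.d b.d, Nat.mul_ne_zero a.h b.h⟩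

/-- Truncated difference. -/
def sub (a b : Fr) : Fr :=
  ⟨Nat.sub (Nat.mul a.n b.d) (Nat.mul b.n a.d), Nat.mul a.d b.d, Nat.mul_ne_zero a.h b.h⟩

/-- Product. -/
def mul (a b : Fr) : Fr := ⟨Nat.mul a.n b.n, Nat.mul a.d b.d, Nat.mul_ne_zero a.h b.h⟩

/-- Inverse. -/
def inv (a : Fr) : Fr :=
  Nat.casesOn a.n ⟨0, 1, one_ne_zero⟩ (fun k => ⟨a.d, Nat.succ k, Nat.succ_ne_zero k⟩)

/-- Quotient. -/
def div (a b : Fr) : Fr := mul a (inv b)

/-- Comparison. -/
def le (a b : Fr) : Bool := Nat.ble (Nat.mul a.n b.d) (Nat.mul b.n a.d)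

/-- Strict comparison. -/
def lt (a b : Fr) : Bool := Nat.ble (Nat.succ (Nat.mul a.n b.d)) (Nat.mul b.n a.d)

/-- Minimum. -/
def mn (a b : Fr) : Fr := cond (le a b) a b

/-- Maximum. -/
def mx (a b : Fr) : Fr := cond (le a b) b a

/-- Rounding down to a multiple of `1 / (q + 1)`. -/
def dn (a : Fr) (q : ℕ) : Fr := mk' (Nat.div (Nat.mul a.n (Nat.succ q)) a.d) q

/-- Rounding up to a multiple of `1 / (q + 1)`. -/
def up (a : Fr) (q : ℕ) : Fr := mk' (Nat.succ (Nat.div (Nat.mul a.n (Nat.succ q)) a.d)) q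

theorem d_pos (a : Fr) : (0:ℝ) < a.d := by
  exact_mod_cast Nat.pos_of_ne_zero a.h

theorem v_nonneg (a : Fr) : 0 ≤ a.v := by
  unfold v; positivity

theorem v_mk' (p q : ℕ) : (mk' p q).v = (p : ℝ) / ((q : ℝ) + 1) := by
  simp [v, mk']

theorem v_add (a b : Fr) : (add a b).v = a.v + b.v := by
  have ha := a.d_pos; have hb := b.d_pos
  simp only [v, add, Nat.add_eq, Nat.mul_eq]
  push_cast
  field_simp

theorem v_mul (a b : Fr) : (mul a b).v = a.v * b.v := by
  have ha := a.d_pos; have hb := b.d_pos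
  simp only [v, mul, Nat.mul_eq]
  push_cast
  field_simp

theorem v_sub (a b : Fr) : (sub a b).v = max (a.v - b.v) 0 := by
  have ha := a.d_pos; have hb := b.d_pos
  simp only [v, sub, Nat.sub_eq, Nat.mul_eq]
  rcases le_total (b.n * a.d) (a.n * b.d) with h | h
  · have h' : (b.n : ℝ) * a.d ≤ a.n * b.d := by exact_mod_cast h
    have : (b.n : ℝ) / b.d ≤ a.n / a.d := by rw [div_le_div_iff₀ hb ha]; exact h'
    rw [max_eq_left (by linarith), Nat.cast_sub h]
    push_cast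
    field_simp
  · have h' : (a.n : ℝ) * b.d ≤ b.n * a.d := by exact_mod_cast h
    have : (a.n : ℝ) / a.d ≤ b.n / b.d := by rw [div_le_div_iff₀ ha hb]; exact h'
    rw [max_eq_right (by linarith), Nat.sub_eq_zero_of_le h]
    simp

theorem v_inv (a : Fr) : (inv a).v = 1 / a.v := by
  obtain ⟨n, d, h⟩ := a
  cases n with
  | zero => simp [v, inv]
  | succ k => simp [v, inv]

theorem v_div (a b : Fr) : (div a b).v = a.v / b.v := by
  rw [div, v_mul, v_inv]; ring

theorem le_iff (a b : Fr) : le a b = true ↔ a.v ≤ b.v := by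
  have ha := a.d_pos; have hb := b.d_pos
  simp only [le, v, Nat.ble_eq, Nat.mul_eq]
  rw [div_le_div_iff₀ ha hb]
  exact_mod_cast Iff.rfl

theorem lt_iff (a b : Fr) : lt a b = true ↔ a.v < b.v := by
  have ha := a.d_pos; have hb := b.d_pos
  simp only [lt, v, Nat.ble_eq, Nat.mul_eq, Nat.succ_le_iff]
  rw [div_lt_div_iff₀ ha hb]
  exact_mod_cast Iff.rfl

theorem v_mn (a b : Fr) : (mn a b).v = min a.v b.v := by
  unfold mn
  cases h : le a b with
  | true => rw [min_eq_left ((le_iff a b).1 h)]; rfl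
  | false =>
    have : ¬ a.v ≤ b.v := fun h' => by rw [(le_iff a b).2 h'] at h; exact Bool.noConfusion h
    rw [min_eq_right (le_of_not_ge this)]; rfl

theorem v_mx (a b : Fr) : (mx a b).v = max a.v b.v := by
  unfold mx
  cases h : le a b with
  | true => rw [max_eq_right ((le_iff a b).1 h)]; rfl
  | false =>
    have : ¬ a.v ≤ b.v := fun h' => by rw [(le_iff a b).2 h'] at h; exact Bool.noConfusion h
    rw [max_eq_left (le_of_not_ge this)]; rfl

theorem dn_le (a : Fr) (q : ℕ) : (dn a q).v ≤ a.v := by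
  have ha := a.d_pos
  rw [dn, v_mk', v, div_le_div_iff₀ (by positivity) ha]
  have : Nat.div (Nat.mul a.n (Nat.succ q)) a.d * a.d ≤ a.n * (q + 1) := Nat.div_mul_le_self _ _
  exact_mod_cast this

theorem le_up (a : Fr) (q : ℕ) : a.v ≤ (up a q).v := by
  have ha := a.d_pos
  rw [up, v_mk', v, div_le_div_iff₀ ha (by positivity)]
  have : a.n * (q + 1) ≤ Nat.succ (Nat.div (Nat.mul a.n (Nat.succ q)) a.d) * a.d := by
    have h := Nat.lt_mul_div_succ (a.n * (q + 1)) (Nat.pos_of_ne_zero a.h)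
    rw [Nat.mul_comm a.d] at h
    exact h.le
  exact_mod_cast this

end Fr
end Pool.Agent.Work.EMC
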