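import Pool.Agent.Work.MP_9079fe_co.KMid
import Pool.Agent.Work.MP_9079fe_co.KBoxN

/-! The real inequality near the clique. -/

namespace Pool.Agent.Work.EMC
open MeasureTheory Set Fr

/-- First loss coefficient. -/
noncomputable def l1R (g b a : ℝ) : ℝ := (1 / (g + b + a) + a / (g + b + a) ^ 2) / g

/-- Second loss coefficient. -/
noncomputable def l2R (g b a a1 B : ℝ) : ℝ :=
  a1 * a / (g * (g + b + a) ^ 2) + 1 / ((g + b + a) ^ 2 * (g + b + a - B))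

/-- Combined first coefficient. -/
noncomputable def L1R (z b w a1 : ℝ) : ℝ := (1 + z) * l1R 1 b (a1 * w) - z * l1R 2 b (a1 * w)

/-- Combined second coefficient. -/
noncomputable def L2R (z b w a1 B : ℝ) : ℝ :=
  (1 + z) * l2R 1 b (a1 * w) a1 B - z * l2R 2 b (a1 * w) a1 B

/-- Coefficient of `b`. -/
noncomputable def P1R (ι d b w L1 : ℝ) : ℝ :=
  1 + (1 + d / 2 + d ^ 2 * (1 - 2 * ι) / 6) * (d / (1 + d * ι) * (1 - 2 * ι) - b) -
    L1 * ((1 - ι) * (d / (1 + d * ι)) + (1 - ι) / (1 + d * ι) * w +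
      b * (d / (1 + d * ι) * (1 - 2 * ι) - b))

/-- Coefficient of `w`. -/
noncomputable def P2R (ι d z b w L2 : ℝ) : ℝ :=
  (1 - ι) / (1 + d * ι) * ((1 + d / 2 + d ^ 2 * (1 - 2 * ι) / 6) - L2 * (w + d)) -
    L2 * (b * (d / (1 + d * ι) * (1 - 2 * ι) - b)) - z / (1 + d)

theorem comb_le {z p q pu ql : ℝ} (hz : 0 ≤ z) (hZ : z ≤ 291 / 500) (hp : p ≤ pu) (hq : ql ≤ q) :
    (1 + z) * p - z * q ≤ pu + 291 / 500 * max (pu - ql) 0 := by
  have h1 : z * (p - q) ≤ z * max (pu - ql) 0 :=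
    mul_le_mul_of_nonneg_left (le_trans (by linarith only [hp, hq]) (le_max_left _ _)) hz
  have h2 : z * max (pu - ql) 0 ≤ 291 / 500 * max (pu - ql) 0 :=
    mul_le_mul_of_nonneg_right hZ (le_max_right _ _)
  linarith only [hp, h1, h2]

theorem uL1_sound {z b w : ℝ} {a1 b1 b2 w1 w2 : Fr} (hz : 0 ≤ z) (hZ : z ≤ 291 / 500)
    (h1 : b1.v ≤ b) (h2 : b ≤ b2.v) (h3 : w1.v ≤ w) (h4 : w ≤ w2.v) :
    L1R z b w a1.v ≤ (uL1 a1 b1 b2 w1 w2).v := by
  refine le_trans ?_ (le_up _ _)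
  simp only [v_add, v_mul, v_sub, v_div, v_inv, v_mk']
  have ha := a1.v_nonneg
  have hb1 := b1.v_nonneg
  have hw1 := w1.v_nonneg
  have m1 : a1.v * w1.v ≤ a1.v * w := mul_le_mul_of_nonneg_left h3 ha
  have m2 : a1.v * w ≤ a1.v * w2.v := mul_le_mul_of_nonneg_left h4 ha
  have m0 : 0 ≤ a1.v * w1.v := mul_nonneg ha hw1
  have := comb_le (p := l1R 1 b (a1.v * w)) (q := l1R 2 b (a1.v * w))
    (pu := 1 / (1 + b1.v + a1.v * w1.v) + a1.v * w2.v / (1 + b1.v + a1.v * w1.v) ^ 2)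
    (ql := (1 / (2 + b2.v + a1.v * w2.v) + a1.v * w1.v / (2 + b2.v + a1.v * w2.v) ^ 2) / 2)
    hz hZ ?_ ?_
  · refine le_trans this (le_of_eq ?_)
    norm_num [sq]
    congr 1
    ring
  · unfold l1R
    rw [div_one]
    have : 0 ≤ a1.v * w2.v := by linarith only [m1, m2, m0]
    gcongr
  · unfold l1R
    have : 0 ≤ a1.v * w := by linarith only [m1, m0]
    have : 0 < 2 + b + a1.v * w := by linarith
    gcongr

theorem uL2_sound {z b w : ℝ} {a1 b1 b2 w1 w2 : Fr} (hz : 0 ≤ z) (hZ : z ≤ 291 / 500)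
    (h1 : b1.v ≤ b) (h2 : b ≤ b2.v) (h3 : w1.v ≤ w) (h4 : w ≤ w2.v) (h5 : b2.v ≤ 1 / 2) :
    L2R z b w a1.v b2.v ≤ (uL2 a1 b1 b2 w1 w2).v := by
  refine le_trans ?_ (le_up _ _)
  simp only [v_add, v_mul, v_sub, v_div, v_inv, v_mk']
  have ha := a1.v_nonneg
  have hb1 := b1.v_nonneg
  have hw1 := w1.v_nonneg
  have m1 : a1.v * w1.v ≤ a1.v * w := mul_le_mul_of_nonneg_left h3 ha
  have m2 : a1.v * w ≤ a1.v * w2.v := mul_le_mul_of_nonneg_left h4 ha
  have m0 : 0 ≤ a1.v * w1.v := mul_nonneg ha hw1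
  have := comb_le (p := l2R 1 b (a1.v * w) a1.v b2.v) (q := l2R 2 b (a1.v * w) a1.v b2.v)
    (pu := a1.v * (a1.v * w2.v) / (1 + b1.v + a1.v * w1.v) ^ 2 +
      1 / ((1 + b1.v + a1.v * w1.v) ^ 2 * (1 + b1.v + a1.v * w1.v - b2.v)))
    (ql := a1.v * (a1.v * w1.v) / (2 * (2 + b2.v + a1.v * w2.v) ^ 2) +
      1 / ((2 + b2.v + a1.v * w2.v) ^ 2 * (2 + a1.v * w2.v)))
    hz hZ ?_ ?_
  · refine le_trans this (le_of_eq ?_)
    have e : max (((1:ℕ):ℝ) / (((0:ℕ):ℝ) + 1) + b1.v + a1.v * w1.v - b2.v) 0 =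
        1 + b1.v + a1.v * w1.v - b2.v := by
      rw [max_eq_left] <;> norm_num
      linarith only [h5, hb1, m0]
    rw [e]
    norm_num [sq]
  · unfold l2R
    rw [one_mul]
    have : 0 ≤ a1.v * w2.v := by linarith
    have : 0 < 1 + b1.v + a1.v * w1.v - b2.v := by linarith only [h5, hb1, m0]
    gcongr
  · unfold l2R
    have : 0 ≤ a1.v * w := by linarith only [m1, m0]
    have : 0 < 2 + b + a1.v * w := by linarith only [h1, hb1, m1, m0]
    have : 0 < 2 + b + a1.v * w - b2.v := by linarith only [h1, h5, hb1, m1, m0]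
    have : 2 + b + a1.v * w - b2.v ≤ 2 + a1.v * w2.v := by linarith
    gcongr

theorem tN0_sound {ι d z b w L1 L2 : ℝ} {U1 U2 i1 i2 b1 b2 w2 : Fr} (hι : ι ≤ 1 / 3)
    (hd : 9 / 20 ≤ d) (hd2 : d ≤ 1 / 2) (hZ : z ≤ 291 / 500) (hw : 0 ≤ w) (hιw : ι * w ≤ b)
    (he : 0 ≤ d / (1 + d * ι) * (1 - 2 * ι) - b) (hL1 : L1 ≤ U1.v) (hL2 : L2 ≤ U2.v)
    (h1 : i1.v ≤ ι) (h2 : ι ≤ i2.v) (h3 : b1.v ≤ b) (h4 : b ≤ b2.v) (h5 : w ≤ w2.v)
    (ht : tN0 U1 U2 i1 i2 b1 b2 w2 = true) :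
    ∃ r, r * w ≤ b ∧ 0 < P1R ι d b w L1 ∧ 0 < r * P1R ι d b w L1 + P2R ι d z b w L2 := by
  simp only [tN0, Bool.and_eq_true, le_iff, lt_iff, v_add, v_mul, v_sub, v_div, v_mk',
    v_mx] at ht
  norm_num at ht
  obtain ⟨⟨hP, hy⟩, hf⟩ := ht
  have hi1 := i1.v_nonneg
  have hb1 := b1.v_nonneg
  have hU1 := U1.v_nonneg
  have hU2 := U2.v_nonneg
  have hι0 : 0 ≤ ι := hi1.trans h1
  have hb0 : 0 ≤ b := hb1.trans h3
  have hm : 0 < 1 + d * ι := by positivity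
  have k0 : 81 / 400 ≤ d ^ 2 := by nlinarith only [hd]
  have k1 : d * ι ≤ d * i2.v := mul_le_mul_of_nonneg_left h2 (by linarith only [hd])
  have k2 : d * i1.v ≤ d * ι := mul_le_mul_of_nonneg_left h1 (by linarith only [hd])
  have k3 : 9 / 20 * i1.v ≤ d * ι := mul_le_mul hd h1 hi1 (by linarith only [hd])
  have k4 : d * ι ≤ 1 / 2 * i2.v := mul_le_mul hd2 h2 hι0 (by norm_num)
  set e := d / (1 + d * ι) * (1 - 2 * ι) - b with hedef
  set c := 1 + d / 2 + d ^ 2 * (1 - 2 * ι) / 6 with hcdef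
  set t1 := max (1 - 2 * i1.v) 0 with ht1
  set t2 := max (1 - 2 * i2.v) 0 with ht2
  have a1 : 1 - 2 * ι ≤ t1 := le_trans (by linarith only [h1]) (le_max_left _ _)
  have a2 : t2 ≤ 1 - 2 * ι := max_le (by linarith only [h2]) (by linarith only [hι])
  have a20 : 0 ≤ t2 := le_max_right _ _
  set c0 := 49 / 40 + 27 / 800 * t2 with hc0
  have a3 : c0 ≤ c := by
    have : 81 / 400 * t2 ≤ d ^ 2 * (1 - 2 * ι) :=
      mul_le_mul k0 a2 a20 (sq_nonneg d)
    linarith only [hd, hcdef, hc0, this]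
  set dpl := 9 / 20 / (1 + 9 / 20 * i2.v) with hdpl
  set dpu := 1 / 2 / (1 + 1 / 2 * i1.v) with hdpu
  have a4 : dpl ≤ d / (1 + d * ι) := by
    rw [hdpl, div_le_div_iff₀ (by linarith only [h1, h2, hi1]) hm]
    linarith only [k1, hd]
  have a5 : d / (1 + d * ι) ≤ dpu := by
    rw [hdpu, div_le_div_iff₀ hm (by linarith only [hi1])]
    linarith only [k2, hd2]
  have a40 : 0 ≤ dpl := div_nonneg (by norm_num) (by linarith only [h1, h2, hi1])
  set el := max (dpl * t2 - b2.v) 0 with hel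
  set eu := max (dpu * t1 - b1.v) 0 with heu
  have a6 : el ≤ e := by
    refine max_le ?_ he
    have : dpl * t2 ≤ d / (1 + d * ι) * (1 - 2 * ι) := mul_le_mul a4 a2 a20 (a40.trans a4)
    linarith only [h4, this]
  have a7 : e ≤ eu := by
    refine le_trans ?_ (le_max_left _ _)
    have : d / (1 + d * ι) * (1 - 2 * ι) ≤ dpu * t1 :=
      mul_le_mul a5 a1 (by linarith only [hι]) ((a40.trans a4).trans a5)
    linarith only [h3, this]
  have a60 : 0 ≤ el := le_max_right _ _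
  set s1 := max (1 - i1.v) 0 with hs1
  set s2 := max (1 - i2.v) 0 with hs2
  have b1' : 1 - ι ≤ s1 := le_trans (by linarith only [h1]) (le_max_left _ _)
  have b2' : s2 ≤ 1 - ι := max_le (by linarith only [h2]) (by linarith only [hι])
  have b20 : 0 ≤ s2 := le_max_right _ _
  set ru := s1 / (1 + 9 / 20 * i1.v) with hru
  set rl := s2 / (1 + 1 / 2 * i2.v) with hrl
  have a8 : (1 - ι) / (1 + d * ι) ≤ ru := by
    apply div_le_div₀ (by linarith only [hι, b1']) b1' (by linarith only [hi1])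
    linarith only [k3]
  have a9 : rl ≤ (1 - ι) / (1 + d * ι) := by
    apply div_le_div₀ (by linarith only [hι]) b2' hm
    linarith only [k4]
  have a90 : 0 ≤ rl := div_nonneg b20 (by linarith only [h1, h2, hi1])
  set x := (1 - ι) * (d / (1 + d * ι)) + (1 - ι) / (1 + d * ι) * w + b * e with hx
  set xu := s1 * dpu + ru * w2.v + b2.v * eu with hxu
  have be : b * e ≤ b2.v * eu := mul_le_mul h4 a7 he (hb0.trans h4)
  have be0 : 0 ≤ b * e := mul_nonneg hb0 he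
  have c1 : x ≤ xu := by
    have p1 : (1 - ι) * (d / (1 + d * ι)) ≤ s1 * dpu :=
      mul_le_mul b1' a5 (a40.trans a4) (by linarith only [hι, b1'])
    have p2 : (1 - ι) / (1 + d * ι) * w ≤ ru * w2.v :=
      mul_le_mul a8 h5 hw ((a90.trans a9).trans a8)
    linarith only [be, p1, p2]
  have c10 : 0 ≤ x := by
    have p1 : 0 ≤ (1 - ι) * (d / (1 + d * ι)) := mul_nonneg (by linarith only [hι]) (a40.trans a4)
    have p2 : 0 ≤ (1 - ι) / (1 + d * ι) * w := mul_nonneg (a90.trans a9) hw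
    linarith only [h3, hb1, he, a4, a40, be0, p2]
  have c2 : 1 + c0 * el - U1.v * xu ≤ P1R ι d b w L1 := by
    have p1 : c0 * el ≤ c * e := mul_le_mul a3 a6 a60 (by linarith only [a20, hc0, a3])
    have p2 : L1 * x ≤ U1.v * xu := mul_le_mul hL1 c1 c10 hU1
    show _ ≤ 1 + c * e - L1 * x
    linarith only [p1, p2]
  rw [max_eq_left (a := 1 + c0 * el - U1.v * xu) (by linarith only [hP]),
    max_eq_left (a := c0 - U2.v * (w2.v + 1 / 2)) (by linarith only [hy])] at hf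
  have c3 : rl * (c0 - U2.v * (w2.v + 1 / 2)) - U2.v * (b2.v * eu) - 291 / 725 ≤
      P2R ι d z b w L2 := by
    have p0 : L2 * (w + d) ≤ U2.v * (w2.v + 1 / 2) :=
      mul_le_mul hL2 (by linarith only [hd2, h5]) (by linarith only [hd, hw]) hU2
    have p1 : rl * (c0 - U2.v * (w2.v + 1 / 2)) ≤ (1 - ι) / (1 + d * ι) * (c - L2 * (w + d)) :=
      mul_le_mul a9 (by linarith only [a3, p0]) (by linarith only [hy]) (a90.trans a9)
    have p2 : L2 * (b * e) ≤ U2.v * (b2.v * eu) := mul_le_mul hL2 be be0 hU2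
    have p3 : z / (1 + d) ≤ 291 / 725 := by
      rw [div_le_iff₀ (by linarith only [hd])]; linarith only [hd, hZ]
    show _ ≤ (1 - ι) / (1 + d * ι) * (c - L2 * (w + d)) - L2 * (b * e) - z / (1 + d)
    linarith only [p1, p2, p3]
  refine ⟨max i1.v (b1.v / w2.v), ?_, by linarith only [hP, c2], ?_⟩
  · rcases le_total i1.v (b1.v / w2.v) with h | h
    · rw [max_eq_right h]
      rcases eq_or_lt_of_le w2.v_nonneg with h0 | h0
      · rw [← h0]; simpa using hb0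
      · rw [div_mul_eq_mul_div, div_le_iff₀ h0]
        exact mul_le_mul h3 h5 hw hb0
    · rw [max_eq_left h]
      exact (mul_le_mul_of_nonneg_right h1 hw).trans hιw
  · have : max i1.v (b1.v / w2.v) * (1 + c0 * el - U1.v * xu) ≤
        max i1.v (b1.v / w2.v) * P1R ι d b w L1 :=
      mul_le_mul_of_nonneg_left c2 (hi1.trans (le_max_left _ _))
    linarith only [hf, c3, this]

/-- Context near the clique, in scaled variables. -/
structure NcC (ι d z b w : ℝ) : Prop where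
  hι0 : 0 ≤ ι
  hι : ι ≤ 1 / 3
  hd : 9 / 20 ≤ d
  hd2 : d ≤ 1 / 2
  hz : 0 ≤ z
  hZ : z ≤ 291 / 500
  hw : 0 ≤ w
  hιw : ι * w ≤ b
  hb : b * (1 + d * ι) + d * ι ≤ 3 / 10
  hw2 : w * (1 + d * ι) ≤ 3 / 5

/-- The conclusion of the box check. -/
def NcG (ι d z b w : ℝ) : Prop :=
  ∃ a1 B r, 0 ≤ a1 ∧ b ≤ B ∧ 0 < B ∧ B ≤ 1 / 2 ∧ r * w ≤ b ∧ 0 < P1R ι d b w (L1R z b w a1) ∧
    0 < r * P1R ι d b w (L1R z b w a1) + P2R ι d z b w (L2R z b w a1 B)

theorem NcC.e_nonneg {ι d z b w : ℝ} (M : NcC ι d z b w) :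
    0 ≤ d / (1 + d * ι) * (1 - 2 * ι) - b := by
  have hm : 0 < 1 + d * ι := by have := M.hι0; have := M.hd; positivity
  rw [sub_nonneg, div_mul_eq_mul_div, le_div_iff₀ hm]
  linarith only [M, M.hb, M.hι, M.hd, M.hι0, mul_nonneg_of_nonpos_of_nonpos (Mathlib.Tactic.Linarith.sub_nonpos_of_le M.hι) (Mathlib.Tactic.Linarith.sub_nonpos_of_le M.hd)]

theorem tN_sound {ι d z b w : ℝ} (M : NcC ι d z b w) {i1 i2 b1 b2 w1 w2 : Fr}
    (h1 : i1.v ≤ ι) (h2 : ι ≤ i2.v) (h3 : b1.v ≤ b) (h4 : b ≤ b2.v) (h5 : w1.v ≤ w)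
    (h6 : w ≤ w2.v) (ht : tN i1 i2 b1 b2 w1 w2 = true) : NcG ι d z b w := by
  have k3 : 9 / 20 * i1.v ≤ d * ι := mul_le_mul M.hd h1 i1.v_nonneg (by linarith only [M, M.hd])
  have hi1 := i1.v_nonneg
  simp only [tN, Bool.or_eq_true, Bool.and_eq_true, le_iff, lt_iff] at ht
  rcases ht with ((ht | ht) | ht) | ⟨⟨ha, hb⟩, hc⟩
  · rw [v_mul] at ht
    have := mul_le_mul h1 h5 w1.v_nonneg M.hι0
    linarith only [h4, ht, this, M, M.hιw]
  · simp only [v_add, v_mul, v_mk'] at ht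
    norm_num at ht
    have : b1.v * (1 + 9 / 20 * i1.v) ≤ b * (1 + d * ι) :=
      mul_le_mul h3 (by linarith only [k3]) (by linarith only [hi1]) (b1.v_nonneg.trans h3)
    linarith only [k3, ht, this, M, M.hb]
  · simp only [v_add, v_mul, v_mk'] at ht
    norm_num at ht
    have : w1.v * (1 + 9 / 20 * i1.v) ≤ w * (1 + d * ι) :=
      mul_le_mul h5 (by linarith only [k3]) (by linarith only [hi1]) M.hw
    linarith only [ht, this, M, M.hw2]
  · rw [v_mk'] at ha hb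
    norm_num at ha hb
    obtain ⟨r, hr, p1, p2⟩ := tN0_sound M.hι M.hd M.hd2 M.hZ M.hw M.hιw M.e_nonneg
      (uL1_sound M.hz M.hZ h3 h4 h5 h6) (uL2_sound M.hz M.hZ h3 h4 h5 h6 (by linarith only [hb]))
      h1 h2 h3 h4 h6 hc
    exact ⟨_, _, r, v_nonneg _, h4, ha, by linarith only [hb], hr, p1, p2⟩

theorem bbN_sound {ι d z b w : ℝ} (M : NcC ι d z b w) (k : ℕ) :
    ∀ i1 i2 j1 j2 l1 l2 : ℕ, (i1:ℝ) / 1048576 ≤ ι → ι ≤ (i2:ℝ) / 1048576 →
      (j1:ℝ) / 1048576 ≤ b → b ≤ (j2:ℝ) / 1048576 →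
      (l1:ℝ) / 1048576 ≤ w → w ≤ (l2:ℝ) / 1048576 →
      bbN k i1 i2 j1 j2 l1 l2 = true → NcG ι d z b w := by
  induction k with
  | zero => intro i1 i2 j1 j2 l1 l2 _ _ _ _ _ _ h; simp [bbN] at h
  | succ k ih =>
    intro i1 i2 j1 j2 l1 l2 h1 h2 h3 h4 h5 h6 h
    rw [bbN, Bool.or_eq_true] at h
    rcases h with h | h
    · refine tN_sound M ?_ ?_ ?_ ?_ ?_ ?_ h <;> rw [v_mk'] <;> norm_num <;> assumption
    · revert h
      generalize (Nat.ble _ _ && Nat.ble _ _) = c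
      generalize Nat.ble _ _ = c'
      generalize Nat.div (Nat.add i1 i2) 2 = im
      generalize Nat.div (Nat.add j1 j2) 2 = jm
      generalize Nat.div (Nat.add l1 l2) 2 = lm
      intro h
      cases c with
      | true =>
        rw [cond_true, Bool.and_eq_true] at h
        rcases le_total ι ((im:ℝ) / 1048576) with h7 | h7
        · exact ih _ _ _ _ _ _ h1 h7 h3 h4 h5 h6 h.1
        · exact ih _ _ _ _ _ _ h7 h2 h3 h4 h5 h6 h.2
      | false =>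
        rw [cond_false] at h
        cases c' with
        | true =>
          rw [cond_true, Bool.and_eq_true] at h
          rcases le_total b ((jm:ℝ) / 1048576) with h7 | h7
          · exact ih _ _ _ _ _ _ h1 h2 h3 h7 h5 h6 h.1
          · exact ih _ _ _ _ _ _ h1 h2 h7 h4 h5 h6 h.2
        | false =>
          rw [cond_false, Bool.and_eq_true] at h
          rcases le_total w ((lm:ℝ) / 1048576) with h7 | h7
          · exact ih _ _ _ _ _ _ h1 h2 h3 h4 h5 h7 h.1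
          · exact ih _ _ _ _ _ _ h1 h2 h3 h4 h7 h6 h.2

theorem NcC.good {ι d z b w : ℝ} (M : NcC ι d z b w) : NcG ι d z b w := by
  have h0 : 0 ≤ d * ι := mul_nonneg (by linarith only [M, M.hd]) M.hι0
  have hb0 : 0 ≤ b := (mul_nonneg M.hι0 M.hw).trans M.hιw
  refine bbN_sound M _ _ _ _ _ _ _ ?_ ?_ ?_ ?_ ?_ ?_ bbN_all <;> norm_num
  · exact M.hι0
  · linarith only [M, M.hι]
  · exact hb0
  · linarith only [h0, M, hb0, M.hb, mul_nonneg_of_nonpos_of_nonpos (Mathlib.Tactic.Linarith.sub_nonpos_of_le h0) (Mathlib.Tactic.Linarith.sub_nonpos_of_le hb0)]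
  · exact M.hw
  · (refine le_of_not_gt fun h_nl => ?_; linarith only [h_nl, h0, M, M.hw2, M.hw, mul_nonneg_of_nonpos_of_nonpos (Mathlib.Tactic.Linarith.sub_nonpos_of_le h0) (le_of_lt (Mathlib.Tactic.Linarith.sub_neg_of_lt h_nl))])

theorem Phi_scale {m0 b w a1 B g : ℝ} (hm : 0 < m0) (hb : 0 ≤ b) (ha : 0 ≤ a1 * w) (hg : 1 ≤ g)
    (hB : B ≤ 1 / 2) :
    Phi m0 (m0 * (1 + b)) (m0 * (a1 * w)) (m0 * (m0 * w)) (m0 * B) ((g - 1) * m0) =
      (b * l1R g b (a1 * w) + w * l2R g b (a1 * w) a1 B) / m0 := by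
  unfold Phi l1R l2R
  have e1 : m0 * (1 + b) + m0 * (a1 * w) + (g - 1) * m0 = m0 * (g + b + a1 * w) := by ring
  have e2 : m0 + (g - 1) * m0 = m0 * g := by ring
  rw [e1, e2, ← mul_sub]
  obtain ⟨A, hA⟩ : ∃ A, A = g + b + a1 * w := ⟨_, rfl⟩
  have hA0 : 0 < A := by linarith only [hb, ha, hg, hA]
  have hAB : 0 < A - B := by linarith only [hb, ha, hg, hB, hA]
  have hg0 : 0 < g := by linarith
  rw [← hA]
  field_simp
  rw [hA]
  ring

variable {n : ℕ} {d z v b R β : ℝ}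

theorem real_nc' (C : Crit n d z) (H : Bounds n d z v b R β) (h : 2 ≤ n) (hb : b ≤ 3 / 10)
    (hw : (n + 1) * v - d ≤ 3 / 5) :
    z * R ≤ β ∧ (β ≤ z * R → v = b ∧ b = d / (n + 1)) := by
  obtain ⟨hv, hb0, hw0, hN0⟩ := H.basic C.d_lo h
  have hn : (2:ℝ) ≤ n := by exact_mod_cast h
  have hd := C.d_lo
  have hd2 := C.d_hi
  have hz := C.z_pos
  obtain ⟨ι, hι⟩ : ∃ ι : ℝ, ι = 1 / (n + 1) := ⟨_, rfl⟩
  have hι0 : 0 < ι := by rw [hι]; positivity
  have hι3 : ι ≤ 1 / 3 := by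
    rw [hι]; exact one_div_le_one_div_of_le (by norm_num) (by linarith only [hn])
  have hιn : ι * (n + 1) = 1 := by rw [hι]; field_simp
  have hdι : d / (n + 1) = d * ι := by rw [hι]; ring
  have hnι : (n:ℝ) / (n + 1) = 1 - ι := by rw [hι]; field_simp; ring
  obtain ⟨m0, hm0⟩ : ∃ m0, m0 = 1 + d * ι := ⟨_, rfl⟩
  have hdι0 : 0 < d * ι := by positivity
  have hm : 0 < m0 := by linarith only [hb, hb0, hm0, hdι0]
  have hιd : 0 < (1 - ι) * d := mul_pos (by linarith only [hb, hb0, hι3]) (by linarith only [hb, hb0, hd])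
  have hm2 : m0 ≤ 3 / 2 := by nlinarith only [hm0, hd, hd2, hι3, hι0]
  obtain ⟨bt, hbt⟩ : ∃ bt, b - d * ι = m0 * bt := ⟨(b - d * ι) / m0, by field_simp⟩
  obtain ⟨wt, hwt⟩ : ∃ wt, (n + 1) * v - d = m0 * wt := ⟨((n + 1) * v - d) / m0, by field_simp⟩
  have hwt0 : 0 ≤ wt := by
    by_contra hc
    push Not at hc
    have := mul_neg_of_pos_of_neg hm hc
    linarith only [hw0, hwt, this]
  have hv' : v = d * ι + ι * (m0 * wt) := by
    rw [← hwt]; linear_combination (-v) * hιn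
  have hιw : ι * wt ≤ bt := by
    have : m0 * (ι * wt) ≤ m0 * bt := by linarith only [hbt, hv', H, H.v_hi]
    exact le_of_mul_le_mul_left this hm
  have M : NcC ι d z bt wt := ⟨hι0.le, hι3, hd, hd2, hz.le, C.z_le, hwt0, hιw,
    by rw [← hm0]; linarith only [hb, hbt], by rw [← hm0]; linarith only [hw, hwt]⟩
  have hbt0 : 0 ≤ bt := (mul_nonneg hι0.le hwt0).trans hιw
  have he := M.e_nonneg
  obtain ⟨a1, B, r, ha1, hbB, hB0, hB, hr, hP1, hP2⟩ := M.good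
  have haw : 0 ≤ a1 * wt := mul_nonneg ha1 hwt0
  obtain ⟨δ, hδ⟩ : ∃ δ, d = m0 * δ := ⟨d / m0, by field_simp⟩
  obtain ⟨ρ, hρ⟩ : ∃ ρ, 1 - ι = m0 * ρ := ⟨(1 - ι) / m0, by field_simp⟩
  have eδ : d / (1 + d * ι) = δ := by rw [← hm0, div_eq_iff hm.ne']; linarith only [hδ]
  have eρ : (1 - ι) / (1 + d * ι) = ρ := by rw [← hm0, div_eq_iff hm.ne']; linarith only [hρ]
  have hρ0 : 0 ≤ ρ := by rw [← eρ]; exact div_nonneg (by linarith only [hd2, hι3, hdι0, hιd]) (by linarith only [hdι0])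
  have hδ0 : 0 ≤ δ := by rw [← eδ]; exact div_nonneg (by linarith only [hdι0, hιd]) (by linarith only [hdι0])
  unfold P1R at hP1
  unfold P1R P2R at hP2
  rw [eδ] at he
  rw [eδ, eρ] at hP1 hP2
  obtain ⟨e, hedef⟩ : ∃ e, e = δ * (1 - 2 * ι) - bt := ⟨_, rfl⟩
  rw [← hedef] at he hP1 hP2
  obtain ⟨c, hc⟩ : ∃ c, c = 1 + d / 2 + d ^ 2 * (1 - 2 * ι) / 6 := ⟨_, rfl⟩
  rw [← hc] at hP1 hP2
  have hbe : b = d * ι + m0 * bt := by linarith only [hbt]
  have hx : n * v - b * (b - d) = m0 ^ 2 * ((1 - ι) * δ + ρ * wt + bt * e) := by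
    have e1 : n * v = (1 - ι) * (d + m0 * wt) := by
      rw [← hwt]; linear_combination v * hιn
    rw [e1, hbe, hedef]
    linear_combination ((1 - ι) * m0 + m0 * bt * (1 - 2 * ι)) * hδ + m0 * wt * hρ -
      (1 - ι) * d * hm0
  have hy0 : 0 ≤ ρ * wt + bt * e := by positivity
  have hx0 : 0 ≤ (1 - ι) * δ + ρ * wt + bt * e := by
    have : 0 ≤ (1 - ι) * δ := mul_nonneg (by linarith only [hd2, hι3, hdι0, hιd]) hδ0
    linarith only [hbt0, hδ0, he, hedef, hy0]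
  have hQ := H.QL (m0 * (a1 * wt)) (m0 * B) (by positivity) (by positivity)
    (by nlinarith only [hm2, hm, hB, hB0])
    (by rw [hdι, hbt]; exact mul_le_mul_of_nonneg_left hbB hm.le) (by rw [hx]; positivity)
  have e3 : 1 + b = m0 * (1 + bt) := by rw [hbe]; linarith only [hm0]
  unfold cL at hQ
  have p1 := Phi_scale (g := 1) hm hbt0 haw le_rfl hB
  have p2 := Phi_scale (g := 2) hm hbt0 haw (by norm_num) hB
  norm_num at p1 p2
  rw [hdι, hnι, ← hm0, hwt, e3, p1, p2, hx] at hQ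
  obtain ⟨c0, hc0⟩ : ∃ c0, z - d * ι = c0 * ((1 - ι) * d) :=
    ⟨(z - d * ι) / ((1 - ι) * d), by
      have : (1 - ι) ≠ 0 := by linarith only [hd2, hι3, hdι0, hιd]
      have : d ≠ 0 := by linarith only [hdι0, hιd]
      field_simp⟩
  have hcc : c ≤ c0 := by
    have h1 := C.z_ge
    have e4 : (2:ℝ) / (n + 1) = 2 * ι := by rw [hι]; ring
    rw [← hι, e4] at h1
    have : c * ((1 - ι) * d) ≤ c0 * ((1 - ι) * d) := by rw [← hc0, hc]; linarith only [h1]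
    exact le_of_mul_le_mul_right this hιd
  obtain ⟨L1, hL1⟩ : ∃ L1, L1 = L1R z bt wt a1 := ⟨_, rfl⟩
  obtain ⟨L2, hL2⟩ : ∃ L2, L2 = L2R z bt wt a1 B := ⟨_, rfl⟩
  rw [← hL1] at hP1
  rw [← hL1, ← hL2] at hP2
  have e5 : ((z - d * ι) / ((1 - ι) * d * m0) -
      ((1 + z) * ((bt * l1R 1 bt (a1 * wt) + wt * l2R 1 bt (a1 * wt) a1 B) / m0) -
        z * ((bt * l1R 2 bt (a1 * wt) + wt * l2R 2 bt (a1 * wt) a1 B) / m0))) *
      (m0 ^ 2 * ((1 - ι) * δ + ρ * wt + bt * e)) =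
      m0 * ((c0 - (bt * L1 + wt * L2)) * ((1 - ι) * δ + ρ * wt + bt * e)) := by
    rw [hc0, hL1, hL2]
    unfold L1R L2R
    have : (1 - ι) ≠ 0 := by linarith only [hd2, hι3, hdι0, hιd]
    have : d ≠ 0 := by linarith only [hdι0, hιd]
    field_simp
    ring
  rw [e5] at hQ
  have hV : z * R ≤ z + m0 * (wt * (z / (1 + d))) := by
    have h1 := mul_le_mul_of_nonneg_left H.V1 hz.le
    have e6 : (1 + (n + 1) * v) = (1 + d) + m0 * wt := by linarith only [hwt]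
    rw [e6] at h1
    refine h1.trans (le_of_eq ?_)
    field_simp
  have h7 : m0 * (c * (ρ * wt + bt * e)) ≤ m0 * (c0 * (ρ * wt + bt * e)) :=
    mul_le_mul_of_nonneg_left (mul_le_mul_of_nonneg_right hcc hy0) hm.le
  obtain ⟨P1, hP1d⟩ : ∃ P1, P1 = 1 + c * e - L1 * ((1 - ι) * δ + ρ * wt + bt * e) := ⟨_, rfl⟩
  obtain ⟨P2, hP2d⟩ : ∃ P2, P2 = ρ * (c - L2 * (wt + d)) - L2 * (bt * e) - z / (1 + d) :=
    ⟨_, rfl⟩
  rw [← hP1d] at hP1
  rw [← hP1d, ← hP2d] at hP2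
  have key : m0 * (bt * P1 + wt * P2) ≤ β - z * R := by
    have e7 : m0 * (bt * P1 + wt * P2) = b + m0 * ((c0 - (bt * L1 + wt * L2)) *
        ((1 - ι) * δ + ρ * wt + bt * e)) - (z + m0 * (wt * (z / (1 + d)))) +
        (m0 * (c * (ρ * wt + bt * e)) - m0 * (c0 * (ρ * wt + bt * e))) := by
      rw [hP1d, hP2d, hbe]
      linear_combination hc0 + (c0 * (1 - ι) - m0 * wt * L2 * ρ) * hδ + wt * L2 * m0 * δ * hρ
    linarith only [hQ, hV, h7, e7]
  have s1 : 0 ≤ (bt - r * wt) * P1 := mul_nonneg (by linarith only [hr]) hP1.le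
  have s2 : 0 ≤ wt * (r * P1 + P2) := mul_nonneg hwt0 hP2.le
  have s3 : bt * P1 + wt * P2 = (bt - r * wt) * P1 + wt * (r * P1 + P2) := by ring
  refine ⟨?_, fun hle => ?_⟩
  · have : 0 ≤ m0 * (bt * P1 + wt * P2) := mul_nonneg hm.le (by linarith only [s1, s2])
    linarith only [key, this]
  · have t1 : bt * P1 + wt * P2 ≤ 0 := by
      by_contra hc'
      push Not at hc'
      have := mul_pos hm hc'
      linarith only [key, hle, this]
    have t2 : wt = 0 := by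
      by_contra hc'
      have := mul_pos (lt_of_le_of_ne hwt0 (Ne.symm hc')) hP2
      linarith only [s1, t1, this]
    have t3 : bt = 0 := by
      by_contra hc'
      have := mul_pos (lt_of_le_of_ne hbt0 (Ne.symm hc')) hP1
      rw [t2] at t1
      linarith only [t1, this]
    rw [hdι, hv', hbe, t2, t3]
    simp

theorem real_nc (C : Crit n d z) (H : Bounds n d z v b R β) (h : 2 ≤ n) (hb : b ≤ 3 / 10)
    (hw : (n + 1) * v - d ≤ 7 / 10) :
    z * R ≤ β ∧ (β ≤ z * R → v = b ∧ b = d / (n + 1)) := by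
  by_cases hc : (n + 1) * v - d ≤ 3 / 5
  · exact real_nc' C H h hb hc
  · obtain ⟨hv, -, -, -⟩ := H.basic C.d_lo h
    have := real_mid' C H h (by linarith only [hb, hw, hc]) (by linarith only [hw, hc, hv, C, C.d_hi]) fun hh => hc hh.2
    exact ⟨this.le, fun hh => absurd hh (not_le.2 this)⟩

end Pool.Agent.Work.EMC
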