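import Pool.Agent.Work.MP_9079fe_co.KMid

/-! The real inequality for two summands, for large support and for large variance. -/

namespace Pool.Agent.Work.EMC
open MeasureTheory Set

private theorem kridge_mvt {y : ℝ} (hy : 0 ≤ y) (m : ℕ) :
    (1 + y) ^ m - 1 ≤ m * y * (1 + y) ^ m := by
  induction m with
  | zero => simp
  | succ m ih =>
    have hP : 0 ≤ (1 + y) ^ m := by positivity
    have hm : (0 : ℝ) ≤ m := Nat.cast_nonneg m
    have e1 : 0 ≤ (m + 1) * y * y * (1 + y) ^ m := by positivity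
    push_cast
    rw [pow_succ]
    linarith only [ih, e1]

private theorem kridge_quad {y : ℝ} (hy : 0 ≤ y) (m : ℕ) :
    1 + m * y + m * (m - 1) / 2 * y ^ 2 ≤ (1 + y) ^ m := by
  induction m with
  | zero => simp
  | succ m ih =>
    have hm : (0 : ℝ) ≤ m * (m - 1) := by
      rcases Nat.eq_zero_or_pos m with h | h
      · simp [h]
      · have : (1 : ℝ) ≤ m := by exact_mod_cast h
        exact mul_nonneg (by linarith only [this]) (by linarith only [this])
    have e1 : 0 ≤ m * (m - 1) / 2 * y ^ 2 * y := by positivity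
    have e2 := mul_le_mul_of_nonneg_right ih (show 0 ≤ 1 + y by linarith only [hy])
    push_cast
    rw [pow_succ (1 + y)]
    linarith only [e1, e2]

private theorem kridge_conv {a c : ℝ} (hc : 0 ≤ c) (hac : c ≤ a) (m : ℕ) :
    (m + 1) * c ^ m * (a - c) ≤ a ^ (m + 1) - c ^ (m + 1) := by
  induction m with
  | zero => simp
  | succ m ih =>
    have hP : 0 ≤ c ^ m := by positivity
    have hm : (0 : ℝ) ≤ m := Nat.cast_nonneg m
    have ha : 0 ≤ a := hc.trans hac
    have hd : 0 ≤ a - c := by linarith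
    have e1 := mul_le_mul_of_nonneg_left ih ha
    have e2 : 0 ≤ (m + 1) * c ^ m * (a - c) * (a - c) := by positivity
    push_cast
    rw [pow_succ a (m + 1), pow_succ c (m + 1)]
    rw [pow_succ c m] at e1 ⊢
    linarith only [e1, e2]

private theorem kridge_core (n : ℕ) (h : 2 ≤ n) (d g bs : ℝ) (hd : 9 / 20 ≤ d) (hd' : d ≤ 1 / 2)
    (hg0 : 0 < g) (hg1 : g ≤ 1) (hb2 : d + n * g ≤ bs) :
    ∃ c, 0 < c ∧ 1 + ((1 + g / (d + n * g)) ^ n - 1) / (n * g) * ((n + 1) * (g * bs) - d) ≤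
      ((1 + 1 / (n + d)) ^ (n + 1) - 1) * bs - (1 - g) * c := by
  have hN : (2 : ℝ) ≤ n := by exact_mod_cast h
  have hN0 : (0 : ℝ) < n := by linarith only [hN]
  have hng : 0 < n * g := mul_pos hN0 hg0
  have hB : 0 < d + n * g := by linarith only [hd, hng]
  have hnd : (0 : ℝ) < n + d := by linarith only [hd, hN]
  obtain ⟨y, hy⟩ : ∃ y, y = g / (d + n * g) := ⟨_, rfl⟩
  obtain ⟨y₁, hy₁⟩ : ∃ y₁, y₁ = 1 / ((n : ℝ) + d) := ⟨_, rfl⟩
  rw [← hy, ← hy₁]
  have hy0 : 0 < y := hy ▸ div_pos hg0 hB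
  have hyB : y * (d + n * g) = g := by rw [hy]; field_simp
  have hyy : (y₁ - y) * (d + n * g) = d * (1 - g) / (n + d) := by
    rw [sub_mul, hyB, hy₁]; field_simp; ring
  have hyy0 : 0 ≤ d * (1 - g) / (n + d) :=
    div_nonneg (mul_nonneg (by linarith only [hd]) (by linarith only [hg1])) hnd.le
  have hle : y ≤ y₁ := by
    by_contra hc
    push Not at hc
    have : (y₁ - y) * (d + n * g) < 0 := mul_neg_of_neg_of_pos (by linarith only [hc]) hB
    linarith only [hyy, hyy0, this]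
  have hmvt := kridge_mvt hy0.le n
  have hquad := kridge_quad hy0.le n
  have hconv := kridge_conv (a := 1 + y₁) (c := 1 + y) (by linarith only [hy0]) (by linarith only [hle]) n
  rw [pow_succ (1 + y) n] at hconv
  obtain ⟨P, hP⟩ : ∃ P, P = (1 + y) ^ n := ⟨_, rfl⟩
  obtain ⟨Q, hQ⟩ : ∃ Q, Q = (1 + y₁) ^ (n + 1) := ⟨_, rfl⟩
  rw [← hP] at hmvt hquad hconv ⊢
  rw [← hQ] at hconv ⊢
  obtain ⟨θ, hθ⟩ : ∃ θ, θ = n * y := ⟨_, rfl⟩
  have hθ0 : 0 ≤ θ := hθ ▸ (mul_pos hN0 hy0).le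
  have hθB : θ * (d + n * g) = n * g := by rw [hθ, mul_assoc, hyB]
  have hθ1 : θ ≤ 1 := by
    by_contra hc
    push Not at hc
    linarith only [hy0, hyB, hd, hg0, hθ, hc, mul_nonneg_of_nonpos_of_nonpos (Mathlib.Tactic.Linarith.sub_nonpos_of_le hd) (le_of_lt (Mathlib.Tactic.Linarith.sub_neg_of_lt hy0)), Mathlib.Tactic.Linarith.mul_zero_eq (Mathlib.Tactic.Linarith.sub_neg_of_lt hg0) (sub_eq_zero_of_eq hθ), mul_pos_of_neg_of_neg (Mathlib.Tactic.Linarith.sub_neg_of_lt hg0) (Mathlib.Tactic.Linarith.sub_neg_of_lt hc)]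
  have hPq : 1 + θ + θ ^ 2 / 4 ≤ P := by
    have e1 : 0 ≤ n * (n - 2) / 4 * y ^ 2 :=
      mul_nonneg (div_nonneg (mul_nonneg hN0.le (by linarith only [hN])) (by norm_num)) (sq_nonneg y)
    have e2 : n * (n - 1) / 2 * y ^ 2 = θ ^ 2 / 4 + n * (n - 2) / 4 * y ^ 2 := by rw [hθ]; ring
    rw [← hθ] at hquad
    linarith only [hquad, e1, e2]
  have hP1 : 1 ≤ P := by linarith only [hθ0, hPq, sq_nonneg ((1 : ℝ) * θ)]
  -- the constant
  obtain ⟨T, hT⟩ : ∃ T, T = (P - 1) / (n * g) := ⟨_, rfl⟩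
  rw [← hT]
  have hTP : T * (n * g) = P - 1 := by rw [hT]; field_simp
  have hdT : 1 - θ ≤ d * T := by
    have e1 : θ ≤ T * (n * g) := by rw [hTP]; linarith only [hPq, sq_nonneg ((1 : ℝ) * θ)]
    have e2 : (1 - θ) * (d + n * g) = d := by linarith only [hθB]
    have e3 : θ ≤ T * (θ * (d + n * g)) := by rw [hθB]; exact e1
    have hθp : 0 < θ := hθ ▸ mul_pos hN0 hy0
    have e4 : 1 ≤ T * (d + n * g) := by
      by_contra hc
      push Not at hc
      linarith only [hθB, hPq, hTP, hd, hng, hc, sq_nonneg ((1 : ℝ) * θ), mul_nonneg_of_nonpos_of_nonpos (Mathlib.Tactic.Linarith.sub_nonpos_of_le (sq_nonneg ((1 : ℝ) * θ))) (Mathlib.Tactic.Linarith.sub_nonpos_of_le hd), mul_nonneg_of_nonpos_of_nonpos (Mathlib.Tactic.Linarith.sub_nonpos_of_le (sq_nonneg ((1 : ℝ) * θ))) (le_of_lt (Mathlib.Tactic.Linarith.sub_neg_of_lt hng)), mul_nonneg_of_nonpos_of_nonpos (Mathlib.Tactic.Linarith.sub_nonpos_of_le hd) (Mathlib.Tactic.Linarith.sub_nonpos_of_le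 hPq), Mathlib.Tactic.Linarith.mul_zero_eq (Mathlib.Tactic.Linarith.sub_nonpos_of_le hd) (sub_eq_zero_of_eq hTP), mul_nonneg_of_nonpos_of_nonpos (le_of_lt (Mathlib.Tactic.Linarith.sub_neg_of_lt hng)) (Mathlib.Tactic.Linarith.sub_nonpos_of_le hPq), Mathlib.Tactic.Linarith.mul_zero_eq (Mathlib.Tactic.Linarith.sub_neg_of_lt hng) (sub_eq_zero_of_eq hTP), mul_pos_of_neg_of_neg (Mathlib.Tactic.Linarith.sub_neg_of_lt hng) (Mathlib.Tactic.Linarith.sub_neg_of_lt hc)]
    have e5 : d * T = (1 - θ) * (T * (d + n * g)) := by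
      conv_lhs => rw [← e2]
      ring
    rw [e5]
    (refine le_of_not_gt fun h_nl => ?_; linarith only [h_nl, hθB, e4, e5, hd, hPq, hTP, hng, mul_nonneg_of_nonpos_of_nonpos (Mathlib.Tactic.Linarith.sub_nonpos_of_le (sq_nonneg ((1 : ℝ) * θ))) (Mathlib.Tactic.Linarith.sub_nonpos_of_le hd), mul_nonneg_of_nonpos_of_nonpos (Mathlib.Tactic.Linarith.sub_nonpos_of_le hd) (Mathlib.Tactic.Linarith.sub_nonpos_of_le hPq), Mathlib.Tactic.Linarith.mul_zero_eq (Mathlib.Tactic.Linarith.sub_nonpos_of_le hd) (sub_eq_zero_of_eq hTP), Mathlib.Tactic.Linarith.mul_zero_eq (Mathlib.Tactic.Linarith.sub_neg_of_lt hng) (sub_eq_zero_of_eq e5), mul_pos_of_neg_of_neg (Mathlib.Tactic.Linarith.sub_neg_of_lt hng) (Mathlib.Tactic.Linarith.sub_neg_of_lt h_nl)])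
  have hslope : (n + 1) * g * T ≤ Q - 1 := by
    have e1 : (n + 1) * g * T * n = (n + 1) * (P - 1) := by rw [← hTP]; ring
    have e2 : P * (1 + y) ≤ Q := by
      have : 0 ≤ (n + 1) * P * (1 + y₁ - (1 + y)) :=
        mul_nonneg (mul_nonneg (by linarith only [hN]) (by linarith only [hP1])) (by linarith only [hle])
      linarith only [hconv, this]
    have e3 : (n + 1) * g * T * n ≤ (Q - 1) * n := by linarith only [hmvt, e1, e2, mul_nonneg_of_nonpos_of_nonpos (Mathlib.Tactic.Linarith.sub_nonpos_of_le (Mathlib.Tactic.Linarith.natCast_nonneg ℝ n)) (Mathlib.Tactic.Linarith.sub_nonpos_of_le e2)]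
    exact le_of_mul_le_mul_right e3 hN0
  have hgap : P * d * (1 - g) ≤ (Q - P * (1 + y)) * (d + n * g) := by
    have e1 := mul_le_mul_of_nonneg_right hconv hB.le
    have e2 : (n + 1) * P * (1 + y₁ - (1 + y)) * (d + n * g) =
        (n + 1) * P * (d * (1 - g) / (n + d)) := by rw [← hyy]; ring
    have e3 : P * d * (1 - g) ≤ (n + 1) * P * (d * (1 - g) / (n + d)) := by
      have e4 : d * (1 - g) ≤ (n + 1) * (d * (1 - g) / (n + d)) := by
        have e5 : d * (1 - g) = (n + d) * (d * (1 - g) / (n + d)) := by field_simp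
        conv_lhs => rw [e5]
        exact mul_le_mul_of_nonneg_right (by linarith only [hd']) hyy0
      have := mul_le_mul_of_nonneg_left e4 (show 0 ≤ P by linarith only [hP1])
      linarith only [this]
    linarith only [e1, e2, e3]
  refine ⟨P * d - 1 + d * T, ?_, ?_⟩
  · have e1 : 9 / 20 * (1 + θ + θ ^ 2 / 4) ≤ P * d := by linarith only [hd, hPq, hθ0, mul_nonneg_of_nonpos_of_nonpos (Mathlib.Tactic.Linarith.sub_nonpos_of_le (sq_nonneg ((1 : ℝ) * θ))) (Mathlib.Tactic.Linarith.sub_nonpos_of_le hd), mul_nonneg_of_nonpos_of_nonpos (Mathlib.Tactic.Linarith.sub_nonpos_of_le hd) (Mathlib.Tactic.Linarith.sub_nonpos_of_le hθ0), mul_nonneg_of_nonpos_of_nonpos (Mathlib.Tactic.Linarith.sub_nonpos_of_le hd) (Mathlib.Tactic.Linarith.sub_nonpos_of_le hPq)]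
    (refine lt_of_not_ge fun h_nl => ?_; linarith only [h_nl, hd', hng, hyB, hθB, hPq, hTP, hdT, e1, hd, hN, hy0, hg0, hθ, hg1, hθ1, hθ0, sq_nonneg ((1 : ℝ) * θ), mul_nonneg_of_nonpos_of_nonpos (Mathlib.Tactic.Linarith.sub_nonpos_of_le (sq_nonneg ((1 : ℝ) * θ))) (Mathlib.Tactic.Linarith.sub_nonpos_of_le hd), mul_nonneg_of_nonpos_of_nonpos (Mathlib.Tactic.Linarith.sub_nonpos_of_le (sq_nonneg ((1 : ℝ) * y))) (Mathlib.Tactic.Linarith.sub_nonpos_of_le hN), mul_nonneg_of_nonpos_of_nonpos (Mathlib.Tactic.Linarith.sub_nonpos_of_le hd) (le_of_lt (Mathlib.Tactic.Linarith.sub_neg_of_lt hy0)), mul_nonneg_of_nonpos_of_nonpos (Mathlib.Tactic.Linarith.sub_nonpos_of_le hd) (Mathlib.Tactic.Linarith.sub_nonpos_of_le hPq), Mathlib.Tactic.Linarith.mul_zero_eq (Mathlib.Tactic.Linarith.sub_nonpos_of_le hd) (sub_eq_zero_of_eq hTP), Mathlib.Tactic.Linarith.mul_zero_eq (Mathlib.Tactic.Linarith.sub_neg_of_lt hg0) (sub_eq_zero_of_eq hθ), mul_nonneg_of_nonpos_of_nonpos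 (Mathlib.Tactic.Linarith.sub_nonpos_of_le hg1) (Mathlib.Tactic.Linarith.sub_nonpos_of_le hθ1), mul_nonneg_of_nonpos_of_nonpos (le_of_lt (Mathlib.Tactic.Linarith.sub_neg_of_lt hng)) (Mathlib.Tactic.Linarith.sub_nonpos_of_le e1), mul_nonneg_of_nonpos_of_nonpos (le_of_lt (Mathlib.Tactic.Linarith.sub_neg_of_lt hng)) (Mathlib.Tactic.Linarith.sub_nonpos_of_le h_nl), mul_pos_of_neg_of_neg (Mathlib.Tactic.Linarith.sub_neg_of_lt hy0) (Mathlib.Tactic.Linarith.sub_neg_of_lt hy0), Mathlib.Tactic.Linarith.mul_zero_eq (Mathlib.Tactic.Linarith.sub_neg_of_lt hy0) (sub_eq_zero_of_eq hθ), mul_nonneg_of_nonpos_of_nonpos (le_of_lt (Mathlib.Tactic.Linarith.sub_neg_of_lt hy0)) (Mathlib.Tactic.Linarith.sub_nonpos_of_le hθ1), Mathlib.Tactic.Linarith.mul_zero_eq (Mathlib.Tactic.Linarith.sub_nonpos_of_le hθ0) (sub_eq_zero_of_eq hθB)])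
  · have e1 := mul_le_mul_of_nonneg_right hslope (show 0 ≤ bs - (d + n * g) by linarith only [hb2])
    have e2 : 1 + T * ((n + 1) * (g * (d + n * g)) - d) =
        (P * (1 + y) - 1) * (d + n * g) + (1 - g) * (1 - d * T) := by
      have e3 : P = 1 + T * (n * g) := by linarith only [hTP]
      have e4 : (P * (1 + y) - 1) * (d + n * g) = P * (d + n * g + g) - (d + n * g) := by
        have : (P * (1 + y) - 1) * (d + n * g) =
          P * (d + n * g + y * (d + n * g)) - (d + n * g) := by ring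
        rw [this, hyB]
      rw [e4, e3]; ring
    linarith only [hgap, e1, e2]

variable {n : ℕ} {d z v b R β : ℝ}

theorem real_two (C : Crit n d z) (H : Bounds n d z v b R β) (h : n = 1) :
    z * R ≤ β ∧ (β ≤ z * R → v = b ∧ (b = d / (n + 1) ∨ b = n + d)) := by
  have hz := C.z_two h
  have hd := C.two h
  have h1 := H.v_lo
  have h2 := H.v_hi
  have h3 := H.b_hi
  have h4 := H.V1
  have h5 := H.Q1
  have h6 := H.Q5 (b + v + 1 / 2)
  subst h
  rw [hd] at h1 h3 h4 h6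
  rw [hd, hz]
  simp only [Nat.cast_one] at h1 h3 h4 h6 ⊢
  have h1' : 1 / 4 ≤ v := by linarith only [h1]
  have h4' : 9 / 16 * R ≤ 3 / 8 * (1 + 2 * v) := by
    rw [le_div_iff₀ (by norm_num)] at h4
    linarith only [h4]
  by_cases hx : 0 ≤ v - b * (b - 1 / 2)
  · have hw : 0 < b + v + 1 / 2 := by linarith only [h2, h1]
    have h7 := h6 (by linarith only [h1]) (by linarith only [h2, h1, mul_nonneg_of_nonpos_of_nonpos (Mathlib.Tactic.Linarith.sub_nonpos_of_le h2) (Mathlib.Tactic.Linarith.sub_nonpos_of_le h1), mul_nonneg_of_nonpos_of_nonpos (Mathlib.Tactic.Linarith.sub_nonpos_of_le h1) (Mathlib.Tactic.Linarith.sub_nonpos_of_le h1)])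
    have key : (b - 3 / 8 * (1 + 2 * v)) * (b + v + 1 / 2) + (1 * v - b * (b - 1 / 2)) =
        (b - v) * (v / 4 + 5 / 8) + (v - 1 / 4) * (3 / 2 - v) / 2 := by ring
    have hA : 0 ≤ (b - v) * (v / 4 + 5 / 8) := mul_nonneg (by linarith only [h2]) (by linarith only [h1])
    have hB : 0 ≤ (v - 1 / 4) * (3 / 2 - v) := mul_nonneg (by linarith only [h1]) (by linarith only [h2, h3])
    have h8 : (β - 3 / 8 * (1 + 2 * v)) * (b + v + 1 / 2) ≥
        (b - v) * (v / 4 + 5 / 8) + (v - 1 / 4) * (3 / 2 - v) / 2 := by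
      rw [← key]
      have h9 : (1 * v - b * (b - 1 / 2)) / (b + v + 1 / 2) ≤ β - b := by linarith only [h7]
      rw [div_le_iff₀ hw] at h9
      linarith only [h9]
    refine ⟨?_, fun he => ?_⟩
    · have : 0 ≤ β - 3 / 8 * (1 + 2 * v) := by
        by_contra hc
        push Not at hc
        linarith only [h2, hB, h8, hc, h1, mul_nonneg_of_nonpos_of_nonpos (Mathlib.Tactic.Linarith.sub_nonpos_of_le h2) (Mathlib.Tactic.Linarith.sub_nonpos_of_le h1), mul_nonneg_of_nonpos_of_nonpos (Mathlib.Tactic.Linarith.sub_nonpos_of_le h2) (le_of_lt (Mathlib.Tactic.Linarith.sub_neg_of_lt hc)), mul_nonneg_of_nonpos_of_nonpos (Mathlib.Tactic.Linarith.sub_nonpos_of_le h1) (le_of_lt (Mathlib.Tactic.Linarith.sub_neg_of_lt hc))]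
      linarith only [h4', this]
    · have h10 : β - 3 / 8 * (1 + 2 * v) ≤ 0 := by linarith only [h4', he]
      have h11 : (β - 3 / 8 * (1 + 2 * v)) * (b + v + 1 / 2) ≤ 0 :=
        mul_nonpos_of_nonpos_of_nonneg h10 hw.le
      have hA0 : (b - v) * (v / 4 + 5 / 8) = 0 := by linarith only [hA, hB, h8, h11]
      have hB0 : (v - 1 / 4) * (3 / 2 - v) = 0 := by linarith only [hB, hA, h8, h11]
      have hbv : b = v := by
        rcases mul_eq_zero.1 hA0 with h | h
        · linarith only [h2, h]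
        · linarith only [h1, h]
      refine ⟨hbv.symm, ?_⟩
      rcases mul_eq_zero.1 hB0 with h | h
      · left; linarith only [h2, h1, hbv, h]
      · right; linarith only [h2, h, h3]
  · push Not at hx
    have hb : 1 / 3 ≤ b := by
      by_contra hc
      push Not at hc
      linarith only [h2, h1, hx, hc, h3, mul_nonneg_of_nonpos_of_nonpos (Mathlib.Tactic.Linarith.sub_nonpos_of_le h2) (Mathlib.Tactic.Linarith.sub_nonpos_of_le h3), mul_nonneg_of_nonpos_of_nonpos (Mathlib.Tactic.Linarith.sub_nonpos_of_le h1) (Mathlib.Tactic.Linarith.sub_nonpos_of_le h3)]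
    have h7 : 0 ≤ (3 * b - 1) * (3 - 2 * b) := mul_nonneg (by linarith only [hb]) (by linarith only [h3])
    have h8 : 9 / 16 * R < β := by linarith only [h5, h4', hx, h7]
    exact ⟨h8.le, fun he => absurd he (not_le.2 h8)⟩

theorem real_ridge (C : Crit n d z) (H : Bounds n d z v b R β) (h : 2 ≤ n) (hb : 7 / 4 ≤ b) :
    z * R ≤ β ∧ (β ≤ z * R → v = b ∧ b = n + d) := by
  have hz := C.z_pos
  have hd := C.d_lo
  have hd' := C.d_hi
  have hN : (2 : ℝ) ≤ n := by exact_mod_cast h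
  have hv : 0 < v := lt_of_lt_of_le (div_pos (by linarith only [hd]) (by linarith only [hN])) H.v_lo
  have hvb := H.v_hi
  have hbn := H.b_hi
  obtain ⟨bs, hbs, hq, hβ⟩ : ∃ bs, b ≤ bs ∧ n * v ≤ bs * (bs - d) ∧ bs ≤ β := by
    by_cases hx : n * v ≤ b * (b - d)
    · exact ⟨b, le_rfl, hx, H.Q1⟩
    · push Not at hx
      have hs0 : 0 ≤ d ^ 2 / 4 + n * v := by positivity
      have hs := Real.sq_sqrt hs0
      have hs' := Real.sqrt_nonneg (d ^ 2 / 4 + n * v)
      set s := Real.sqrt (d ^ 2 / 4 + n * v) with hsdef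
      have hbb : (d / 2 + s) * (d / 2 + s - d) = n * v := by nlinarith
      have hlt : b ≤ d / 2 + s := by
        by_contra hc
        push Not at hc
        linarith only [hx, hs, hc, hb, hd', hs', mul_nonneg_of_nonpos_of_nonpos (Mathlib.Tactic.Linarith.sub_nonpos_of_le hb) (le_of_lt (Mathlib.Tactic.Linarith.sub_neg_of_lt hc)), mul_nonneg_of_nonpos_of_nonpos (Mathlib.Tactic.Linarith.sub_nonpos_of_le hd') (le_of_lt (Mathlib.Tactic.Linarith.sub_neg_of_lt hc)), mul_nonneg_of_nonpos_of_nonpos (Mathlib.Tactic.Linarith.sub_nonpos_of_le hs') (le_of_lt (Mathlib.Tactic.Linarith.sub_neg_of_lt hc))]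
      set b' := d / 2 + s with hb'
      have hw : 0 < b' + b - d := by linarith only [hb, hd', hlt]
      have h1 : n * v ≤ (b' + b - d) * ((b' + b - d) - (1 + b - d)) := by
        have e1 : 0 ≤ (b' - b) * (b - 1) := mul_nonneg (by linarith only [hlt]) (by linarith only [hb])
        have e2 : 0 ≤ (b - 7 / 4) * (b - 1 / 4) := mul_nonneg (by linarith only [hb]) (by linarith only [hb])
        linarith only [hd, hbb, e1, e2]
      have h2 := H.Q5 (b' + b - d) (by linarith only [hb, hlt]) h1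
      have h3 : (n * v - b * (b - d)) / (b' + b - d) = b' - b := by
        rw [div_eq_iff hw.ne', ← hbb]; ring
      refine ⟨b', hlt, hbb.ge, by linarith only [h2, h3]⟩
  have hbs0 : 0 < bs := by linarith only [hb, hbs]
  set g := v / bs with hg
  have hg0 : 0 < g := div_pos hv hbs0
  have hg1 : g ≤ 1 := (div_le_one hbs0).2 (by linarith only [hvb, hbs])
  have hvg : v = g * bs := by rw [hg]; field_simp
  have hb2 : d + n * g ≤ bs := by
    have : n * g ≤ bs - d := by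
      rw [hg, ← mul_div_assoc, div_le_iff₀ hbs0]; linarith only [hq]
    linarith only [this]
  have hR := H.VR g bs hg0 hbs hb2 hvg
  obtain ⟨c, hc, hcore⟩ := kridge_core n h d g bs hd hd' hg0 hg1 hb2
  rw [← hvg] at hcore
  have hcov := C.cover
  have h1 : z * R ≤ bs - z * ((1 - g) * c) := by
    have e1 : z * R ≤ z * (((1 + 1 / (n + d)) ^ (n + 1) - 1) * bs - (1 - g) * c) :=
      mul_le_mul_of_nonneg_left (hR.trans hcore) hz.le
    have e2 : z * (((1 + 1 / (n + d)) ^ (n + 1) - 1) * bs - (1 - g) * c) =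
        (z * ((1 + 1 / (n + d)) ^ (n + 1) - 1)) * bs - z * ((1 - g) * c) := by ring
    rw [e2, hcov, one_mul] at e1
    exact e1
  have h2 : 0 ≤ z * ((1 - g) * c) := mul_nonneg hz.le (mul_nonneg (by linarith only [hg1]) hc.le)
  refine ⟨by linarith only [hβ, h1, h2], fun he => ?_⟩
  have h3 : z * ((1 - g) * c) = 0 := by linarith only [h2, hβ, h1, he]
  have h4 : g = 1 := by
    rcases mul_eq_zero.1 h3 with h5 | h5
    · exact absurd h5 hz.ne'
    · rcases mul_eq_zero.1 h5 with h6 | h6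
      · linarith only [h6, hg1]
      · exact absurd h6 hc.ne'
  rw [h4] at hvg hb2
  constructor <;> linarith only [hbs, hvg, hvb, hb2, hbn]

theorem real_tail (C : Crit n d z) (H : Bounds n d z v b R β) (hb : b ≤ 7 / 4)
    (hN : 36 ≤ n * v) : z * R < β := by
  have hz := C.z_pos
  have hz' := C.z_le
  have hd := C.d_lo
  have hd' := C.d_hi
  have hn0 : (0 : ℝ) ≤ n := Nat.cast_nonneg n
  have hv : 0 < v := lt_of_lt_of_le (div_pos (by linarith only [hz, hz', hd]) (by linarith only [hz, hz'])) H.v_lo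
  have hvb := H.v_hi
  have hb0 : 0 < b := by linarith only [hv, hvb]
  have hs := Real.sq_sqrt (show 0 ≤ n * v by linarith only [hN, hz, hz'])
  have hs6 : 6 ≤ Real.sqrt (n * v) := Real.le_sqrt_of_sq_le (by linarith only [hN])
  set s := Real.sqrt (n * v) with hsdef
  have hw : 0 < s + (1 + b - d) := by linarith only [hz, hz', hd', hv, hvb, hs6]
  have h1 := H.Q5 (s + (1 + b - d)) (by linarith only [hz, hz', hs6]) (by (refine le_of_not_gt fun h_nl => ?_; linarith only [h_nl, hz', hd', hvb, hs, hs6, hz, hv, mul_pos_of_neg_of_neg (Mathlib.Tactic.Linarith.sub_neg_of_lt hz) (Mathlib.Tactic.Linarith.sub_neg_of_lt hz), mul_nonneg_of_nonpos_of_nonpos (le_of_lt (Mathlib.Tactic.Linarith.sub_neg_of_lt hz)) (Mathlib.Tactic.Linarith.sub_nonpos_of_le hz'), mul_pos_of_neg_of_neg (Mathlib.Tactic.Linarith.sub_neg_of_lt hz) (Mathlib.Tactic.Linarith.sub_neg_of_lt hv), mul_pos_of_neg_of_neg (Mathlib.Tactic.Linarith.sub_neg_of_lt hz) (Mathlib.Tactic.Linarith.sub_neg_of_lt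 h_nl), mul_nonneg_of_nonpos_of_nonpos (Mathlib.Tactic.Linarith.sub_nonpos_of_le hz') (le_of_lt (Mathlib.Tactic.Linarith.sub_neg_of_lt hv)), mul_nonneg_of_nonpos_of_nonpos (Mathlib.Tactic.Linarith.sub_nonpos_of_le hz') (le_of_lt (Mathlib.Tactic.Linarith.sub_neg_of_lt h_nl)), mul_nonneg_of_nonpos_of_nonpos (Mathlib.Tactic.Linarith.sub_nonpos_of_le hd') (Mathlib.Tactic.Linarith.sub_nonpos_of_le hs6), mul_nonneg_of_nonpos_of_nonpos (le_of_lt (Mathlib.Tactic.Linarith.sub_neg_of_lt hv)) (Mathlib.Tactic.Linarith.sub_nonpos_of_le hs6), mul_nonneg_of_nonpos_of_nonpos (Mathlib.Tactic.Linarith.sub_nonpos_of_le hvb) (Mathlib.Tactic.Linarith.sub_nonpos_of_le hs6)]))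
  have h2 : s - 11 / 20 - b ≤ (n * v - b * (b - d)) / (s + (1 + b - d)) := by
    rw [le_div_iff₀ hw]
    have e1 : 0 ≤ s * (d - 9 / 20) := mul_nonneg (by linarith only [hz, hz', hs6]) (by linarith only [hd])
    linarith only [hz, hz', hd', hv, hvb, hs, e1]
  have hβ : s - 11 / 20 ≤ β := by linarith only [h1, h2]
  have hvb0 : 0 < v / b := div_pos hv hb0
  have hvb1 : v / b ≤ 1 := (div_le_one hb0).2 hvb
  have h3 := H.Va (s + d - 7 / 16) (by linarith only [hz, hz', hs6]) (by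
    have e1 : 0 ≤ 4 * (s + d - 7 / 16 - d) + b - v / b := by linarith only [hz, hz', hv, hvb, hs6, hvb1]
    have e2 : 4 * (s + d - 7 / 16 - d) + b - v / b ≤ 4 * s := by linarith only [hb, hvb0]
    have e3 := pow_le_pow_left₀ e1 e2 2
    linarith only [hv, hs, e3])
  have hc : 0 < s + d - 7 / 16 := by linarith only [hz, hz', hd, hs6]
  have h4 : 4 / 3 * ((n + 1) * v - d) / (s + d - 7 / 16) ≤ 4 / 3 * s + 13 / 45 := by
    rw [div_le_iff₀ hc]
    have e1 : 0 ≤ s * (d - 7 / 16) := mul_nonneg (by linarith only [hz, hz', hs6]) (by linarith only [hz, hz', hd])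
    linarith only [hb, hz, hz', hd, hvb, hs, hs6, e1]
  have h5 : R ≤ 1 + (4 / 3 * s + 13 / 45) := by linarith only [h3, h4]
  have h6 : z * R ≤ z * (1 + (4 / 3 * s + 13 / 45)) := mul_le_mul_of_nonneg_left h5 hz.le
  have h7 : z * (1 + (4 / 3 * s + 13 / 45)) ≤ 291 / 500 * (1 + (4 / 3 * s + 13 / 45)) :=
    mul_le_mul_of_nonneg_right hz' (by linarith only [hz, hz', hs6])
  linarith only [hz, hz', hs6, h1, h2, h6, h7]

end Pool.Agent.Work.EMC
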