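import Pool.Agent.Work.MP_9079fe_co.KMid
import Pool.Agent.Work.MP_9079fe_co.KRidge
import Pool.Agent.Work.MP_9079fe_co.KNc
import Pool.Agent.Work.MP_9079fe_co.Final
import Mathlib

-- merged part: Pool.Agent.Work.MP_9079fe_co.KFin
section
-- merged part: Pool.Agent.Work.MP_9079fe_co.KRed
section
/-! Reduction to laws with a large atom at zero. -/

namespace Pool.Agent.Work.EMC
open MeasureTheory Set

private theorem kred_union (μ : Measure ℝ) [IsFiniteMeasure μ] (s : ℕ → Set ℝ) (hs : Monotone s)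
    (r : ℝ) (h : ∀ j, μ.real (s j) ≤ r) : μ.real (⋃ j, s j) ≤ r := by
  have hr : 0 ≤ r := le_trans measureReal_nonneg (h 0)
  rw [Measure.real, hs.measure_iUnion]
  apply ENNReal.toReal_le_of_le_ofReal hr
  refine iSup_le fun j => ?_
  exact (ENNReal.le_ofReal_iff_toReal_le (measure_ne_top _ _) hr).2 (h j)

private theorem kred_compl (μ : Measure ℝ) [IsProbabilityMeasure μ] {s : Set ℝ}
    (hs : MeasurableSet s) : μ.real sᶜ = 1 - μ.real s := by
  rw [measureReal_compl hs]
  simp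

private theorem kred_quantile {t ρ : ℝ} {μ : Measure ℝ} [IsProbabilityMeasure μ]
    (hs : ∀ᵐ x ∂μ, x ∈ Icc 0 t) (h0 : 0 < ρ) (h1 : ρ ≤ 1) :
    ∃ c, 0 ≤ c ∧ ρ ≤ μ.real (Ici c) ∧ μ.real (Ioi c) ≤ ρ := by
  set S : Set ℝ := {x | ρ ≤ μ.real (Ici x)} with hS
  have hzero : (0:ℝ) ∈ S := by
    have : μ.real (Iio 0) = 0 := by
      rw [measureReal_eq_zero_iff, measure_eq_zero_iff_ae_notMem]
      filter_upwards [hs] with x hx
      simpa using hx.1
    have h2 := kred_compl μ (measurableSet_Iio (a := (0:ℝ)))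
    rw [compl_Iio, this] at h2
    show ρ ≤ μ.real (Ici 0)
    linarith
  have hbdd : BddAbove S := by
    refine ⟨t, fun x hx => ?_⟩
    by_contra hxt
    push Not at hxt
    have : μ.real (Ici x) = 0 := by
      rw [measureReal_eq_zero_iff, measure_eq_zero_iff_ae_notMem]
      filter_upwards [hs] with y hy
      have := hy.2
      simp only [mem_Ici, not_le]
      linarith
    have hx' : ρ ≤ μ.real (Ici x) := hx
    linarith
  refine ⟨sSup S, le_csSup hbdd hzero, ?_, ?_⟩
  · have hU : Iio (sSup S) = ⋃ j : ℕ, Iio (sSup S - 1 / ((j:ℝ) + 1)) := by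
      ext x
      simp only [mem_Iio, mem_iUnion]
      constructor
      · intro hx
        obtain ⟨j, hj⟩ := exists_nat_one_div_lt (sub_pos.2 hx)
        exact ⟨j, by linarith only [hj]⟩
      · rintro ⟨j, hj⟩
        have : (0:ℝ) < 1 / ((j:ℝ) + 1) := by positivity
        linarith only [hj, this]
    have hle : μ.real (Iio (sSup S)) ≤ 1 - ρ := by
      rw [hU]
      apply kred_union
      · intro i j hij
        apply Iio_subset_Iio
        have : 1 / ((j:ℝ) + 1) ≤ 1 / ((i:ℝ) + 1) := Nat.one_div_le_one_div hij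
        linarith only [this]
      · intro j
        have hp : (0:ℝ) < 1 / ((j:ℝ) + 1) := by positivity
        obtain ⟨s, hsS, hs2⟩ := exists_lt_of_lt_csSup ⟨0, hzero⟩
          (show sSup S - 1 / ((j:ℝ) + 1) < sSup S by linarith)
        have h2 := kred_compl μ (measurableSet_Ici (a := s))
        rw [compl_Ici] at h2
        have h3 : μ.real (Iio (sSup S - 1 / ((j:ℝ) + 1))) ≤ μ.real (Iio s) :=
          measureReal_mono (Iio_subset_Iio hs2.le)
        have h4 : ρ ≤ μ.real (Ici s) := hsS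
        linarith only [h2, h3, h4]
    have h2 := kred_compl μ (measurableSet_Iio (a := sSup S))
    rw [compl_Iio] at h2
    linarith
  · have hU : Ioi (sSup S) = ⋃ j : ℕ, Ici (sSup S + 1 / ((j:ℝ) + 1)) := by
      ext x
      simp only [mem_Ioi, mem_iUnion, mem_Ici]
      constructor
      · intro hx
        obtain ⟨j, hj⟩ := exists_nat_one_div_lt (sub_pos.2 hx)
        exact ⟨j, by linarith only [hj]⟩
      · rintro ⟨j, hj⟩
        have : (0:ℝ) < 1 / ((j:ℝ) + 1) := by positivity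
        linarith
    rw [hU]
    apply kred_union
    · intro i j hij
      apply Ici_subset_Ici.2
      have : 1 / ((j:ℝ) + 1) ≤ 1 / ((i:ℝ) + 1) := Nat.one_div_le_one_div hij
      linarith only [this]
    · intro j
      have hp : (0:ℝ) < 1 / ((j:ℝ) + 1) := by positivity
      by_contra hc
      push Not at hc
      have : sSup S + 1 / ((j:ℝ) + 1) ∈ S := hc.le
      have := le_csSup hbdd this
      linarith

private theorem kred_int {t : ℝ} {μ : Measure ℝ} [IsProbabilityMeasure μ]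
    (hs : ∀ᵐ x ∂μ, x ∈ Icc 0 t) (f : ℝ → ℝ) (hf : Measurable f)
    (hb : ∀ x ∈ Icc 0 t, |f x| ≤ t) : Integrable f μ := by
  refine Integrable.of_bound hf.aestronglyMeasurable t ?_
  filter_upwards [hs] with x hx
  exact hb x hx

private theorem kred_split {t c : ℝ} {μ : Measure ℝ} (h : InL t μ) (hc : 0 ≤ c) :
    Integrable (fun x => max (x - c) 0) μ ∧
      c * μ.real (Ici c) + ∫ x, max (x - c) 0 ∂μ ≤ 1 := by
  have := h.prob
  have i1 : Integrable (fun x : ℝ => x) μ :=
    kred_int h.supp _ measurable_id fun x hx => by rw [abs_of_nonneg hx.1]; exact hx.2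
  have i2 : Integrable (fun x : ℝ => max (x - c) 0) μ := by
    refine kred_int h.supp _ (by fun_prop) fun x hx => ?_
    rw [abs_of_nonneg (le_max_right _ _)]
    apply max_le
    · linarith [hx.2]
    · linarith [hx.1, hx.2]
  have i3 : Integrable ((Ici c).indicator fun _ : ℝ => c) μ :=
    (integrable_const c).indicator measurableSet_Ici
  refine ⟨i2, ?_⟩
  have e : ∫ x, (Ici c).indicator (fun _ : ℝ => c) x ∂μ = c * μ.real (Ici c) := by
    rw [integral_indicator_const _ measurableSet_Ici, smul_eq_mul, mul_comm]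
  rw [← e, ← integral_add i3 i2]
  refine le_trans (integral_mono_ae (i3.add i2) i1 ?_) h.mean
  filter_upwards [h.supp] with x hx
  by_cases hxc : c ≤ x
  · rw [indicator_of_mem (show x ∈ Ici c from hxc), max_eq_left (by linarith)]
    linarith
  · rw [indicator_of_notMem (show x ∉ Ici c from hxc), max_eq_right (by linarith)]
    linarith [hx.1]

private theorem kred_map {t r : ℝ} {μ : Measure ℝ} [IsProbabilityMeasure μ] (g : ℝ → ℝ)
    (hg : Measurable g) (hb : ∀ x, g x ∈ Icc 0 t) (hm : ∫ x, g x ∂μ ≤ 1) (s : Set ℝ)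
    (hs : ∀ x ∈ s, g x = 0) (hr : r ≤ μ.real s) :
    InL t (μ.map g) ∧ r ≤ (μ.map g).real {0} := by
  refine ⟨⟨Measure.isProbabilityMeasure_map hg.aemeasurable, ?_, ?_⟩, ?_⟩
  · exact (ae_map_iff hg.aemeasurable (p := fun x => x ∈ Icc 0 t) measurableSet_Icc).2
      (Filter.Eventually.of_forall hb)
  · rw [integral_map hg.aemeasurable (by fun_prop)]
    exact hm
  · rw [map_measureReal_apply hg (measurableSet_singleton 0)]
    exact hr.trans (measureReal_mono fun x hx => hs x hx)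

theorem reduce_atom {k : ℕ} {t : ℝ} {μ : Measure ℝ} (hk : 0 < k) (ht : (k:ℝ) < t) (h : InL t μ) :
    ∃ ν, InL t ν ∧ 1 - k / t ≤ ν.real {0} ∧
      (cp μ k).real (Ici t) ≤ (cp ν k).real (Ici t) := by
  have := h.prob
  have hk1 : (1:ℝ) ≤ k := by exact_mod_cast hk
  have ht0 : 0 < t := by linarith only [ht, hk1]
  have hρ0 : 0 < (k:ℝ) / t := by positivity
  have hρ1 : (k:ℝ) / t ≤ 1 := by rw [div_le_one ht0]; exact ht.le
  obtain ⟨c, hc0, hc1, hc2⟩ := kred_quantile h.supp hρ0 hρ1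
  obtain ⟨i2, hsp⟩ := kred_split h hc0
  have hE0 : 0 ≤ ∫ x, max (x - c) 0 ∂μ := integral_nonneg fun x => le_max_right _ _
  have hcρ : c * (k / t) ≤ c * μ.real (Ici c) := mul_le_mul_of_nonneg_left hc1 hc0
  rcases lt_or_ge (k * c) t with hlt | hge
  · have hd : 0 < t - k * c := by linarith only [hlt]
    set l : ℝ := t / (t - k * c) with hl
    have hl0 : 0 < l := by positivity
    have hg : Measurable fun x : ℝ => min t (max (x - c) 0 * l) := by fun_prop
    have hb : ∀ x : ℝ, min t (max (x - c) 0 * l) ∈ Icc 0 t := fun x =>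
      ⟨le_min ht0.le (mul_nonneg (le_max_right _ _) hl0.le), min_le_left _ _⟩
    have hm : ∫ x, min t (max (x - c) 0 * l) ∂μ ≤ 1 := by
      have i1 : Integrable (fun x : ℝ => min t (max (x - c) 0 * l)) μ :=
        kred_int h.supp _ hg fun x _ => by rw [abs_of_nonneg (hb x).1]; exact (hb x).2
      refine le_trans (integral_mono i1 (i2.mul_const l) fun x => min_le_right _ _) ?_
      rw [integral_mul_const]
      have e : (1 - c * (k / t)) * l = 1 := by
        have e0 : 1 - c * (k / t) = (t - k * c) / t := by field_simp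
        rw [hl, e0]; field_simp
      calc (∫ x, max (x - c) 0 ∂μ) * l ≤ (1 - c * (k / t)) * l :=
            mul_le_mul_of_nonneg_right (by linarith only [hsp, hcρ]) hl0.le
        _ = 1 := e
    have hI : 1 - k / t ≤ μ.real (Iic c) := by
      have h2 := kred_compl μ (measurableSet_Ioi (a := c))
      rw [compl_Ioi] at h2
      linarith only [hc2, h2]
    obtain ⟨a1, a2⟩ := kred_map _ hg hb hm (Iic c) (fun x hx => by
      have hx' : x ≤ c := hx
      show min t (max (x - c) 0 * l) = 0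
      rw [max_eq_right (by linarith only [hx']), zero_mul, min_eq_right ht0.le]) hI
    refine ⟨_, a1, a2, cp_map_le h.supp k _ hg fun y _ hy => ?_⟩
    by_cases hex : ∃ i, t ≤ max (y i - c) 0 * l
    · obtain ⟨i, hi⟩ := hex
      have := Finset.single_le_sum (f := fun i => min t (max (y i - c) 0 * l))
        (fun j _ => (hb (y j)).1) (Finset.mem_univ i)
      rw [min_eq_left hi] at this
      exact this
    · push Not at hex
      have h1 : ∑ i, (y i - c) * l ≤ ∑ i, min t (max (y i - c) 0 * l) := by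
        refine Finset.sum_le_sum fun i _ => ?_
        rw [min_eq_right (hex i).le]
        exact mul_le_mul_of_nonneg_right (le_max_left _ _) hl0.le
      refine le_trans ?_ h1
      rw [← Finset.sum_mul, Finset.sum_sub_distrib, Finset.sum_const, Finset.card_univ,
        Fintype.card_fin, nsmul_eq_mul]
      have e : (t - k * c) * l = t := by rw [hl]; field_simp
      calc t = (t - k * c) * l := e.symm
        _ ≤ _ := mul_le_mul_of_nonneg_right (by linarith only [hy]) hl0.le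
  · have e1 : c * (k / t) = k * c / t := by ring
    have h1 : 1 ≤ k * c / t := by rw [le_div_iff₀ ht0]; linarith only [hge]
    have h2 : k * c / t ≤ 1 := by linarith only [hsp, hE0, hcρ, e1]
    have hkc : k * c = t := by
      rw [div_le_one ht0] at h2
      linarith only [hge, h2]
    have hcpos : 0 < c := by
      rcases hc0.eq_or_lt with h0 | h0
      · rw [← h0] at hkc; linarith only [ht, hk1, hkc]
      · exact h0
    have hct : c ≤ t := by linarith only [hkc, hk1, hc0, mul_nonneg_of_nonpos_of_nonpos (Mathlib.Tactic.Linarith.sub_nonpos_of_le hk1) (Mathlib.Tactic.Linarith.sub_nonpos_of_le hc0)]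
    have hE : ∫ x, max (x - c) 0 ∂μ = 0 := by linarith only [hE0, hsp, hcρ, e1, h1]
    have hs : ∀ᵐ x ∂μ, x ∈ Icc 0 c := by
      have := (integral_eq_zero_iff_of_nonneg (fun x => le_max_right _ _) i2).1 hE
      filter_upwards [this, h.supp] with x hx hx2
      refine ⟨hx2.1, ?_⟩
      have h3 : max (x - c) 0 = 0 := hx
      have := le_max_left (x - c) 0
      linarith only [h3, this]
    have hg : Measurable ((Ici c).indicator fun _ : ℝ => c) :=
      measurable_const.indicator measurableSet_Ici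
    have hb : ∀ x : ℝ, (Ici c).indicator (fun _ : ℝ => c) x ∈ Icc 0 t := fun x => by
      by_cases hx : x ∈ Ici c
      · rw [indicator_of_mem hx]; exact ⟨hc0, hct⟩
      · rw [indicator_of_notMem hx]; exact ⟨le_rfl, ht0.le⟩
    have hm : ∫ x, (Ici c).indicator (fun _ : ℝ => c) x ∂μ ≤ 1 := by
      rw [integral_indicator_const _ measurableSet_Ici, smul_eq_mul, mul_comm]
      linarith only [hsp, hE0]
    have hI : 1 - k / t ≤ μ.real (Iio c) := by
      have h3 := kred_compl μ (measurableSet_Ici (a := c))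
      rw [compl_Ici] at h3
      have h4 : c * μ.real (Ici c) ≤ c * (k / t) := by linarith only [hsp, hE0, e1, h1]
      have := le_of_mul_le_mul_left h4 hcpos
      linarith only [h3, this]
    obtain ⟨a1, a2⟩ := kred_map _ hg hb hm (Iio c) (fun x hx =>
      indicator_of_notMem (by simpa using hx) _) hI
    refine ⟨_, a1, a2, cp_map_le hs k _ hg fun y hy0 hy => ?_⟩
    have hall : ∀ i, c ≤ y i := by
      intro i
      by_contra hi
      push Not at hi
      have := Finset.sum_lt_sum (s := Finset.univ) (f := y) (g := fun _ => c)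
        (fun j _ => (hy0 j).2) ⟨i, Finset.mem_univ i, hi⟩
      rw [Finset.sum_const, Finset.card_univ, Fintype.card_fin, nsmul_eq_mul] at this
      linarith only [hkc, hy, this]
    have : ∑ i, (Ici c).indicator (fun _ : ℝ => c) (y i) = ∑ _i : Fin k, c :=
      Finset.sum_congr rfl fun i _ => indicator_of_mem (show y i ∈ Ici c from hall i) _
    rw [this, Finset.sum_const, Finset.card_univ, Fintype.card_fin, nsmul_eq_mul]
    linarith only [hge]

end Pool.Agent.Work.EMC
end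

-- merged part: Pool.Agent.Work.MP_9079fe_co.KBen
section
/-! Bennett type bounds for the moment generating function. -/

namespace Pool.Agent.Work.EMC
open MeasureTheory Set

private theorem ben_rep (y : ℝ) :
    Real.exp y - 1 - y = y ^ 2 * ∫ r in (0 : ℝ)..1, (1 - r) * Real.exp (r * y) := by
  rw [← intervalIntegral.integral_const_mul,
    intervalIntegral.integral_eq_sub_of_hasDerivAt
      (f := fun r => y * (1 - r) * Real.exp (r * y) + Real.exp (r * y))]
  · simp
    ring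
  · intro r _
    have h1 : HasDerivAt (fun r : ℝ => Real.exp (r * y)) (Real.exp (r * y) * y) r := by
      simpa using ((hasDerivAt_id r).mul_const y).exp
    have h2 : HasDerivAt (fun r : ℝ => y * (1 - r)) (y * (-1)) r := by
      simpa using ((hasDerivAt_id r).const_sub 1).const_mul y
    refine ((h2.mul h1).add h1).congr_deriv ?_
    ring
  · exact (by fun_prop : Continuous fun r : ℝ =>
      y ^ 2 * ((1 - r) * Real.exp (r * y))).intervalIntegrable _ _

theorem ben {y Y : ℝ} (h : y ≤ Y) :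
    (Real.exp y - 1 - y) * Y ^ 2 ≤ y ^ 2 * (Real.exp Y - 1 - Y) := by
  have hI : ∫ r in (0 : ℝ)..1, (1 - r) * Real.exp (r * y) ≤
      ∫ r in (0 : ℝ)..1, (1 - r) * Real.exp (r * Y) := by
    refine intervalIntegral.integral_mono_on zero_le_one
      ((by fun_prop : Continuous fun r : ℝ => (1 - r) * Real.exp (r * y)).intervalIntegrable _ _)
      ((by fun_prop : Continuous fun r : ℝ => (1 - r) * Real.exp (r * Y)).intervalIntegrable _ _)
      fun r hr => ?_
    exact mul_le_mul_of_nonneg_left (Real.exp_le_exp.2 (mul_le_mul_of_nonneg_left h hr.1))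
      (sub_nonneg.2 hr.2)
  rw [ben_rep y, ben_rep Y]
  have := mul_le_mul_of_nonneg_left hI (mul_nonneg (sq_nonneg y) (sq_nonneg Y))
  linarith

/-- Bennett's quadratic majorant. -/
private theorem ben_up {y B r : ℝ} (hB : 0 < B) (hy : y ≤ B) (hr : 0 ≤ r) :
    Real.exp (r * y) ≤ 1 + r * y + y ^ 2 * ((Real.exp (r * B) - 1 - r * B) / B ^ 2) := by
  rcases hr.eq_or_lt with rfl | hr
  · simp
  have h := ben (mul_le_mul_of_nonneg_left hy hr.le)
  have h2 : (Real.exp (r * y) - 1 - r * y) * B ^ 2 ≤ y ^ 2 * (Real.exp (r * B) - 1 - r * B) := by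
    refine le_of_mul_le_mul_left ?_ (pow_pos hr 2)
    linarith
  rw [← mul_div_assoc, ← sub_le_iff_le_add', le_div_iff₀ (pow_pos hB 2)]
  linarith

/-- Bennett's quadratic minorant. -/
private theorem ben_lo {y L r : ℝ} (hL : 0 < L) (hy : y ≤ L) (hr : 0 ≤ r) :
    1 - r * y + y ^ 2 * ((Real.exp (-r * L) - 1 + r * L) / L ^ 2) ≤ Real.exp (-r * y) := by
  rcases hr.eq_or_lt with rfl | hr
  · simp
  have h := ben (y := -r * L) (Y := -r * y) (by nlinarith)
  have h2 : y ^ 2 * (Real.exp (-r * L) - 1 + r * L) ≤ (Real.exp (-r * y) - 1 + r * y) * L ^ 2 := by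
    refine le_of_mul_le_mul_left ?_ (pow_pos hr 2)
    linarith
  rw [← mul_div_assoc, ← le_sub_iff_add_le', div_le_iff₀ (pow_pos hL 2)]
  linarith

private theorem ben_int {μ : Measure ℝ} {m v : ℝ} (h : Law μ m v) {f : ℝ → ℝ}
    (hf : Continuous f) : Integrable f μ := by
  have := h.prob
  obtain ⟨C, hC⟩ := (isCompact_Icc (a := (0 : ℝ)) (b := m)).exists_bound_of_continuousOn
    hf.continuousOn
  exact Integrable.of_bound hf.aestronglyMeasurable C (h.supp.mono hC)

private theorem ben_quad {μ : Measure ℝ} {m v : ℝ} (h : Law μ m v) (a b c : ℝ) :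
    ∫ x, (a + b * x + c * (x - 1) ^ 2) ∂μ = a + b + c * v := by
  have := h.prob
  rw [integral_add (ben_int h (by fun_prop)) (ben_int h (by fun_prop)),
    integral_add (ben_int h (by fun_prop)) (ben_int h (by fun_prop)), integral_const_mul,
    integral_const_mul, h.mean, h.var]
  simp

private theorem ben_quad_le {μ : Measure ℝ} {m v : ℝ} (h : Law μ m v) (a b c : ℝ) {f : ℝ → ℝ}
    (hf : Continuous f) (hle : ∀ x ∈ Icc 0 m, a + b * x + c * (x - 1) ^ 2 ≤ f x) :
    a + b + c * v ≤ ∫ x, f x ∂μ := by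
  rw [← ben_quad h]
  exact integral_mono_ae (ben_int h (by fun_prop)) (ben_int h hf) (h.supp.mono hle)

private theorem ben_nonneg {μ : Measure ℝ} {m v : ℝ} (h : Law μ m v) (a b c : ℝ)
    (hle : ∀ x ∈ Icc 0 m, 0 ≤ a + b * x + c * (x - 1) ^ 2) : 0 ≤ a + b + c * v := by
  rw [← ben_quad h]
  exact integral_nonneg_of_ae (h.supp.mono hle)

private theorem ben_atom {μ : Measure ℝ} {m v : ℝ} (h : Law μ m v) {f : ℝ → ℝ}
    (hf : Continuous f) (h0 : ∀ x ∈ Icc 0 m, 0 ≤ f x) : μ.real {0} * f 0 ≤ ∫ x, f x ∂μ := by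
  have := h.prob
  rw [← smul_eq_mul, ← integral_indicator_const _ (measurableSet_singleton _)]
  refine integral_mono_ae ((integrable_const _).indicator (measurableSet_singleton _))
    (ben_int h hf) (h.supp.mono fun x hx => ?_)
  by_cases hx0 : x = 0
  · simp [hx0]
  · simpa [hx0] using h0 x hx

theorem Law.basic {μ : Measure ℝ} {m v : ℝ} (h : Law μ m v) : 1 ≤ m ∧ 0 ≤ v ∧ v ≤ m - 1 := by
  have h1 := ben_nonneg h m (-1) 0 fun x hx => by linarith [hx.2]
  have h2 := ben_nonneg h 0 0 1 fun x _ => by linarith [sq_nonneg (x - 1)]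
  have h3 := ben_nonneg h 1 (m - 2) (-1) fun x hx => by
    linarith [mul_nonneg hx.1 (sub_nonneg.2 hx.2)]
  exact ⟨by linarith, by linarith, by linarith⟩

theorem Law.var_lo {μ : Measure ℝ} {m v m0 : ℝ} (h : Law μ m v) (h0 : 1 ≤ m0)
    (atom : 1 - 1 / m0 ≤ μ.real {0}) : m0 - 1 ≤ v := by
  have h1 := ben_atom h (f := fun x => (m0 ^ 2 - 1) + (2 - 2 * m0) * x + 1 * (x - 1) ^ 2)
    (by fun_prop) fun x _ => by linarith only [sq_nonneg (x - m0)]
  rw [ben_quad h] at h1
  have h2 := mul_le_mul_of_nonneg_right atom (sq_nonneg m0)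
  have h3 : (1 - 1 / m0) * m0 ^ 2 = m0 ^ 2 - m0 := by
    have : m0 ≠ 0 := by linarith
    field_simp
  linarith only [h1, h2, h3]

theorem Law.two_point {μ : Measure ℝ} {m v : ℝ} (h : Law μ m v) (hv : v = m - 1) :
    1 / m ≤ μ.real {m} := by
  have hp := h.prob
  have hm : 0 < m := by linarith [h.basic.1]
  have h1 : ∫ x, (1 + (m - 2) * x + (-1) * (x - 1) ^ 2) ∂μ = 0 := by
    rw [ben_quad h, hv]
    ring
  rw [integral_eq_zero_iff_of_nonneg_ae (h.supp.mono fun x hx => by
    simp only [Pi.zero_apply]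
    linarith only [hx, mul_nonneg hx.1 (sub_nonneg.2 hx.2)]) (ben_int h (by fun_prop))] at h1
  have h2 : ∫ x, x ∂μ = ∫ x, indicator {m} (fun _ => m) x ∂μ := by
    refine integral_congr_ae (h1.mono fun x hx => ?_)
    simp only [Pi.zero_apply] at hx
    by_cases hxm : x = m
    · simp [hxm]
    · have : x * (m - x) = 0 := by linarith
      rcases mul_eq_zero.1 this with h0 | h0
      · rw [indicator_of_notMem (show x ∉ ({m} : Set ℝ) from hxm), h0]
      · exact absurd (by linarith) hxm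
  rw [h.mean, integral_indicator_const _ (measurableSet_singleton _), smul_eq_mul] at h2
  rw [div_le_iff₀ hm]
  exact h2.le

theorem Law.Mg_lower {μ : Measure ℝ} {m v g bs l r : ℝ} (h : Law μ m v) (hg : 0 < g)
    (hb : m - 1 ≤ bs) (hv : v = g * bs) (hl : 0 < l) (hl2 : l ≤ bs + g) (hr : 0 ≤ r) :
    Real.exp (-r * (1 - g)) * (1 - g / l * (1 - Real.exp (-r * l))) ≤ Mg μ (-r) := by
  set L := bs + g with hL
  have hL0 : 0 < L := hl.trans_le hl2
  set K := (Real.exp (-r * L) - 1 + r * L) / L ^ 2 with hK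
  set E := Real.exp (-r * (1 - g)) with hE
  have hE0 : 0 < E := Real.exp_pos _
  have h1 := ben_quad_le h (E * (1 + r - r * g - 2 * g * K + K * g ^ 2)) (E * (-r + 2 * g * K))
    (E * K) (f := fun x => Real.exp (-r * x)) (by fun_prop) fun x hx => by
      have h2 := ben_lo (y := x - 1 + g) hL0 (by linarith [hx.2]) hr
      have h3 : Real.exp (-r * x) = E * Real.exp (-r * (x - 1 + g)) := by
        rw [hE, ← Real.exp_add]
        congr 1
        ring
      have := mul_le_mul_of_nonneg_left h2 hE0.le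
      rw [← hK] at this
      linarith only [h3, this]
  refine le_trans ?_ h1
  have h4 : E * (1 + r - r * g - 2 * g * K + K * g ^ 2) + E * (-r + 2 * g * K) + E * K * v =
      E * (1 - g / L * (1 - Real.exp (-r * L))) := by
    have : bs = L - g := by linarith only []
    rw [hv, hK, this]
    field_simp
    ring
  rw [h4]
  refine mul_le_mul_of_nonneg_left ?_ hE0.le
  have h5 := convexOn_exp.2 (mem_univ (-r * L)) (mem_univ 0) (div_nonneg hl.le hL0.le)
    (sub_nonneg.2 ((div_le_one hL0).2 hl2)) (add_sub_cancel _ _)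
  have h6 : (l / L) • (-r * L) + (1 - l / L) • (0 : ℝ) = -r * l := by
    simp only [smul_eq_mul]
    field_simp
    ring
  rw [h6, Real.exp_zero, smul_eq_mul, smul_eq_mul] at h5
  have h7 : g / L * (1 - Real.exp (-r * L)) = g / l * (l / L * (1 - Real.exp (-r * L))) := by
    field_simp
  have h8 := mul_le_mul_of_nonneg_left
    (show l / L * (1 - Real.exp (-r * L)) ≤ 1 - Real.exp (-r * l) by linarith only [h5])
    (div_nonneg hg.le hl.le)
  linarith only [h7, h8]

theorem Law.Mg_upper {μ : Measure ℝ} {m v m0 B r : ℝ} (h : Law μ m v) (h0 : 1 ≤ m0)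
    (atom : 1 - 1 / m0 ≤ μ.real {0}) (hB : 0 < B) (hm : m - m0 ≤ B) (hr : 0 ≤ r) :
    Mg μ r ≤ (1 - 1 / m0 + 1 / m0 * Real.exp (r * m0))
      * Real.exp (m0 * (v - (m0 - 1)) * ((Real.exp (r * B) - 1 - r * B) / B ^ 2)) := by
  set ps := (Real.exp (r * B) - 1 - r * B) / B ^ 2 with hps
  have hps0 : 0 ≤ ps := div_nonneg (by linarith only [Real.add_one_le_exp (r * B)]) (sq_nonneg _)
  set E := Real.exp (r * m0) with hE
  have hE0 : 0 < E := Real.exp_pos _
  have hm0 : 0 < m0 := by linarith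
  have hw : 0 ≤ v - (m0 - 1) := sub_nonneg.2 (h.var_lo h0 atom)
  have hp0 : 0 ≤ 1 - 1 / m0 := sub_nonneg.2 ((div_le_one hm0).2 h0)
  have hQ : ∀ x ∈ Icc 0 m, 0 ≤ E * (1 - r * m0 + ps * (m0 ^ 2 - 1)) +
      E * (r + ps * (2 - 2 * m0)) * x + E * ps * (x - 1) ^ 2 - Real.exp (r * x) := fun x hx => by
    have h2 := ben_up (y := x - m0) hB (by linarith only [hm, hx, hx.2]) hr
    have h3 : Real.exp (r * x) = E * Real.exp (r * (x - m0)) := by
      rw [hE, ← Real.exp_add]
      congr 1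
      ring
    have := mul_le_mul_of_nonneg_left h2 hE0.le
    rw [← hps] at this
    linarith only [h3, this]
  have h1 := ben_atom h (by fun_prop) hQ
  rw [integral_sub (ben_int h (by fun_prop)) (ben_int h (by fun_prop)), ben_quad h] at h1
  have h2 := mul_le_mul_of_nonneg_right atom (hQ 0 ⟨le_rfl, by linarith only [h, h.basic.1]⟩)
  have h3 := h2.trans h1
  rw [mul_zero r, Real.exp_zero] at h3
  have h4 : Mg μ r ≤ 1 - 1 / m0 + 1 / m0 * E + E * ((v - (m0 - 1)) * ps) := by
    have e : (1 - 1 / m0) * (E * (1 - r * m0 + ps * (m0 ^ 2 - 1)) +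
        E * (r + ps * (2 - 2 * m0)) * 0 + E * ps * (0 - 1) ^ 2 - 1) =
        E * (1 - 1 / m0 - r * (m0 - 1) + (m0 ^ 2 - m0) * ps) - (1 - 1 / m0) := by
      field_simp
      ring
    rw [e] at h3
    rw [Mg]
    linarith only [h3]
  have h5 := Real.add_one_le_exp (m0 * (v - (m0 - 1)) * ps)
  have h6 : 0 ≤ 1 - 1 / m0 + 1 / m0 * E := by positivity
  refine h4.trans (le_trans ?_ (mul_le_mul_of_nonneg_left h5 h6))
  have h7 : (1 - 1 / m0 + 1 / m0 * E) * (m0 * (v - (m0 - 1)) * ps + 1) =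
      1 - 1 / m0 + 1 / m0 * E + E * ((v - (m0 - 1)) * ps) +
        (1 - 1 / m0) * (m0 * ((v - (m0 - 1)) * ps)) := by
    field_simp
    ring
  rw [h7]
  exact le_add_of_nonneg_right (by positivity)

end Pool.Agent.Work.EMC
end

-- merged part: Pool.Agent.Work.MP_9079fe_co.KV
section
/-! The master inequality above the threshold, and two test functions. -/

namespace Pool.Agent.Work.EMC
open MeasureTheory Set

variable {n : ℕ} {d m v A B : ℝ} {μ α : Measure ℝ}

private theorem kv_intb (h : Law μ m v) {g : ℝ → ℝ} (hg : Measurable g) (C : ℝ)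
    (hC : ∀ x ∈ Icc 0 m, |g x| ≤ C) : Integrable g μ := by
  have := h.prob
  refine Integrable.of_bound hg.aestronglyMeasurable C ?_
  filter_upwards [h.supp] with x hx
  exact hC x hx

private theorem kv_intc (h : Law μ m v) {g : ℝ → ℝ} (hg : Continuous g) : Integrable g μ := by
  obtain ⟨C, hC⟩ := (isCompact_Icc (a := (0 : ℝ)) (b := m)).exists_bound_of_continuousOn
    hg.continuousOn
  exact kv_intb h hg.measurable C hC

private theorem kv_mean (h : Law μ m v) : ∫ x, (x - 1) ∂μ = 0 := by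
  have := h.prob
  rw [integral_sub (kv_intc h continuous_id') (integrable_const _), h.mean]
  simp

private theorem kv_quad (h : Law μ m v) (a b c : ℝ) :
    ∫ x, (a + b * (x - 1) + c * (x - 1) ^ 2) ∂μ = a + c * v := by
  have := h.prob
  rw [integral_add (kv_intc h (by fun_prop)) (kv_intc h (by fun_prop)),
    integral_add (integrable_const _) (kv_intc h (by fun_prop)), integral_const_mul,
    integral_const_mul, kv_mean h, h.var]
  simp

private theorem kv_intp (K : KKT n d m v A B μ α) {g : ℝ × ℝ → ℝ} (hg : Measurable g) (C : ℝ)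
    (hC : ∀ τ ∈ Icc 0 (n * m), ∀ x ∈ Icc 0 m, |g (τ, x)| ≤ C) : Integrable g (α.prod μ) := by
  have := K.law.prob
  have := K.probα
  refine Integrable.of_bound hg.aestronglyMeasurable C ?_
  filter_upwards [Measure.quasiMeasurePreserving_fst.ae K.suppα,
    Measure.quasiMeasurePreserving_snd.ae K.law.supp] with p h1 h2
  exact hC p.1 h1 p.2 h2

/-- the indicator of the half line -/
private noncomputable def kvI (t s : ℝ) : ℝ := (Ici t).indicator (fun _ => (1 : ℝ)) s

private theorem kvI_meas (t : ℝ) : Measurable (kvI t) :=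
  measurable_const.indicator measurableSet_Ici

private theorem kvI_one {t s : ℝ} (h : t ≤ s) : kvI t s = 1 := indicator_of_mem (show s ∈ Ici t from h) _

private theorem kvI_zero {t s : ℝ} (h : s < t) : kvI t s = 0 :=
  indicator_of_notMem (show s ∉ Ici t from not_le.2 h) _

private theorem kvI_abs (t s : ℝ) : |kvI t s| ≤ 1 := by
  rcases le_or_gt t s with h | h
  · rw [kvI_one h, abs_one]
  · rw [kvI_zero h, abs_zero]
    exact zero_le_one

private theorem kvI_int (α : Measure ℝ) (t x : ℝ) :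
    ∫ τ, kvI t (τ + x) ∂α = α.real (Ici (t - x)) := by
  have : (fun τ => kvI t (τ + x)) = (Ici (t - x)).indicator (fun _ => (1 : ℝ)) := by
    funext τ
    rcases le_or_gt t (τ + x) with h | h
    · rw [kvI_one h, indicator_of_mem (show τ ∈ Ici (t - x) from sub_le_iff_le_add.2 h)]
    · rw [kvI_zero h, indicator_of_notMem
        (show τ ∉ Ici (t - x) from not_le.2 (lt_sub_iff_add_lt.2 h))]
  rw [this, integral_indicator measurableSet_Ici]
  simp

private theorem kv_aff_bound (p q m : ℝ) : ∀ x ∈ Icc 0 m, |p + q * (x - 1)| ≤ |p| + |q| * (m + 1) := by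
  intro x hx
  refine (abs_add_le _ _).trans (add_le_add_right ?_ _)
  rw [abs_mul]
  refine mul_le_mul_of_nonneg_left ?_ (abs_nonneg _)
  rw [abs_le]
  constructor <;> linarith only [hx, hx.1, hx.2]

private theorem kv_prod_int (K : KKT n d m v A B μ α) (p q t : ℝ) :
    Integrable (fun z : ℝ × ℝ => (p + q * (z.2 - 1)) * kvI t (z.1 + z.2)) (α.prod μ) := by
  refine kv_intp K ?_ (|p| + |q| * (m + 1)) fun τ _ x hx => ?_
  · exact (by fun_prop : Measurable fun z : ℝ × ℝ => p + q * (z.2 - 1)).mul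
      ((kvI_meas t).comp (by fun_prop))
  · rw [abs_mul]
    calc _ ≤ |p + q * (x - 1)| * 1 := mul_le_mul_of_nonneg_left (kvI_abs _ _) (abs_nonneg _)
      _ ≤ _ := by rw [mul_one]; exact kv_aff_bound p q m x hx

private theorem kv_moment (K : KKT n d m v A B μ α) (p q : ℝ) :
    ∫ τ, ∫ x, (p + q * (x - 1)) * kvI (n + 1 + d) (τ + x) ∂μ ∂α = p * (A + B) + q * B * v := by
  have := K.law.prob
  have := K.probα
  rw [integral_integral_swap (kv_prod_int K p q (n + 1 + d))]
  rw [← kv_quad K.law (p * (A + B)) (p * B + q * (A + B)) (q * B)]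
  refine integral_congr_ae ?_
  filter_upwards [K.line] with x hx
  rw [integral_const_mul, kvI_int, hx]
  ring

theorem KKT.vmaster (K : KKT n d m v A B μ α) (f : ℝ → ℝ) (hf : Measurable f) (lam θ : ℝ)
    (anti : AntitoneOn f (Ici (n + 1 + d))) (h0 : f (n + 1 + d) = lam)
    (hpos : ∀ s, n + 1 + d ≤ s → 0 ≤ f s)
    (h1 : ∀ s, n + 1 + d ≤ s → d * lam ≤ (s - (n + 1)) * f s)
    (h2 : ∀ τ, n + 1 + d ≤ τ → θ ≤ ∫ x, (τ - n * x) * f (τ + x) ∂μ) :
    θ * A ≤ lam * ((n + 1) * v - d) * B := by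
  have := K.law.prob
  have := K.probα
  obtain ⟨t, ht⟩ : ∃ t : ℝ, t = n + 1 + d := ⟨_, rfl⟩
  have hmom := kv_moment K (d * lam) (-((n + 1) * lam))
  have hpi := kv_prod_int K (d * lam) (-((n + 1) * lam)) t
  have hA := K.at0
  rw [← ht] at anti h0 hpos h1 h2 hmom hA
  obtain ⟨F, hF⟩ : ∃ F : ℝ → ℝ, F = (Ici t).indicator f := ⟨_, rfl⟩
  have hFm : Measurable F := hF ▸ hf.indicator measurableSet_Ici
  have hF1 : ∀ s, t ≤ s → F s = f s := fun s hs =>
    hF ▸ indicator_of_mem (show s ∈ Ici t from hs) _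
  have hF0 : ∀ s, s < t → F s = 0 := fun s hs =>
    hF ▸ indicator_of_notMem (show s ∉ Ici t from not_le.2 hs) _
  have hlam : 0 ≤ lam := h0 ▸ hpos t le_rfl
  have hle : ∀ s, t ≤ s → f s ≤ lam := fun s hs => h0 ▸ anti (le_refl t) hs hs
  have hFb : ∀ s, |F s| ≤ lam := fun s => by
    rcases le_or_gt t s with h | h
    · rw [hF1 s h, abs_of_nonneg (hpos s h)]
      exact hle s h
    · rw [hF0 s h, abs_zero]
      exact hlam
  have hex := K.exch F hFm ⟨lam, fun s _ => hFb s⟩
  have hm1 := K.law.basic.1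
  have hn0 : (0 : ℝ) ≤ n := Nat.cast_nonneg n
  have hbd : ∀ τ, ∀ x ∈ Icc 0 m, |(τ - n * x) * F (τ + x)| ≤ (|τ| + n * m) * lam := by
    intro τ x hx
    rw [abs_mul]
    refine mul_le_mul ?_ (hFb _) (abs_nonneg _) (by positivity)
    refine (abs_sub _ _).trans (add_le_add_right ?_ _)
    rw [abs_of_nonneg (mul_nonneg hn0 hx.1)]
    exact mul_le_mul_of_nonneg_left hx.2 hn0
  have hLi : Integrable (fun z : ℝ × ℝ => (z.1 - n * z.2) * F (z.1 + z.2)) (α.prod μ) := by
    refine kv_intp K ?_ ((n * m + n * m) * lam) fun τ hτ x hx => ?_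
    · exact (by fun_prop : Measurable fun z : ℝ × ℝ => z.1 - n * z.2).mul
        (hFm.comp (by fun_prop))
    · refine (hbd τ x hx).trans (mul_le_mul_of_nonneg_right ?_ hlam)
      rw [abs_of_nonneg hτ.1]
      linarith [hτ.2]
  have hG : Monotone fun s => lam * kvI t s - F s := by
    intro s s' hss
    rcases le_or_gt t s with h | h
    · have h' := h.trans hss
      simp only [kvI_one h, kvI_one h', hF1 s h, hF1 s' h']
      linarith [anti h h' hss]
    · rcases le_or_gt t s' with h' | h'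
      · simp only [kvI_zero h, kvI_one h', hF0 s h, hF1 s' h']
        linarith [hle s' h']
      · simp only [kvI_zero h, kvI_zero h', hF0 s h, hF0 s' h', le_refl]
  have key : ∀ τ, (θ - d * lam) * kvI t τ
      + ∫ x, (d * lam + -((n + 1) * lam) * (x - 1)) * kvI t (τ + x) ∂μ
      ≤ ∫ x, (τ - n * x) * F (τ + x) ∂μ := by
    intro τ
    rcases le_or_gt t τ with h | h
    · have e1 : ∫ x, (d * lam + -((n + 1) * lam) * (x - 1)) * kvI t (τ + x) ∂μ = d * lam := by
        have := kv_quad K.law (d * lam) (-((n + 1) * lam)) 0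
        rw [zero_mul, add_zero] at this
        refine Eq.trans (integral_congr_ae ?_) this
        filter_upwards [K.law.supp] with x hx
        rw [kvI_one (by linarith [hx.1])]
        ring
      have e2 : ∫ x, (τ - n * x) * F (τ + x) ∂μ = ∫ x, (τ - n * x) * f (τ + x) ∂μ := by
        refine integral_congr_ae ?_
        filter_upwards [K.law.supp] with x hx
        rw [hF1 _ (by linarith [hx.1])]
      rw [e1, e2, kvI_one h]
      linarith [h2 τ h]
    · rw [kvI_zero h, mul_zero, zero_add]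
      have i1 : Integrable (fun x => (d * lam + -((n + 1) * lam) * (x - 1)) * kvI t (τ + x)) μ := by
        refine kv_intb K.law ?_ (|d * lam| + |-((n + 1) * lam)| * (m + 1)) fun x hx => ?_
        · exact (by fun_prop : Measurable fun x : ℝ => d * lam + -((n + 1) * lam) * (x - 1)).mul
            ((kvI_meas t).comp (by fun_prop))
        · rw [abs_mul]
          calc _ ≤ |d * lam + -((n + 1) * lam) * (x - 1)| * 1 :=
                mul_le_mul_of_nonneg_left (kvI_abs _ _) (abs_nonneg _)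
            _ ≤ _ := by rw [mul_one]; exact kv_aff_bound _ _ m x hx
      have i2 : Integrable (fun x => (τ - n * x) * F (τ + x)) μ := by
        refine kv_intb K.law ?_ _ (hbd τ)
        exact (by fun_prop : Measurable fun x : ℝ => τ - n * x).mul (hFm.comp (by fun_prop))
      obtain ⟨g, hg⟩ : ∃ g, g = (n + 1) * (lam * kvI t (τ + 1) - F (τ + 1)) := ⟨_, rfl⟩
      have i3 : Integrable (fun x : ℝ => g * (x - 1)) μ := kv_intc K.law (by fun_prop)
      have e3 : ∫ x, g * (x - 1) ∂μ = 0 := by rw [integral_const_mul, kv_mean K.law, mul_zero]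
      rw [← add_zero (∫ x, (d * lam + -((n + 1) * lam) * (x - 1)) * kvI t (τ + x) ∂μ), ← e3,
        ← integral_add i1 i3]
      refine integral_mono (i1.add i3) i2 fun x => ?_
      have a1 : d * lam * kvI t (τ + x) ≤ (τ + x - (n + 1)) * F (τ + x) := by
        rcases le_or_gt t (τ + x) with h' | h'
        · rw [kvI_one h', hF1 _ h', mul_one]
          exact h1 _ h'
        · rw [kvI_zero h', hF0 _ h', mul_zero, mul_zero]
      have a2 : (lam * kvI t (τ + 1) - F (τ + 1)) * (x - 1)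
          ≤ (lam * kvI t (τ + x) - F (τ + x)) * (x - 1) := by
        rcases le_total 1 x with h' | h'
        · exact mul_le_mul_of_nonneg_right (hG (by linarith)) (by linarith)
        · exact mul_le_mul_of_nonpos_right (hG (by linarith)) (by linarith only [h'])
      have a3 := mul_le_mul_of_nonneg_left a2 (by positivity : (0 : ℝ) ≤ n + 1)
      simp only [hg]
      linarith only [a1, a3, a1, a3]
  have j1 : Integrable (fun τ => (θ - d * lam) * kvI t τ) α :=
    (Integrable.of_bound (kvI_meas t).aestronglyMeasurable 1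
      (Filter.Eventually.of_forall (kvI_abs t))).const_mul _
  have j2 := hpi.integral_prod_left
  have j3 := hLi.integral_prod_left
  have fin := integral_mono (j1.add j2) j3 key
  rw [hex] at fin
  have e4 := integral_add j1 j2
  have e5 : ∫ τ, kvI t τ ∂α = A := by
    have := kvI_int α t 0
    simp only [add_zero, sub_zero] at this
    rw [this, hA]
  simp only [Pi.add_apply] at fin
  rw [e4, hmom, integral_const_mul, e5] at fin
  linarith only [fin, fin]

theorem KKT.v1 (K : KKT n d m v A B μ α) : (1 + d) * A ≤ ((n + 1) * v - d) * B := by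
  have := K.law.prob
  have h := K.vmaster (fun _ => 1) measurable_const 1 (1 + d) antitoneOn_const rfl
    (fun _ _ => zero_le_one) (fun s hs => by linarith) fun τ hτ => ?_
  · rwa [one_mul] at h
  · have e := kv_quad K.law (τ - n) (-n) 0
    have e' : ∫ x, (τ - n * x) * 1 ∂μ = ∫ x, (τ - n + -n * (x - 1) + 0 * (x - 1) ^ 2) ∂μ := by
      congr 1
      funext x
      ring
    rw [e', e]
    linarith

private theorem kv_hermite {D g b y : ℝ} (hP : 0 < D - g) (hR : 0 < D + b) (hy : 0 < D + y)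
    (hb : y ≤ b) :
    1 / (D - g) - (y + g) / (D - g) ^ 2 + (y + g) ^ 2 / ((D - g) ^ 2 * (D + b)) ≤ 1 / (D + y) := by
  have e : 1 / (D + y) - (1 / (D - g) - (y + g) / (D - g) ^ 2
      + (y + g) ^ 2 / ((D - g) ^ 2 * (D + b)))
      = (y + g) ^ 2 * (b - y) / ((D - g) ^ 2 * (D + b) * (D + y)) := by
    field_simp
    ring
  have : 0 ≤ (y + g) ^ 2 * (b - y) / ((D - g) ^ 2 * (D + b) * (D + y)) :=
    div_nonneg (mul_nonneg (sq_nonneg _) (by linarith only [hb])) (by positivity)
  linarith only [e, this]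

theorem KKT.va (K : KKT n d m v A B μ α) (hm : 1 < m) (c : ℝ) (hc : d ≤ c)
    (h : (4 * (c - d) + (m - 1) - v / (m - 1)) ^ 2 ≤ 16 * (n * v) + 12 * v) :
    A ≤ 4 / 3 / c * ((n + 1) * v - d) * B := by
  have := K.law.prob
  have hd := K.d_pos
  have hc0 : 0 < c := hd.trans_le hc
  have hn0 : (0 : ℝ) ≤ n := Nat.cast_nonneg n
  obtain ⟨-, hv0, hvb⟩ := K.law.basic
  obtain ⟨b, hb⟩ : ∃ b, b = m - 1 := ⟨_, rfl⟩
  have hb0 : 0 < b := by linarith only [hm, hb]
  rw [← hb] at h hvb
  obtain ⟨g, hg⟩ : ∃ g, g = v / b := ⟨_, rfl⟩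
  rw [← hg] at h
  have hg1 : g ≤ 1 := hg ▸ (div_le_one hb0).2 hvb
  have hv : v = g * b := by rw [hg]; field_simp
  have H := K.vmaster (fun s => 4 / 3 / (s - (n + 1 + d) + c)) (by fun_prop) (4 / 3 / c) 1
    (fun s hs s' _ hss => ?_) (by simp) (fun s hs => ?_) (fun s hs => ?_) fun τ hτ => ?_
  · rwa [one_mul] at H
  · have hs' : n + 1 + d ≤ s := hs
    exact div_le_div_of_nonneg_left (by norm_num) (by linarith) (by linarith)
  · exact div_nonneg (by norm_num) (by linarith)
  · have hD : 0 < s - (n + 1 + d) + c := by linarith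
    rw [← mul_div_assoc d, ← mul_div_assoc (s - (n + 1)), div_le_div_iff₀ hc0 hD]
    linarith only [hc, hs, mul_nonneg (sub_nonneg.2 hc) (sub_nonneg.2 hs)]
  · obtain ⟨D, hD⟩ : ∃ D, D = τ - (n + 1 + d) + c + 1 := ⟨_, rfl⟩
    have hD1 : 1 < D := by linarith
    have hP : 0 < D - g := by linarith
    have hR : 0 < D + b := by linarith
    obtain ⟨W, hW⟩ : ∃ W, W = τ + n * (D - 1) := ⟨_, rfl⟩
    have hW0 : 0 ≤ W := by
      rw [hW]
      have : 0 ≤ (n : ℝ) * (D - 1) := mul_nonneg hn0 (by linarith)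
      linarith only [hd, hτ, this]
    have e := kv_quad K.law
      (4 / 3 * (-n + W * (1 / (D - g) - g / (D - g) ^ 2 + g ^ 2 / ((D - g) ^ 2 * (D + b)))))
      (4 / 3 * W * (-1 / (D - g) ^ 2 + 2 * g / ((D - g) ^ 2 * (D + b))))
      (4 / 3 * W * (1 / ((D - g) ^ 2 * (D + b))))
    have i2 : Integrable (fun x => (τ - n * x) * (4 / 3 / (τ + x - (n + 1 + d) + c))) μ := by
      refine kv_intb K.law (by fun_prop) ((|τ| + n * m) * (4 / 3 / c)) fun x hx => ?_
      rw [abs_mul]
      have hx0 := hx.1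
      refine mul_le_mul ?_ ?_ (abs_nonneg _) (by positivity)
      · refine (abs_sub _ _).trans (add_le_add_right ?_ _)
        rw [abs_of_nonneg (mul_nonneg hn0 hx.1)]
        exact mul_le_mul_of_nonneg_left hx.2 hn0
      · rw [abs_of_nonneg (div_nonneg (by norm_num) (by linarith only [hc, hd, hτ, hx0]))]
        exact div_le_div_of_nonneg_left (by norm_num) hc0 (by linarith only [hτ, hx0])
    refine le_trans ?_ (e ▸ integral_mono_ae (kv_intc K.law (by fun_prop)) i2 ?_)
    · have e2 : 4 / 3 * (-n + W * (1 / (D - g) - g / (D - g) ^ 2 + g ^ 2 / ((D - g) ^ 2 * (D + b))))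
          + 4 / 3 * W * (1 / ((D - g) ^ 2 * (D + b))) * v
          = 4 / 3 * (-n + W * (D + b - g) / ((D - g) * (D + b))) := by
        rw [hv]
        field_simp
        ring
      rw [e2]
      have hW' : W = (n + 1) * D - (c - d) := by
        rw [hW, hD]
        ring
      have a1 : (4 * (c - d) - D) * (D + b - g) ≤ 4 * (n * v) + 3 * v := by
        linarith only [h, sq_nonneg (4 * (c - d) - D - (D + b - g)), sq_nonneg ((4 : ℝ) * (c - d) - D - (D + b - g))]
      have a2 : (n + 3 / 4) ≤ W * (D + b - g) / ((D - g) * (D + b)) := by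
        rw [le_div_iff₀ (mul_pos hP hR), hW']
        have : (D - g) * (D + b) = D * (D + b - g) - v := by
          rw [hv]
          ring
        rw [this]
        linarith only [a1, a1]
      linarith only [a2]
    · filter_upwards [K.law.supp] with x hx
      have hy : 0 < D + (x - 1) := by linarith only [hc, hd, hτ, hD, hx, hx.1]
      have hq := kv_hermite hP hR hy (by linarith only [hb, hx, hx.2] : x - 1 ≤ b)
      have e3 : (τ - n * x) * (4 / 3 / (τ + x - (n + 1 + d) + c))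
          = 4 / 3 * (-n + W * (1 / (D + (x - 1)))) := by
        have : τ + x - (n + 1 + d) + c = D + (x - 1) := by
          rw [hD]
          ring
        rw [this, hW]
        field_simp
        ring
      rw [e3]
      have a3 := mul_le_mul_of_nonneg_left hq hW0
      have e4 : 4 / 3 * (-n + W * (1 / (D - g) - g / (D - g) ^ 2 + g ^ 2 / ((D - g) ^ 2 * (D + b))))
          + 4 / 3 * W * (-1 / (D - g) ^ 2 + 2 * g / ((D - g) ^ 2 * (D + b))) * (x - 1)
          + 4 / 3 * W * (1 / ((D - g) ^ 2 * (D + b))) * (x - 1) ^ 2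
          = 4 / 3 * (-n + W * (1 / (D - g) - (x - 1 + g) / (D - g) ^ 2
            + (x - 1 + g) ^ 2 / ((D - g) ^ 2 * (D + b)))) := by
        ring
      rw [e4]
      linarith only [a3]

end Pool.Agent.Work.EMC
end

-- merged part: Pool.Agent.Work.MP_9079fe_co.KLap
section
/-! The Laplace solution of the exchange equation. -/

namespace Pool.Agent.Work.EMC
open MeasureTheory Set

/-- Truncated Laplace solution. -/
noncomputable def lap (μ : Measure ℝ) (k : ℕ) (L s : ℝ) : ℝ :=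
  ∫ r in (0:ℝ)..L, Real.exp (r * s) / Mg μ r ^ k

variable {μ : Measure ℝ} {m v : ℝ}

private theorem klap_int (h : Law μ m v) {f : ℝ → ℝ} (hf : Continuous f) : Integrable f μ := by
  have := h.prob
  rw [← Measure.restrict_eq_self_of_ae_mem h.supp]
  exact hf.continuousOn.integrableOn_compact isCompact_Icc

/-- First moment of the tilted law. -/
private noncomputable def klap_M1 (μ : Measure ℝ) (r : ℝ) : ℝ := ∫ x, x * Real.exp (r * x) ∂μ

private theorem klap_mem (h : Law μ m v) (r : ℝ) :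
    r ∈ interior (ProbabilityTheory.integrableExpSet id μ) := by
  have : ProbabilityTheory.integrableExpSet id μ = univ :=
    eq_univ_of_forall fun t => klap_int h (f := fun x => Real.exp (t * x)) (by fun_prop)
  rw [this, interior_univ]
  exact mem_univ r

private theorem klap_deriv (h : Law μ m v) (r : ℝ) : HasDerivAt (Mg μ) (klap_M1 μ r) r :=
  ProbabilityTheory.hasDerivAt_mgf (klap_mem h r)

private theorem klap_M1_cont (h : Law μ m v) : Continuous (klap_M1 μ) := by
  have h1 : klap_M1 μ = deriv (ProbabilityTheory.mgf id μ) :=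
    funext fun r => (ProbabilityTheory.deriv_mgf (klap_mem h r)).symm
  rw [h1]
  exact continuous_iff_continuousAt.2 fun r =>
    (ProbabilityTheory.analyticAt_mgf (klap_mem h r)).deriv.continuousAt

private theorem klap_zero (h : Law μ m v) : Mg μ 0 = 1 := by
  have := h.prob
  simp [Mg]

private theorem klap_M1_le (h : Law μ m v) {r : ℝ} (hr : r ≤ 0) : klap_M1 μ r ≤ Mg μ r := by
  have := h.prob
  have h1 : ∫ x, (x * Real.exp (r * x) - Real.exp (r * x)) ∂μ ≤
      ∫ x, (x * Real.exp r - Real.exp r) ∂μ := by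
    refine integral_mono (klap_int h (by fun_prop)) (klap_int h (by fun_prop)) fun x => ?_
    rcases le_total x 1 with hx | hx
    · have : Real.exp r ≤ Real.exp (r * x) := Real.exp_le_exp.2 (by nlinarith)
      simp only
      nlinarith
    · have : Real.exp (r * x) ≤ Real.exp r := Real.exp_le_exp.2 (by nlinarith)
      simp only
      nlinarith
  rw [integral_sub (klap_int h (by fun_prop)) (klap_int h (by fun_prop)),
    integral_sub (klap_int h (by fun_prop)) (klap_int h (by fun_prop)), integral_mul_const,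
    h.mean, integral_const] at h1
  simp only [probReal_univ, smul_eq_mul] at h1
  unfold klap_M1 Mg
  linarith

theorem Law.Mg_pos (h : Law μ m v) (r : ℝ) : 0 < Mg μ r := by
  have := h.prob
  exact ProbabilityTheory.mgf_pos (X := id) (μ := μ) (t := r)
    (klap_int h (f := fun x => Real.exp (r * x)) (by fun_prop))

theorem Law.Mg_cont (h : Law μ m v) : Continuous (Mg μ) := by
  exact continuous_iff_continuousAt.2 fun r => (klap_deriv h r).continuousAt

private theorem klap_cont2 (h : Law μ m v) (k : ℕ) :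
    Continuous fun p : ℝ × ℝ => Real.exp (p.2 * p.1) / Mg μ p.2 ^ k :=
  Continuous.div (by fun_prop) ((h.Mg_cont.comp continuous_snd).pow k)
    fun p => (pow_pos (h.Mg_pos _) k).ne'

private theorem klap_cont1 (h : Law μ m v) (k : ℕ) (s : ℝ) :
    Continuous fun r : ℝ => Real.exp (r * s) / Mg μ r ^ k :=
  (klap_cont2 h k).comp (Continuous.prodMk_right s)

private theorem klap_ftc (h : Law μ m v) (k : ℕ) (s r : ℝ) :
    HasDerivAt (fun r => Real.exp (r * s) / Mg μ r ^ k)
      (Real.exp (r * s) / Mg μ r ^ k * (s - k * (klap_M1 μ r / Mg μ r))) r := by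
  have h0 := h.Mg_pos r
  have h1 : HasDerivAt (fun r => Real.exp (r * s)) (Real.exp (r * s) * s) r := by
    simpa using ((hasDerivAt_id r).mul_const s).exp
  have h2 := (klap_deriv h r).pow k
  have h3 := h1.div h2 (pow_pos h0 k).ne'
  refine HasDerivAt.congr_deriv h3 ?_
  rcases k with _ | k
  · simp
  · simp only [Pi.pow_apply, Nat.add_sub_cancel]
    field_simp
    ring

theorem Law.lap_cont (h : Law μ m v) (k : ℕ) (L : ℝ) : Continuous (lap μ k L) := by
  exact intervalIntegral.continuous_parametric_intervalIntegral_of_continuous'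
    (f := fun s r => Real.exp (r * s) / Mg μ r ^ k) (klap_cont2 h k) 0 L

theorem Law.lap_mono (h : Law μ m v) (k : ℕ) (L : ℝ) : Monotone (lap μ k L) := by
  intro s s' hss
  unfold lap
  rcases le_total 0 L with hL | hL
  · refine intervalIntegral.integral_mono_on hL ((klap_cont1 h k s).intervalIntegrable _ _)
      ((klap_cont1 h k s').intervalIntegrable _ _) fun r hr => ?_
    exact div_le_div_of_nonneg_right
      (Real.exp_le_exp.2 (mul_le_mul_of_nonneg_left hss hr.1)) (pow_pos (h.Mg_pos r) k).le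
  · rw [intervalIntegral.integral_symm L 0, intervalIntegral.integral_symm L 0, neg_le_neg_iff]
    refine intervalIntegral.integral_mono_on hL ((klap_cont1 h k s').intervalIntegrable _ _)
      ((klap_cont1 h k s).intervalIntegrable _ _) fun r hr => ?_
    exact div_le_div_of_nonneg_right
      (Real.exp_le_exp.2 (mul_le_mul_of_nonpos_left hss hr.2)) (pow_pos (h.Mg_pos r) k).le

theorem Law.lap_eq (h : Law μ m v) (n : ℕ) (L τ : ℝ) :
    ∫ x, (n * x - τ) * lap μ (n + 1) L (τ + x) ∂μ = 1 - Real.exp (L * τ) / Mg μ L ^ n := by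
  have := h.prob
  have hc : Continuous fun p : ℝ × ℝ =>
      (n * p.2 - τ) * (Real.exp (p.1 * (τ + p.2)) / Mg μ p.1 ^ (n + 1)) :=
    Continuous.mul (by fun_prop) (Continuous.div (by fun_prop)
      ((h.Mg_cont.comp continuous_fst).pow _) fun p => (pow_pos (h.Mg_pos _) _).ne')
  have hi : Integrable (Function.uncurry fun r x : ℝ =>
      (n * x - τ) * (Real.exp (r * (τ + x)) / Mg μ r ^ (n + 1)))
      ((volume.restrict (uIoc 0 L)).prod μ) := by
    have e : (volume.restrict (uIoc 0 L)).prod μ =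
        (volume.prod μ).restrict (uIoc 0 L ×ˢ Icc 0 m) := by
      rw [← Measure.prod_restrict, Measure.restrict_eq_self_of_ae_mem h.supp]
    rw [e]
    exact (hc.continuousOn.integrableOn_compact (μ := volume.prod μ)
      (isCompact_uIcc.prod isCompact_Icc)).mono_set (prod_mono uIoc_subset_uIcc Subset.rfl)
  have h1 := intervalIntegral_integral_swap hi
  simp only [lap, ← intervalIntegral.integral_const_mul]
  rw [← h1]
  have h2 : ∀ r : ℝ, ∫ x, (n * x - τ) * (Real.exp (r * (τ + x)) / Mg μ r ^ (n + 1)) ∂μ =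
      -(Real.exp (r * τ) / Mg μ r ^ n * (τ - n * (klap_M1 μ r / Mg μ r))) := by
    intro r
    have h0 := h.Mg_pos r
    have h3 : ∀ x : ℝ, (n * x - τ) * (Real.exp (r * (τ + x)) / Mg μ r ^ (n + 1)) =
        Real.exp (r * τ) / Mg μ r ^ (n + 1) * (n * (x * Real.exp (r * x)) -
          τ * Real.exp (r * x)) := by
      intro x
      rw [mul_add, Real.exp_add]
      ring
    simp only [h3]
    rw [integral_const_mul, integral_sub (klap_int h (by fun_prop)) (klap_int h (by fun_prop)),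
      integral_const_mul, integral_const_mul]
    change _ * (n * klap_M1 μ r - τ * Mg μ r) = _
    field_simp
    ring
  simp only [h2]
  rw [intervalIntegral.integral_neg, intervalIntegral.integral_eq_sub_of_hasDerivAt
    (fun r _ => klap_ftc h n τ r) (((klap_cont1 h n τ).mul (continuous_const.sub
      (continuous_const.mul ((klap_M1_cont h).div h.Mg_cont fun r =>
        (h.Mg_pos r).ne')))).intervalIntegrable _ _)]
  simp [klap_zero h]

theorem Law.lap_star (h : Law μ m v) (k : ℕ) {L s s' : ℝ} (hL : L ≤ 0) (hs : (k:ℝ) < s)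
    (hss : s ≤ s') : (s - k) * -lap μ k L s ≤ (s' - k) * -lap μ k L s' := by
  have hq : Continuous fun r => 1 - klap_M1 μ r / Mg μ r :=
    continuous_const.sub ((klap_M1_cont h).div h.Mg_cont fun r => (h.Mg_pos r).ne')
  have key : ∀ s : ℝ, (s - k) * -lap μ k L s = 1 - Real.exp (L * s) / Mg μ L ^ k -
      k * ∫ r in L..0, Real.exp (r * s) / Mg μ r ^ k * (1 - klap_M1 μ r / Mg μ r) := by
    intro s
    have h1 := intervalIntegral.integral_eq_sub_of_hasDerivAt (a := L) (b := 0)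
      (fun r _ => klap_ftc h k s r) (((klap_cont1 h k s).mul (continuous_const.sub
      (continuous_const.mul ((klap_M1_cont h).div h.Mg_cont fun r =>
        (h.Mg_pos r).ne')))).intervalIntegrable _ _)
    have h2 : ∀ r : ℝ, Real.exp (r * s) / Mg μ r ^ k * (s - k * (klap_M1 μ r / Mg μ r)) =
        (s - k) * (Real.exp (r * s) / Mg μ r ^ k) +
          k * (Real.exp (r * s) / Mg μ r ^ k * (1 - klap_M1 μ r / Mg μ r)) := by
      intro r
      ring
    simp only [h2] at h1
    have c1 : Continuous fun r => (s - k) * (Real.exp (r * s) / Mg μ r ^ k) :=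
      continuous_const.mul (klap_cont1 h k s)
    have c2 : Continuous fun r =>
        k * (Real.exp (r * s) / Mg μ r ^ k * (1 - klap_M1 μ r / Mg μ r)) :=
      continuous_const.mul ((klap_cont1 h k s).mul hq)
    rw [intervalIntegral.integral_add (c1.intervalIntegrable _ _) (c2.intervalIntegrable _ _),
      intervalIntegral.integral_const_mul, intervalIntegral.integral_const_mul] at h1
    simp only [zero_mul, Real.exp_zero, klap_zero h, one_pow, div_one] at h1
    unfold lap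
    rw [intervalIntegral.integral_symm L 0, neg_neg]
    linarith only [h1]
  rw [key, key]
  have h1 : Real.exp (L * s') / Mg μ L ^ k ≤ Real.exp (L * s) / Mg μ L ^ k :=
    div_le_div_of_nonneg_right (Real.exp_le_exp.2 (mul_le_mul_of_nonpos_left hss hL))
      (pow_pos (h.Mg_pos L) k).le
  have h2 : ∫ r in L..0, Real.exp (r * s') / Mg μ r ^ k * (1 - klap_M1 μ r / Mg μ r) ≤
      ∫ r in L..0, Real.exp (r * s) / Mg μ r ^ k * (1 - klap_M1 μ r / Mg μ r) := by
    refine intervalIntegral.integral_mono_on hL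
      (((klap_cont1 h k s').mul hq).intervalIntegrable _ _)
      (((klap_cont1 h k s).mul hq).intervalIntegrable _ _) fun r hr => ?_
    refine mul_le_mul_of_nonneg_right (div_le_div_of_nonneg_right
      (Real.exp_le_exp.2 (mul_le_mul_of_nonpos_left hss hr.2)) (pow_pos (h.Mg_pos r) k).le) ?_
    rw [sub_nonneg, div_le_one (h.Mg_pos r)]
    exact klap_M1_le h hr.2
  have h3 := mul_le_mul_of_nonneg_left h2 (Nat.cast_nonneg (α := ℝ) k)
  linarith only [h1, h3]

end Pool.Agent.Work.EMC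
end

-- merged part: Pool.Agent.Work.MP_9079fe_co.KVR
section
/-! The bound above the threshold that is exact for the cover. -/

namespace Pool.Agent.Work.EMC
open MeasureTheory Set

variable {n : ℕ} {d m v A B : ℝ} {μ α : Measure ℝ}

/-- The lower bound of the reduced moment generating function. -/
noncomputable def kvr_Q (g l r : ℝ) : ℝ := 1 - g / l * (1 - Real.exp (r * l))

theorem kvr_Q_ge {g l : ℝ} (hg : 0 < g) (hl : g < l) (r : ℝ) : (l - g) / l ≤ kvr_Q g l r := by
  have h0 : 0 < l := hg.trans hl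
  have h1 : 0 ≤ g / l * Real.exp (r * l) := by positivity
  have h2 : (l - g) / l = 1 - g / l := by field_simp
  unfold kvr_Q
  rw [h2]
  linarith only [h1]

theorem kvr_Q_pos {g l : ℝ} (hg : 0 < g) (hl : g < l) (r : ℝ) : 0 < kvr_Q g l r :=
  (div_pos (sub_pos.2 hl) (hg.trans hl)).trans_le (kvr_Q_ge hg hl r)

theorem kvr_Q_der {g l : ℝ} (hl : 0 < l) (r : ℝ) :
    HasDerivAt (kvr_Q g l) (g * Real.exp (r * l)) r := by
  have h := ((((hasDerivAt_id r).mul_const l).exp.const_sub 1).const_mul (g / l)).const_sub 1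
  refine HasDerivAt.congr_deriv h ?_
  simp only [id]
  field_simp

theorem kvr_Q_cont (g l : ℝ) : Continuous (kvr_Q g l) := by
  unfold kvr_Q
  fun_prop

theorem kvr_inv_le {g l : ℝ} (hg : 0 < g) (hl : g < l) (r : ℝ) (k : ℕ) :
    (kvr_Q g l r ^ k)⁻¹ ≤ (l / (l - g)) ^ k := by
  have h0 : 0 < (l - g) / l := div_pos (sub_pos.2 hl) (hg.trans hl)
  rw [← inv_div (l - g) l, inv_pow]
  exact inv_anti₀ (pow_pos h0 k) (pow_le_pow_left₀ h0.le (kvr_Q_ge hg hl r) k)

theorem kvr_int {g l : ℝ} (hg : 0 < g) (hl : g < l) (hn : 1 ≤ n) (a : ℝ) :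
    ∫ r in a..0, Real.exp (r * l) / kvr_Q g l r ^ (n + 1) =
      ((kvr_Q g l a ^ n)⁻¹ - 1) / (n * g) := by
  have hn' : (0 : ℝ) < n := Nat.cast_pos.2 hn
  have hd : ∀ r, HasDerivAt (fun r => -(kvr_Q g l r ^ n)⁻¹ / (n * g))
      (Real.exp (r * l) / kvr_Q g l r ^ (n + 1)) r := by
    intro r
    have hQ := kvr_Q_pos hg hl r
    have h := (((kvr_Q_der (g := g) (hg.trans hl) r).fun_pow n).fun_inv
      (pow_pos hQ n).ne').fun_neg.div_const (n * g)
    refine HasDerivAt.congr_deriv h ?_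
    obtain ⟨k, rfl⟩ : ∃ k, n = k + 1 := ⟨n - 1, by omega⟩
    rw [Nat.add_sub_cancel]
    field_simp
    ring
  have hc : Continuous fun r => Real.exp (r * l) / kvr_Q g l r ^ (n + 1) :=
    Continuous.div (by fun_prop) ((kvr_Q_cont g l).pow _) fun r =>
      (pow_pos (kvr_Q_pos hg hl r) _).ne'
  rw [intervalIntegral.integral_eq_sub_of_hasDerivAt (fun r _ => hd r) (hc.intervalIntegrable _ _)]
  have h0 : kvr_Q g l 0 = 1 := by simp [kvr_Q]
  rw [h0, one_pow, inv_one]
  ring

theorem kvr_ratio (h : Law μ m v) {g bs l r : ℝ} (hg : 0 < g) (hb : m - 1 ≤ bs) (hv : v = g * bs)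
    (hl : g < l) (hl2 : l ≤ bs + g) (hr : r ≤ 0) (k : ℕ) (t : ℝ) :
    Real.exp (r * t) / Mg μ r ^ k ≤ Real.exp (r * (t - k * (1 - g))) / kvr_Q g l r ^ k := by
  have h1 := h.Mg_lower hg hb hv (hg.trans hl) hl2 (neg_nonneg.2 hr)
  rw [neg_neg] at h1
  have hQ := kvr_Q_pos hg hl r
  have h2 : 0 < Real.exp (r * (1 - g)) * kvr_Q g l r := by positivity
  have h3 : (Real.exp (r * (1 - g)) * kvr_Q g l r) ^ k ≤ Mg μ r ^ k := pow_le_pow_left₀ h2.le h1 k
  refine (div_le_div_of_nonneg_left (Real.exp_pos _).le (pow_pos h2 k) h3).trans_eq ?_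
  rw [mul_pow, ← Real.exp_nat_mul, ← div_div, ← Real.exp_sub]
  congr 2
  ring

theorem kvr_lap (μ : Measure ℝ) (k : ℕ) (L s : ℝ) :
    -lap μ k L s = ∫ r in L..0, Real.exp (r * s) / Mg μ r ^ k := by
  rw [lap, intervalIntegral.integral_symm, neg_neg]

theorem kvr_cont (h : Law μ m v) (k : ℕ) (s : ℝ) :
    Continuous fun r => Real.exp (r * s) / Mg μ r ^ k :=
  Continuous.div (by fun_prop) (h.Mg_cont.pow _) fun r => (pow_pos (h.Mg_pos r) _).ne'

theorem KKT.vr (K : KKT n d m v A B μ α) (hn : 1 ≤ n) (hw : 0 ≤ ((n + 1) * v - d) * B)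
    (g bs : ℝ) (hg : 0 < g) (hb : m - 1 ≤ bs) (hbs : d + n * g ≤ bs) (hv : v = g * bs) :
    A ≤ ((1 + g / (d + n * g)) ^ n - 1) / (n * g) * ((n + 1) * v - d) * B := by
  have h := K.law
  have hd := K.d_pos
  have hn' : (0 : ℝ) < n := Nat.cast_pos.2 hn
  have hng : 0 < n * g := mul_pos hn' hg
  set l := d + (n + 1) * g with hl
  have hgl : g < l := by linarith only [hd, hng]
  have hl2 : l ≤ bs + g := by linarith only [hbs]
  have hc : l / (l - g) = 1 + g / (d + n * g) := by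
    have : l - g = d + n * g := by rw [hl]; ring
    rw [this, hl]
    field_simp
    ring
  have hA : 0 ≤ A := K.at0 ▸ measureReal_nonneg
  set c := 1 + g / (d + n * g) with hc'
  have key : ∀ L : ℝ, L ≤ 0 → (1 - Real.exp (L * (1 + d + n * g)) * c ^ n) * A ≤
      (c ^ n - 1) / (n * g) * ((n + 1) * v - d) * B := by
    intro L hL
    have h1 := K.vmaster (fun s => -lap μ (n + 1) L s) (h.lap_cont _ _).neg.measurable
      (-lap μ (n + 1) L (n + 1 + d)) (1 - Real.exp (L * (n + 1 + d)) / Mg μ L ^ n)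
      ((h.lap_mono _ _).neg.antitoneOn _) rfl
      (fun s _ => by
        rw [kvr_lap]
        exact intervalIntegral.integral_nonneg hL fun r _ =>
          div_nonneg (Real.exp_pos _).le (pow_pos (h.Mg_pos r) _).le)
      (fun s hs => by
        have h2 := h.lap_star (n + 1) hL (s := n + 1 + d) (by push_cast; linarith only [hd]) hs
        push_cast at h2
        rwa [add_sub_cancel_left] at h2)
      (fun τ hτ => by
        have h2 : ∀ x, (τ - n * x) * -lap μ (n + 1) L (τ + x) =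
            (n * x - τ) * lap μ (n + 1) L (τ + x) := fun x => by ring
        simp only [h2]
        rw [h.lap_eq]
        refine sub_le_sub_left (div_le_div_of_nonneg_right (Real.exp_le_exp.2 ?_)
          (pow_pos (h.Mg_pos L) _).le) 1
        exact mul_le_mul_of_nonpos_left hτ hL)
    have h2 : -lap μ (n + 1) L (n + 1 + d) ≤ (c ^ n - 1) / (n * g) := by
      rw [kvr_lap]
      have hcQ : Continuous fun r => Real.exp (r * l) / kvr_Q g l r ^ (n + 1) :=
        Continuous.div (by fun_prop) ((kvr_Q_cont g l).pow _) fun r =>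
          (pow_pos (kvr_Q_pos hg hgl r) _).ne'
      refine (intervalIntegral.integral_mono_on hL ((kvr_cont h _ _).intervalIntegrable _ _)
        (hcQ.intervalIntegrable _ _) fun r hr => ?_).trans ?_
      · refine (kvr_ratio h hg hb hv hgl hl2 hr.2 _ _).trans_eq ?_
        congr 3
        rw [hl]
        push_cast
        ring
      · rw [kvr_int hg hgl hn, ← hc]
        exact div_le_div_of_nonneg_right (sub_le_sub_right (kvr_inv_le hg hgl L n) 1) hng.le
    have h3 : Real.exp (L * (n + 1 + d)) / Mg μ L ^ n ≤ Real.exp (L * (1 + d + n * g)) * c ^ n := by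
      refine (kvr_ratio h hg hb hv hgl hl2 hL _ _).trans ?_
      rw [div_eq_mul_inv, ← hc]
      have e : (n : ℝ) + 1 + d - n * (1 - g) = 1 + d + n * g := by ring
      rw [e]
      exact mul_le_mul_of_nonneg_left (kvr_inv_le hg hgl L n) (Real.exp_pos _).le
    calc _ ≤ (1 - Real.exp (L * (n + 1 + d)) / Mg μ L ^ n) * A :=
          mul_le_mul_of_nonneg_right (sub_le_sub_left h3 1) hA
      _ ≤ -lap μ (n + 1) L (n + 1 + d) * (((n + 1) * v - d) * B) := h1.trans_eq (mul_assoc _ _ _)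
      _ ≤ (c ^ n - 1) / (n * g) * (((n + 1) * v - d) * B) := mul_le_mul_of_nonneg_right h2 hw
      _ = _ := (mul_assoc _ _ _).symm
  have hκ : 0 < 1 + d + n * g := by positivity
  have t1 : Filter.Tendsto (fun L : ℝ => Real.exp (L * (1 + d + n * g))) Filter.atBot (nhds 0) :=
    Real.tendsto_exp_atBot.comp (Filter.tendsto_id.atBot_mul_const hκ)
  have t2 := ((t1.mul_const (c ^ n)).const_sub 1).mul_const A
  rw [zero_mul, sub_zero, one_mul] at t2
  exact le_of_tendsto t2 ((Filter.eventually_le_atBot 0).mono key)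

end Pool.Agent.Work.EMC
end

-- merged part: Pool.Agent.Work.MP_9079fe_co.KQ
section
/-! The master inequality below the threshold, and the linear test function. -/

namespace Pool.Agent.Work.EMC
open MeasureTheory Set

variable {n : ℕ} {d m v A B : ℝ} {μ α : Measure ℝ}

theorem KKT.signs (K : KKT n d m v A B μ α) : 0 ≤ A ∧ 0 ≤ B ∧ 0 ≤ 1 - A - B * m := by
  have := K.probα
  have hm := K.law.basic.1
  have h1 : α.real (Ici (n + 1 + d)) ≤ α.real (Ici (n + 1 + d - m)) :=
    measureReal_mono (Ici_subset_Ici.2 (by linarith))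
  have h2 : α.real (Ici (n + 1 + d - m)) ≤ 1 := measureReal_le_one
  have h3 : 0 ≤ α.real (Ici (n + 1 + d)) := measureReal_nonneg
  rw [K.at0] at h1 h3
  rw [K.atm] at h1 h2
  refine ⟨h3, ?_, by linarith⟩
  by_contra hB
  linarith only [h1, hB, hm, not_le.1 hB, mul_nonneg_of_nonpos_of_nonpos (Mathlib.Tactic.Linarith.sub_nonpos_of_le hm) (le_of_lt (Mathlib.Tactic.Linarith.sub_neg_of_lt (lt_of_not_ge hB)))]

theorem kq_int (h : Law μ m v) {f : ℝ → ℝ} (hf : Measurable f) (C : ℝ)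
    (hC : ∀ x ∈ Icc 0 m, |f x| ≤ C) : Integrable f μ := by
  have := h.prob
  exact Integrable.of_bound hf.aestronglyMeasurable C (h.supp.mono hC)

theorem kq_int_cont (h : Law μ m v) {f : ℝ → ℝ} (hf : Continuous f) : Integrable f μ := by
  obtain ⟨C, hC⟩ := (isCompact_Icc (a := (0 : ℝ)) (b := m)).exists_bound_of_continuousOn
    hf.continuousOn
  exact kq_int h hf.measurable C hC

theorem kq_poly (h : Law μ m v) (a0 a1 a2 : ℝ) :
    ∫ x, (a0 + a1 * (x - 1) + a2 * (x - 1) ^ 2) ∂μ = a0 + a2 * v := by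
  have := h.prob
  rw [integral_add (kq_int_cont h (by fun_prop)) (kq_int_cont h (by fun_prop)),
    integral_add (kq_int_cont h (by fun_prop)) (kq_int_cont h (by fun_prop)), integral_const_mul,
    integral_const_mul, integral_sub (kq_int_cont h (by fun_prop)) (kq_int_cont h (by fun_prop)),
    h.mean, h.var]
  simp

/-- The indicator of `s < t`. -/
noncomputable def kq_i (t s : ℝ) : ℝ := (Iio t).indicator (fun _ => 1) s

theorem kq_i_meas (t : ℝ) : Measurable (kq_i t) := measurable_const.indicator measurableSet_Iio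

theorem kq_i_pos {t s : ℝ} (h : s < t) : kq_i t s = 1 := indicator_of_mem (s := Iio t) h _

theorem kq_i_neg {t s : ℝ} (h : t ≤ s) : kq_i t s = 0 :=
  indicator_of_notMem (s := Iio t) (not_lt.2 h) _

theorem kq_i_abs (t s : ℝ) : |kq_i t s| ≤ 1 := by
  rcases lt_or_ge s t with h | h
  · rw [kq_i_pos h, abs_one]
  · rw [kq_i_neg h, abs_zero]
    exact zero_le_one

theorem kq_i_int [IsProbabilityMeasure α] (t : ℝ) : ∫ s, kq_i t s ∂α = 1 - α.real (Ici t) := by
  unfold kq_i
  rw [integral_indicator measurableSet_Iio, setIntegral_const, smul_eq_mul, mul_one,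
    ← compl_Ici, probReal_compl_eq_one_sub measurableSet_Ici]

theorem kq_ae (K : KKT n d m v A B μ α) :
    ∀ᵐ z ∂α.prod μ, z.1 ∈ Icc 0 (n * m) ∧ z.2 ∈ Icc 0 m := by
  have := K.probα
  have := K.law.prob
  exact (Measure.quasiMeasurePreserving_fst.ae K.suppα).and
    (Measure.quasiMeasurePreserving_snd.ae K.law.supp)

theorem kq_int2 (K : KKT n d m v A B μ α) {p f : ℝ × ℝ → ℝ} (hp : Continuous p)
    (hf : Measurable f) (C : ℝ)
    (hC : ∀ z : ℝ × ℝ, z.1 ∈ Icc 0 (n * m) → z.2 ∈ Icc 0 m → |f z| ≤ C) :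
    Integrable (fun z => p z * f z) (α.prod μ) := by
  have := K.probα
  have := K.law.prob
  obtain ⟨D, hD⟩ := ((isCompact_Icc (a := (0 : ℝ)) (b := n * m)).prod
    (isCompact_Icc (a := (0 : ℝ)) (b := m))).exists_bound_of_continuousOn hp.continuousOn
  refine Integrable.of_bound (hp.measurable.mul hf).aestronglyMeasurable (D * C)
    ((kq_ae K).mono fun z hz => ?_)
  rw [norm_mul]
  exact mul_le_mul (hD z hz) (hC z hz.1 hz.2) (norm_nonneg _) ((norm_nonneg _).trans (hD z hz))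

theorem kq_moment (K : KKT n d m v A B μ α) {p : ℝ → ℝ} (hp : Continuous p) :
    ∫ z, p z.2 * kq_i (n + 1 + d) (z.1 + z.2) ∂α.prod μ = ∫ x, p x * (1 - A - B * x) ∂μ := by
  have := K.probα
  have := K.law.prob
  rw [integral_prod_symm _ (kq_int2 K (p := fun z => p z.2)
    (f := fun z => kq_i (n + 1 + d) (z.1 + z.2)) (by fun_prop)
    ((kq_i_meas _).comp (measurable_fst.add measurable_snd)) 1 fun z _ _ => kq_i_abs _ _)]
  refine integral_congr_ae (K.line.mono fun x hx => ?_)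
  have h1 : ∀ τ : ℝ, kq_i (n + 1 + d) (τ + x) = kq_i (n + 1 + d - x) τ := fun τ => by
    rcases lt_or_ge (τ + x) (n + 1 + d) with h | h
    · rw [kq_i_pos h, kq_i_pos (by linarith)]
    · rw [kq_i_neg h, kq_i_neg (by linarith)]
  simp only [h1]
  rw [integral_const_mul, kq_i_int, hx]
  ring

theorem kq_low (K : KKT n d m v A B μ α) :
    (n * v - (m - 1) * (m - 1 - d)) * B ≤ ∫ τ, (n - τ) * kq_i (n + 1 + d - m) τ ∂α := by
  have := K.probα
  have := K.law.prob
  have ms : Measurable fun z : ℝ × ℝ => kq_i (n + 1 + d) (z.1 + z.2) :=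
    (kq_i_meas _).comp (measurable_fst.add measurable_snd)
  have me : Measurable fun z : ℝ × ℝ => kq_i (n + 1 + d - m) z.1 :=
    (kq_i_meas _).comp measurable_fst
  have is : ∀ p : ℝ × ℝ → ℝ, Continuous p →
      Integrable (fun z => p z * kq_i (n + 1 + d) (z.1 + z.2)) (α.prod μ) := fun p hp =>
    kq_int2 K hp ms 1 fun z _ _ => kq_i_abs _ _
  have ie : ∀ p : ℝ × ℝ → ℝ, Continuous p →
      Integrable (fun z => p z * kq_i (n + 1 + d - m) z.1) (α.prod μ) := fun p hp =>
    kq_int2 K hp me 1 fun z _ _ => kq_i_abs _ _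
  have a1 : ∫ z : ℝ × ℝ, (z.1 - n * z.2) * kq_i (n + 1 + d) (z.1 + z.2) ∂α.prod μ = 0 := by
    rw [integral_prod _ (is _ (by fun_prop))]
    exact K.exch _ (kq_i_meas _) ⟨1, fun s _ => kq_i_abs _ _⟩
  have a2 : ∫ z : ℝ × ℝ, (n * (1 - z.2) - (m - 1 - d)) * kq_i (n + 1 + d) (z.1 + z.2) ∂α.prod μ =
      n * v * B - (m - 1 - d) * (1 - A - B) := by
    rw [kq_moment K (p := fun x => n * (1 - x) - (m - 1 - d)) (by fun_prop)]
    have h := kq_poly K.law (-((m - 1 - d) * (1 - A - B))) ((m - 1 - d) * B - n * (1 - A - B))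
      (n * B)
    refine Eq.trans (integral_congr_ae (ae_of_all _ fun x => ?_)) (h.trans (by ring))
    ring
  have a3 : ∫ z : ℝ × ℝ, (n - z.1 - (m - 1 - d)) * kq_i (n + 1 + d - m) z.1 ∂α.prod μ =
      ∫ τ, (n - τ) * kq_i (n + 1 + d - m) τ ∂α - (m - 1 - d) * (1 - A - B * m) := by
    have b1 : ∫ τ, (m - 1 - d) * kq_i (n + 1 + d - m) τ ∂α = (m - 1 - d) * (1 - A - B * m) := by
      rw [integral_const_mul, kq_i_int, K.atm]
      ring
    have b2 := (ie (fun z => n - z.1) (by fun_prop)).integral_prod_left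
    have b3 := (ie (fun _ => m - 1 - d) (by fun_prop)).integral_prod_left
    simp only [integral_const, probReal_univ, one_smul] at b2 b3
    rw [integral_prod _ (ie _ (by fun_prop)), ← b1, ← integral_sub b2 b3]
    simp only [integral_const, probReal_univ, one_smul]
    refine integral_congr_ae (ae_of_all _ fun τ => ?_)
    ring
  have a4 : ∫ z : ℝ × ℝ, ((n * (1 - z.2) - (m - 1 - d)) * kq_i (n + 1 + d) (z.1 + z.2) -
        (z.1 - n * z.2) * kq_i (n + 1 + d) (z.1 + z.2)) ∂α.prod μ ≤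
      ∫ z : ℝ × ℝ, (n - z.1 - (m - 1 - d)) * kq_i (n + 1 + d - m) z.1 ∂α.prod μ := by
    refine integral_mono_ae ((is _ (by fun_prop)).sub (is _ (by fun_prop))) (ie _ (by fun_prop))
      ((kq_ae K).mono fun z hz => ?_)
    dsimp only
    rcases lt_or_ge z.1 (n + 1 + d - m) with h | h
    · rw [kq_i_pos h, kq_i_pos (by linarith [hz.2.2])]
      linarith only []
    · rw [kq_i_neg h]
      rcases lt_or_ge (z.1 + z.2) (n + 1 + d) with h' | h'
      · rw [kq_i_pos h']
        linarith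
      · rw [kq_i_neg h']
        linarith
  rw [integral_sub (is _ (by fun_prop)) (is _ (by fun_prop)), a1, a2, a3] at a4
  linarith

theorem KKT.qmaster (K : KKT n d m v A B μ α) (G : ℝ → ℝ) (hG : Measurable G)
    (hb : ∃ C, ∀ s ∈ Icc 0 ((n + 1) * m), |G s| ≤ C) (hz : ∀ s, n + 1 + d - m ≤ s → G s = 0)
    (c κ : ℝ) (hc : 0 ≤ c)
    (h : ∀ τ, 0 ≤ τ → τ < n + 1 + d - m →
      c * (n - τ) - ∫ x, (n * x - τ) * G (τ + x) ∂μ ≤ κ) :
    c * (n * v - (m - 1) * (m - 1 - d)) * B ≤ κ * (1 - A - B * m) := by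
  have := K.probα
  have := K.law.prob
  have a1 := K.exch G hG hb
  obtain ⟨C, hC⟩ := hb
  have iG : Integrable (fun τ => ∫ x, (τ - n * x) * G (τ + x) ∂μ) α :=
    (kq_int2 K (p := fun z => z.1 - n * z.2) (f := fun z => G (z.1 + z.2)) (by fun_prop)
      (hG.comp (measurable_fst.add measurable_snd)) C fun z h1 h2 =>
        hC _ ⟨add_nonneg h1.1 h2.1, by linarith [h1.2, h2.2]⟩).integral_prod_left
  have ie : ∀ p : ℝ → ℝ, Continuous p →
      Integrable (fun τ => p τ * kq_i (n + 1 + d - m) τ) α := fun p hp => by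
    have b := (kq_int2 K (p := fun z => p z.1) (f := fun z => kq_i (n + 1 + d - m) z.1)
      (by fun_prop) ((kq_i_meas _).comp measurable_fst) 1
      fun z _ _ => kq_i_abs _ _).integral_prod_left
    simpa only [integral_const, probReal_univ, one_smul] using b
  have a2 : ∫ τ, (c * ((n - τ) * kq_i (n + 1 + d - m) τ) + ∫ x, (τ - n * x) * G (τ + x) ∂μ) ∂α ≤
      ∫ τ, κ * kq_i (n + 1 + d - m) τ ∂α := by
    refine integral_mono_ae (((ie _ (by fun_prop)).const_mul c).add iG) (ie _ (by fun_prop))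
      (K.suppα.mono fun τ hτ => ?_)
    dsimp only
    rcases lt_or_ge τ (n + 1 + d - m) with h' | h'
    · have b1 := h τ hτ.1 h'
      have b2 : ∫ x, (τ - n * x) * G (τ + x) ∂μ = -∫ x, (n * x - τ) * G (τ + x) ∂μ := by
        rw [← integral_neg]
        refine integral_congr_ae (ae_of_all _ fun x => ?_)
        ring
      rw [kq_i_pos h', b2]
      linarith
    · have b2 : ∫ x, (τ - n * x) * G (τ + x) ∂μ = 0 := by
        refine integral_eq_zero_of_ae (K.law.supp.mono fun x hx => ?_)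
        simp only [Pi.zero_apply]
        rw [hz _ (by linarith [hx.1]), mul_zero]
      rw [kq_i_neg h', b2]
      simp
  rw [integral_add ((ie _ (by fun_prop)).const_mul c) iG, a1, integral_const_mul,
    integral_const_mul, kq_i_int, K.atm] at a2
  have a3 := mul_le_mul_of_nonneg_left (kq_low K) hc
  linarith

theorem kq_lam (h : Law μ m v) (N W U a0 a1 : ℝ) (hN : 0 ≤ N)
    (H : ∀ x, 0 ≤ x → a0 + a1 * (x - 1) ≤ W * max (U - x) 0) :
    a0 - N * v ≤ ∫ x, (W + N * (x - 1)) * max (U - x) 0 ∂μ := by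
  have h1 := kq_poly h a0 (a1 + N * max (U - 1) 0) (-N)
  rw [show a0 - N * v = a0 + -N * v by ring, ← h1]
  refine integral_mono_ae (kq_int_cont h (by fun_prop)) (kq_int_cont h (by fun_prop))
    (h.supp.mono fun x hx => ?_)
  dsimp only
  have h2 := H x hx.1
  have h3 : -(x - 1) ^ 2 ≤ (x - 1) * (max (U - x) 0 - max (U - 1) 0) := by
    have h4 := abs_max_sub_max_le_abs (U - x) (U - 1) 0
    rw [show U - x - (U - 1) = -(x - 1) by ring, abs_neg] at h4
    have h5 := neg_abs_le ((x - 1) * (max (U - x) 0 - max (U - 1) 0))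
    rw [abs_mul] at h5
    have h6 := mul_le_mul_of_nonneg_left h4 (abs_nonneg (x - 1))
    rw [abs_mul_abs_self] at h6
    linarith only [h5, h6]
  have h7 := mul_le_mul_of_nonneg_left h3 hN
  linarith only [h2, h7]

theorem KKT.q5 (K : KKT n d m v A B μ α) (ω : ℝ) (h1 : m - d ≤ ω)
    (h2 : n * v ≤ ω * (ω - (m - d))) :
    (n * v - (m - 1) * (m - 1 - d)) * B ≤ ω * (1 - A - B * m) := by
  have hm := K.law.basic.1
  have hd := K.d_le
  have hd0 := K.d_pos
  have hc : 0 < 2 * ω - (m - d) := by linarith only [h1, hm, hd, hd0]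
  have h3 := K.qmaster (fun s => max (n + 1 + d - m - s) 0) (by fun_prop)
    ⟨|n + 1 + d - m|, fun s hs => ?_⟩ (fun s hs => max_eq_right (by linarith))
    (2 * ω - (m - d)) (ω ^ 2 + n * v) hc.le fun τ _ hτ => ?_
  · have h4 := mul_le_mul_of_nonneg_right
      (show ω ^ 2 + n * v ≤ (2 * ω - (m - d)) * ω by linarith only [h2]) K.signs.2.2
    refine le_of_mul_le_mul_left ?_ hc
    linarith only [h3, h4]
  · rw [abs_of_nonneg (le_max_right _ _)]
    exact max_le ((sub_le_self _ hs.1).trans (le_abs_self _)) (abs_nonneg _)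
  · have e : ∫ x, (n * x - τ) * max (n + 1 + d - m - (τ + x)) 0 ∂μ =
        ∫ x, (n - τ + n * (x - 1)) * max (n + 1 + d - m - τ - x) 0 ∂μ := by
      refine integral_congr_ae (ae_of_all _ fun x => ?_)
      dsimp only
      rw [sub_add_eq_sub_sub]
      ring
    rw [e]
    rcases le_or_gt 0 (n - τ) with hW | hW
    · have h4 := kq_lam K.law n (n - τ) (n + 1 + d - m - τ) ((n - τ) * (n + 1 + d - m - τ - 1))
        (-(n - τ)) n.cast_nonneg fun x _ => by
          have := mul_le_mul_of_nonneg_left (le_max_left (n + 1 + d - m - τ - x) 0) hW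
          linarith only [this]
      linarith only [h4, sq_nonneg (ω - (n - τ)), sq_nonneg (ω - (↑n - τ))]
    · have h4 := kq_lam K.law n (n - τ) (n + 1 + d - m - τ) ((n - τ) * (n + 1 + d - m - τ)) 0
        n.cast_nonneg fun x hx => by
          have := mul_le_mul_of_nonpos_left
            (max_le (sub_le_self (n + 1 + d - m - τ) hx) (sub_pos.2 hτ).le) hW.le
          linarith only [this]
      have h5 := mul_nonneg (neg_pos.2 hW).le
        (show 0 ≤ 2 * ω - (m - d) - (n + 1 + d - m - τ) by linarith only [h1, hm, hd, hW])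
      linarith only [h4, h5, sq_nonneg ω, sq_nonneg ω]

end Pool.Agent.Work.EMC
end

-- merged part: Pool.Agent.Work.MP_9079fe_co.KQT
section
/-! The Laplace bound below the threshold. -/

namespace Pool.Agent.Work.EMC
open MeasureTheory Set

variable {n : ℕ} {d m v A B : ℝ} {μ α : Measure ℝ}

theorem kqt_int (h : Law μ m v) {f : ℝ → ℝ} (hf : Continuous f) : Integrable f μ := by
  have := h.prob
  have h1 : IntegrableOn f (Icc 0 m) μ := hf.continuousOn.integrableOn_compact isCompact_Icc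
  rwa [IntegrableOn, Measure.restrict_eq_self_of_ae_mem h.supp] at h1

theorem kqt_aff (h : Law μ m v) (a b : ℝ) : ∫ x, (a * x + b) ∂μ = a + b := by
  have := h.prob
  rw [integral_add (kqt_int h (by fun_prop)) (integrable_const b), integral_const_mul, h.mean]
  simp

theorem kqt_nonneg (h : Law μ m v) (k : ℕ) {L : ℝ} (hL : 0 ≤ L) (s : ℝ) : 0 ≤ lap μ k L s :=
  intervalIntegral.integral_nonneg hL fun r _ =>
    div_nonneg (Real.exp_pos _).le (pow_pos (h.Mg_pos r) k).le

theorem kqt_low (h : Law μ m v) (n : ℕ) (L c : ℝ) {τ : ℝ} (hτ : τ ≤ n) :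
    c * (n - τ) - ∫ x, (n * x - τ) * max (c - lap μ (n + 1) L (τ + x)) 0 ∂μ ≤ 1 := by
  have hc := h.lap_cont (n + 1) L
  have hmono := h.lap_mono (n + 1) L
  have he := h.lap_eq n L τ
  set g := lap μ (n + 1) L
  have i1 : Integrable (fun x => (n * x - τ) * max (c - g (τ + x)) 0) μ :=
    kqt_int h (by fun_prop)
  have i2 : Integrable (fun x => (n * x - τ) * g (τ + x)) μ := kqt_int h (by fun_prop)
  have h1 : ∫ x, ((n * max (g (τ + 1) - c) 0 + c * n) * x + (-(n * max (g (τ + 1) - c) 0) - c * τ))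
      ∂μ ≤ ∫ x, ((n * x - τ) * max (c - g (τ + x)) 0 + (n * x - τ) * g (τ + x)) ∂μ := by
    refine integral_mono (kqt_int h (by fun_prop)) (i1.add i2) fun x => ?_
    have e : max (c - g (τ + x)) 0 = max (g (τ + x) - c) 0 + c - g (τ + x) := by
      rcases le_total c (g (τ + x)) with h1 | h1
      · rw [max_eq_right (by linarith only [h1]), max_eq_left (by linarith)]
        ring
      · rw [max_eq_left (by linarith), max_eq_right (by linarith)]
        ring
    have h2 : 0 ≤ (x - 1) * (max (g (τ + x) - c) 0 - max (g (τ + 1) - c) 0) := by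
      rcases le_total 1 x with h1 | h1
      · exact mul_nonneg (by linarith only [h1]) (sub_nonneg.2
          (max_le_max_right _ (sub_le_sub_right (hmono (by linarith)) c)))
      · exact mul_nonneg_of_nonpos_of_nonpos (by linarith) (sub_nonpos.2
          (max_le_max_right _ (sub_le_sub_right (hmono (by linarith)) c)))
    have h3 := mul_nonneg (sub_nonneg.2 hτ) (le_max_right (g (τ + x) - c) 0)
    have h4 := mul_nonneg (Nat.cast_nonneg (α := ℝ) n) h2
    simp only [e]
    linarith only [h3, h4]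
  rw [kqt_aff h, integral_add i1 i2, he] at h1
  have h2 := div_nonneg (Real.exp_pos (L * τ)).le (pow_pos (h.Mg_pos L) n).le
  linarith only [h1, h2]

theorem KKT.qt (K : KKT n d m v A B μ α) (L : ℝ) (hL : 0 ≤ L) :
    lap μ (n + 1) L (n + 1 + d - m) * (n * v - (m - 1) * (m - 1 - d)) * B ≤ 1 - A - B * m := by
  have h := K.law
  have := h.prob
  have hc := h.lap_cont (n + 1) L
  have hmono := h.lap_mono (n + 1) L
  have hlow := fun c τ hτ => kqt_low h n L c (τ := τ) hτ
  have h0 := kqt_nonneg h (n + 1) hL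
  set g := lap μ (n + 1) L
  set c := g (n + 1 + d - m) with hcd
  have hc0 : 0 ≤ c := h0 _
  have hG : ∀ s, max (c - g s) 0 ≤ c := fun s => max_le (by linarith [h0 s]) hc0
  have hz : ∀ s, n + 1 + d - m ≤ s → max (c - g s) 0 = 0 := fun s hs =>
    max_eq_right (sub_nonpos.2 (hmono hs))
  rw [← one_mul (1 - A - B * m)]
  refine K.qmaster (fun s => max (c - g s) 0) (Continuous.measurable (by fun_prop))
    ⟨c, fun s _ => by rw [abs_of_nonneg (le_max_right _ _)]; exact hG s⟩ hz c 1 hc0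
    fun τ _ hτ => ?_
  rcases le_total τ n with h1 | h1
  · exact hlow c τ h1
  have i1 : Integrable (fun x => (n * x - n) * max (c - g (n + x)) 0) μ :=
    kqt_int h (by fun_prop)
  have h2 : ∫ x, ((n * x - n) * max (c - g (n + x)) 0 + c * (n - τ)) ∂μ ≤
      ∫ x, (n * x - τ) * max (c - g (τ + x)) 0 ∂μ := by
    refine integral_mono (i1.add (integrable_const _)) (kqt_int h (by fun_prop)) fun x => ?_
    rcases le_total (n + 1 + d - m) (n + x) with h3 | h3
    · simp only [hz _ h3, hz (τ + x) (by linarith)]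
      linarith only [hc0, h1, mul_nonneg_of_nonpos_of_nonpos (Mathlib.Tactic.Linarith.sub_nonpos_of_le hc0) (Mathlib.Tactic.Linarith.sub_nonpos_of_le h1)]
    · have h4 : x ≤ 1 := by linarith only [h3, h, K, h.basic.1, K.d_le]
      have h5 : max (c - g (τ + x)) 0 ≤ max (c - g (n + x)) 0 :=
        max_le_max_right _ (sub_le_sub_left (hmono (by linarith)) c)
      have h6 := mul_le_mul_of_nonneg_left h5
        (mul_nonneg (Nat.cast_nonneg (α := ℝ) n) (sub_nonneg.2 h4))
      have h7 := mul_le_mul_of_nonneg_left (hG (τ + x)) (sub_nonneg.2 h1)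
      simp only
      linarith only [h6, h7]
  rw [integral_add i1 (integrable_const _)] at h2
  have h3 := hlow c n le_rfl
  simp only [integral_const, probReal_univ, one_smul] at h2
  linarith

end Pool.Agent.Work.EMC
end

-- merged part: Pool.Agent.Work.MP_9079fe_co.KTilt
section
/-! Closed form lower bounds for the Laplace constant. -/

namespace Pool.Agent.Work.EMC
open MeasureTheory Set

variable {μ : Measure ℝ} {n : ℕ} {d z m v a B : ℝ}

section ktilt
open Filter Topology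

/-- `f` is continuous and its integral over the half line converges to `c`. -/
def ktilt_Int (f : ℝ → ℝ) (c : ℝ) : Prop :=
  Continuous f ∧ Tendsto (fun L => ∫ r in (0:ℝ)..L, f r) atTop (𝓝 c)

theorem ktilt_add {f g : ℝ → ℝ} {c e : ℝ} (hf : ktilt_Int f c) (hg : ktilt_Int g e) :
    ktilt_Int (fun r => f r + g r) (c + e) :=
  ⟨hf.1.add hg.1, (hf.2.add hg.2).congr fun L => (intervalIntegral.integral_add
    (hf.1.intervalIntegrable 0 L) (hg.1.intervalIntegrable 0 L)).symm⟩

theorem ktilt_mul {f : ℝ → ℝ} {c : ℝ} (hf : ktilt_Int f c) (e : ℝ) :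
    ktilt_Int (fun r => e * f r) (e * c) :=
  ⟨continuous_const.mul hf.1, (hf.2.const_mul e).congr fun _ =>
    (intervalIntegral.integral_const_mul _ _).symm⟩

theorem ktilt_congr {f g : ℝ → ℝ} {c e : ℝ} (hf : ktilt_Int f c) (h : ∀ r, g r = f r)
    (h' : e = c) : ktilt_Int g e := by
  rw [funext h, h']
  exact hf

theorem ktilt_deriv {f F : ℝ → ℝ} {l : ℝ} (hf : Continuous f) (hF : ∀ r, HasDerivAt F (f r) r)
    (hl : Tendsto F atTop (𝓝 l)) : ktilt_Int f (l - F 0) :=
  ⟨hf, (hl.sub_const (F 0)).congr fun L => (intervalIntegral.integral_eq_sub_of_hasDerivAt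
    (fun r _ => hF r) (hf.intervalIntegrable 0 L)).symm⟩

theorem ktilt_exp_lim {A : ℝ} (hA : 0 < A) :
    Tendsto (fun r : ℝ => Real.exp (-(A * r))) atTop (𝓝 0) :=
  Real.tendsto_exp_neg_atTop_nhds_zero.comp (tendsto_id.const_mul_atTop hA)

theorem ktilt_exp_der (A r : ℝ) :
    HasDerivAt (fun r : ℝ => Real.exp (-(A * r))) (Real.exp (-(A * r)) * -A) r := by
  simpa using ((hasDerivAt_id r).const_mul A).neg.exp

theorem ktilt_exp {A : ℝ} (hA : 0 < A) : ktilt_Int (fun r => Real.exp (-(A * r))) (1 / A) := by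
  have h := ktilt_deriv (f := fun r => Real.exp (-(A * r)))
    (F := fun r => -(1 / A) * Real.exp (-(A * r))) (by fun_prop)
    (fun r => by
      refine ((ktilt_exp_der A r).const_mul (-(1 / A))).congr_deriv ?_
      field_simp) ((ktilt_exp_lim hA).const_mul _)
  exact ktilt_congr h (fun _ => rfl) (by simp)

theorem ktilt_rexp {A : ℝ} (hA : 0 < A) :
    ktilt_Int (fun r => r * Real.exp (-(A * r))) (1 / A ^ 2) := by
  have h1 : Tendsto (fun r : ℝ => (A * r) ^ 1 * Real.exp (-(A * r))) atTop (𝓝 0) :=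
    (Real.tendsto_pow_mul_exp_neg_atTop_nhds_zero 1).comp (tendsto_id.const_mul_atTop hA)
  have h := ktilt_deriv (f := fun r => r * Real.exp (-(A * r)))
    (F := fun r => -(1 / A ^ 2) * ((A * r) ^ 1 * Real.exp (-(A * r)) + Real.exp (-(A * r))))
    (by fun_prop)
    (fun r => by
      have h2 : HasDerivAt (fun r : ℝ => (A * r) ^ 1) A r := by
        simpa using (hasDerivAt_id r).const_mul A
      refine (((h2.fun_mul (ktilt_exp_der A r)).fun_add (ktilt_exp_der A r)).const_mul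
        (-(1 / A ^ 2))).congr_deriv ?_
      field_simp
      ring) ((h1.add (ktilt_exp_lim hA)).const_mul _)
  exact ktilt_congr h (fun _ => rfl) (by simp)

/-- The Bennett exponent. -/
noncomputable def ktilt_ps (B r : ℝ) : ℝ := (Real.exp (r * B) - 1 - r * B) / B ^ 2

theorem ktilt_ps_nonneg (B r : ℝ) : 0 ≤ ktilt_ps B r :=
  div_nonneg (by linarith [Real.add_one_le_exp (r * B)]) (sq_nonneg B)

theorem ktilt_psexp {A B : ℝ} (hB : 0 < B) (hA : B < A) :
    ktilt_Int (fun r => ktilt_ps B r * Real.exp (-(A * r))) (1 / (A ^ 2 * (A - B))) := by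
  have hA0 : 0 < A := hB.trans hA
  have hAB : 0 < A - B := sub_pos.2 hA
  refine ktilt_congr (ktilt_mul (ktilt_add (ktilt_add (ktilt_exp hAB)
    (ktilt_mul (ktilt_exp hA0) (-1))) (ktilt_mul (ktilt_rexp hA0) (-B))) (1 / B ^ 2))
    (fun r => ?_) ?_
  · have e : Real.exp (-((A - B) * r)) = Real.exp (r * B) * Real.exp (-(A * r)) := by
      rw [← Real.exp_add]
      congr 1
      ring
    rw [e, ktilt_ps]
    ring
  · field_simp
    ring

/-- The base of the weight. -/
noncomputable def ktilt_u (m0 r : ℝ) : ℝ := 1 / m0 + (1 - 1 / m0) * Real.exp (-(m0 * r))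

theorem ktilt_u_pos {m0 : ℝ} (h : 1 ≤ m0) (r : ℝ) : 0 < ktilt_u m0 r := by
  have h0 : 0 < m0 := by linarith
  have h1 : 1 / m0 ≤ 1 := (div_le_one h0).2 h
  exact add_pos_of_pos_of_nonneg (by positivity) (mul_nonneg (by linarith only [h1]) (Real.exp_pos _).le)

theorem ktilt_wt {m0 : ℝ} (h : 1 < m0) {n : ℕ} (hn : 1 ≤ n) :
    ktilt_Int (fun r => Real.exp (-(m0 * r)) * (ktilt_u m0 r ^ (n + 1))⁻¹)
      ((m0 ^ n - 1) / (n * (m0 - 1))) := by
  have h0 : 0 < m0 := by linarith only [h]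
  have h1 : m0 - 1 ≠ 0 := by linarith
  have hn0 : (n : ℝ) ≠ 0 := Nat.cast_ne_zero.2 (by omega)
  have hu := fun r => (ktilt_u_pos h.le r).ne'
  have hc : Continuous (ktilt_u m0) := by
    unfold ktilt_u
    fun_prop
  have hl : Tendsto (ktilt_u m0) atTop (𝓝 (1 / m0)) := by
    have := ((ktilt_exp_lim h0).const_mul (1 - 1 / m0)).const_add (1 / m0)
    rwa [mul_zero, add_zero] at this
  have h2 := ktilt_deriv (f := fun r => Real.exp (-(m0 * r)) * (ktilt_u m0 r ^ (n + 1))⁻¹)
    (F := fun r => (ktilt_u m0 r ^ n)⁻¹ / (n * (m0 - 1)))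
    ((by fun_prop : Continuous fun r => Real.exp (-(m0 * r))).mul
      ((hc.pow _).inv₀ fun r => pow_ne_zero _ (hu r)))
    (fun r => by
      have h3 : HasDerivAt (ktilt_u m0) ((1 - 1 / m0) * (Real.exp (-(m0 * r)) * -m0)) r :=
        ((ktilt_exp_der m0 r).const_mul (1 - 1 / m0)).const_add (1 / m0)
      refine (((h3.fun_pow n).fun_inv (pow_ne_zero n (hu r))).div_const
        (n * (m0 - 1))).congr_deriv ?_
      obtain ⟨j, rfl⟩ : ∃ j, n = j + 1 := ⟨n - 1, by omega⟩
      have := hu r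
      rw [Nat.add_sub_cancel]
      field_simp
      ring)
    (((hl.pow n).inv₀ (by positivity)).div_const _)
  refine ktilt_congr h2 (fun _ => rfl) ?_
  have e : ktilt_u m0 0 = 1 := by simp [ktilt_u]
  rw [e, one_pow, inv_one, one_div, inv_pow, inv_inv, sub_div]

theorem ktilt_wt_lo {m0 : ℝ} (h : 1 ≤ m0) (k : ℕ) {r : ℝ} (hr : 0 ≤ r) :
    1 + k * (1 - 1 / m0) * (1 - Real.exp (-(m0 * r))) ≤ (ktilt_u m0 r ^ k)⁻¹ := by
  have h0 : 0 < m0 := by linarith only [h]
  have h1 : 1 / m0 ≤ 1 := (div_le_one h0).2 h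
  have h2 : Real.exp (-(m0 * r)) ≤ 1 := Real.exp_le_one_iff.2 (by linarith only [hr, h, mul_nonneg_of_nonpos_of_nonpos (Mathlib.Tactic.Linarith.sub_nonpos_of_le h) (Mathlib.Tactic.Linarith.sub_nonpos_of_le hr)])
  have hu := ktilt_u_pos h r
  set x := (1 - 1 / m0) * (1 - Real.exp (-(m0 * r))) with hx
  have hx0 : 0 ≤ x := mul_nonneg (by linarith only [h1]) (by linarith)
  have e : ktilt_u m0 r = 1 - x := by
    rw [ktilt_u, hx]
    ring
  rw [mul_assoc, ← hx, ← inv_pow]
  refine (one_add_mul_le_pow (by linarith only [hx0]) k).trans (pow_le_pow_left₀ (by linarith only [hx0]) ?_ k)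
  rw [← one_div, le_div_iff₀ hu, e]
  linarith only [sq_nonneg x, sq_nonneg x]

theorem ktilt_wt_hi {m0 : ℝ} (h : 1 ≤ m0) (k : ℕ) {r : ℝ} (hr : 0 ≤ r) :
    (ktilt_u m0 r ^ k)⁻¹ ≤ 1 + (m0 ^ k - 1) * (1 - Real.exp (-(m0 * r))) := by
  have h0 : 0 < m0 := by linarith
  have h2 : Real.exp (-(m0 * r)) ≤ 1 := Real.exp_le_one_iff.2 (by nlinarith)
  have h3 := (convexOn_zpow (𝕜 := ℝ) (-(k : ℤ))).2 (mem_Ioi.2 one_pos)
    (mem_Ioi.2 (one_div_pos.2 h0)) (Real.exp_pos (-(m0 * r))).le (sub_nonneg.2 h2) (by ring)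
  have e : Real.exp (-(m0 * r)) • (1 : ℝ) + (1 - Real.exp (-(m0 * r))) • (1 / m0) =
      ktilt_u m0 r := by
    rw [ktilt_u, smul_eq_mul, smul_eq_mul]
    ring
  rw [e] at h3
  simp only [zpow_neg, zpow_natCast, one_pow, inv_one, smul_eq_mul] at h3
  rw [one_div, inv_pow, inv_inv] at h3
  linarith only [h3]

theorem ktilt_fin (h : Law μ m v) {k : ℕ} {s c : ℝ} {f : ℝ → ℝ} (hf : ktilt_Int f c)
    (hle : ∀ r, 0 ≤ r → f r ≤ Real.exp (r * s) / Mg μ r ^ k) {ε : ℝ} (hε : 0 < ε) :
    ∃ L, 0 ≤ L ∧ c - ε ≤ lap μ k L s := by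
  obtain ⟨L, h1, h2⟩ := ((eventually_ge_atTop 0).and
    (hf.2.eventually (lt_mem_nhds (sub_lt_self c hε)))).exists
  refine ⟨L, h1, h2.le.trans (intervalIntegral.integral_mono_on h1 (hf.1.intervalIntegrable 0 L)
    (Continuous.intervalIntegrable ?_ 0 L) fun r hr => hle r hr.1)⟩
  exact (by fun_prop : Continuous fun r => Real.exp (r * s)).div (h.Mg_cont.pow k)
    fun r => pow_ne_zero k (h.Mg_pos r).ne'

theorem ktilt_main (h : Law μ m v) {m0 W : ℝ} (h0 : 1 ≤ m0) (atom : 1 - 1 / m0 ≤ μ.real {0})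
    (hB : 0 < B) (hm : m - m0 ≤ B) (k : ℕ) (hW : W = k * (m0 * (v - (m0 - 1)))) (a : ℝ) {r : ℝ}
    (hr : 0 ≤ r) :
    Real.exp (-((m + a) * r)) * (1 + a * r - W * ktilt_ps B r) * (ktilt_u m0 r ^ k)⁻¹ ≤
      Real.exp (r * (k * m0 - m)) / Mg μ r ^ k := by
  have hu := ktilt_u_pos h0 r
  have hM := h.Mg_pos r
  have h1 := pow_le_pow_left₀ hM.le (h.Mg_upper h0 atom hB hm hr) k
  have e1 : 1 - 1 / m0 + 1 / m0 * Real.exp (r * m0) = Real.exp (r * m0) * ktilt_u m0 r := by
    have : Real.exp (r * m0) * Real.exp (-(m0 * r)) = 1 := by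
      rw [← Real.exp_add, mul_comm r, add_neg_cancel, Real.exp_zero]
    rw [ktilt_u, mul_add, mul_left_comm, this]
    ring
  rw [e1, mul_pow, mul_pow, ← Real.exp_nat_mul, ← Real.exp_nat_mul, ← ktilt_ps, ← mul_assoc (k : ℝ),
    ← mul_assoc (k : ℝ), ← hW] at h1
  have h2 : 1 + a * r - W * ktilt_ps B r ≤ Real.exp (a * r - W * ktilt_ps B r) := by
    linarith only [Real.add_one_le_exp (a * r - W * ktilt_ps B r)]
  refine le_trans ?_ (div_le_div_of_nonneg_left (Real.exp_pos _).le (pow_pos hM k) h1)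
  have e2 : Real.exp (r * (k * m0 - m)) = Real.exp (-((m + a) * r)) *
      Real.exp (a * r - W * ktilt_ps B r) * (Real.exp (k * r * m0) *
        Real.exp (W * ktilt_ps B r)) := by
    rw [← Real.exp_add, ← Real.exp_add, ← Real.exp_add]
    congr 1
    ring
  have e3 : Real.exp (r * (k * m0 - m)) / (Real.exp (k * r * m0) * ktilt_u m0 r ^ k *
      Real.exp (W * ktilt_ps B r)) = Real.exp (-((m + a) * r)) *
        Real.exp (a * r - W * ktilt_ps B r) * (ktilt_u m0 r ^ k)⁻¹ := by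
    rw [e2]
    field_simp
  rw [e3]
  gcongr

theorem ktilt_data (h : Law μ m v) (hd : 0 < d) (atom : d / (n + 1 + d) ≤ μ.real {0}) :
    1 < 1 + d / (n + 1) ∧ 1 - 1 / (1 + d / (n + 1)) ≤ μ.real {0} ∧ 1 + d / (n + 1) ≤ m ∧
      0 ≤ (1 + d / (n + 1)) * ((n + 1) * v - d) ∧
      (1 + d / (n + 1)) * ((n + 1) * v - d) =
        ((n + 1 : ℕ) : ℝ) * ((1 + d / (n + 1)) * (v - (1 + d / (n + 1) - 1))) ∧
      (n + 1 + d - m : ℝ) = ((n + 1 : ℕ) : ℝ) * (1 + d / (n + 1)) - m := by
  have hk : (0 : ℝ) < n + 1 := by positivity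
  have h1 : 1 < 1 + d / (n + 1) := lt_add_of_pos_right _ (div_pos hd hk)
  have h2 : 1 - 1 / (1 + d / (n + 1)) ≤ μ.real {0} := by
    refine le_trans (le_of_eq ?_) atom
    field_simp
    ring
  have h3 := h.var_lo h1.le h2
  have h4 : (1 + d / (n + 1)) * ((n + 1) * v - d) =
      ((n + 1 : ℕ) : ℝ) * ((1 + d / (n + 1)) * (v - (1 + d / (n + 1) - 1))) := by
    push_cast
    field_simp
    ring
  refine ⟨h1, h2, by linarith only [h3, h, h.basic.2.2], ?_, h4, ?_⟩
  · rw [h4]
    exact mul_nonneg (Nat.cast_nonneg _) (mul_nonneg (by linarith only [h1]) (by linarith only [h3]))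
  · push_cast
    field_simp

theorem ktilt_exp_add (A h r : ℝ) :
    Real.exp (-((A + h) * r)) = Real.exp (-(A * r)) * Real.exp (-(h * r)) := by
  rw [← Real.exp_add]
  congr 1
  ring

theorem ktilt_phi {m0 W h : ℝ} (hB : 0 < B) (h1 : 0 < m0 + h) (h2 : B < m + a + h) :
    ktilt_Int (fun r => Real.exp (-(h * r)) * (Real.exp (-(m0 * r)) -
      Real.exp (-((m + a) * r)) * (1 + a * r - W * ktilt_ps B r))) (Phi m0 m a W B h) := by
  have h3 : 0 < m + a + h := hB.trans h2
  refine ktilt_congr (ktilt_add (ktilt_add (ktilt_add (ktilt_exp h1)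
    (ktilt_mul (ktilt_exp h3) (-1))) (ktilt_mul (ktilt_rexp h3) (-a)))
    (ktilt_mul (ktilt_psexp hB h2) W)) (fun r => ?_) ?_
  · rw [ktilt_exp_add m0 h, ktilt_exp_add (m + a) h]
    ring
  · rw [Phi]
    ring

end ktilt

theorem Law.tilt_L (h : Law μ m v) (hn : 1 ≤ n) (hd : 0 < d)
    (hz : z = (1 + d / (n + 1)) ^ (n + 1) - 1) (atom : d / (n + 1 + d) ≤ μ.real {0})
    (ha : 0 ≤ a) (hB : 0 < B) (hB1 : B < 1) (hm : m - (1 + d / (n + 1)) ≤ B) {ε : ℝ}
    (hε : 0 < ε) : ∃ L, 0 ≤ L ∧ cL n d z v m a B - ε ≤ lap μ (n + 1) L (n + 1 + d - m) := by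
  obtain ⟨h1, h2, h3, h4, h5, h6⟩ := ktilt_data h hd atom
  have hk : (0 : ℝ) < n + 1 := by positivity
  have hn0 : (0 : ℝ) < n := Nat.cast_pos.2 hn
  have e0 : (z - d / (n + 1)) / (n / (n + 1) * d * (1 + d / (n + 1))) =
      ((1 + d / (n + 1)) ^ n - 1) / (n * (1 + d / (n + 1) - 1)) := by
    rw [hz, pow_succ, add_sub_cancel_left]
    generalize (1 + d / (n + 1)) ^ n = P
    field_simp
    ring
  rw [cL, h6, e0]
  generalize (1 + d / (n + 1)) * ((n + 1) * v - d) = W at *
  generalize 1 + d / (n + 1) = m0 at *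
  have i1 := ktilt_add (ktilt_wt h1 hn) (ktilt_add
    (ktilt_mul (ktilt_phi (m := m) (a := a) (m0 := m0) (W := W) (h := 0) hB (by linarith only [hB, hB1, h1])
      (by linarith only [ha, hB1, h1, h3])) (-(1 + z)))
    (ktilt_mul (ktilt_phi (m := m) (a := a) (m0 := m0) (W := W) (h := m0) hB (by linarith only [hB, hB1, h1])
      (by linarith only [ha, hB, hB1, h1, h3])) z))
  refine ktilt_fin h (ktilt_congr i1 (fun _ => rfl) (by ring)) (fun r hr => ?_) hε
  refine le_trans ?_ (ktilt_main h h1.le h2 hB hm (n + 1) h5 a hr)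
  have b1 := ktilt_wt_hi h1.le (n + 1) hr
  have b2 : Real.exp (-((m + a) * r)) * (1 + a * r - W * ktilt_ps B r) ≤
      Real.exp (-(m0 * r)) := by
    have b3 : 1 + a * r - W * ktilt_ps B r ≤ Real.exp (a * r) := by
      linarith only [h4, Real.add_one_le_exp (a * r), mul_nonneg h4 (ktilt_ps_nonneg B r)]
    refine (mul_le_mul_of_nonneg_left b3 (Real.exp_pos _).le).trans ?_
    rw [← Real.exp_add]
    exact Real.exp_le_exp.2 (by (refine le_of_not_gt fun h_nl => ?_; linarith only [h_nl, hB, hB1, h3, hr, mul_pos_of_neg_of_neg (Mathlib.Tactic.Linarith.sub_neg_of_lt hB) (Mathlib.Tactic.Linarith.sub_neg_of_lt h_nl), mul_pos_of_neg_of_neg (Mathlib.Tactic.Linarith.sub_neg_of_lt hB1) (Mathlib.Tactic.Linarith.sub_neg_of_lt h_nl), mul_nonneg_of_nonpos_of_nonpos (Mathlib.Tactic.Linarith.sub_nonpos_of_le h3) (Mathlib.Tactic.Linarith.sub_nonpos_of_le hr)]))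
  have b4 := mul_le_mul_of_nonneg_right b1 (sub_nonneg.2 b2)
  rw [← hz] at b4
  rw [zero_mul, neg_zero, Real.exp_zero]
  linarith only [b4]

theorem Law.tilt_D (h : Law μ m v) (hn : 1 ≤ n) (hd : 0 < d)
    (hz : z = (1 + d / (n + 1)) ^ (n + 1) - 1) (atom : d / (n + 1 + d) ≤ μ.real {0})
    (ha : 0 ≤ a) (hB : 0 < B) (hB1 : B < 1) (hm : m - (1 + d / (n + 1)) ≤ B) {ε : ℝ}
    (hε : 0 < ε) : ∃ L, 0 ≤ L ∧ cD n d z v m a B - ε ≤ lap μ (n + 1) L (n + 1 + d - m) := by
  obtain ⟨h1, h2, h3, h4, h5, h6⟩ := ktilt_data h hd atom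
  have hk : (0 : ℝ) < n + 1 := by positivity
  have e0 : d / (1 + d / (n + 1)) = ((n + 1 : ℕ) : ℝ) * (1 - 1 / (1 + d / (n + 1))) := by
    push_cast
    field_simp
    ring
  rw [cD, h6]
  generalize (1 + d / (n + 1)) * ((n + 1) * v - d) = W at *
  generalize 1 + d / (n + 1) = m0 at *
  have p1 : B < m + a := by linarith only [ha, hB1, h1, h3]
  have p2 : B < m + a + m0 := by linarith only [ha, hB, hB1, h1, h3]
  have q1 := hB.trans p1
  have q2 := hB.trans p2
  have i1 := ktilt_add (ktilt_add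
    (ktilt_add (ktilt_mul (ktilt_exp q1) (1 + d / m0)) (ktilt_mul (ktilt_exp q2) (-(d / m0))))
    (ktilt_mul (ktilt_add (ktilt_mul (ktilt_rexp q1) (1 + d / m0))
      (ktilt_mul (ktilt_rexp q2) (-(d / m0)))) a))
    (ktilt_mul (ktilt_add (ktilt_mul (ktilt_psexp hB p1) (1 + z))
      (ktilt_mul (ktilt_psexp hB p2) (-z))) (-W))
  refine ktilt_fin h (ktilt_congr i1 (fun _ => rfl) (by rw [cDir]; ring)) (fun r hr => ?_) hε
  refine le_trans ?_ (ktilt_main h h1.le h2 hB hm (n + 1) h5 a hr)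
  have b1 := ktilt_wt_hi h1.le (n + 1) hr
  have b2 := ktilt_wt_lo h1.le (n + 1) hr
  rw [← hz] at b1
  rw [← e0] at b2
  have b3 := mul_le_mul_of_nonneg_left b1 (mul_nonneg (Real.exp_pos (-((m + a) * r))).le
    (mul_nonneg h4 (ktilt_ps_nonneg B r)))
  have b4 := mul_le_mul_of_nonneg_left b2 (mul_nonneg (Real.exp_pos (-((m + a) * r))).le
    (by positivity : 0 ≤ 1 + a * r))
  rw [ktilt_exp_add (m + a) m0]
  linarith only [b3, b4]

end Pool.Agent.Work.EMC
end

-- merged part: Pool.Agent.Work.MP_9079fe_co.KBounds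
section
/-! Collecting the inequalities. -/

namespace Pool.Agent.Work.EMC
open MeasureTheory Set

theorem KKT.bounds {n : ℕ} {d z m v A B : ℝ} {μ α : Measure ℝ} (K : KKT n d m v A B μ α)
    (C : Crit n d z) (atom : d / (n + 1 + d) ≤ μ.real {0}) (hm : m ≤ n + 1 + d) (hB : 0 < B) :
    Bounds n d z v (m - 1) ((A + B) / B) ((1 - A - B) / B) := by
  have h := K.law
  have hd := K.d_pos
  have hk : (0 : ℝ) < n + 1 := by positivity
  have h1 : 0 < d / (n + 1) := div_pos hd hk
  have h2 : d / (n + 1) ≤ v := by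
    have := h.var_lo (m0 := 1 + d / (n + 1)) (by linarith only [h1]) (by
      refine le_trans (le_of_eq ?_) atom
      field_simp
      ring)
    linarith only [this]
  have h3 := h.basic.2.2
  have hw : 0 ≤ (n + 1) * v - d := by
    rw [div_le_iff₀ hk] at h2
    linarith
  have eR : (A + B) / B = 1 + A / B := by
    field_simp
    ring
  have eβ : (1 - A - B) / B = m - 1 + (1 - A - B * m) / B := by
    field_simp
    ring
  have hq : ∀ c : ℝ, (∀ ε, 0 < ε → ∃ L, 0 ≤ L ∧ c - ε ≤ lap μ (n + 1) L (n + 1 + d - m)) →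
      0 ≤ n * v - (m - 1) * (m - 1 - d) →
      m - 1 + c * (n * v - (m - 1) * (m - 1 - d)) ≤ (1 - A - B) / B := by
    intro c hc hx
    rw [eβ, add_le_add_iff_left]
    refine le_of_forall_pos_le_add fun δ hδ => ?_
    obtain ⟨L, hL, h4⟩ := hc (δ / (n * v - (m - 1) * (m - 1 - d) + 1)) (by positivity)
    have h5 := (le_div_iff₀ hB).2 (K.qt L hL)
    have h6 := mul_le_mul_of_nonneg_right h4 hx
    have h7 : δ / (n * v - (m - 1) * (m - 1 - d) + 1) * (n * v - (m - 1) * (m - 1 - d)) ≤ δ := by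
      rw [div_mul_eq_mul_div, div_le_iff₀ (by linarith only [hx])]
      linarith only [hδ]
    linarith only [h5, h6, h7]
  have e1 : 1 + (m - 1) = m := by ring
  refine ⟨h2, h3, by linarith only [hm], ?_, fun c hc h4 => ?_, fun g bs hg hb hbs hv => ?_, ?_,
    fun ω h4 h5 => ?_, fun a B' ha hB0 hB1 h4 hx => ?_, fun a B' ha hB0 hB1 h4 hx => ?_⟩
  · rw [div_le_div_iff₀ hB (by linarith only [hd])]
    linarith only [K, K.v1]
  · rw [eR, add_le_add_iff_left, div_le_iff₀ hB]
    refine (K.va (by linarith only [h1, h2, h3]) c hc h4).trans (le_of_eq ?_)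
    ring
  · rw [eR, add_le_add_iff_left, div_le_iff₀ hB]
    exact K.vr C.hn (mul_nonneg hw hB.le) g bs hg hb hbs hv
  · rw [eβ, le_add_iff_nonneg_right]
    exact div_nonneg K.signs.2.2 hB.le
  · rw [e1] at h4 h5
    rw [eβ, add_le_add_iff_left, div_le_div_iff₀ (by linarith only [h1, h2, h3, h4, K, h.basic.1, K.d_le]) hB, mul_comm _ ω]
    exact K.q5 ω h4 h5
  · rw [e1]
    exact hq _ (fun ε hε => h.tilt_L C.hn hd C.hz atom ha hB0 hB1 (by linarith only [h4]) hε) hx
  · rw [e1]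
    exact hq _ (fun ε hε => h.tilt_D C.hn hd C.hz atom ha hB0 hB1 (by linarith only [h4]) hε) hx

end Pool.Agent.Work.EMC
end

-- merged part: Pool.Agent.Work.MP_9079fe_co.KStab
section
/-! Uniqueness of the two optimisers and stability. -/

namespace Pool.Agent.Work.EMC
open MeasureTheory Set

variable {n : ℕ} {d z : ℝ}

theorem real_main {v b R β : ℝ} (C : Crit n d z) (H : Bounds n d z v b R β) :
    z * R ≤ β ∧ (β ≤ z * R → v = b ∧ (b = d / (n + 1) ∨ b = n + d)) := by
  by_cases h1 : n = 1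
  · exact real_two C H h1
  have h2 : 2 ≤ n := by have := C.hn; omega
  by_cases hb : 7 / 4 ≤ b
  · obtain ⟨a1, a2⟩ := real_ridge C H h2 hb
    exact ⟨a1, fun h => ⟨(a2 h).1, Or.inr (a2 h).2⟩⟩
  push Not at hb
  by_cases hN : 36 ≤ n * v
  · have := real_tail C H hb.le hN
    exact ⟨this.le, fun h => absurd h (not_le.2 this)⟩
  push Not at hN
  by_cases hc : b ≤ 3 / 10 ∧ (n + 1) * v - d ≤ 7 / 10
  · obtain ⟨a1, a2⟩ := real_nc C H h2 hc.1 hc.2
    exact ⟨a1, fun h => ⟨(a2 h).1, Or.inl (a2 h).2⟩⟩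
  · have := real_mid C H h2 hb.le hN.le hc
    exact ⟨this.le, fun h => absurd h (not_le.2 this)⟩

theorem kstab_closed {F : Set ℝ} (hF : IsClosed F) (c : ℝ) :
    IsClosed {μ : ProbabilityMeasure ℝ | c ≤ (μ : Measure ℝ).real F} := by
  refine isClosed_of_closure_subset fun μ hμ => ?_
  haveI := mem_closure_iff_nhdsWithin_neBot.1 hμ
  have h1 := ProbabilityMeasure.limsup_measure_closed_le_of_tendsto
    (L := nhdsWithin μ {μ : ProbabilityMeasure ℝ | c ≤ (μ : Measure ℝ).real F}) (μ := μ)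
    (μs := fun ν => ν) nhdsWithin_le_nhds hF
  have h2 : ENNReal.ofReal c ≤ (μ : Measure ℝ) F := by
    refine le_trans (Filter.le_limsup_of_frequently_le' (Filter.Eventually.frequently ?_)) h1
    filter_upwards [self_mem_nhdsWithin] with ν hν
    exact ENNReal.ofReal_le_of_le_toReal hν
  exact (ENNReal.ofReal_le_iff_le_toReal (measure_ne_top _ _)).1 h2

theorem kstab_open {G : Set ℝ} (hG : IsOpen G) (c : ℝ) :
    IsClosed {μ : ProbabilityMeasure ℝ | (μ : Measure ℝ).real G ≤ c} := by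
  have : {μ : ProbabilityMeasure ℝ | (μ : Measure ℝ).real G ≤ c} =
      {μ : ProbabilityMeasure ℝ | 1 - c ≤ (μ : Measure ℝ).real Gᶜ} := by
    ext μ
    simp only [mem_setOf_eq]
    rw [probReal_compl_eq_one_sub hG.measurableSet]
    constructor <;> intro h <;> linarith
  rw [this]
  exact kstab_closed hG.isClosed_compl _

theorem kstab_supp (t : ℝ) :
    IsCompact {μ : ProbabilityMeasure ℝ | ∀ᵐ x ∂(μ : Measure ℝ), x ∈ Icc 0 t} := by
  have h := isCompact_setOfPred_probabilityMeasure_mass_eq_compl_isCompact_le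
    (E := ℝ) (u := fun _ => 0) (K := fun _ => Icc 0 t) tendsto_const_nhds
    (fun _ => isCompact_Icc) (Or.inr monotone_const)
  convert h using 2 with μ
  ext μ
  simp only [forall_const, nonpos_iff_eq_zero, ProbabilityMeasure.null_iff_toMeasure_null]
  rfl

/-- The compact set of laws on `[0, t]` with mean at most `a` and atom at least `p`. -/
def kstabSet (t a p : ℝ) : Set (ProbabilityMeasure ℝ) :=
  {μ | (∀ᵐ x ∂(μ : Measure ℝ), x ∈ Icc 0 t) ∧ ∫ x, x ∂(μ : Measure ℝ) ≤ a ∧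
    p ≤ (μ : Measure ℝ).real {0}}

theorem kstab_compact (t a p : ℝ) : IsCompact (kstabSet t a p) := by
  let f : BoundedContinuousFunction ℝ ℝ := BoundedContinuousFunction.ofNormedAddCommGroup
    (fun x : ℝ => max 0 (min x t)) (by fun_prop) |t| (fun x => by
      rw [Real.norm_eq_abs, abs_of_nonneg (le_max_left _ _)]
      exact max_le (abs_nonneg _) ((min_le_right _ _).trans (le_abs_self _)))
  have hc : IsClosed {μ : ProbabilityMeasure ℝ | ∫ x, f x ∂(μ : Measure ℝ) ≤ a} :=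
    isClosed_le (ProbabilityMeasure.continuous_integral_boundedContinuousFunction f)
      continuous_const
  have e : kstabSet t a p = {μ : ProbabilityMeasure ℝ | ∀ᵐ x ∂(μ : Measure ℝ), x ∈ Icc 0 t} ∩
      ({μ : ProbabilityMeasure ℝ | ∫ x, f x ∂(μ : Measure ℝ) ≤ a} ∩
        {μ : ProbabilityMeasure ℝ | p ≤ (μ : Measure ℝ).real {0}}) := by
    ext μ
    simp only [kstabSet, mem_inter_iff, mem_setOf_eq]
    refine and_congr_right fun h => ?_
    have : ∫ x, f x ∂(μ : Measure ℝ) = ∫ x, x ∂(μ : Measure ℝ) := by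
      refine integral_congr_ae ?_
      filter_upwards [h] with x hx
      show max 0 (min x t) = x
      rw [min_eq_left hx.2, max_eq_right hx.1]
    rw [this]
  rw [e]
  exact (kstab_supp t).inter_right (hc.inter (kstab_closed isClosed_singleton p))

theorem kstab_max (C : Crit n d z) {μ : Measure ℝ} (h : InL (n + 1 + d) μ)
    (atom : d / (n + 1 + d) ≤ μ.real {0})
    (hV : 1 / (1 + z) ≤ (cp μ (n + 1)).real (Ici (n + 1 + d)))
    (hmax : ∀ ν, InL (n + 1 + d) ν →
      (cp ν (n + 1)).real (Ici (n + 1 + d)) ≤ (cp μ (n + 1)).real (Ici (n + 1 + d))) :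
    (cp μ (n + 1)).real (Ici (n + 1 + d)) ≤ 1 / (1 + z) ∧
      ((n + 1) / (n + 1 + d) ≤ μ.real {(n + 1 + d) / (n + 1)} ∨
        1 / (n + 1 + d) ≤ μ.real {n + 1 + d}) := by
  have hd : 0 < d := lt_of_lt_of_le (by norm_num) C.d_lo
  have hz := C.z_pos
  have hn : (0 : ℝ) ≤ n := Nat.cast_nonneg n
  obtain ⟨m, v, A, B, K, hm, hAB⟩ := kkt_of_max hd C.d_hi h
    (lt_of_lt_of_le (by positivity) atom) hmax
  rw [hAB] at hV ⊢
  rw [div_le_iff₀ (by positivity)] at hV
  have hB : 0 < B := by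
    rcases K.signs.2.1.lt_or_eq with hB | hB
    · exact hB
    · exfalso
      have h1 := K.v1
      have h2 := K.signs.1
      rw [← hB] at h1 hV
      have h3 : A ≤ 0 := by linarith only [h1, hd, h2, mul_nonneg_of_nonpos_of_nonpos (le_of_lt (Mathlib.Tactic.Linarith.sub_neg_of_lt hd)) (Mathlib.Tactic.Linarith.sub_nonpos_of_le h2)]
      linarith only [hd, hV, h1, hz, mul_nonneg_of_nonpos_of_nonpos (le_of_lt (Mathlib.Tactic.Linarith.sub_neg_of_lt hd)) (Mathlib.Tactic.Linarith.sub_nonpos_of_le hV), mul_nonneg_of_nonpos_of_nonpos (le_of_lt (Mathlib.Tactic.Linarith.sub_neg_of_lt hz)) (Mathlib.Tactic.Linarith.sub_nonpos_of_le h1)]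
  obtain ⟨a1, a2⟩ := real_main C (K.bounds C atom hm hB)
  rw [← mul_div_assoc, div_le_div_iff_of_pos_right hB] at a1 a2
  refine ⟨by rw [le_div_iff₀ (by positivity)]; linarith, ?_⟩
  obtain ⟨b1, b2⟩ := a2 (by linarith)
  have b3 := K.law.two_point b1
  rcases b2 with b2 | b2
  · left
    have : m = (n + 1 + d) / (n + 1) := by
      rw [add_div, div_self (by positivity)]
      linarith only [b2]
    rw [this, one_div_div] at b3
    exact b3
  · right
    have : m = n + 1 + d := by linarith only [b2, hm]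
    rw [this] at b3
    exact b3

theorem frac_unique (C : Crit n d z) {μ : Measure ℝ} (h : InL (n + 1 + d) μ)
    (atom : d / (n + 1 + d) ≤ μ.real {0})
    (hV : 1 / (1 + z) ≤ (cp μ (n + 1)).real (Ici (n + 1 + d))) :
    (n + 1) / (n + 1 + d) ≤ μ.real {(n + 1 + d) / (n + 1)} ∨
      1 / (n + 1 + d) ≤ μ.real {n + 1 + d} := by
  have hd : 0 < d := lt_of_lt_of_le (by norm_num) C.d_lo
  have hn : (0 : ℝ) ≤ n := Nat.cast_nonneg n
  have hμ : (⟨μ, h.prob⟩ : ProbabilityMeasure ℝ) ∈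
      kstabSet (n + 1 + d) 1 (d / (n + 1 + d)) := ⟨h.supp, h.mean, atom⟩
  have usc : UpperSemicontinuous fun ν : ProbabilityMeasure ℝ =>
      (cp (ν : Measure ℝ) (n + 1)).real (Ici (n + 1 + d)) :=
    upperSemicontinuous_iff_isClosed_preimage.2 fun c => cp_closed (n + 1) _ c
  obtain ⟨ρ, hρ, hmax⟩ := UpperSemicontinuousOn.exists_isMaxOn (α := ProbabilityMeasure ℝ)
    ⟨_, hμ⟩ (kstab_compact _ _ _) (usc.upperSemicontinuousOn _)
  have hall : ∀ ν, InL (n + 1 + d) ν → (cp ν (n + 1)).real (Ici (n + 1 + d)) ≤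
      (cp (ρ : Measure ℝ) (n + 1)).real (Ici (n + 1 + d)) := by
    intro ν hν
    obtain ⟨ν', h1, h2, h3⟩ := reduce_atom (k := n + 1) (Nat.succ_pos n)
      (by push_cast; linarith) hν
    have e : 1 - ((n + 1 : ℕ) : ℝ) / (n + 1 + d) = d / (n + 1 + d) := by
      push_cast
      field_simp
      ring
    rw [e] at h2
    exact h3.trans (hmax (show (⟨ν', h1.prob⟩ : ProbabilityMeasure ℝ) ∈
      kstabSet (n + 1 + d) 1 (d / (n + 1 + d)) from ⟨h1.supp, h1.mean, h2⟩))
  have h1 := (kstab_max C ⟨ρ.2, hρ.1, hρ.2.1⟩ hρ.2.2 (hV.trans (hall μ h)) hall).1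
  exact (kstab_max C h atom hV fun ν hν => (hall ν hν).trans (h1.trans hV)).2

theorem frac_stab (C : Crit n d z) {ε : ℝ} (hε : 0 < ε) :
    ∃ ξ > 0, ∀ μ : Measure ℝ, IsProbabilityMeasure μ → (∀ᵐ x ∂μ, x ∈ Icc 0 (n + 1 + d)) →
      ∫ x, x ∂μ ≤ 1 + ξ → d / (n + 1 + d) - ξ ≤ μ.real {0} →
      1 / (1 + z) - ξ ≤ (cp μ (n + 1)).real (Ici (n + 1 + d)) →
      (n + 1) / (n + 1 + d) - ε < μ.real {x | |x - (n + 1 + d) / (n + 1)| < ε} ∨
        1 / (n + 1 + d) - ε < μ.real {x | n + 1 + d - ε < x} := by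
  by_contra hc
  push Not at hc
  have o1 : IsOpen {x : ℝ | |x - (n + 1 + d) / (n + 1)| < ε} :=
    isOpen_lt (by fun_prop) continuous_const
  have o2 : IsOpen {x : ℝ | n + 1 + d - ε < x} := isOpen_lt continuous_const continuous_id
  let S : ℕ → Set (ProbabilityMeasure ℝ) := fun j =>
    kstabSet (n + 1 + d) (1 + 1 / ((j : ℝ) + 1)) (d / (n + 1 + d) - 1 / ((j : ℝ) + 1)) ∩
      ({μ | 1 / (1 + z) - 1 / ((j : ℝ) + 1) ≤
          (cp (μ : Measure ℝ) (n + 1)).real (Ici (n + 1 + d))} ∩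
        ({μ | (μ : Measure ℝ).real {x | |x - (n + 1 + d) / (n + 1)| < ε} ≤
            (n + 1) / (n + 1 + d) - ε} ∩
          {μ | (μ : Measure ℝ).real {x | n + 1 + d - ε < x} ≤ 1 / (n + 1 + d) - ε}))
  have hS : ∀ j, IsCompact (S j) := fun j => (kstab_compact _ _ _).inter_right
    ((cp_closed _ _ _).inter ((kstab_open o1 _).inter (kstab_open o2 _)))
  obtain ⟨μ, hμ⟩ := IsCompact.nonempty_iInter_of_sequence_nonempty_isCompact_isClosed S
    (fun j μ hμ => by
      have hj : 1 / (((j + 1 : ℕ) : ℝ) + 1) ≤ 1 / ((j : ℝ) + 1) :=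
        one_div_le_one_div_of_le (by positivity) (by push_cast; linarith)
      obtain ⟨⟨h1, h2, h3⟩, h4, h5⟩ := hμ
      refine ⟨⟨h1, by linarith only [hj, h2], by linarith only [hj, h3]⟩, ?_, h5⟩
      simp only [mem_setOf_eq] at h4 ⊢
      linarith only [hj, h4])
    (fun j => by
      obtain ⟨μ, h0, h1, h2, h3, h4, h5, h6⟩ := hc (1 / ((j : ℝ) + 1)) (by positivity)
      exact ⟨⟨μ, h0⟩, ⟨h1, h2, h3⟩, h4, h5, h6⟩)
    (hS 0) (fun j => (hS j).isClosed)
  rw [mem_iInter] at hμ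
  have lim : ∀ a b : ℝ, (∀ j : ℕ, a ≤ b + 1 / ((j : ℝ) + 1)) → a ≤ b := fun a b h =>
    le_of_forall_pos_le_add fun e he => by
      obtain ⟨j, hj⟩ := exists_nat_one_div_lt he
      linarith [h j]
  have h1 : InL (n + 1 + d) (μ : Measure ℝ) :=
    ⟨μ.2, (hμ 0).1.1, lim _ _ fun j => (hμ j).1.2.1⟩
  have h2 : d / (n + 1 + d) ≤ (μ : Measure ℝ).real {0} :=
    lim _ _ fun j => by linarith only [hμ, (hμ j).1.2.2]
  have h3 : 1 / (1 + z) ≤ (cp (μ : Measure ℝ) (n + 1)).real (Ici (n + 1 + d)) :=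
    lim _ _ fun j => by
      have := (hμ j).2.1
      simp only [mem_setOf_eq] at this
      linarith only [this]
  obtain ⟨h4, h5⟩ := (hμ 0).2.2
  simp only [mem_setOf_eq] at h4 h5
  rcases frac_unique C h1 h2 h3 with h | h
  · have : (μ : Measure ℝ).real {(n + 1 + d) / (n + 1)} ≤
        (μ : Measure ℝ).real {x | |x - (n + 1 + d) / (n + 1)| < ε} :=
      measureReal_mono (by rintro x rfl; simpa using hε)
    linarith only [hε, h4, h, this]
  · have : (μ : Measure ℝ).real {n + 1 + d} ≤ (μ : Measure ℝ).real {x | n + 1 + d - ε < x} :=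
      measureReal_mono (by rintro x rfl; simpa using hε)
    linarith only [hε, h5, h, this]

end Pool.Agent.Work.EMC
end

-- merged part: Pool.Agent.Work.MP_9079fe_co.KFin
section
/-! The finite form of stability. -/

namespace Pool.Agent.Work.EMC
open Finset

section kfin
open MeasureTheory

/-- The empirical law of the first `N` values. -/
private noncomputable def kfin_mu (N : ℕ) (X : ℕ → ℝ) : Measure ℝ :=
  (N : ENNReal)⁻¹ • ∑ v ∈ range N, Measure.dirac (X v)

private theorem kfin_int (N : ℕ) (X : ℕ → ℝ) (g : ℝ → ℝ) :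
    ∫ x, g x ∂(kfin_mu N X) = (∑ v ∈ range N, g (X v)) / N := by
  unfold kfin_mu
  rw [integral_smul_measure, integral_finsetSum_measure fun v _ => integrable_dirac (by simp)]
  simp only [integral_dirac, ENNReal.toReal_inv, ENNReal.toReal_natCast, smul_eq_mul]
  rw [inv_mul_eq_div]

private theorem kfin_prob {N : ℕ} (hN : 0 < N) (X : ℕ → ℝ) :
    IsProbabilityMeasure (kfin_mu N X) := by
  constructor
  unfold kfin_mu
  simp only [Measure.smul_apply, Measure.coe_finsetSum, Finset.sum_apply, measure_univ,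
    sum_const, card_range, nsmul_eq_mul, mul_one, smul_eq_mul]
  exact ENNReal.inv_mul_cancel (by exact_mod_cast hN.ne') (by simp)

private theorem kfin_ae {N : ℕ} (X : ℕ → ℝ) {p : ℝ → Prop} (h : ∀ v, p (X v)) :
    ∀ᵐ x ∂(kfin_mu N X), p x := by
  unfold kfin_mu
  refine Measure.ae_smul_measure ?_ _
  rw [ae_iff]
  simp only [Measure.coe_finsetSum, Finset.sum_apply]
  refine sum_eq_zero fun v _ => ?_
  rw [Measure.dirac_apply, Set.indicator_of_notMem]
  simpa using h v

private theorem kfin_real (N : ℕ) (X : ℕ → ℝ) {S : Set ℝ} (hS : MeasurableSet S) (p : ℕ → Prop)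
    [DecidablePred p] (hp : ∀ v, p v ↔ X v ∈ S) :
    (kfin_mu N X).real S = (((range N).filter p).card : ℝ) / N := by
  rw [← integral_indicator_one hS, kfin_int, card_filter]
  congr 1
  push_cast
  refine sum_congr rfl fun v _ => ?_
  by_cases h : p v
  · rw [if_pos h, Set.indicator_of_mem ((hp v).1 h)]; rfl
  · rw [if_neg h, Set.indicator_of_notMem fun h' => h ((hp v).2 h')]

open Classical in
private theorem kfin_cp {N : ℕ} (hN : 0 < N) (X : ℕ → ℝ) (j : ℕ) : ∀ y : ℝ,
    (cp (kfin_mu N X) j).real (Set.Ici y) =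
      Sm (range N) j (fun M => if y ≤ (M.map X).sum then 1 else 0) / (N : ℝ) ^ j := by
  have := kfin_prob hN X
  induction j with
  | zero =>
    intro y
    rw [cp_zero, ← integral_indicator_one measurableSet_Ici, integral_dirac]
    simp only [Sm, Multiset.map_zero, Multiset.sum_zero, pow_zero, div_one]
    by_cases h : y ≤ 0
    · rw [if_pos h, Set.indicator_of_mem (show (0 : ℝ) ∈ Set.Ici y from h)]; rfl
    · rw [if_neg h, Set.indicator_of_notMem (show (0 : ℝ) ∉ Set.Ici y from h)]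
  | succ j ih =>
    intro y
    rw [cp_succ, conv_tail, kfin_int]
    simp only [ih, Sm, Multiset.map_cons, Multiset.sum_cons]
    rw [← sum_div, div_div, ← pow_succ]
    congr 1
    refine sum_congr rfl fun v _ => ?_
    congr 1
    ext M
    exact if_congr sub_le_iff_le_add' rfl rfl

end kfin

open Classical in
theorem fin_stab {r : ℕ} {d z : ℝ} (C : Crit r d z) {ε : ℝ} (hε : 0 < ε) :
    ∃ ξ > 0, ∀ (N : ℕ) (X : ℕ → ℝ) (G : Finset (Finset ℕ)), 0 < N →
      (∀ v, 0 ≤ X v ∧ X v ≤ r + 1 + d) → Unif N (r + 1) G →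
      (∀ A ∈ G, r + 1 + d ≤ ∑ a ∈ A, X a) → ∑ v ∈ range N, X v ≤ (1 + ξ) * N →
      (d / (r + 1 + d) - ξ) * N ≤ ((range N).filter fun v => X v = 0).card →
      (1 / (1 + z) - ξ) * (N:ℝ) ^ (r + 1) ≤ (r + 1).factorial * G.card →
      ((r + 1) / (r + 1 + d) - ε) * N
          < ((range N).filter fun v => |X v - (r + 1 + d) / (r + 1)| < ε).card ∨
        (1 / (r + 1 + d) - ε) * N < ((range N).filter fun v => r + 1 + d - ε < X v).card := by
  obtain ⟨ξ, hξ, H⟩ := frac_stab C hε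
  refine ⟨ξ, hξ, fun N X G hN hX hU hG hsum hzero hcard => ?_⟩
  have hN' : (0 : ℝ) < N := by exact_mod_cast hN
  have := kfin_prob hN X
  have h1 : ∀ᵐ x ∂(kfin_mu N X), x ∈ Set.Icc (0 : ℝ) (r + 1 + d) :=
    kfin_ae X fun v => ⟨(hX v).1, (hX v).2⟩
  have h2 : ∫ x, x ∂(kfin_mu N X) ≤ 1 + ξ := by
    rw [kfin_int, div_le_iff₀ hN']; exact hsum
  have h3 : d / (r + 1 + d) - ξ ≤ (kfin_mu N X).real {0} := by
    rw [kfin_real N X (measurableSet_singleton 0) (fun v => X v = 0) (fun v => Iff.rfl),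
      le_div_iff₀ hN']
    exact hzero
  have h4 : 1 / (1 + z) - ξ ≤ (cp (kfin_mu N X) (r + 1)).real (Set.Ici (r + 1 + d)) := by
    rw [kfin_cp hN, le_div_iff₀ (pow_pos hN' _)]
    refine hcard.trans ?_
    rw [← Sm_family (range N) (r + 1) G hU]
    refine Sm_mono _ _ _ _ fun M _ _ => ?_
    by_cases hM : M ∈ G.image Finset.val
    · obtain ⟨A, hA, rfl⟩ := mem_image.mp hM
      rw [if_pos hM, if_pos (show (r + 1 + d : ℝ) ≤ (A.val.map X).sum from hG A hA)]
    · rw [if_neg hM]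
      split_ifs <;> norm_num
  rcases H _ inferInstance h1 h2 h3 h4 with h | h
  · left
    have hm : MeasurableSet {x : ℝ | |x - (r + 1 + d) / (r + 1)| < ε} :=
      measurableSet_lt (by fun_prop) measurable_const
    rw [kfin_real N X hm (fun v => |X v - (r + 1 + d) / (r + 1)| < ε) (fun v => Iff.rfl),
      lt_div_iff₀ hN'] at h
    exact h
  · right
    have hm : MeasurableSet {x : ℝ | r + 1 + d - ε < x} :=
      measurableSet_lt measurable_const measurable_id
    rw [kfin_real N X hm (fun v => r + 1 + d - ε < X v) (fun v => Iff.rfl), lt_div_iff₀ hN'] at h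
    exact h

end Pool.Agent.Work.EMC
end
end

-- merged part: Pool.Agent.Work.MP_9079fe_co.KMain
section
-- merged part: Pool.Agent.Work.MP_9079fe_co.KStruct
section
/-! Structure of large families at the crossover. -/

namespace Pool.Agent.Work.EMC
open Finset

theorem kstruct_count {n r l : ℕ} {F : Finset (Finset ℕ)} (hU : Unif n (r + 1) F) :
    F.card ≤ (F.filter fun A => ∀ a ∈ A, l ≤ a).card + l * n.choose r := by
  have h1 : (F.filter fun A => ¬ ∀ a ∈ A, l ≤ a) ⊆
      (range l).biUnion fun i => F.filter fun A => i ∈ A := by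
    intro A hA
    obtain ⟨hF, h⟩ := mem_filter.1 hA
    push Not at h
    obtain ⟨a, ha, hl⟩ := h
    exact mem_biUnion.2 ⟨a, mem_range.2 hl, mem_filter.2 ⟨hF, ha⟩⟩
  have h2 : ∀ i ∈ range l, (F.filter fun A => i ∈ A).card ≤ n.choose r := by
    intro i _
    have h := card_le_card_of_injOn (s := F.filter fun A => i ∈ A)
      (t := powersetCard r (range n)) (fun A => A.erase i) (fun A hA => by
        obtain ⟨hF, hi⟩ := mem_filter.1 (mem_coe.1 hA)
        refine mem_coe.2 (mem_powersetCard.2 ⟨(erase_subset _ _).trans (hU A hF).1, ?_⟩)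
        rw [card_erase_of_mem hi, (hU A hF).2]
        rfl) (fun A hA B hB hAB => by
        have a := (mem_filter.1 (mem_coe.1 hA)).2
        have b := (mem_filter.1 (mem_coe.1 hB)).2
        have e : A.erase i = B.erase i := hAB
        rw [← insert_erase a, ← insert_erase b, e])
    rwa [card_powersetCard, card_range] at h
  have h3 := (card_le_card h1).trans (card_biUnion_le_card_mul _ _ _ h2)
  rw [card_range] at h3
  have h4 := card_filter_add_card_filter_not (s := F) (fun A => ∀ a ∈ A, l ≤ a)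
  omega

theorem kstruct_shift {n r l : ℕ} {F : Finset (Finset ℕ)} (hU : Unif n (r + 1) F) {X : ℕ → ℝ}
    {t : ℝ} (hX : ∀ A ∈ F, (∀ a ∈ A, l ≤ a) → t ≤ ∑ a ∈ A, X (a - l)) :
    ∃ G : Finset (Finset ℕ), Unif n (r + 1) G ∧ (∀ A ∈ G, t ≤ ∑ a ∈ A, X a) ∧
      F.card ≤ G.card + l * n.choose r := by
  have inj : ∀ A : Finset ℕ, (∀ a ∈ A, l ≤ a) → Set.InjOn (fun a => a - l) A := by
    intro A hA a ha b hb h
    have h1 := hA a ha
    have h2 := hA b hb
    have h3 : a - l = b - l := h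
    omega
  have back : ∀ A : Finset ℕ, (∀ a ∈ A, l ≤ a) →
      (A.image fun a => a - l).image (fun a => a + l) = A := by
    intro A hA
    rw [image_image]
    refine (image_congr fun a ha => ?_).trans image_id
    have := hA a ha
    change a - l + l = a
    omega
  refine ⟨(F.filter fun A => ∀ a ∈ A, l ≤ a).image fun A => A.image fun a => a - l, ?_, ?_, ?_⟩
  · intro B hB
    obtain ⟨A, hA, rfl⟩ := mem_image.1 hB
    obtain ⟨hF, hl⟩ := mem_filter.1 hA
    refine ⟨fun b hb => ?_, by rw [card_image_of_injOn (inj A hl), (hU A hF).2]⟩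
    obtain ⟨a, ha, rfl⟩ := mem_image.1 hb
    have := mem_range.1 ((hU A hF).1 ha)
    exact mem_range.2 (by omega)
  · intro B hB
    obtain ⟨A, hA, rfl⟩ := mem_image.1 hB
    obtain ⟨hF, hl⟩ := mem_filter.1 hA
    rw [sum_image (inj A hl)]
    exact hX A hF hl
  · rw [card_image_of_injOn]
    · exact kstruct_count hU
    · intro A hA B hB h
      have e : A.image (fun a => a - l) = B.image fun a => a - l := h
      rw [← back A (mem_filter.1 (mem_coe.1 hA)).2, ← back B (mem_filter.1 (mem_coe.1 hB)).2, e]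

theorem kstruct_dense {r s n l f g : ℕ} {t η : ℝ} (ht : (r:ℝ) + 1 ≤ t) (hη : 0 < η)
    (hn : (n:ℝ) ≤ (t + η) * s) (hl : (l:ℝ) ≤ η * n)
    (hf : ((r + 1) * (s + 1) - 1).choose (r + 1) < f) (hg : f ≤ g + l * n.choose r) :
    (((r + 1) / t) ^ (r + 1) - 2 * ((r + 1) * η)) * (n:ℝ) ^ (r + 1) ≤ (r + 1).factorial * g := by
  have hr0 : (0:ℝ) ≤ r := Nat.cast_nonneg r
  have ht0 : 0 < t := by linarith only [ht]
  have h1 : ((r + 1) * s) ^ (r + 1) ≤ (r + 1).factorial * f := by
    have a := Nat.pow_sub_le_descFactorial ((r + 1) * (s + 1) - 1) (r + 1)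
    have e : (r + 1) * (s + 1) - 1 + 1 - (r + 1) = (r + 1) * s := by
      have : (r + 1) * (s + 1) = (r + 1) * s + r + 1 := by ring
      omega
    rw [e, Nat.descFactorial_eq_factorial_mul_choose] at a
    exact a.trans (Nat.mul_le_mul_left _ hf.le)
  have h2 : (r + 1).factorial * (l * n.choose r) ≤ (r + 1) * l * n ^ r := by
    have a := Nat.descFactorial_le_pow n r
    rw [Nat.descFactorial_eq_factorial_mul_choose] at a
    calc (r + 1).factorial * (l * n.choose r) = (r + 1) * l * (r.factorial * n.choose r) := by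
          rw [Nat.factorial_succ]; ring
      _ ≤ _ := Nat.mul_le_mul_left _ a
  have h3 : ((r + 1) * s) ^ (r + 1) ≤ (r + 1).factorial * g + (r + 1) * l * n ^ r := by
    have := Nat.mul_le_mul_left (r + 1).factorial hg
    rw [mul_add] at this
    omega
  have h4 : (((r:ℝ) + 1) * s) ^ (r + 1) ≤ (r + 1).factorial * g + (r + 1) * l * (n:ℝ) ^ r := by
    exact_mod_cast h3
  have h5 : ((r:ℝ) + 1) * l * (n:ℝ) ^ r ≤ (r + 1) * η * (n:ℝ) ^ (r + 1) := by
    have := mul_le_mul_of_nonneg_right (mul_le_mul_of_nonneg_left hl (by linarith only [] : 0 ≤ (r:ℝ) + 1))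
      (pow_nonneg (Nat.cast_nonneg n : (0:ℝ) ≤ n) r)
    rw [pow_succ]
    linarith only [this]
  obtain ⟨a, ha⟩ : ∃ a : ℝ, a = (r + 1) / t := ⟨_, rfl⟩
  obtain ⟨b, hb⟩ : ∃ b : ℝ, b = (r + 1) / (t + η) := ⟨_, rfl⟩
  have ha1 : a ≤ 1 := by rw [ha]; exact (div_le_one ht0).2 ht
  have hb0 : 0 ≤ b := by rw [hb]; positivity
  have hba : b ≤ a := by
    rw [ha, hb]; exact div_le_div_of_nonneg_left (by linarith only []) ht0 (by linarith only [hη])
  have hab : a - b ≤ η := by
    have e1 : a * t = r + 1 := by rw [ha]; field_simp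
    have e2 : b * (t + η) = r + 1 := by rw [hb]; field_simp
    have e3 : (a - b) * t = b * η := by linarith only [e1, e2]
    have e4 : (a - b) * 1 ≤ (a - b) * t := mul_le_mul_of_nonneg_left (by linarith only [ht]) (by linarith only [hba])
    have e5 : b * η ≤ 1 * η := mul_le_mul_of_nonneg_right (by linarith only [ha1, hba]) hη.le
    linarith only [e1, e2, e4, e5]
  have h6 : a ^ (r + 1) - b ^ (r + 1) ≤ (r + 1) * η := by
    have h := abs_pow_sub_pow_le a b (r + 1)
    rw [abs_of_nonneg (sub_nonneg.2 hba), abs_of_nonneg hb0, abs_of_nonneg (hb0.trans hba),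
      max_eq_left hba] at h
    have h' : a ^ (r + 1 - 1) ≤ 1 := pow_le_one₀ (hb0.trans hba) ha1
    have h'' : (a - b) * ((r + 1 : ℕ) : ℝ) * a ^ (r + 1 - 1) ≤ η * ((r + 1 : ℕ) : ℝ) * 1 :=
      mul_le_mul (mul_le_mul_of_nonneg_right hab (Nat.cast_nonneg _)) h'
        (pow_nonneg (hb0.trans hba) _) (by positivity)
    have := (le_abs_self _).trans (h.trans h'')
    push_cast at this
    linarith only [this]
  have h7 : b ^ (r + 1) * (n:ℝ) ^ (r + 1) ≤ (((r:ℝ) + 1) * s) ^ (r + 1) := by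
    rw [← mul_pow]
    refine pow_le_pow_left₀ (by positivity) ?_ _
    have e2 : b * (t + η) = r + 1 := by rw [hb]; field_simp
    have := mul_le_mul_of_nonneg_left hn hb0
    rw [← mul_assoc, e2] at this
    exact this
  have h8 := mul_le_mul_of_nonneg_right h6 (pow_nonneg (Nat.cast_nonneg n : (0:ℝ) ≤ n) (r + 1))
  rw [← ha]
  linarith only [h4, h5, h7, h8]

theorem kstruct_case1 {r l N : ℕ} {F : Finset (Finset ℕ)} {X : ℕ → ℝ} {t ε : ℝ}
    (hU : ∀ A ∈ F, A.card = r + 1) (ht : (r:ℝ) + 1 < t) (hε : 0 < ε) (hrε : r * ε ≤ 1)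
    (h0 : ∀ v, N ≤ v → X v = 0)
    (hX : ∀ A ∈ F, (∀ a ∈ A, l ≤ a) → t ≤ ∑ a ∈ A, X (a - l)) {K : Finset ℕ}
    (hK : ∀ v ∈ K, X v ≤ t / (r + 1) + ε) :
    ∀ A ∈ F, A ⊆ range (N + l) ∨
      ¬ Disjoint A (range l ∪ (range N \ K).image fun v => v + l) := by
  intro A hA
  by_contra h
  push Not at h
  obtain ⟨h1, h2⟩ := h
  rw [disjoint_left] at h2
  obtain ⟨a0, ha0, hn⟩ := not_subset.1 h1
  rw [mem_range, not_lt] at hn
  have hr0 : (0:ℝ) ≤ r := Nat.cast_nonneg r
  have hq : 1 < t / (r + 1) := (one_lt_div (by linarith only [])).2 ht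
  have hl : ∀ a ∈ A, l ≤ a := fun a ha => by
    by_contra hlt
    exact h2 ha (mem_union_left _ (mem_range.2 (by omega)))
  have hb : ∀ a ∈ A.erase a0, X (a - l) ≤ t / (r + 1) + ε := by
    intro a ha
    have ha' := mem_of_mem_erase ha
    by_cases hN : N ≤ a - l
    · rw [h0 _ hN]; linarith only [hε, hq]
    · by_cases hk : a - l ∈ K
      · exact hK _ hk
      · have := hl a ha'
        exact absurd (mem_union_right _ (mem_image.2 ⟨a - l,
          mem_sdiff.2 ⟨mem_range.2 (by omega), hk⟩, by omega⟩)) (h2 ha')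
  have h3 := sum_le_card_nsmul _ _ _ hb
  rw [card_erase_of_mem ha0, hU A hA, Nat.add_sub_cancel, nsmul_eq_mul] at h3
  have h4 := hX A hA hl
  rw [← add_sum_erase _ _ ha0, h0 (a0 - l) (by omega)] at h4
  have e : t / (r + 1) * (r + 1) = t := by field_simp
  linarith only [hrε, hq, h3, h4, e]

theorem kstruct_case2 {r l n : ℕ} {F : Finset (Finset ℕ)} {X : ℕ → ℝ} {t : ℝ}
    (hU : Unif n (r + 1) F) (ht : (r:ℝ) + 1 < t)
    (hX : ∀ A ∈ F, (∀ a ∈ A, l ≤ a) → t ≤ ∑ a ∈ A, X (a - l)) :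
    ∀ A ∈ F,
      ¬ Disjoint A (range l ∪ ((range n).filter fun v => 1 ≤ X v).image fun v => v + l) := by
  intro A hA h2
  rw [disjoint_left] at h2
  have hl : ∀ a ∈ A, l ≤ a := fun a ha => by
    by_contra hlt
    exact h2 ha (mem_union_left _ (mem_range.2 (by omega)))
  have hb : ∀ a ∈ A, X (a - l) ≤ 1 := by
    intro a ha
    by_contra hlt
    have h1 := hl a ha
    have h3 := mem_range.1 ((hU A hA).1 ha)
    exact h2 ha (mem_union_right _ (mem_image.2 ⟨a - l,
      mem_filter.2 ⟨mem_range.2 (by omega), (not_le.1 hlt).le⟩, by omega⟩))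
  have h3 := sum_le_card_nsmul _ _ _ hb
  rw [(hU A hA).2, nsmul_eq_mul] at h3
  have h4 := hX A hA hl
  push_cast at h3
  linarith

theorem kstruct_heavy {n : ℕ} {X : ℕ → ℝ} {c : ℝ} (hc : 1 ≤ c) (hX : ∀ v, 0 ≤ X v) :
    (((range n).filter fun v => 1 ≤ X v).card : ℝ) +
      (c - 1) * ((range n).filter fun v => c < X v).card ≤ ∑ v ∈ range n, X v := by
  rw [card_filter, card_filter]
  push_cast
  rw [mul_sum, ← sum_add_distrib]
  refine sum_le_sum fun v _ => ?_
  have := hX v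
  split_ifs <;> linarith

theorem kstruct_aux {r : ℕ} {d z : ℝ} (C : Crit r d z) {θ : ℝ} (hθ : 0 < θ) (hθ1 : θ ≤ 1) :
    ∃ ξ > 0, ∃ s₀ : ℕ, ∀ s ≥ s₀, ∀ (n : ℕ) (F : Finset (Finset ℕ)),
      |(n:ℝ) - (r + 1 + d) * s| ≤ ξ * s → Unif n (r + 1) F → Shifted F → Mat F s →
      ((r + 1) * (s + 1) - 1).choose (r + 1) < F.card →
      (∃ (N : ℕ) (Y : Finset ℕ), (N:ℝ) ≤ (r + 1 + θ) * s ∧ (Y.card:ℝ) ≤ θ * s ∧
          ∀ A ∈ F, A ⊆ range N ∨ ¬ Disjoint A Y) ∨
        ∃ Z : Finset ℕ, (Z.card:ℝ) ≤ (1 + θ) * s ∧ ∀ A ∈ F, ¬ Disjoint A Z := by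
  have hd1 := C.d_lo
  have hd2 := C.d_hi
  have hr1 : (1:ℝ) ≤ r := by exact_mod_cast C.hn
  have hz : 1 / (1 + z) = (((r:ℝ) + 1) / (r + 1 + d)) ^ (r + 1) := by
    have e : 1 + z = (((r:ℝ) + 1 + d) / (r + 1)) ^ (r + 1) := by
      rw [C.hz, add_div, div_self (by linarith only [hr1] : (r:ℝ) + 1 ≠ 0)]; ring
    rw [e, one_div, ← inv_pow, inv_div]
  obtain ⟨t, ht⟩ : ∃ t : ℝ, t = r + 1 + d := ⟨_, rfl⟩
  have ht2 : 2 ≤ t := by linarith only [hd1, hr1, ht]
  obtain ⟨ε, hε, hε1⟩ : ∃ ε : ℝ, 0 < ε ∧ ε * (1 + t ^ 2) = θ / 2 :=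
    ⟨θ / 2 / (1 + t ^ 2), by positivity, by field_simp⟩
  have hεt : ε * t ≤ θ / 2 := by
    rw [← hε1]; exact mul_le_mul_of_nonneg_left (by linarith only [hθ1, hd1, hr1, ht, hε, hε1, mul_nonneg_of_nonpos_of_nonpos (Mathlib.Tactic.Linarith.sub_nonpos_of_le (sq_nonneg t)) (le_of_lt (Mathlib.Tactic.Linarith.sub_neg_of_lt hε)), mul_nonneg_of_nonpos_of_nonpos (Mathlib.Tactic.Linarith.sub_nonpos_of_le (Mathlib.Tactic.Linarith.natCast_nonneg ℝ r)) (Mathlib.Tactic.Linarith.sub_nonpos_of_le hd1), mul_nonneg_of_nonpos_of_nonpos (Mathlib.Tactic.Linarith.sub_nonpos_of_le (Mathlib.Tactic.Linarith.natCast_nonneg ℝ r)) (Mathlib.Tactic.Linarith.sub_nonpos_of_le hr1), Mathlib.Tactic.Linarith.mul_zero_eq (Mathlib.Tactic.Linarith.sub_nonpos_of_le (Mathlib.Tactic.Linarith.natCast_nonneg ℝ r)) (sub_eq_zero_of_eq ht), mul_nonneg_of_nonpos_of_nonpos (Mathlib.Tactic.Linarith.sub_nonpos_of_le hd1) (Mathlib.Tactic.Linarith.sub_nonpos_of_le hd1), Mathlib.Tactic.Linarith.mul_zero_eq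 (Mathlib.Tactic.Linarith.sub_nonpos_of_le hd1) (sub_eq_zero_of_eq ht), Mathlib.Tactic.Linarith.zero_mul_eq (sub_eq_zero_of_eq ht) (sub_eq_zero_of_eq ht)]) hε.le
  have hε2 : ε ≤ 1 / 4 := by
    have := mul_le_mul_of_nonneg_left ht2 hε.le
    linarith only [hθ1, hεt, this]
  have hrε : r * ε ≤ 1 := by
    have := mul_le_mul_of_nonneg_left (show (r:ℝ) ≤ t by linarith only [hd1, ht, hε, hε2]) hε.le
    linarith only [hθ1, hε, hεt, hε2, this]
  obtain ⟨ξ, hξ, hfin⟩ := fin_stab C hε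
  rw [← ht] at hfin ⊢
  obtain ⟨η, hη, hη1, hη2, hη3⟩ : ∃ η : ℝ, 0 < η ∧ (r + 1) * η ≤ ξ / 3 ∧ (3 + t) * η ≤ θ / 2 ∧
      η ≤ 1 / 5 := by
    refine ⟨min (ξ / 3 / (r + 1)) (min (θ / 2 / (3 + t)) (1 / 5)), by positivity, ?_, ?_,
      (min_le_right _ _).trans (min_le_right _ _)⟩
    · rw [mul_comm, ← le_div_iff₀ (by linarith only [hr1, hε, hε2])]; exact min_le_left _ _
    · rw [mul_comm, ← le_div_iff₀ (by linarith only [hd1, hr1, ht, hε, hε2])]
      exact (min_le_right _ _).trans (min_le_left _ _)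
  have hηξ : η ≤ ξ / 3 := by
    have := mul_le_mul_of_nonneg_right (show (1:ℝ) ≤ r + 1 by linarith only [hr1, hη, hη3]) hη.le
    linarith only [hη1, this]
  have htη : 0 ≤ t * η := by positivity
  obtain ⟨T, hT⟩ := exists_nat_gt ((r + 2) / η)
  have hTp : (0:ℝ) < T := lt_trans (by positivity) hT
  have hT0 : 0 < T := Nat.cast_pos.mp hTp
  rw [div_lt_iff₀ hη] at hT
  obtain ⟨B, hB⟩ : ∃ B, B = (types T (r + 1)).card := ⟨_, rfl⟩
  obtain ⟨s₁, hs₁⟩ := exists_nat_gt ((((r + 1) * (B + 1) + T : ℕ) : ℝ) / η)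
  rw [div_lt_iff₀ hη] at hs₁
  refine ⟨η, hη, s₁ + 1, fun s hs n F hn hU hS hM hF => ?_⟩
  have hs1 : (s₁:ℝ) + 1 ≤ s := by exact_mod_cast hs
  have hsp : (0:ℝ) < s := by linarith only [hθ1, hη, hη2, htη, hs1, (Nat.cast_nonneg s₁ : (0:ℝ) ≤ s₁)]
  obtain ⟨l, hl0, hN1, hN2⟩ : ∃ l : ℕ, 0 < l ∧ (r + 1) * (s + B + 1) < T * l ∧
      T * l ≤ (r + 1) * (s + B + 1) + T := by
    refine ⟨(r + 1) * (s + B + 1) / T + 1, Nat.succ_pos _, Nat.lt_mul_div_succ _ hT0, ?_⟩
    rw [mul_add T, mul_one]; exact Nat.add_le_add_right (Nat.mul_div_le _ _) _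
  obtain ⟨X, hX0, hXz, hXs, hXe⟩ := exists_weights (t := t) (by linarith only [hθ1, hd1, hr1, ht, hη, hη2, htη]) hT0 hl0
    (fun A hA => (hU A hA).2) hS hM
    (by rw [← hB]; exact lt_of_le_of_lt (Nat.mul_le_mul_left _ (Nat.le_succ _)) hN1)
  have hN : ((T * l : ℕ) : ℝ) ≤ (r + 1 + η) * s := by
    have a : ((T * l : ℕ) : ℝ) ≤ (r + 1) * s + (((r + 1) * (B + 1) + T : ℕ) : ℝ) := by
      have : T * l ≤ (r + 1) * s + ((r + 1) * (B + 1) + T) := hN2.trans (le_of_eq (by ring))
      exact_mod_cast this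
    have b := mul_le_mul_of_nonneg_right (show (s₁:ℝ) ≤ s by linarith only [hθ1, hη, hη2, htη, hs1]) hη.le
    linarith only [hs₁, a, b]
  have hl : (l:ℝ) ≤ η * s := by
    have a : (T:ℝ) * l ≤ (r + 2) * s := by
      have b := mul_le_mul_of_nonneg_right (show (r:ℝ) + 1 + η ≤ r + 2 by linarith only [hθ1, hη, hη2, htη]) hsp.le
      push_cast at hN
      linarith only [b, hN]
    have b := mul_le_mul_of_nonneg_right hT.le hsp.le
    exact le_of_mul_le_mul_left (a := (T:ℝ)) (by linarith only [a, b]) hTp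
  generalize T * l = N at hN hXz hXs
  obtain ⟨hn1, hn2⟩ := abs_le.1 hn
  have hnlo : (t - η) * s ≤ n := by linarith only [hn1]
  have hnhi : (n:ℝ) ≤ (t + η) * s := by linarith only [hn2]
  have hsn : (s:ℝ) ≤ n := by
    have := mul_le_mul_of_nonneg_right (show 1 ≤ t - η by linarith only [hθ1, hd1, hr1, ht, hη, hη2, htη]) hsp.le
    linarith only [hn1, this]
  have hNn : N ≤ n := by
    have := mul_le_mul_of_nonneg_right (show (r:ℝ) + 1 + η ≤ t - η by linarith only [hθ1, hd1, ht, hη, hη2, htη]) hsp.le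
    exact_mod_cast hN.trans (this.trans hnlo)
  obtain ⟨q, hq⟩ : ∃ q : ℝ, q = t / (r + 1) := ⟨_, rfl⟩
  have hq0 : q * (r + 1) = t := by rw [hq]; field_simp
  have hq1 : 1 ≤ q := by rw [hq, one_le_div (by linarith only [hθ1, hr1, hη, hη2, htη])]; linarith only [hθ1, hd1, ht, hη, hη2, htη]
  have hq2 : q ≤ 2 := by rw [hq, div_le_iff₀ (by linarith only [hθ1, hr1, hη, hη2, htη])]; linarith only [hθ1, hd2, hr1, ht, hη, hη2, htη]
  obtain ⟨p, hp⟩ : ∃ p : ℝ, p = (r + 1) / t := ⟨_, rfl⟩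
  have hp0 : p * t = r + 1 := by rw [hp]; field_simp
  have hp1 : p ≤ 1 := by rw [hp, div_le_one (by linarith only [hθ1, hd1, hr1, ht, hη, hη2, htη])]; linarith only [hθ1, hd1, ht, hη, hη2, htη]
  have hp2 : 1 / 2 ≤ p := by rw [hp, le_div_iff₀ (by linarith only [hθ1, hd1, hr1, ht, hη, hη2, htη])]; linarith only [hθ1, hd2, hr1, ht, hη, hη2, htη]
  have hηs : 0 ≤ η * s := by positivity
  have hsum : ∑ v ∈ range n, X v ≤ (t + 2 * η) * s := by
    rw [← sum_subset (range_subset_range.2 hNn) fun v _ hv => hXz v (by simpa using hv)]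
    rw [← hq] at hXs
    have a := mul_le_mul_of_nonneg_left hN (show 0 ≤ q by linarith only [hθ1, hη, hη2, htη, hq1])
    have b := mul_le_mul_of_nonneg_right hq2 hηs
    have c : q * ((r + 1 + η) * s) = t * s + q * (η * s) := by rw [← hq0]; ring
    linarith only [hXs, a, b, c]
  obtain ⟨G, hGU, hGX, hGc⟩ := kstruct_shift hU hXe
  have hξn := mul_le_mul_of_nonneg_left hsn hξ.le
  have hξs := mul_le_mul_of_nonneg_right hηξ hsp.le
  have hn0 : (0:ℝ) < n := by linarith only [hθ1, hη, hη2, htη, hs1, hsn]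
  have key := hfin n X G (Nat.cast_pos.1 hn0) hX0 hGU hGX (by linarith only [hn1, hsum, hξn, hξs]) (by
    have a : Ico N n ⊆ (range n).filter fun v => X v = 0 := fun v hv =>
      mem_filter.2 ⟨mem_range.2 (mem_Ico.1 hv).2, hXz v (mem_Ico.1 hv).1⟩
    have b := card_le_card a
    rw [Nat.card_Ico] at b
    have c : (n:ℝ) - N ≤ ((range n).filter fun v => X v = 0).card := by
      rw [← Nat.cast_sub hNn]; exact_mod_cast b
    have e : d / t = 1 - p := by
      rw [hp, eq_sub_iff_add_eq, ← add_div, div_eq_one_iff_eq (by linarith only [hθ1, hd1, hr1, ht, hη, hη2, htη])]; linarith only [ht]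
    have f := mul_le_mul_of_nonneg_left hnlo (show 0 ≤ p by linarith only [hθ1, hη, hη2, htη, hp2])
    have g : p * ((t - η) * s) = (r + 1) * s - p * (η * s) := by rw [← hp0]; ring
    have h := mul_le_mul_of_nonneg_right hp1 hηs
    rw [e]
    refine le_trans ?_ (by convert c)
    linarith only [hl, hN, hξn, hξs, f, g, h]) (by
    have a := kstruct_dense (t := t) (by linarith only [hθ1, hd1, ht, hη, hη2, htη]) hη hnhi
      (hl.trans (mul_le_mul_of_nonneg_left hsn hη.le)) hF hGc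
    rw [hz, ← ht]
    exact le_trans (mul_le_mul_of_nonneg_right (by linarith only [hη, hη1, hηξ]) (pow_nonneg hn0.le _)) a)
  have hεs := mul_le_mul_of_nonneg_right hεt hsp.le
  have hθs := mul_le_mul_of_nonneg_right hη2 hsp.le
  have htηs := mul_nonneg htη hsp.le
  rcases key with key | key
  · left
    rw [← hp, ← hq] at key
    obtain ⟨K, hK⟩ : ∃ K, K = (range n).filter fun v => |X v - q| < ε := ⟨_, rfl⟩
    have key' : (p - ε) * n < K.card := by rw [hK]; convert key
    have hKm : ∀ v ∈ K, |X v - q| < ε := fun v hv => by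
      rw [hK] at hv; exact (mem_filter.1 hv).2
    have hKN : K ⊆ range N := fun v hv => by
      by_contra hc
      have a := hKm v hv
      rw [hXz v (by simpa using hc), abs_lt] at a
      linarith only [hθ1, hε2, hη, hη2, htη, hq1, a, a.1]
    refine ⟨N + l, range l ∪ (range N \ K).image fun v => v + l, ?_, ?_,
      kstruct_case1 (fun A hA => (hU A hA).2) (by linarith only [hθ1, hd1, ht, hη, hη2, htη]) hε hrε hXz hXe fun v hv => ?_⟩
    · push_cast
      linarith only [hl, hN, hθs, htηs]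
    · have a := (card_union_le (range l) ((range N \ K).image fun v => v + l)).trans
        (Nat.add_le_add_left card_image_le _)
      rw [card_range, card_sdiff_of_subset hKN, card_range] at a
      have b : K.card ≤ N := by simpa using card_le_card hKN
      have c : ((range l ∪ (range N \ K).image fun v => v + l).card : ℝ) ≤ l + (N - K.card) := by
        rw [← Nat.cast_sub b]; exact_mod_cast a
      have f := mul_le_mul_of_nonneg_left hnlo (show 0 ≤ p - ε by linarith only [hθ1, hε2, hη, hη2, htη, hp2])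
      have g : (p - ε) * ((t - η) * s) =
          (r + 1) * s - p * (η * s) - ε * t * s + ε * (η * s) := by rw [← hp0]; ring
      have h := mul_le_mul_of_nonneg_right hp1 hηs
      have i := mul_nonneg hε.le hηs
      linarith only [hl, hN, hεs, hθs, htηs, key', c, f, g, h, i]
    · have a := (abs_lt.1 (hKm v hv)).2
      rw [← hq]
      linarith only [a]
  · right
    refine ⟨range l ∪ ((range n).filter fun v => 1 ≤ X v).image fun v => v + l, ?_,
      kstruct_case2 hU (by linarith only [hθ1, hd1, ht, hη, hη2, htη]) hXe⟩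
    have a := (card_union_le (range l)
      (((range n).filter fun v => 1 ≤ X v).image fun v => v + l)).trans
        (Nat.add_le_add_left card_image_le _)
    rw [card_range] at a
    have c : ((range l ∪ ((range n).filter fun v => 1 ≤ X v).image fun v => v + l).card : ℝ) ≤
        l + ((range n).filter fun v => 1 ≤ X v).card := by exact_mod_cast a
    have hh := kstruct_heavy (n := n) (c := t - ε) (by linarith only [hθ1, hd1, hr1, ht, hε2, hη, hη2, htη]) fun v => (hX0 v).1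
    obtain ⟨H, hH⟩ : ∃ H : ℝ, H = ((range n).filter fun v => t - ε < X v).card := ⟨_, rfl⟩
    have key' : (1 / t - ε) * n < H := by rw [hH]; convert key
    rw [← hH] at hh
    obtain ⟨u, hu⟩ : ∃ u : ℝ, u = 1 / t := ⟨_, rfl⟩
    rw [← hu] at key'
    have hu0 : u * t = 1 := by rw [hu]; field_simp
    have hu1 : u ≤ 1 := by rw [hu, div_le_one (by linarith only [hθ1, hd1, hr1, ht, hη, hη2, htη])]; linarith only [hθ1, hd1, hr1, ht, hη, hη2, htη]
    have huε : ε ≤ u := by rw [hu, le_div_iff₀ (by linarith only [hθ1, hd1, hr1, ht, hη, hη2, htη])]; linarith only [hθ1, hεt, hη, hη2, htη]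
    have f := mul_le_mul_of_nonneg_left hnlo (sub_nonneg.2 huε)
    have g : (u - ε) * ((t - η) * s) =
        u * t * s - u * (η * s) - ε * t * s + ε * (η * s) := by ring
    have h := mul_le_mul_of_nonneg_right hu1 hηs
    have i := mul_nonneg hε.le hηs
    rw [hu0] at g
    have j : (1 - η - ε * t) * s ≤ H := by linarith only [key', f, g, h, i]
    have k := mul_le_mul_of_nonneg_left j (show 0 ≤ t - ε - 1 by linarith only [hθ1, hd1, hr1, ht, hε2, hη, hη2, htη])
    have m : (t - ε - 1) * ((1 - η - ε * t) * s) = (t - 1) * s - ε * (1 + t ^ 2) * s - t * η * s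
        + (ε + 1) * ((η + ε * t) * s) := by ring
    have o : 0 ≤ (ε + 1) * ((η + ε * t) * s) := by positivity
    rw [hε1] at m
    linarith only [hl, hsum, hθs, c, hh, k, m, o]

theorem structure_lemma {r : ℕ} {d z : ℝ} (C : Crit r d z) {θ : ℝ} (hθ : 0 < θ) :
    ∃ ξ > 0, ∃ s₀ : ℕ, ∀ s ≥ s₀, ∀ (n : ℕ) (F : Finset (Finset ℕ)),
      |(n:ℝ) - (r + 1 + d) * s| ≤ ξ * s → Unif n (r + 1) F → Shifted F → Mat F s →
      ((r + 1) * (s + 1) - 1).choose (r + 1) < F.card →
      (∃ (N : ℕ) (Y : Finset ℕ), (N:ℝ) ≤ (r + 1 + θ) * s ∧ (Y.card:ℝ) ≤ θ * s ∧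
          ∀ A ∈ F, A ⊆ range N ∨ ¬ Disjoint A Y) ∨
        ∃ Z : Finset ℕ, (Z.card:ℝ) ≤ (1 + θ) * s ∧ ∀ A ∈ F, ¬ Disjoint A Z := by
  obtain ⟨ξ, hξ, s₀, h⟩ := kstruct_aux C (lt_min hθ one_pos) (min_le_right θ 1)
  refine ⟨ξ, hξ, s₀, fun s hs n F h1 h2 h3 h4 h5 => ?_⟩
  have a := mul_le_mul_of_nonneg_right (min_le_left θ 1) (Nat.cast_nonneg s : (0:ℝ) ≤ s)
  rcases h s hs n F h1 h2 h3 h4 h5 with ⟨N, Y, b, c, e⟩ | ⟨Z, b, c⟩
  · exact Or.inl ⟨N, Y, by linarith only [a, b], by linarith only [a, c], e⟩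
  · exact Or.inr ⟨Z, by linarith only [a, b], c⟩

end Pool.Agent.Work.EMC
end

-- merged part: Pool.Agent.Work.MP_9079fe_co.KCmp
section
/-! Comparing the two extremal sizes. -/

namespace Pool.Agent.Work.EMC
open Finset

private theorem kcmp_mono (k : ℕ) {a b : ℝ} (ha : 1 ≤ a) (hab : a ≤ b) :
    0 ≤ a ^ k - (a - 1) ^ k ∧ a ^ k - (a - 1) ^ k ≤ b ^ k - (b - 1) ^ k := by
  induction k with
  | zero => simp
  | succ k ih =>
    have e1 : a ^ (k + 1) - (a - 1) ^ (k + 1) = a * (a ^ k - (a - 1) ^ k) + (a - 1) ^ k := by ring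
    have e2 : b ^ (k + 1) - (b - 1) ^ (k + 1) = b * (b ^ k - (b - 1) ^ k) + (b - 1) ^ k := by ring
    have h1 : 0 ≤ (a - 1) ^ k := pow_nonneg (by linarith) k
    have h2 : (a - 1) ^ k ≤ (b - 1) ^ k := pow_le_pow_left₀ (by linarith) (by linarith) k
    have h3 : a * (a ^ k - (a - 1) ^ k) ≤ b * (b ^ k - (b - 1) ^ k) :=
      mul_le_mul hab ih.2 ih.1 (by linarith)
    have h4 : 0 ≤ a * (a ^ k - (a - 1) ^ k) := mul_nonneg (by linarith) ih.1
    rw [e1, e2]
    constructor <;> linarith only [h1, h4, h2, h3]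

private theorem kcmp_strict {r : ℕ} (hr : 0 < r) {a b : ℝ} (ha : 1 ≤ a) (hab : a < b) :
    a ^ (r + 1) - (a - 1) ^ (r + 1) < b ^ (r + 1) - (b - 1) ^ (r + 1) := by
  have e1 : a ^ (r + 1) - (a - 1) ^ (r + 1) = a * (a ^ r - (a - 1) ^ r) + (a - 1) ^ r := by ring
  have e2 : b ^ (r + 1) - (b - 1) ^ (r + 1) = b * (b ^ r - (b - 1) ^ r) + (b - 1) ^ r := by ring
  have ih := kcmp_mono r ha hab.le
  have h2 : (a - 1) ^ r < (b - 1) ^ r := pow_lt_pow_left₀ (by linarith only [hab]) (by linarith) hr.ne'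
  have h3 : a * (a ^ r - (a - 1) ^ r) ≤ b * (b ^ r - (b - 1) ^ r) :=
    mul_le_mul hab.le ih.2 ih.1 (by linarith)
  rw [e1, e2]
  linarith only [h2, h3]

private theorem kcmp_upper (a k : ℕ) {x : ℝ} (h : (a : ℝ) ≤ x) :
    (k.factorial : ℝ) * a.choose k ≤ x ^ k := by
  have h1 : k.factorial * a.choose k ≤ a ^ k := by
    rw [← Nat.descFactorial_eq_factorial_mul_choose]; exact Nat.descFactorial_le_pow a k
  have h2 : (k.factorial : ℝ) * a.choose k ≤ (a : ℝ) ^ k := by exact_mod_cast h1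
  exact h2.trans (pow_le_pow_left₀ (Nat.cast_nonneg a) h k)

private theorem kcmp_lower (a k : ℕ) {x : ℝ} (h0 : 0 ≤ x) (h : x ≤ (a : ℝ) + 1 - k) :
    x ^ k ≤ (k.factorial : ℝ) * a.choose k := by
  have h1 : (a + 1 - k) ^ k ≤ k.factorial * a.choose k := by
    rw [← Nat.descFactorial_eq_factorial_mul_choose]; exact Nat.pow_sub_le_descFactorial a k
  have h2 : (((a + 1 - k : ℕ) : ℝ)) ^ k ≤ (k.factorial : ℝ) * a.choose k := by exact_mod_cast h1
  refine le_trans (pow_le_pow_left₀ h0 ?_ k) h2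
  have hk : k ≤ a + 1 := by
    have : (k : ℝ) ≤ (a : ℝ) + 1 := by linarith only [h0, h]
    exact_mod_cast this
  rw [Nat.cast_sub hk]
  push_cast
  exact h

private theorem kcmp_event {f : ℝ → ℝ} (hf : Continuous f) (h0 : 0 < f 0) :
    ∃ s₀ : ℕ, ∀ s ≥ s₀, 1 ≤ s ∧ 0 < f (s : ℝ)⁻¹ := by
  have h1 : Filter.Tendsto (fun s : ℕ => f (s : ℝ)⁻¹) Filter.atTop (nhds (f 0)) :=
    (hf.tendsto 0).comp (tendsto_inv_atTop_zero.comp tendsto_natCast_atTop_atTop)
  exact Filter.eventually_atTop.1 ((Filter.eventually_ge_atTop 1).and (h1.eventually_const_lt h0))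

theorem compare_lo {r : ℕ} {t ξ : ℝ} (hr : 0 < r) (hξ : 0 < ξ) (ht : r + 1 + ξ ≤ t)
    (h : t ^ (r + 1) - (t - 1) ^ (r + 1) = ((r:ℝ) + 1) ^ (r + 1)) :
    ∃ s₀ : ℕ, ∀ s ≥ s₀, ∀ n : ℕ, (t - ξ) * s ≤ n → n ≤ (t - ξ) * s + 1 →
      n.choose (r + 1) - (n - s).choose (r + 1) ≤ ((r + 1) * (s + 1) - 1).choose (r + 1) := by
  have hr0 : (0 : ℝ) ≤ r := Nat.cast_nonneg r
  obtain ⟨s₀, hs₀⟩ := kcmp_event
    (f := fun u => ((r : ℝ) + 1) ^ (r + 1) - ((t - ξ + u) ^ (r + 1) - (t - ξ - 1 - r * u) ^ (r + 1)))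
    (by fun_prop) (by
      have := kcmp_strict hr (a := t - ξ) (b := t) (by linarith only [ht]) (by linarith)
      simp only [add_zero, mul_zero, sub_zero]
      linarith only [h, this])
  refine ⟨s₀, fun s hs n h1 h2 => ?_⟩
  obtain ⟨hs1, hf⟩ := hs₀ s hs
  have hs1' : (1 : ℝ) ≤ s := by exact_mod_cast hs1
  have hsp : (0 : ℝ) < s := by linarith only [hs1']
  have hns : s ≤ n := by
    have : (s : ℝ) ≤ n := by linarith only [h1, ht, mul_nonneg_of_nonpos_of_nonpos (Mathlib.Tactic.Linarith.sub_nonpos_of_le (Mathlib.Tactic.Linarith.natCast_nonneg ℝ r)) (Mathlib.Tactic.Linarith.sub_nonpos_of_le (Mathlib.Tactic.Linarith.natCast_nonneg ℝ s)), mul_nonneg_of_nonpos_of_nonpos (Mathlib.Tactic.Linarith.sub_nonpos_of_le (Mathlib.Tactic.Linarith.natCast_nonneg ℝ s)) (Mathlib.Tactic.Linarith.sub_nonpos_of_le ht)]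
    exact_mod_cast this
  have a1 := kcmp_upper n (r + 1) h2
  have a2 := kcmp_lower (n - s) (r + 1) (x := (t - ξ - 1) * s - r) (by linarith only [hs1', ht, mul_nonneg_of_nonpos_of_nonpos (Mathlib.Tactic.Linarith.sub_nonpos_of_le (Mathlib.Tactic.Linarith.natCast_nonneg ℝ r)) (Mathlib.Tactic.Linarith.sub_nonpos_of_le hs1'), mul_nonneg_of_nonpos_of_nonpos (Mathlib.Tactic.Linarith.sub_nonpos_of_le (Mathlib.Tactic.Linarith.natCast_nonneg ℝ s)) (Mathlib.Tactic.Linarith.sub_nonpos_of_le ht)])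
    (by rw [Nat.cast_sub hns]; push_cast; linarith only [h1])
  have a3 := kcmp_lower ((r + 1) * (s + 1) - 1) (r + 1) (x := (r + 1) * s) (by positivity)
    (by rw [Nat.cast_sub (Nat.one_le_iff_ne_zero.2 (by positivity))]; push_cast; linarith only [])
  have e1 : ((t - ξ) * s + 1) ^ (r + 1) = (t - ξ + (s : ℝ)⁻¹) ^ (r + 1) * s ^ (r + 1) := by
    rw [← mul_pow]; congr 1; field_simp
  have e2 : ((t - ξ - 1) * s - r) ^ (r + 1) =
      (t - ξ - 1 - r * (s : ℝ)⁻¹) ^ (r + 1) * s ^ (r + 1) := by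
    rw [← mul_pow]; congr 1; field_simp
  have a4 := mul_pos hf (pow_pos hsp (r + 1))
  rw [mul_pow] at a3
  have hfac : (0 : ℝ) < (r + 1).factorial := by positivity
  have a5 : (n.choose (r + 1) : ℝ) ≤
      ((r + 1) * (s + 1) - 1).choose (r + 1) + (n - s).choose (r + 1) := by
    refine le_of_mul_le_mul_left ?_ hfac
    rw [e1] at a1
    rw [e2] at a2
    linarith only [a1, a2, a3, a4]
  rw [tsub_le_iff_right]
  exact_mod_cast a5

theorem compare_hi {r : ℕ} {t ξ : ℝ} (hr : 0 < r) (hξ : 0 < ξ) (ht : r + 1 ≤ t)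
    (h : t ^ (r + 1) - (t - 1) ^ (r + 1) = ((r:ℝ) + 1) ^ (r + 1)) :
    ∃ s₀ : ℕ, ∀ s ≥ s₀, ∀ n : ℕ, (t + ξ) * s - 1 ≤ n → n ≤ (t + ξ) * s →
      ((r + 1) * (s + 1) - 1).choose (r + 1) ≤ n.choose (r + 1) - (n - s).choose (r + 1) := by
  have hr0 : (0 : ℝ) ≤ r := Nat.cast_nonneg r
  obtain ⟨s₀, hs₀⟩ := kcmp_event
    (f := fun u => (t + ξ - (r + 1) * u) ^ (r + 1) - (t + ξ - 1) ^ (r + 1) -
      (((r : ℝ) + 1) * (1 + u)) ^ (r + 1))
    (by fun_prop) (by
      have := kcmp_strict hr (a := t) (b := t + ξ) (by linarith only [ht]) (by linarith)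
      simp only [add_zero, mul_zero, sub_zero, mul_one]
      linarith only [h, this])
  refine ⟨s₀, fun s hs n h1 h2 => ?_⟩
  obtain ⟨hs1, hf⟩ := hs₀ s hs
  have hs1' : (1 : ℝ) ≤ s := by exact_mod_cast hs1
  have hsp : (0 : ℝ) < s := by linarith only [hs1']
  have a1 := kcmp_lower n (r + 1) (x := (t + ξ) * s - (r + 1)) (by linarith only [hs1', hξ, ht, mul_nonneg_of_nonpos_of_nonpos (Mathlib.Tactic.Linarith.sub_nonpos_of_le (Mathlib.Tactic.Linarith.natCast_nonneg ℝ r)) (Mathlib.Tactic.Linarith.sub_nonpos_of_le hs1'), mul_nonneg_of_nonpos_of_nonpos (Mathlib.Tactic.Linarith.sub_nonpos_of_le (Mathlib.Tactic.Linarith.natCast_nonneg ℝ s)) (le_of_lt (Mathlib.Tactic.Linarith.sub_neg_of_lt hξ)), mul_nonneg_of_nonpos_of_nonpos (Mathlib.Tactic.Linarith.sub_nonpos_of_le (Mathlib.Tactic.Linarith.natCast_nonneg ℝ s)) (Mathlib.Tactic.Linarith.sub_nonpos_of_le ht)])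
    (by push_cast; linarith only [h1])
  have a2 := kcmp_upper (n - s) (r + 1) (x := (t + ξ - 1) * s) (by
    rcases le_total s n with hns | hns
    · rw [Nat.cast_sub hns]; linarith only [h2]
    · rw [Nat.sub_eq_zero_of_le hns]; push_cast; linarith only [hξ, ht, mul_nonneg_of_nonpos_of_nonpos (Mathlib.Tactic.Linarith.sub_nonpos_of_le (Mathlib.Tactic.Linarith.natCast_nonneg ℝ r)) (Mathlib.Tactic.Linarith.sub_nonpos_of_le (Mathlib.Tactic.Linarith.natCast_nonneg ℝ s)), mul_nonneg_of_nonpos_of_nonpos (Mathlib.Tactic.Linarith.sub_nonpos_of_le (Mathlib.Tactic.Linarith.natCast_nonneg ℝ s)) (le_of_lt (Mathlib.Tactic.Linarith.sub_neg_of_lt hξ)), mul_nonneg_of_nonpos_of_nonpos (Mathlib.Tactic.Linarith.sub_nonpos_of_le (Mathlib.Tactic.Linarith.natCast_nonneg ℝ s)) (Mathlib.Tactic.Linarith.sub_nonpos_of_le ht)])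
  have a3 := kcmp_upper ((r + 1) * (s + 1) - 1) (r + 1) (x := (r + 1) * (s + 1))
    (by rw [Nat.cast_sub (Nat.one_le_iff_ne_zero.2 (by positivity))]; push_cast; linarith only [])
  have e1 : ((t + ξ) * s - (r + 1)) ^ (r + 1) =
      (t + ξ - (r + 1) * (s : ℝ)⁻¹) ^ (r + 1) * s ^ (r + 1) := by
    rw [← mul_pow]; congr 1; field_simp
  have e2 : (((r : ℝ) + 1) * (s + 1)) ^ (r + 1) =
      (((r : ℝ) + 1) * (1 + (s : ℝ)⁻¹)) ^ (r + 1) * s ^ (r + 1) := by
    rw [← mul_pow]; congr 1; field_simp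
  have a4 := mul_pos hf (pow_pos hsp (r + 1))
  rw [mul_pow] at a2
  have hfac : (0 : ℝ) < (r + 1).factorial := by positivity
  have a5 : (((r + 1) * (s + 1) - 1).choose (r + 1) : ℝ) + (n - s).choose (r + 1) ≤
      n.choose (r + 1) := by
    refine le_of_mul_le_mul_left ?_ hfac
    rw [e1] at a1
    rw [e2] at a3
    linarith only [a1, a2, a3, a4]
  exact Nat.le_sub_of_add_le (by exact_mod_cast a5)

end Pool.Agent.Work.EMC
end

-- merged part: Pool.Agent.Work.MP_9079fe_co.KMain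
section
/-! The matching conjecture for large matching number. -/

namespace Pool.Agent.Work.EMC
open Finset

theorem window {r : ℕ} {d z : ℝ} (C : Crit r d z) :
    ∃ ξ > 0, ξ ≤ 1 / 10 ∧ ∃ s₀ : ℕ, ∀ s ≥ s₀, ∀ (n : ℕ) (F : Finset (Finset ℕ)),
      |(n:ℝ) - (r + 1 + d) * s| ≤ ξ * s → Unif n (r + 1) F → Mat F s →
      F.card ≤ max (n.choose (r + 1) - (n - s).choose (r + 1))
        (((r + 1) * (s + 1) - 1).choose (r + 1)) := by
  have hr : 0 < r := C.hn
  have hd1 := C.d_lo
  have hd2 := C.d_hi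
  have hk : (0:ℝ) < r + 1 := by positivity
  obtain ⟨θ₁, hθ₁, s₁, h₁⟩ := near_clique r hr
  obtain ⟨θ₂, hθ₂, s₂, h₂⟩ := near_cover r hr
  obtain ⟨ξ₀, hξ₀, s₃, h₃⟩ := structure_lemma C (lt_min hθ₁ hθ₂)
  have hc : Continuous fun ξ : ℝ => ((r + 1 + d + ξ) / (r + 1)) ^ (r + 1) := by fun_prop
  have ho : ∀ᶠ ξ in nhds (0:ℝ), ((r + 1 + d + ξ) / (r + 1)) ^ (r + 1) < 8 / 5 := by
    refine hc.continuousAt.eventually_lt continuousAt_const ?_
    have h1 := C.hz
    have h2 := C.z_le
    have h3 : ((r:ℝ) + 1 + d + 0) / (r + 1) = 1 + d / (r + 1) := by field_simp; ring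
    simp only [h3]
    linarith only [h1, h2]
  obtain ⟨ξ, ⟨hx, hξ1, hξ2⟩, hξ⟩ := (((ho.and ((gt_mem_nhds hξ₀).and
    (gt_mem_nhds (show (0:ℝ) < 1 / 10 by norm_num)))).filter_mono nhdsWithin_le_nhds).and
      (self_mem_nhdsWithin (a := (0:ℝ)) (s := Set.Ioi 0))).exists
  have hξ : 0 < ξ := hξ
  refine ⟨ξ, hξ, hξ2.le, s₁ + s₂ + s₃ + 3 * (r + 1), fun s hs n F₀ hn hU₀ hM₀ => ?_⟩
  obtain ⟨F, hU, hM, hS, hc⟩ := exists_shifted _ F₀ rfl hU₀ hM₀
  rw [← hc]
  have hs0 : (0:ℝ) ≤ s := Nat.cast_nonneg s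
  have hs3 : 3 * ((r:ℝ) + 1) ≤ s := by exact_mod_cast (show 3 * (r + 1) ≤ s by omega)
  obtain ⟨hn1, hn2⟩ := abs_le.1 hn
  have e1 := mul_le_mul_of_nonneg_right hξ2.le hs0
  have e2 := mul_le_mul_of_nonneg_right hd1 hs0
  have e3 := mul_le_mul_of_nonneg_right hd2 hs0
  by_cases hle : F.card ≤ ((r + 1) * (s + 1) - 1).choose (r + 1)
  · exact le_max_of_le_right hle
  rcases h₃ s (by omega) n F (hn.trans (mul_le_mul_of_nonneg_right hξ1.le hs0)) hU hS hM
    (not_le.1 hle) with ⟨N, Y, a1, a2, a3⟩ | ⟨Z, a1, a2⟩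
  · have e4 := mul_le_mul_of_nonneg_right (min_le_left θ₁ θ₂) hs0
    refine absurd (h₁ s (by omega) n N _ F Y ?_ hx.le ?_ ?_ hU hS hM (by linarith only [a1, e4]) (by linarith only [a2, e4]) a3)
      hle
    · rw [one_le_div hk]; linarith
    · have : ((r:ℝ) + 1) * (s + 1) ≤ n := by linarith
      exact_mod_cast this
    · have : ((r:ℝ) + 1 + d + ξ) / (r + 1) * ((r + 1) * s) = (r + 1 + d + ξ) * s := by field_simp
      have h0 : (0:ℝ) ≤ r := Nat.cast_nonneg r
      rw [this]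
      linarith only [hn2]
  · have e4 := mul_le_mul_of_nonneg_right (min_le_right θ₁ θ₂) hs0
    refine le_max_of_le_left (h₂ s (by omega) n F Z (by linarith) ?_ hU hM (by linarith only [a1, e4]) a2)
    have : (n:ℝ) ≤ (r + 2) * s := by linarith
    exact_mod_cast this

theorem emc_nat (r : ℕ) : ∃ s₀ : ℕ, ∀ s ≥ s₀, ∀ (n : ℕ) (F : Finset (Finset ℕ)),
    Unif n (r + 1) F → Mat F s →
      F.card ≤ max (n.choose (r + 1) - (n - s).choose (r + 1))
        (((r + 1) * (s + 1) - 1).choose (r + 1)) ∧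
      ((r + 2) * s ≤ n → F.card ≤ n.choose (r + 1) - (n - s).choose (r + 1)) := by
  induction r with
  | zero =>
    refine ⟨0, fun s _ n F hU hM => ?_⟩
    have h : F.card ≤ s := hM F subset_rfl fun A hA B hB hAB => by
      obtain ⟨a, rfl⟩ := card_eq_one.1 (hU A hA).2
      obtain ⟨b, rfl⟩ := card_eq_one.1 (hU B hB).2
      exact disjoint_singleton.2 fun h => hAB (by rw [h])
    simp only [zero_add, Nat.choose_one_right]
    exact ⟨le_max_of_le_right (by omega), fun _ => by omega⟩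
  | succ r ih =>
    obtain ⟨s₀, h₀⟩ := ih
    obtain ⟨d, z, C⟩ := exists_crit (r + 1) (by omega)
    obtain ⟨ξ, hξ, hξ2, s₁, h₁⟩ := window C
    have hd1 := C.d_lo
    have hd2 := C.d_hi
    have hcr : (((r + 1 : ℕ) : ℝ) + 1 + d) ^ (r + 1 + 1) -
        (((r + 1 : ℕ) : ℝ) + 1 + d - 1) ^ (r + 1 + 1) = (((r + 1 : ℕ) : ℝ) + 1) ^ (r + 1 + 1) := by
      rw [← C.cross]
      congr 2
      ring
    obtain ⟨s₂, h₂⟩ := compare_lo (Nat.succ_pos r) hξ (by linarith only [hξ, hξ2, hd1]) hcr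
    obtain ⟨s₃, h₃⟩ := compare_hi (Nat.succ_pos r) hξ (by linarith only [hξ, hξ2, hd1]) hcr
    obtain ⟨s₄, h₄⟩ := exists_nat_gt (1 / ξ)
    refine ⟨s₀ + s₁ + s₂ + s₃ + s₄ + 3 * (r + 2), fun s hs => ?_⟩
    set t : ℝ := ((r + 1 : ℕ) : ℝ) + 1 + d with ht
    have ht' : t = r + 2 + d := by rw [ht]; push_cast; ring
    have hr0 : (0:ℝ) ≤ r := Nat.cast_nonneg r
    have hs0 : (0:ℝ) ≤ s := Nat.cast_nonneg s
    have hs3 : 3 * ((r:ℝ) + 2) ≤ s := by exact_mod_cast (show 3 * (r + 2) ≤ s by omega)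
    have hs4 : 1 ≤ ξ * s := by
      have : (s₄:ℝ) ≤ s := by exact_mod_cast (show s₄ ≤ s by omega)
      rw [div_lt_iff₀ hξ] at h₄
      linarith only [h₄, hξ, this, mul_nonneg_of_nonpos_of_nonpos (le_of_lt (Mathlib.Tactic.Linarith.sub_neg_of_lt hξ)) (Mathlib.Tactic.Linarith.sub_nonpos_of_le this)]
    have e1 := mul_le_mul_of_nonneg_right hξ2 hs0
    have e2 := mul_le_mul_of_nonneg_right hd1 hs0
    have e3 := mul_le_mul_of_nonneg_right hd2 hs0
    have e4 : t * s = r * s + 2 * s + d * s := by rw [ht']; ring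
    have e5 := mul_nonneg hr0 hs0
    have a1 : (t - ξ) * s ≤ (⌈(t - ξ) * s⌉₊ : ℕ) := Nat.le_ceil _
    have a2 : ((⌈(t - ξ) * s⌉₊ : ℕ) : ℝ) ≤ (t - ξ) * s + 1 :=
      (Nat.ceil_lt_add_one (by linarith only [hξ, hξ2, hs4, e1, e2, e4, e5])).le
    have b1 : (t + ξ) * s - 1 ≤ (⌊(t + ξ) * s⌋₊ : ℕ) := (Nat.sub_one_lt_floor _).le
    have b2 : ((⌊(t + ξ) * s⌋₊ : ℕ) : ℝ) ≤ (t + ξ) * s := Nat.floor_le (by linarith only [hξ, hξ2, hs4, e1, e2, e4, e5])
    generalize ⌈(t - ξ) * s⌉₊ = n₀ at a1 a2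
    generalize ⌊(t + ξ) * s⌋₊ = n₁ at b1 b2
    have c1 : (r + 2) * (s + 1) ≤ n₁ + 1 := by
      have : ((r:ℝ) + 2) * (s + 1) ≤ n₁ + 1 := by linarith only [hξ, hξ2, hs3, hs4, e1, e2, e4, b1]
      exact_mod_cast this
    have c2 : n₁ ≤ (r + 1 + 2) * s := by
      have : (n₁:ℝ) ≤ (r + 1 + 2) * s := by linarith only [hξ, hξ2, hs4, e1, e3, e4, b2]
      exact_mod_cast this
    have hi : ∀ n, n₁ ≤ n → ∀ F, Unif n (r + 2) F → Mat F s →
        F.card ≤ n.choose (r + 2) - (n - s).choose (r + 2) := by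
      intro n hn
      induction n, hn using Nat.le_induction with
      | base =>
        intro F hU hM
        exact (h₁ s (by omega) n₁ F (abs_le.2 ⟨by linarith only [hξ, hξ2, hs4, b1], by linarith only [b2]⟩) hU hM).trans
          (max_le le_rfl (h₃ s (by omega) n₁ b1 b2))
      | succ n hn ih =>
        intro F hU hM
        have c3 : (r + 2) * s + (r + 2) ≤ n + 1 := by rw [← mul_add_one]; omega
        have c4 : s ≤ n := by linarith only [hs, c1, hn, mul_nonneg_of_nonpos_of_nonpos (Mathlib.Tactic.Linarith.sub_nonpos_of_le (Mathlib.Tactic.Linarith.natCast_nonneg ℤ r)) (Mathlib.Tactic.Linarith.sub_nonpos_of_le (Mathlib.Tactic.Linarith.natCast_nonneg ℤ s))]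
        refine (step_up (by omega) ih (fun F hU hM => (h₀ s (by omega) n F hU hM).2 (by omega))
          F hU hM).trans ?_
        have p1 := Nat.choose_le_choose (r + 2) (Nat.sub_le n s)
        have p2 := Nat.choose_le_choose (r + 1) (Nat.sub_le n s)
        rw [show n + 1 - s = n - s + 1 by omega, Nat.choose_succ_succ' n (r + 1),
          Nat.choose_succ_succ' (n - s) (r + 1)]
        simp only [show r + 1 + 1 = r + 2 from rfl]
        omega
    intro n F hU hM
    refine ⟨?_, fun hn => hi n (by omega) F hU hM⟩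
    by_cases hn1 : n₁ ≤ n
    · exact le_max_of_le_left (hi n hn1 F hU hM)
    by_cases hn0 : n ≤ n₀
    · refine le_max_of_le_right ((h₁ s (by omega) n₀ F (abs_le.2 ⟨by linarith only [a1], by linarith only [hξ, hξ2, hs4, a2]⟩)
        (fun A hA => ⟨(hU A hA).1.trans (range_subset_range.2 hn0), (hU A hA).2⟩) hM).trans
          (max_le (h₂ s (by omega) n₀ a1 a2) le_rfl))
    · have f1 : (n:ℝ) ≤ n₁ := by exact_mod_cast (show n ≤ n₁ by omega)
      have f2 : (n₀:ℝ) ≤ n := by exact_mod_cast (show n₀ ≤ n by omega)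
      exact h₁ s (by omega) n F (abs_le.2 ⟨by linarith only [a1, f2], by linarith only [b2, f1]⟩) hU hM

theorem emc_large (k : ℕ) (hk : 1 ≤ k) : ∃ s₀ : ℕ, ∀ n s : ℕ, s₀ ≤ s → k * (s + 1) ≤ n →
    IsGreatest (sizes n k s) (max (n.choose k - (n - s).choose k) ((k * (s + 1) - 1).choose k)) := by
  obtain ⟨r, rfl⟩ : ∃ r, k = r + 1 := ⟨k - 1, by omega⟩
  obtain ⟨s₀, h⟩ := emc_nat r
  refine ⟨s₀, fun n s hs hn => ⟨?_, fun m hm => ?_⟩⟩
  · have hsn : s ≤ n := by linarith only [hn, mul_nonneg_of_nonpos_of_nonpos (Mathlib.Tactic.Linarith.sub_nonpos_of_le (Mathlib.Tactic.Linarith.natCast_nonneg ℤ r)) (Mathlib.Tactic.Linarith.sub_nonpos_of_le (Mathlib.Tactic.Linarith.natCast_nonneg ℤ s))]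
    rcases max_choice (n.choose (r + 1) - (n - s).choose (r + 1))
      (((r + 1) * (s + 1) - 1).choose (r + 1)) with h | h <;> rw [h]
    exacts [cover_mem hsn, clique_mem hk hn]
  · obtain ⟨F, h1, h2, rfl⟩ := exists_nat_family hm
    exact (h s hs n F h1 h2).1

end Pool.Agent.Work.EMC
end
end
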