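import Mathlib
import Pool.Agent.Work.MP_9079fe_co.KBoxM

-- merged part: Pool.Agent.Work.MP_9079fe_co.KCov
section
-- merged part: Pool.Agent.Work.MP_9079fe_co.KDefs
section
/-! Definitions for the analysis of the fractional matching problem at the crossover. -/

namespace Pool.Agent.Work.EMC
open MeasureTheory Set

/-- Law of the sum of `j` independent copies. -/
noncomputable def cp (μ : Measure ℝ) (j : ℕ) : Measure ℝ :=
  (Measure.pi fun _ : Fin j => μ).map fun y => ∑ i, y i

/-- Moment generating function. -/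
noncomputable def Mg (μ : Measure ℝ) (r : ℝ) : ℝ := ∫ x, Real.exp (r * x) ∂μ

/-- Critical parameters for `k = n + 1`, threshold `t = n + 1 + d`. -/
structure Crit (n : ℕ) (d z : ℝ) : Prop where
  hn : 1 ≤ n
  d_lo : 9 / 20 ≤ d
  d_hi : d ≤ 1 / 2
  hz : z = (1 + d / (n + 1)) ^ (n + 1) - 1
  cover : z * ((1 + 1 / (n + d)) ^ (n + 1) - 1) = 1
  two : n = 1 → d = 1 / 2

/-- A law on `[0, m]` with mean one and variance `v`. -/
structure Law (μ : Measure ℝ) (m v : ℝ) : Prop where
  prob : IsProbabilityMeasure μ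
  supp : ∀ᵐ x ∂μ, x ∈ Icc 0 m
  mean : ∫ x, x ∂μ = 1
  var : ∫ x, (x - 1) ^ 2 ∂μ = v

/-- First order optimality data; `α` is the law of the sum of `n` copies. -/
structure KKT (n : ℕ) (d m v A B : ℝ) (μ α : Measure ℝ) : Prop where
  law : Law μ m v
  probα : IsProbabilityMeasure α
  suppα : ∀ᵐ τ ∂α, τ ∈ Icc 0 (n * m)
  exch : ∀ f : ℝ → ℝ, Measurable f → (∃ C, ∀ s ∈ Icc 0 ((n + 1) * m), |f s| ≤ C) →
    ∫ τ, ∫ x, (τ - n * x) * f (τ + x) ∂μ ∂α = 0
  line : ∀ᵐ x ∂μ, α.real (Ici (n + 1 + d - x)) = A + B * x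
  at0 : α.real (Ici (n + 1 + d)) = A
  atm : α.real (Ici (n + 1 + d - m)) = A + B * m
  d_pos : 0 < d
  d_le : d ≤ 1 / 2

/-- Laws on `[0, t]` with mean at most one. -/
structure InL (t : ℝ) (μ : Measure ℝ) : Prop where
  prob : IsProbabilityMeasure μ
  supp : ∀ᵐ x ∂μ, x ∈ Icc 0 t
  mean : ∫ x, x ∂μ ≤ 1

/-- Loss term of the tilted bound. -/
noncomputable def Phi (m0 m a W B h : ℝ) : ℝ :=
  1 / (m0 + h) - 1 / (m + a + h) - a / (m + a + h) ^ 2 + W / ((m + a + h) ^ 2 * (m + a + h - B))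

/-- Tilted constant, exact at the clique. -/
noncomputable def cL (n : ℕ) (d z v m a B : ℝ) : ℝ :=
  (z - d / (n + 1)) / (n / (n + 1) * d * (1 + d / (n + 1)))
    - ((1 + z) * Phi (1 + d / (n + 1)) m a ((1 + d / (n + 1)) * ((n + 1) * v - d)) B 0
      - z * Phi (1 + d / (n + 1)) m a ((1 + d / (n + 1)) * ((n + 1) * v - d)) B (1 + d / (n + 1)))

/-- Tilted constant, direct form, in terms of `m0 = 1 + d / k`, `W = m0 (k v - d)`. -/
noncomputable def cDir (d z m0 W m a B : ℝ) : ℝ :=
  (1 / (m + a) + d / m0 * (1 / (m + a) - 1 / (m + a + m0)))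
    + a * (1 / (m + a) ^ 2 + d / m0 * (1 / (m + a) ^ 2 - 1 / (m + a + m0) ^ 2))
    - W * ((1 + z) / ((m + a) ^ 2 * (m + a - B)) - z / ((m + a + m0) ^ 2 * (m + a + m0 - B)))

/-- Tilted constant, direct form. -/
noncomputable def cD (n : ℕ) (d z v m a B : ℝ) : ℝ :=
  cDir d z (1 + d / (n + 1)) ((1 + d / (n + 1)) * ((n + 1) * v - d)) m a B

/-- The real inequalities satisfied by `R = V / B` and `β = (1 - V) / B`. -/
structure Bounds (n : ℕ) (d z v b R β : ℝ) : Prop where
  v_lo : d / (n + 1) ≤ v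
  v_hi : v ≤ b
  b_hi : b ≤ n + d
  V1 : R ≤ (1 + (n + 1) * v) / (1 + d)
  Va : ∀ c, d ≤ c → (4 * (c - d) + b - v / b) ^ 2 ≤ 16 * (n * v) + 12 * v →
    R ≤ 1 + 4 / 3 * ((n + 1) * v - d) / c
  VR : ∀ g bs, 0 < g → b ≤ bs → d + n * g ≤ bs → v = g * bs →
    R ≤ 1 + ((1 + g / (d + n * g)) ^ n - 1) / (n * g) * ((n + 1) * v - d)
  Q1 : b ≤ β
  Q5 : ∀ ω, 1 + b - d ≤ ω → n * v ≤ ω * (ω - (1 + b - d)) → b + (n * v - b * (b - d)) / ω ≤ β
  QL : ∀ a B, 0 ≤ a → 0 < B → B < 1 → b - d / (n + 1) ≤ B → 0 ≤ n * v - b * (b - d) →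
    b + cL n d z v (1 + b) a B * (n * v - b * (b - d)) ≤ β
  QD : ∀ a B, 0 ≤ a → 0 < B → B < 1 → b - d / (n + 1) ≤ B → 0 ≤ n * v - b * (b - d) →
    b + cD n d z v (1 + b) a B * (n * v - b * (b - d)) ≤ β

end Pool.Agent.Work.EMC
end

-- merged part: Pool.Agent.Work.MP_9079fe_co.KCp
section
/-! Sums of independent copies. -/

namespace Pool.Agent.Work.EMC
open MeasureTheory Set

variable {μ ν : Measure ℝ}

theorem kcp_meas (j : ℕ) : Measurable fun y : Fin j → ℝ => ∑ i, y i := by fun_prop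

instance cp_prob [IsProbabilityMeasure μ] (j : ℕ) : IsProbabilityMeasure (cp μ j) := by
  exact Measure.isProbabilityMeasure_map (kcp_meas j).aemeasurable

theorem cp_zero : cp μ 0 = Measure.dirac 0 := by
  rw [cp, Measure.pi_of_empty, Measure.map_dirac' (kcp_meas 0)]
  simp

theorem kcp_mp [IsProbabilityMeasure μ] (n : ℕ) (i : Fin (n + 1)) :
    MeasurePreserving (fun y : Fin (n + 1) → ℝ => (∑ j, y (i.succAbove j), y i))
      (Measure.pi fun _ => μ) ((cp μ n).prod μ) :=
  (((kcp_meas n).measurePreserving _).prod (MeasurePreserving.id μ)).comp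
    (Measure.measurePreserving_swap.comp (measurePreserving_piFinSuccAbove (fun _ => μ) i))

theorem cp_succ [IsProbabilityMeasure μ] (j : ℕ) : cp μ (j + 1) = (cp μ j).conv μ := by
  rw [Measure.conv, ← (kcp_mp j 0).map_eq, Measure.map_map measurable_add (kcp_mp (μ := μ) j 0).1, cp]
  refine congrArg (fun f => Measure.map f _) (funext fun y => ?_)
  simp only [Function.comp]
  rw [Fin.sum_univ_succAbove y 0, add_comm]

theorem conv_tail (α : Measure ℝ) [IsProbabilityMeasure α] [IsProbabilityMeasure ν] (t : ℝ) :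
    (α.conv ν).real (Ici t) = ∫ x, α.real (Ici (t - x)) ∂ν := by
  have hs : MeasurableSet ((fun p : ℝ × ℝ => p.1 + p.2) ⁻¹' Ici t) :=
    measurable_add measurableSet_Ici
  rw [Measure.real, Measure.conv, Measure.map_apply measurable_add measurableSet_Ici,
    Measure.prod_apply_symm hs, ← integral_toReal (measurable_measure_prodMk_right hs).aemeasurable
      (ae_of_all _ fun _ => measure_lt_top _ _)]
  refine integral_congr_ae (ae_of_all _ fun x => ?_)
  refine congrArg (fun s => (α s).toReal) (Set.ext fun y => ?_)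
  simp

theorem cp_supp [IsProbabilityMeasure μ] {m : ℝ} (h : ∀ᵐ x ∂μ, x ∈ Icc 0 m) (j : ℕ) :
    ∀ᵐ τ ∂(cp μ j), τ ∈ Icc 0 (j * m) := by
  refine (ae_map_iff (kcp_meas j).aemeasurable measurableSet_Icc).2 ?_
  have : ∀ᵐ y ∂(Measure.pi fun _ : Fin j => μ), ∀ i, y i ∈ Icc 0 m := ae_all_iff.2 fun i =>
    (measurePreserving_eval (fun _ : Fin j => μ) i).quasiMeasurePreserving.ae h
  filter_upwards [this] with y hy
  refine ⟨Finset.sum_nonneg fun i _ => (hy i).1, (Finset.sum_le_sum fun i _ => (hy i).2).trans ?_⟩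
  simp

theorem cp_markov {t : ℝ} (h : InL t μ) (j : ℕ) : t * (cp μ j).real (Ici t) ≤ j := by
  have := h.prob
  have h1 := cp_supp h.supp j
  have h2 : Integrable (fun x : ℝ => x) μ := Integrable.of_mem_Icc 0 t aemeasurable_id h.supp
  refine (mul_meas_ge_le_integral_of_nonneg (f := fun τ : ℝ => τ) (h1.mono fun τ hτ => hτ.1)
    (Integrable.of_mem_Icc _ _ aemeasurable_id h1) t).trans ?_
  have h3 := fun i => measurePreserving_eval (fun _ : Fin j => μ) i
  have h5 : ∀ i : Fin j, Integrable (fun y : Fin j → ℝ => y i) (Measure.pi fun _ => μ) :=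
    fun i => (h3 i).integrable_comp_of_integrable h2
  rw [cp, integral_map (f := fun x : ℝ => x) (kcp_meas j).aemeasurable aestronglyMeasurable_id,
    integral_finsetSum _ fun i _ => h5 i]
  refine (Finset.sum_le_sum (g := fun _ => (1 : ℝ)) fun i _ => ?_).trans (by simp)
  have h4 := h.mean
  rw [← (h3 i).map_eq, integral_map (f := fun x : ℝ => x) (h3 i).1.aemeasurable
    aestronglyMeasurable_id] at h4
  exact h4

theorem cp_exch [IsProbabilityMeasure μ] {m : ℝ} (h : ∀ᵐ x ∂μ, x ∈ Icc 0 m) (n : ℕ)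
    (f : ℝ → ℝ) (hf : Measurable f) (hb : ∃ C, ∀ s ∈ Icc 0 ((n + 1) * m), |f s| ≤ C) :
    ∫ τ, ∫ x, (τ - n * x) * f (τ + x) ∂μ ∂(cp μ n) = 0 := by
  obtain ⟨C, hC⟩ := hb
  have hG : Measurable fun p : ℝ × ℝ => (p.1 - n * p.2) * f (p.1 + p.2) := by fun_prop
  have hI : Integrable (fun p : ℝ × ℝ => (p.1 - n * p.2) * f (p.1 + p.2)) ((cp μ n).prod μ) := by
    refine Integrable.of_bound hG.aestronglyMeasurable ((n * m + n * m) * C) ?_
    filter_upwards [Measure.quasiMeasurePreserving_fst.ae (cp_supp h n),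
      Measure.quasiMeasurePreserving_snd.ae h] with p h1 h2
    have h3 := mul_le_mul_of_nonneg_left h2.2 (Nat.cast_nonneg (α := ℝ) n)
    have h4 := mul_nonneg (Nat.cast_nonneg (α := ℝ) n) h2.1
    rw [Real.norm_eq_abs, abs_mul]
    refine mul_le_mul (abs_le.2 ⟨?_, ?_⟩) (hC _ ⟨?_, ?_⟩) (abs_nonneg _) ?_ <;>
      linarith only [h3, h4, h1, h2, h1.1, h1.2, h2.1, h2.2]
  rw [← integral_prod _ hI]
  have key : ∀ i : Fin (n + 1), ∫ p, (p.1 - n * p.2) * f (p.1 + p.2) ∂((cp μ n).prod μ) =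
      ∫ y, (∑ j, y (i.succAbove j) - n * y i) * f (∑ j, y (i.succAbove j) + y i)
        ∂(Measure.pi fun _ : Fin (n + 1) => μ) := fun i => by
    rw [← (kcp_mp n i).map_eq, integral_map (kcp_mp (μ := μ) n i).1.aemeasurable
      hG.aestronglyMeasurable]
  have h0 := Finset.sum_congr rfl fun i (_ : i ∈ Finset.univ) => key i
  have h2 : ∀ i : Fin (n + 1), Integrable (fun y : Fin (n + 1) → ℝ =>
      (∑ j, y (i.succAbove j) - n * y i) * f (∑ j, y (i.succAbove j) + y i))
      (Measure.pi fun _ => μ) := fun i => (kcp_mp n i).integrable_comp_of_integrable hI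
  rw [← integral_finsetSum _ fun i _ => h2 i] at h0
  have h1 : ∀ y : Fin (n + 1) → ℝ, ∑ i : Fin (n + 1),
      (∑ j, y (i.succAbove j) - n * y i) * f (∑ j, y (i.succAbove j) + y i) = 0 := fun y => by
    have e : ∀ i : Fin (n + 1), ∑ j, y (i.succAbove j) = ∑ j, y j - y i := fun i => by
      rw [Fin.sum_univ_succAbove y i]
      ring
    simp only [e, sub_add_cancel, ← Finset.sum_mul, Finset.sum_sub_distrib, ← Finset.mul_sum,
      Finset.sum_const, Finset.card_univ, Fintype.card_fin, nsmul_eq_mul]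
    push_cast
    ring
  simp only [h1, integral_zero, Finset.sum_const, Finset.card_univ, Fintype.card_fin,
    nsmul_eq_mul] at h0
  exact (mul_eq_zero.1 h0).resolve_left (Nat.cast_ne_zero.2 n.succ_ne_zero)

end Pool.Agent.Work.EMC
end

-- merged part: Pool.Agent.Work.MP_9079fe_co.KCp2
section
/-! Mixtures, images and limits of sums of independent copies. -/

namespace Pool.Agent.Work.EMC
open MeasureTheory Set

variable {μ ν : Measure ℝ}

private theorem kcpb_dec [IsProbabilityMeasure μ] [IsProbabilityMeasure ν] (a e : ENNReal)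
    [IsProbabilityMeasure (a • μ + e • ν)] (j : ℕ) :
    ∃ ρ : Measure ℝ, SFinite ρ ∧ cp (a • μ + e • ν) (j + 1) =
      a ^ (j + 1) • cp μ (j + 1) + (((j : ENNReal) + 1) * e * a ^ j) • (cp μ j).conv ν + ρ := by
  induction j with
  | zero =>
    refine ⟨0, inferInstance, ?_⟩
    rw [cp_succ, cp_succ, cp_zero, cp_zero, Measure.dirac_zero_conv, Measure.dirac_zero_conv,
      Measure.dirac_zero_conv]
    simp
  | succ j ih =>
    obtain ⟨ρ, hρ, h⟩ := ih
    have s1 : SFinite (ρ.conv (a • μ + e • ν)) := inferInstance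
    have s2 : SFinite (((cp μ j).conv ν).conv ν) := inferInstance
    have s3 : SFinite ((((j : ENNReal) + 1) * e * a ^ j * e) • ((cp μ j).conv ν).conv ν) :=
      inferInstance
    refine ⟨(((j : ENNReal) + 1) * e * a ^ j * e) • ((cp μ j).conv ν).conv ν +
      ρ.conv (a • μ + e • ν), inferInstance, ?_⟩
    have hc : ((cp μ j).conv ν).conv μ = (cp μ (j + 1)).conv ν := by
      rw [cp_succ, Measure.conv_assoc, Measure.conv_assoc, Measure.conv_comm ν μ]
    rw [cp_succ (μ := a • μ + e • ν) (j + 1), h, Measure.add_conv, Measure.add_conv,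
      Measure.conv_smul_left, Measure.conv_smul_left, Measure.conv_add (cp μ (j + 1)),
      Measure.conv_add ((cp μ j).conv ν), Measure.conv_smul_right, Measure.conv_smul_right,
      Measure.conv_smul_right, Measure.conv_smul_right, hc, ← cp_succ (μ := μ) (j + 1)]
    ext s _
    simp only [Measure.add_apply, Measure.smul_apply, smul_eq_mul]
    push_cast
    ring

theorem cp_mix [IsProbabilityMeasure μ] [IsProbabilityMeasure ν] {ε : ℝ} (h0 : 0 ≤ ε)
    (h1 : ε ≤ 1) (j : ℕ) (S : Set ℝ) :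
    (1 - ε) ^ (j + 1) * (cp μ (j + 1)).real S
        + (j + 1) * ε * (1 - ε) ^ j * ((cp μ j).conv ν).real S
      ≤ (cp (ENNReal.ofReal (1 - ε) • μ + ENNReal.ofReal ε • ν) (j + 1)).real S := by
  have h2 : 0 ≤ 1 - ε := sub_nonneg.2 h1
  have : IsProbabilityMeasure (ENNReal.ofReal (1 - ε) • μ + ENNReal.ofReal ε • ν) := ⟨by
    simp only [Measure.add_apply, Measure.smul_apply, measure_univ, smul_eq_mul, mul_one]
    rw [← ENNReal.ofReal_add h2 h0]
    simp⟩
  obtain ⟨ρ, -, h⟩ := kcpb_dec (μ := μ) (ν := ν) (ENNReal.ofReal (1 - ε)) (ENNReal.ofReal ε) j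
  have hle : ENNReal.ofReal (1 - ε) ^ (j + 1) * cp μ (j + 1) S +
      (((j : ENNReal) + 1) * ENNReal.ofReal ε * ENNReal.ofReal (1 - ε) ^ j) * (cp μ j).conv ν S ≤
      cp (ENNReal.ofReal (1 - ε) • μ + ENNReal.ofReal ε • ν) (j + 1) S := by
    rw [h]
    simp only [Measure.add_apply, Measure.smul_apply, smul_eq_mul]
    exact le_self_add
  have h3 := ENNReal.toReal_mono (measure_ne_top _ _) hle
  rw [ENNReal.toReal_add (by finiteness) (by finiteness)] at h3
  simp only [ENNReal.toReal_mul, ENNReal.toReal_pow, ENNReal.toReal_ofReal h0,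
    ENNReal.toReal_ofReal h2] at h3
  rw [ENNReal.toReal_add (by simp) (by simp)] at h3
  simpa only [Measure.real, ENNReal.toReal_natCast, ENNReal.toReal_one] using h3

theorem cp_map_le [IsProbabilityMeasure μ] {m t : ℝ} (h : ∀ᵐ x ∂μ, x ∈ Icc 0 m) (j : ℕ)
    (g : ℝ → ℝ) (hg : Measurable g)
    (hs : ∀ y : Fin j → ℝ, (∀ i, y i ∈ Icc 0 m) → t ≤ ∑ i, y i → t ≤ ∑ i, g (y i)) :
    (cp μ j).real (Ici t) ≤ (cp (μ.map g) j).real (Ici t) := by
  have : IsProbabilityMeasure (μ.map g) := Measure.isProbabilityMeasure_map hg.aemeasurable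
  refine ENNReal.toReal_mono (measure_ne_top _ _) ?_
  have hsum : Measurable fun y : Fin j → ℝ => ∑ i, y i := by fun_prop
  have hG : Measurable fun (y : Fin j → ℝ) (i : Fin j) => g (y i) := by fun_prop
  unfold cp
  rw [← Measure.pi_map_pi (μ := fun _ : Fin j => μ) (f := fun _ => g) fun _ => hg.aemeasurable,
    Measure.map_map hsum hG, Measure.map_apply hsum measurableSet_Ici,
    Measure.map_apply (hsum.comp hG) measurableSet_Ici]
  refine measure_mono_ae ?_
  have hall : ∀ᵐ y ∂(Measure.pi fun _ : Fin j => μ), ∀ i, y i ∈ Icc 0 m :=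
    Filter.eventually_all.2 fun i => (Measure.tendsto_eval_ae_ae (i := i)).eventually h
  filter_upwards [hall] with y hy hy'
  exact hs y hy hy'

theorem cp_closed (j : ℕ) (t c : ℝ) :
    IsClosed {μ : ProbabilityMeasure ℝ | c ≤ (cp (μ : Measure ℝ) j).real (Ici t)} := by
  have hsum : Measurable fun y : Fin j → ℝ => ∑ i, y i := by fun_prop
  have hcl : IsClosed ((fun y : Fin j → ℝ => ∑ i, y i) ⁻¹' Ici t) :=
    isClosed_Ici.preimage (by fun_prop)
  have hcont : Continuous fun μ : ProbabilityMeasure ℝ =>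
      ProbabilityMeasure.pi fun _ : Fin j => μ :=
    ProbabilityMeasure.continuous_pi.comp (continuous_pi fun _ => continuous_id)
  have hval : ∀ μ : ProbabilityMeasure ℝ, cp (μ : Measure ℝ) j (Ici t) =
      ((ProbabilityMeasure.pi fun _ : Fin j => μ : ProbabilityMeasure (Fin j → ℝ)) :
        Measure (Fin j → ℝ)) ((fun y : Fin j → ℝ => ∑ i, y i) ⁻¹' Ici t) := fun μ => by
    unfold cp
    rw [Measure.map_apply hsum measurableSet_Ici, ProbabilityMeasure.toMeasure_pi]
  refine isClosed_iff_forall_filter.2 fun μ F hF hFs hFx => ?_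
  have ht : Filter.Tendsto (fun μ : ProbabilityMeasure ℝ =>
      ProbabilityMeasure.pi fun _ : Fin j => μ) F (nhds (ProbabilityMeasure.pi fun _ : Fin j => μ)) :=
    (hcont.tendsto μ).mono_left hFx
  have hl := ProbabilityMeasure.limsup_measure_closed_le_of_tendsto ht hcl
  rw [← hval] at hl
  have hev : ∀ᶠ ν : ProbabilityMeasure ℝ in F, ENNReal.ofReal c ≤
      ((ProbabilityMeasure.pi fun _ : Fin j => ν : ProbabilityMeasure (Fin j → ℝ)) :
        Measure (Fin j → ℝ)) ((fun y : Fin j → ℝ => ∑ i, y i) ⁻¹' Ici t) := by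
    filter_upwards [Filter.le_principal_iff.1 hFs] with ν hν
    rw [← hval]
    exact ENNReal.ofReal_le_of_le_toReal hν
  have h2 := (Filter.le_limsup_of_frequently_le hev.frequently).trans hl
  exact (ENNReal.ofReal_le_iff_le_toReal (measure_ne_top _ _)).1 h2

end Pool.Agent.Work.EMC
end

-- merged part: Pool.Agent.Work.MP_9079fe_co.KOpt
section
/-! First order conditions. -/

namespace Pool.Agent.Work.EMC
open MeasureTheory Set

private theorem kopt_prob {μ ν : Measure ℝ} [IsProbabilityMeasure μ] [IsProbabilityMeasure ν]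
    {ε : ℝ} (h0 : 0 ≤ ε) (h1 : ε ≤ 1) :
    IsProbabilityMeasure (ENNReal.ofReal (1 - ε) • μ + ENNReal.ofReal ε • ν) := by
  constructor
  rw [Measure.add_apply, Measure.smul_apply, Measure.smul_apply, measure_univ, measure_univ,
    smul_eq_mul, smul_eq_mul, mul_one, mul_one, ← ENNReal.ofReal_add (sub_nonneg.2 h1) h0,
    sub_add_cancel, ENNReal.ofReal_one]

private theorem kopt_ae {μ ν : Measure ℝ} (ε : ℝ) {p : ℝ → Prop} (h1 : ∀ᵐ x ∂μ, p x)
    (h2 : ∀ᵐ x ∂ν, p x) : ∀ᵐ x ∂(ENNReal.ofReal (1 - ε) • μ + ENNReal.ofReal ε • ν), p x :=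
  ae_add_measure_iff.2 ⟨Measure.ae_smul_measure h1 _, Measure.ae_smul_measure h2 _⟩

private theorem kopt_int {μ ν : Measure ℝ} {ε : ℝ} (h0 : 0 ≤ ε) (h1 : ε ≤ 1) {f : ℝ → ℝ}
    (hμ : Integrable f μ) (hν : Integrable f ν) :
    ∫ x, f x ∂(ENNReal.ofReal (1 - ε) • μ + ENNReal.ofReal ε • ν) =
      (1 - ε) * ∫ x, f x ∂μ + ε * ∫ x, f x ∂ν := by
  rw [integral_add_measure (hμ.smul_measure ENNReal.ofReal_ne_top)
    (hν.smul_measure ENNReal.ofReal_ne_top), integral_smul_measure, integral_smul_measure,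
    ENNReal.toReal_ofReal (sub_nonneg.2 h1), ENNReal.toReal_ofReal h0, smul_eq_mul, smul_eq_mul]

private theorem kopt_id {μ : Measure ℝ} [IsProbabilityMeasure μ] {t : ℝ}
    (h : ∀ᵐ x ∂μ, x ∈ Icc 0 t) : Integrable (fun x => x) μ :=
  Integrable.of_bound measurable_id.aestronglyMeasurable t (h.mono fun x hx => by
    rw [Real.norm_eq_abs, abs_of_nonneg hx.1]
    exact hx.2)

private theorem kopt_key {n : ℕ} {t : ℝ} {μ ν : Measure ℝ} (h : InL t μ)
    (hmax : ∀ ν, InL t ν → (cp ν (n + 1)).real (Ici t) ≤ (cp μ (n + 1)).real (Ici t))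
    [IsProbabilityMeasure ν] (hν : ∀ᵐ x ∂ν, x ∈ Icc 0 t)
    (hm : ∀ᶠ ε in nhdsWithin (0 : ℝ) (Ioi 0), (1 - ε) * ∫ x, x ∂μ + ε * ∫ x, x ∂ν ≤ 1) :
    ∫ x, (cp μ n).real (Ici (t - x)) ∂ν ≤ (cp μ (n + 1)).real (Ici t) := by
  have := h.prob
  rw [← conv_tail]
  have hc : Filter.Tendsto (fun ε : ℝ => (1 - ε) ^ n * ((cp μ n).conv ν).real (Ici t))
      (nhdsWithin 0 (Ioi 0)) (nhds ((1 - 0) ^ n * ((cp μ n).conv ν).real (Ici t))) :=
    (Continuous.tendsto (by fun_prop) 0).mono_left nhdsWithin_le_nhds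
  rw [sub_zero, one_pow, one_mul] at hc
  refine le_of_tendsto hc ?_
  filter_upwards [hm, Ioo_mem_nhdsGT (zero_lt_one' ℝ)] with ε h1 h2
  have h3 := (cp_mix (μ := μ) (ν := ν) h2.1.le h2.2.le n (Ici t)).trans (hmax _
    ⟨kopt_prob h2.1.le h2.2.le, kopt_ae ε h.supp hν, by
      rw [kopt_int h2.1.le h2.2.le (kopt_id h.supp) (kopt_id hν)]
      exact h1⟩)
  have h4 := one_add_mul_le_pow (a := -ε) (by linarith [h2.2]) (n + 1)
  have h5 : 0 ≤ (cp μ (n + 1)).real (Ici t) := measureReal_nonneg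
  have h6 : (0 : ℝ) < (n + 1) * ε := mul_pos (by positivity) h2.1
  refine le_of_mul_le_mul_left ?_ h6
  rw [← sub_eq_add_neg] at h4
  push_cast at h4
  linarith only [h3, h4, h5, mul_le_mul_of_nonneg_right h4 h5]

private theorem kopt_line {φ : ℝ → ℝ} {t V : ℝ} (ht : 1 < t)
    (h : ∀ x ∈ Icc 0 t, ∀ y ∈ Icc 0 t, ∀ l ∈ Icc (0 : ℝ) 1, (1 - l) * x + l * y = 1 →
      (1 - l) * φ x + l * φ y ≤ V) : ∃ B, ∀ x ∈ Icc 0 t, φ x ≤ V + B * (x - 1) := by
  have key : ∀ x ∈ Ico (0 : ℝ) 1, ∀ y ∈ Ioc 1 t, (φ y - V) / (y - 1) ≤ (V - φ x) / (1 - x) := by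
    intro x hx y hy
    have h1 : 0 < y - x := by linarith [hx.2, hy.1]
    have h2 := h x ⟨hx.1, by linarith [hx.2]⟩ y ⟨by linarith [hy.1], hy.2⟩ ((1 - x) / (y - x))
      ⟨div_nonneg (by linarith [hx.2]) h1.le, (div_le_one h1).2 (by linarith [hy.1])⟩ (by
        field_simp
        ring)
    have h3 : (y - x) * ((1 - (1 - x) / (y - x)) * φ x + (1 - x) / (y - x) * φ y) =
        (y - 1) * φ x + (1 - x) * φ y := by
      field_simp
      ring
    have h4 := mul_le_mul_of_nonneg_left h2 h1.le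
    rw [h3] at h4
    rw [div_le_div_iff₀ (by linarith only [hy, hy.1]) (by linarith only [hx, hx.2])]
    linarith only [h4]
  have hb : BddAbove ((fun y => (φ y - V) / (y - 1)) '' Ioc 1 t) :=
    ⟨_, forall_mem_image.2 fun y hy => key 0 ⟨le_rfl, zero_lt_one⟩ y hy⟩
  refine ⟨sSup ((fun y => (φ y - V) / (y - 1)) '' Ioc 1 t), fun x hx => ?_⟩
  rcases lt_trichotomy x 1 with h1 | rfl | h1
  · have h2 : sSup ((fun y => (φ y - V) / (y - 1)) '' Ioc 1 t) ≤ (V - φ x) / (1 - x) :=
      csSup_le ⟨_, mem_image_of_mem _ ⟨ht, le_rfl⟩⟩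
        (forall_mem_image.2 fun y hy => key x ⟨hx.1, h1⟩ y hy)
    rw [le_div_iff₀ (by linarith)] at h2
    linarith only [h2]
  · have h2 := h 1 hx 1 hx 0 ⟨le_rfl, zero_le_one⟩ (by ring)
    linarith
  · have h2 := le_csSup hb (mem_image_of_mem _ (show x ∈ Ioc 1 t from ⟨h1, hx.2⟩))
    rw [div_le_iff₀ (by linarith)] at h2
    linarith only [h2]

private theorem kopt_top {μ : Measure ℝ} {t : ℝ} (h : ∀ᵐ x ∂μ, x ∈ Icc 0 t) (atom : μ {0} ≠ 0) :
    ∃ m ∈ Icc 0 t, (∀ᵐ x ∂μ, x ∈ Icc 0 m) ∧ ∀ x < m, μ (Ioi x) ≠ 0 := by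
  have ht : t ∈ {x | μ (Ioi x) = 0} :=
    measure_eq_zero_iff_ae_notMem.2 (h.mono fun x hx h1 => absurd hx.2 (not_le.2 h1))
  have hb : (0 : ℝ) ∈ lowerBounds {x | μ (Ioi x) = 0} := fun x hx =>
    le_of_not_gt fun h1 => atom (measure_mono_null (singleton_subset_iff.2 h1) hx)
  refine ⟨sInf {x | μ (Ioi x) = 0}, ⟨le_csInf ⟨t, ht⟩ hb, csInf_le ⟨0, hb⟩ ht⟩, ?_,
    fun x hx h1 => absurd (csInf_le ⟨0, hb⟩ h1) (not_le.2 hx)⟩
  have h2 : ∀ᵐ y ∂μ, ∀ q : ℚ, μ (Ioi (q : ℝ)) = 0 → y ∉ Ioi (q : ℝ) := by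
    refine ae_all_iff.2 fun q => ?_
    by_cases h3 : μ (Ioi (q : ℝ)) = 0
    · exact (measure_eq_zero_iff_ae_notMem.1 h3).mono fun y hy _ => hy
    · exact Filter.Eventually.of_forall fun y h4 => absurd h4 h3
  filter_upwards [h, h2] with y h3 h4
  refine ⟨h3.1, le_of_not_gt fun h5 => ?_⟩
  obtain ⟨s, hs, h6⟩ := exists_lt_of_csInf_lt ⟨t, ht⟩ h5
  obtain ⟨q, h7, h8⟩ := exists_rat_btwn h6
  exact h4 q (measure_mono_null (Ioi_subset_Ioi h7.le) hs) h8

theorem kkt_of_max {n : ℕ} {d : ℝ} {μ : Measure ℝ} (hd : 0 < d) (hd2 : d ≤ 1 / 2)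
    (h : InL (n + 1 + d) μ) (atom : 0 < μ.real {0})
    (hmax : ∀ ν, InL (n + 1 + d) ν →
      (cp ν (n + 1)).real (Ici (n + 1 + d)) ≤ (cp μ (n + 1)).real (Ici (n + 1 + d))) :
    ∃ m v A B, KKT n d m v A B μ (cp μ n) ∧ m ≤ n + 1 + d ∧
      (cp μ (n + 1)).real (Ici (n + 1 + d)) = A + B := by
  have := h.prob
  have hn : (0 : ℝ) ≤ n := Nat.cast_nonneg n
  obtain ⟨t, ht⟩ : ∃ t : ℝ, t = n + 1 + d := ⟨_, rfl⟩
  rw [← ht] at h hmax
  obtain ⟨φ, hφ⟩ : ∃ φ : ℝ → ℝ, φ = fun x => (cp μ n).real (Ici (t - x)) := ⟨_, rfl⟩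
  obtain ⟨V, hV⟩ : ∃ V : ℝ, V = (cp μ (n + 1)).real (Ici t) := ⟨_, rfl⟩
  have hmono : Monotone φ := by
    intro x y hxy
    rw [hφ]
    exact measureReal_mono (Ici_subset_Ici.2 (by linarith only [hxy]))
  have hint : Integrable φ μ := Integrable.of_bound hmono.measurable.aestronglyMeasurable 1
    (Filter.Eventually.of_forall fun x => by
      rw [hφ, Real.norm_eq_abs, abs_of_nonneg measureReal_nonneg]
      exact measureReal_le_one)
  have hVi : ∫ x, φ x ∂μ = V := by rw [hV, cp_succ, conv_tail, hφ]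
  have hV1 : V < 1 := by
    have h1 := cp_markov h (n + 1)
    rw [← hV] at h1
    push_cast at h1
    by_contra h2
    linarith only [ht, h1, h2, hd, hd2, not_lt.1 h2, mul_nonneg_of_nonpos_of_nonpos (Mathlib.Tactic.Linarith.sub_nonpos_of_le (Mathlib.Tactic.Linarith.natCast_nonneg ℝ n)) (Mathlib.Tactic.Linarith.sub_nonpos_of_le (le_of_not_gt h2)), mul_pos_of_neg_of_neg (Mathlib.Tactic.Linarith.sub_neg_of_lt hd) (Mathlib.Tactic.Linarith.sub_neg_of_lt hd), mul_nonneg_of_nonpos_of_nonpos (le_of_lt (Mathlib.Tactic.Linarith.sub_neg_of_lt hd)) (Mathlib.Tactic.Linarith.sub_nonpos_of_le hd2), mul_nonneg_of_nonpos_of_nonpos (le_of_lt (Mathlib.Tactic.Linarith.sub_neg_of_lt hd)) (Mathlib.Tactic.Linarith.sub_nonpos_of_le (le_of_not_gt h2)), Mathlib.Tactic.Linarith.zero_mul_eq (sub_eq_zero_of_eq ht) (Mathlib.Tactic.Linarith.sub_nonpos_of_le (le_of_not_gt h2))]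
  have hdir : ∀ x ∈ Icc 0 t, ∀ᵐ y ∂(Measure.dirac x), y ∈ Icc 0 t := fun x hx => by
    rw [ae_dirac_eq]
    exact hx
  have hmean : ∫ x, x ∂μ = 1 := by
    refine le_antisymm h.mean (le_of_not_gt fun h1 => ?_)
    have hc : Filter.Tendsto (fun ε : ℝ => (1 - ε) * ∫ x, x ∂μ + ε * ∫ x, x ∂(Measure.dirac t))
        (nhdsWithin 0 (Ioi 0)) (nhds ((1 - 0) * ∫ x, x ∂μ + 0 * ∫ x, x ∂(Measure.dirac t))) :=
      (Continuous.tendsto (by fun_prop) 0).mono_left nhdsWithin_le_nhds
    rw [sub_zero, one_mul, zero_mul, add_zero] at hc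
    have h2 := kopt_key h hmax (hdir t ⟨by linarith only [hd, hd2, ht], le_rfl⟩)
      ((hc.eventually (gt_mem_nhds h1)).mono fun ε hε => hε.le)
    have h3 : (cp μ n).real (Ici 0) = 1 := by
      rw [measureReal_def, (prob_compl_eq_zero_iff measurableSet_Ici).1
        (ae_iff.1 ((cp_supp h.supp n).mono fun τ hτ => hτ.1)), ENNReal.toReal_one]
    rw [integral_dirac, sub_self, h3, ← hV] at h2
    exact absurd hV1 (not_lt.2 h2)
  obtain ⟨B, hB⟩ := kopt_line (φ := φ) (t := t) (V := V) (by linarith) fun x hx y hy l hl e => by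
    have := kopt_prob (μ := Measure.dirac x) (ν := Measure.dirac y) hl.1 hl.2
    have h2 := kopt_key h hmax (kopt_ae l (hdir x hx) (hdir y hy))
      (Filter.Eventually.of_forall fun ε => by
        rw [kopt_int hl.1 hl.2 (integrable_dirac enorm_lt_top) (integrable_dirac enorm_lt_top),
          integral_dirac, integral_dirac, e, hmean]
        linarith only [])
    rw [kopt_int hl.1 hl.2 (integrable_dirac enorm_lt_top) (integrable_dirac enorm_lt_top),
      integral_dirac, integral_dirac, ← hV] at h2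
    rw [hφ]
    exact h2
  have hi1 : Integrable (fun x : ℝ => B * x) μ := (kopt_id h.supp).const_mul B
  have hi2 : Integrable (fun x : ℝ => V - B + B * x) μ := (integrable_const _).add hi1
  have hline : ∀ᵐ x ∂μ, φ x = V - B + B * x := by
    have h1 := (integral_eq_zero_iff_of_nonneg_ae (f := fun x => V - B + B * x - φ x)
      (h.supp.mono fun x hx => by
        have := hB x hx
        change 0 ≤ V - B + B * x - φ x
        linarith) (hi2.sub hint)).1 (by
        rw [integral_sub hi2 hint, integral_add (integrable_const _) hi1, integral_const_mul,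
          hmean, hVi, integral_const, probReal_univ, one_smul]
        ring)
    exact h1.mono fun x hx => (sub_eq_zero.1 hx).symm
  have hat : μ {0} ≠ 0 := fun h1 => by
    rw [measureReal_def, h1, ENNReal.toReal_zero] at atom
    exact lt_irrefl _ atom
  obtain ⟨m, hm, hs, hx⟩ := kopt_top h.supp hat
  have h0 : φ 0 = V - B + B * 0 := by
    obtain ⟨x, h1, h2⟩ := Measure.exists_mem_of_measure_ne_zero_of_ae hat (ae_restrict_of_ae hline)
    rwa [mem_singleton_iff.1 h1] at h2
  have hm2 : φ m = V - B + B * m := by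
    refine le_antisymm (by linarith [hB m hm]) (le_of_forall_pos_le_add fun ε hε => ?_)
    have h1 : 0 < ε / (|B| + 1) := by positivity
    obtain ⟨x, h2, h3, h4⟩ := Measure.exists_mem_of_measure_ne_zero_of_ae
      (hx (m - ε / (|B| + 1)) (by linarith only [h1])) (ae_restrict_of_ae (hs.and hline))
    have h5 := hmono h3.2
    have h6 : m - x ≤ ε / (|B| + 1) := by linarith only [h2, mem_Ioi.1 h2]
    rw [le_div_iff₀ (by positivity)] at h6
    linarith only [h4, h5, h6, h3, mul_le_mul_of_nonneg_right (le_abs_self B) (sub_nonneg.2 h3.2), h3.2]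
  subst ht hφ hV
  refine ⟨m, _, _, B, ⟨⟨h.prob, hs, hmean, rfl⟩, inferInstance, cp_supp hs n, cp_exch hs n, hline,
    ?_, hm2, hd, hd2⟩, hm.2, (sub_add_cancel _ _).symm⟩
  simpa only [sub_zero, mul_zero, add_zero] using h0

end Pool.Agent.Work.EMC
end

-- merged part: Pool.Agent.Work.MP_9079fe_co.KCrit
section
/-! The critical threshold. -/

namespace Pool.Agent.Work.EMC
open MeasureTheory Set

theorem kcrit_binom (y : ℝ) (hy : 0 ≤ y) (j : ℕ) :
    1 + j * y + j * (j - 1) * y ^ 2 / 2 + j * (j - 1) * (j - 2) * y ^ 3 / 6 ≤ (1 + y) ^ j := by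
  induction j with
  | zero => simp
  | succ j ih =>
    have h3 : (0 : ℝ) ≤ j * (j - 1) * (j - 2) := by
      rcases Nat.lt_or_ge j 2 with h | h
      · interval_cases j <;> norm_num
      · have : (2 : ℝ) ≤ j := by exact_mod_cast h
        exact mul_nonneg (mul_nonneg (by linarith only [this]) (by linarith only [this])) (by linarith only [this])
    have h4 : 0 ≤ (j : ℝ) * (j - 1) * (j - 2) * y ^ 4 := mul_nonneg h3 (by positivity)
    have h5 := mul_le_mul_of_nonneg_right ih (show 0 ≤ 1 + y by linarith only [hy])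
    rw [pow_succ]
    push_cast
    refine le_trans ?_ h5
    have : (1 + j * y + j * (j - 1) * y ^ 2 / 2 + j * (j - 1) * (j - 2) * y ^ 3 / 6) * (1 + y) =
        1 + (j + 1) * y + (j + 1) * (j + 1 - 1) * y ^ 2 / 2 +
          (j + 1) * (j + 1 - 1) * (j + 1 - 2) * y ^ 3 / 6 +
          (j : ℝ) * (j - 1) * (j - 2) * y ^ 4 / 6 := by ring
    rw [this]
    linarith only [h4]

theorem kcrit_lower (n : ℕ) (d : ℝ) (hd : 0 ≤ d) :
    d + d ^ 2 * (1 - 1 / (n + 1)) / 2 + d ^ 3 * (1 - 1 / (n + 1)) * (1 - 2 / (n + 1)) / 6 ≤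
      (1 + d / (n + 1)) ^ (n + 1) - 1 := by
  have hk : (0 : ℝ) < n + 1 := by positivity
  have h := kcrit_binom (d / (n + 1)) (by positivity) (n + 1)
  push_cast at h
  have e : 1 + ((n : ℝ) + 1) * (d / (n + 1)) + (n + 1) * (n + 1 - 1) * (d / (n + 1)) ^ 2 / 2 +
      (n + 1) * (n + 1 - 1) * (n + 1 - 2) * (d / (n + 1)) ^ 3 / 6 =
      1 + (d + d ^ 2 * (1 - 1 / (n + 1)) / 2 +
        d ^ 3 * (1 - 1 / (n + 1)) * (1 - 2 / (n + 1)) / 6) := by
    field_simp
    ring
  linarith only [h, e]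

theorem kcrit_e (n : ℕ) (a : ℝ) (ha : 0 < a) (ha' : a ≤ n + 1 / 2) :
    Real.exp 1 ≤ (1 + 1 / a) ^ (n + 1) := by
  have hy : 0 ≤ 1 / a := by positivity
  have h1 := Real.le_log_one_add_of_nonneg hy
  have h2 : 2 * (1 / a) / (1 / a + 2) = 2 / (1 + 2 * a) := by field_simp
  have h3 : 1 ≤ ((n : ℝ) + 1) * (2 / (1 + 2 * a)) := by
    rw [mul_div_assoc', le_div_iff₀ (by positivity)]
    linarith only [ha']
  have h4 : 1 ≤ ((n + 1 : ℕ) : ℝ) * Real.log (1 + 1 / a) := by
    push_cast
    exact h3.trans (mul_le_mul_of_nonneg_left (h2 ▸ h1) (by positivity))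
  calc Real.exp 1 ≤ Real.exp (((n + 1 : ℕ) : ℝ) * Real.log (1 + 1 / a)) := Real.exp_le_exp.2 h4
    _ = (1 + 1 / a) ^ (n + 1) := by rw [Real.exp_nat_mul, Real.exp_log (by positivity)]

theorem kcrit_up1 (n : ℕ) : (1 + (9 / 20 : ℝ) / (n + 1)) ^ (n + 1) ≤ 157 / 100 := by
  have hk : (0 : ℝ) < n + 1 := by positivity
  have h1 : 1 + (9 / 20 : ℝ) / (n + 1) ≤ Real.exp ((9 / 20) / (n + 1)) := by
    linarith only [Real.add_one_le_exp ((9 / 20 : ℝ) / (n + 1))]
  have h2 := pow_le_pow_left₀ (by positivity) h1 (n + 1)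
  rw [← Real.exp_nat_mul] at h2
  have h3 : ((n + 1 : ℕ) : ℝ) * ((9 / 20) / (n + 1)) = 9 / 20 := by
    push_cast
    field_simp
  rw [h3] at h2
  have h4 := Real.exp_bound' (x := 9 / 20) (by norm_num) (by norm_num) (n := 4) (by norm_num)
  simp only [Finset.sum_range_succ, Finset.sum_range_zero, Nat.factorial] at h4
  norm_num at h4
  linarith only [h2, h4]

theorem kcrit_up2 (n : ℕ) (hn : 6 ≤ n) :
    (1 + 1 / ((n : ℝ) + 9 / 20)) ^ (n + 1) ≤ 27535 / 10000 := by
  have hn' : (6 : ℝ) ≤ n := by exact_mod_cast hn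
  set a : ℝ := n + 9 / 20 with ha
  have ha0 : 0 < a := by positivity
  have hx : 0 < 1 + 1 / a := by positivity
  have h0 : 0 ≤ Real.log (1 + 1 / a) := Real.log_nonneg (by
    have : 0 ≤ 1 / a := by positivity
    linarith only [this])
  have h1 := Real.self_le_sinh_iff.2 h0
  rw [Real.sinh_log hx] at h1
  have h2 : (1 + 1 / a - (1 + 1 / a)⁻¹) / 2 = (2 * a + 1) / (2 * a * (a + 1)) := by
    field_simp
    ring
  have h3 : ((n : ℝ) + 1) * ((2 * a + 1) / (2 * a * (a + 1))) ≤ 1 + 1 / 80 := by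
    rw [mul_div_assoc', div_le_iff₀ (by positivity)]
    have e : (n : ℝ) + 1 = a + 11 / 20 := by rw [ha]; ring
    have ha1 : 129 / 20 ≤ a := by rw [ha]; linarith only [hn']
    rw [e]
    linarith only [hn', ha, mul_nonneg_of_nonpos_of_nonpos (Mathlib.Tactic.Linarith.sub_nonpos_of_le (Mathlib.Tactic.Linarith.natCast_nonneg ℝ n)) (Mathlib.Tactic.Linarith.sub_nonpos_of_le hn'), Mathlib.Tactic.Linarith.mul_zero_eq (Mathlib.Tactic.Linarith.sub_nonpos_of_le (Mathlib.Tactic.Linarith.natCast_nonneg ℝ n)) (sub_eq_zero_of_eq ha), Mathlib.Tactic.Linarith.zero_mul_eq (sub_eq_zero_of_eq ha) (sub_eq_zero_of_eq ha)]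
  have h4 : ((n + 1 : ℕ) : ℝ) * Real.log (1 + 1 / a) ≤ 1 + 1 / 80 := by
    push_cast
    exact (mul_le_mul_of_nonneg_left (h2 ▸ h1) (by positivity)).trans h3
  have h5 : Real.exp (1 / 80) ≤ 80 / 79 := by
    have h6 := Real.add_one_le_exp (-(1 / 80 : ℝ))
    have h7 : Real.exp (-(1 / 80 : ℝ)) * Real.exp (1 / 80) = 1 := by
      rw [← Real.exp_add]; simp
    have h8 := Real.exp_pos (1 / 80 : ℝ)
    linarith only [h7, h6, h8, mul_nonneg_of_nonpos_of_nonpos (Mathlib.Tactic.Linarith.sub_nonpos_of_le h6) (le_of_lt (Mathlib.Tactic.Linarith.sub_neg_of_lt h8))]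
  have h9 := Real.exp_one_lt_d9
  calc (1 + 1 / a) ^ (n + 1) = Real.exp (((n + 1 : ℕ) : ℝ) * Real.log (1 + 1 / a)) := by
        rw [Real.exp_nat_mul, Real.exp_log hx]
    _ ≤ Real.exp (1 + 1 / 80) := Real.exp_le_exp.2 h4
    _ = Real.exp 1 * Real.exp (1 / 80) := Real.exp_add _ _
    _ ≤ 2.7182818286 * (80 / 79) := mul_le_mul h9.le h5 (Real.exp_pos _).le (by norm_num)
    _ ≤ 27535 / 10000 := by norm_num

theorem exists_crit (n : ℕ) (hn : 1 ≤ n) : ∃ d z, Crit n d z := by
  rcases hn.eq_or_lt with h1 | h2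
  · subst h1
    exact ⟨1 / 2, 9 / 16, le_rfl, by norm_num, le_rfl, by norm_num, by norm_num, fun _ => rfl⟩
  have hn2 : (2 : ℝ) ≤ n := by exact_mod_cast h2
  have hc : ContinuousOn (fun d : ℝ => ((1 + d / (n + 1)) ^ (n + 1) - 1) *
      ((1 + 1 / (n + d)) ^ (n + 1) - 1)) (Icc (9 / 20) (1 / 2)) := by
    refine ContinuousOn.mul (by fun_prop) (ContinuousOn.sub (ContinuousOn.pow
      (continuousOn_const.add (continuousOn_const.div (by fun_prop) fun d hd => ?_)) _)
      continuousOn_const)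
    have := hd.1
    positivity
  have hlo : ((1 + (9 / 20 : ℝ) / (n + 1)) ^ (n + 1) - 1) *
      ((1 + 1 / ((n : ℝ) + 9 / 20)) ^ (n + 1) - 1) ≤ 1 := by
    rcases Nat.lt_or_ge n 6 with h | h
    · interval_cases n <;> norm_num
    · have a1 := kcrit_up1 n
      have a2 := kcrit_up2 n h
      have a3 : 1 ≤ (1 + 1 / ((n : ℝ) + 9 / 20)) ^ (n + 1) := one_le_pow₀ (by
        have : 0 ≤ 1 / ((n : ℝ) + 9 / 20) := by positivity
        linarith only [this])
      calc _ ≤ (157 / 100 - 1 : ℝ) * (27535 / 10000 - 1) :=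
            mul_le_mul (by linarith only [a1]) (by linarith only [a2]) (by linarith only [a3]) (by norm_num)
        _ ≤ 1 := by norm_num
  have hhi : 1 ≤ ((1 + (1 / 2 : ℝ) / (n + 1)) ^ (n + 1) - 1) *
      ((1 + 1 / ((n : ℝ) + 1 / 2)) ^ (n + 1) - 1) := by
    have a1 := kcrit_lower n (1 / 2) (by norm_num)
    have a2 := kcrit_e n (n + 1 / 2) (by positivity) le_rfl
    have a3 := Real.exp_one_gt_d9
    have a4 : 1 / ((n : ℝ) + 1) ≤ 1 / 3 := one_div_le_one_div_of_le (by norm_num) (by linarith only [hn2])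
    have a5 : 2 / ((n : ℝ) + 1) = 2 * (1 / (n + 1)) := by ring
    have a6 : 0 ≤ (1 / 2 : ℝ) ^ 3 * (1 - 1 / (n + 1)) * (1 - 2 / (n + 1)) / 6 := by
      have : (0 : ℝ) ≤ 1 - 1 / (n + 1) := by linarith only [a4]
      have : (0 : ℝ) ≤ 1 - 2 / (n + 1) := by linarith only [a4, a5]
      positivity
    calc (1 : ℝ) ≤ 7 / 12 * (2.7182818283 - 1) := by norm_num
      _ ≤ _ := mul_le_mul (by linarith only [a1, a4, a6]) (by linarith only [a2, a3]) (by norm_num) (by linarith only [a1, a4, a6])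
  obtain ⟨d, hd, hF⟩ := intermediate_value_Icc (by norm_num) hc ⟨hlo, hhi⟩
  exact ⟨d, _, hn, hd.1, hd.2, rfl, hF, fun h => by omega⟩

variable {n : ℕ} {d z : ℝ}

theorem Crit.z_pos (C : Crit n d z) : 0 < z := by
  have hd := C.d_lo
  have h : 0 < d / (n + 1) := by positivity
  rw [C.hz, sub_pos]
  exact one_lt_pow₀ (by linarith only [h]) (Nat.succ_ne_zero n)

theorem Crit.z_le (C : Crit n d z) : z ≤ 291 / 500 := by
  have hd := C.d_lo
  have h1 := kcrit_e n (n + d) (by positivity) (by linarith only [C, C.d_hi])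
  have h2 := Real.exp_one_gt_d9
  have h3 := C.cover
  have h4 := mul_le_mul_of_nonneg_left (show (2.7182818283 - 1 : ℝ) ≤
    (1 + 1 / (n + d)) ^ (n + 1) - 1 by linarith only [h1, h2]) C.z_pos.le
  linarith only [h3, h4]

theorem Crit.z_le3 (C : Crit n d z) (h : n = 2) : z ≤ 2867 / 5000 := by
  subst h
  have hd := C.d_lo
  have h3 := C.cover
  have h1 : 1 / (5 / 2 : ℝ) ≤ 1 / (((2 : ℕ) : ℝ) + d) :=
    one_div_le_one_div_of_le (by positivity) (by push_cast; linarith only [C, C.d_hi])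
  have h2 : (1 + 1 / (5 / 2 : ℝ)) ^ (2 + 1) ≤ (1 + 1 / (((2 : ℕ) : ℝ) + d)) ^ (2 + 1) :=
    pow_le_pow_left₀ (by norm_num) (by linarith only [h1]) _
  have h4 := mul_le_mul_of_nonneg_left (sub_le_sub_right h2 1) C.z_pos.le
  rw [h3] at h4
  norm_num at h4
  linarith only [h4]

theorem Crit.z_two (C : Crit n d z) (h : n = 1) : z = 9 / 16 := by
  rw [C.hz, C.two h, h]
  norm_num

theorem Crit.z_ge (C : Crit n d z) :
    d + d ^ 2 * (1 - 1 / (n + 1)) / 2 + d ^ 3 * (1 - 1 / (n + 1)) * (1 - 2 / (n + 1)) / 6 ≤ z := by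
  rw [C.hz]
  exact kcrit_lower n d (by linarith only [C, C.d_lo])

theorem Crit.cross (C : Crit n d z) :
    (n + 1 + d) ^ (n + 1) - (n + d) ^ (n + 1) = ((n:ℝ) + 1) ^ (n + 1) := by
  have hd := C.d_lo
  have hk : (0 : ℝ) < n + 1 := by positivity
  have ha : (0 : ℝ) < n + d := by positivity
  have hz := C.z_pos
  have h1 : ((n : ℝ) + 1 + d) ^ (n + 1) = (1 + z) * (n + 1) ^ (n + 1) := by
    rw [C.hz, add_sub_cancel, ← mul_pow]
    congr 1
    field_simp
  have h2 : ((n : ℝ) + 1 + d) ^ (n + 1) = (1 + 1 / (n + d)) ^ (n + 1) * (n + d) ^ (n + 1) := by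
    rw [← mul_pow]
    congr 1
    field_simp
    ring
  have h3 := C.cover
  have h4 : z * ((n : ℝ) + 1 + d) ^ (n + 1) = (1 + z) * (n + d) ^ (n + 1) := by
    rw [h2]
    linear_combination ((n : ℝ) + d) ^ (n + 1) * h3
  have h5 : ((n : ℝ) + d) ^ (n + 1) = z * (n + 1) ^ (n + 1) := by
    apply mul_left_cancel₀ (show 1 + z ≠ 0 by positivity)
    rw [← h4, h1]
    ring
  rw [h1, h5]
  ring

end Pool.Agent.Work.EMC
end

-- merged part: Pool.Agent.Work.MP_9079fe_co.Shift
section
/-! Shifted families, links and a counting inequality. -/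

namespace Pool.Agent.Work.EMC
open Finset

/-- No `s + 1` pairwise disjoint members. -/
def Mat (F : Finset (Finset ℕ)) (s : ℕ) : Prop :=
  ∀ M ⊆ F, (M : Set (Finset ℕ)).PairwiseDisjoint id → M.card ≤ s

/-- Closed under replacing an element by a smaller one. -/
def Shifted (F : Finset (Finset ℕ)) : Prop :=
  ∀ A ∈ F, ∀ i j, i < j → j ∈ A → i ∉ A → insert i (A.erase j) ∈ F

/-- All members are `k`-subsets of `range n`. -/
def Unif (n k : ℕ) (F : Finset (Finset ℕ)) : Prop := ∀ A ∈ F, A ⊆ range n ∧ A.card = k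

lemma map_swap_eq {A : Finset ℕ} {i j : ℕ} (hj : j ∈ A) (hi : i ∉ A) :
    A.map (Equiv.swap i j).toEmbedding = insert i (A.erase j) := by
  ext x
  rw [mem_map_equiv, Equiv.symm_swap, mem_insert, mem_erase, Equiv.swap_apply_def]
  split_ifs with h1 h2
  · simp [h1, hj]
  · simp [h2, hi]; exact fun h => h1 (h2.trans h)
  · simp [h1, h2]

lemma map_swap_self {A : Finset ℕ} {i j : ℕ} (hj : j ∉ A) (hi : i ∉ A) :
    A.map (Equiv.swap i j).toEmbedding = A := by
  ext x
  rw [mem_map_equiv, Equiv.symm_swap, Equiv.swap_apply_def]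
  split_ifs with h1 h2
  · simp [h1, hj, hi]
  · simp [h2, hj, hi]
  · rfl

lemma exists_shifted {n k s : ℕ} : ∀ (w : ℕ) (F : Finset (Finset ℕ)), ∑ A ∈ F, ∑ a ∈ A, a = w →
    Unif n k F → Mat F s → ∃ F', Unif n k F' ∧ Mat F' s ∧ Shifted F' ∧ F'.card = F.card := by
  intro w
  induction w using Nat.strong_induction_on with
  | _ w ih =>
  intro F hw hU hM
  by_cases hS : Shifted F
  · exact ⟨F, hU, hM, hS, rfl⟩
  unfold Shifted at hS
  push Not at hS
  obtain ⟨A₀, hA₀, i, j, hij, hj₀, hi₀, hn₀⟩ := hS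
  set sh : Finset ℕ → Finset ℕ := fun A =>
    if j ∈ A ∧ i ∉ A ∧ insert i (A.erase j) ∉ F then insert i (A.erase j) else A with hsh
  have hcase : ∀ A, (j ∈ A ∧ i ∉ A ∧ insert i (A.erase j) ∉ F ∧ sh A = insert i (A.erase j)) ∨
      (¬ (j ∈ A ∧ i ∉ A ∧ insert i (A.erase j) ∉ F) ∧ sh A = A) := by
    intro A
    by_cases h : j ∈ A ∧ i ∉ A ∧ insert i (A.erase j) ∉ F
    · exact Or.inl ⟨h.1, h.2.1, h.2.2, if_pos h⟩
    · exact Or.inr ⟨h, if_neg h⟩
  have hinj : Set.InjOn sh F := by
    intro A hA B hB hAB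
    rcases hcase A with ⟨a1, a2, a3, a4⟩ | ⟨a1, a2⟩ <;>
      rcases hcase B with ⟨b1, b2, b3, b4⟩ | ⟨b1, b2⟩
    · rw [a4, b4, ← map_swap_eq a1 a2, ← map_swap_eq b1 b2] at hAB
      exact map_injective _ hAB
    · rw [a4, b2] at hAB; exact absurd (hAB ▸ hB) a3
    · rw [a2, b4] at hAB; exact absurd (hAB ▸ hA) b3
    · rwa [a2, b2] at hAB
  have hsum : ∀ A : Finset ℕ, j ∈ A → i ∉ A → ∑ a ∈ insert i (A.erase j), a < ∑ a ∈ A, a := by
    intro A h1 h2
    rw [sum_insert (fun h => h2 (mem_of_mem_erase h)), ← add_sum_erase A (fun a => a) h1]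
    omega
  have hlt : ∑ A ∈ F.image sh, ∑ a ∈ A, a < w := by
    rw [sum_image hinj, ← hw]
    refine sum_lt_sum (fun A _ => ?_) ⟨A₀, hA₀, ?_⟩
    · rcases hcase A with ⟨a1, a2, _, a4⟩ | ⟨_, a2⟩
      · rw [a4]; exact (hsum A a1 a2).le
      · rw [a2]
    · rcases hcase A₀ with ⟨a1, a2, _, a4⟩ | ⟨a1, _⟩
      · rw [a4]; exact hsum A₀ a1 a2
      · exact absurd ⟨hj₀, hi₀, hn₀⟩ a1
  have hU' : Unif n k (F.image sh) := by
    intro B hB
    obtain ⟨A, hA, rfl⟩ := mem_image.mp hB
    rcases hcase A with ⟨a1, a2, _, a4⟩ | ⟨_, a2⟩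
    · rw [a4]
      constructor
      · refine insert_subset ?_ ((erase_subset _ _).trans (hU A hA).1)
        have := mem_range.mp ((hU A hA).1 a1)
        exact mem_range.mpr (by omega)
      · rw [← map_swap_eq a1 a2, card_map]; exact (hU A hA).2
    · rw [a2]; exact hU A hA
  have hM' : Mat (F.image sh) s := by
    intro M hMF hd
    by_cases hsub : M ⊆ F
    · exact hM M hsub hd
    obtain ⟨B₀, hB₀, hB₀F⟩ := not_subset.mp hsub
    obtain ⟨A, hA, hAB⟩ := mem_image.mp (hMF hB₀)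
    rcases hcase A with ⟨a1, a2, a3, a4⟩ | ⟨_, a2⟩
    swap
    · exact absurd (by rw [← hAB, a2]; exact hA) hB₀F
    have hiB : i ∈ B₀ := by rw [← hAB, a4]; exact mem_insert_self _ _
    set sw : Finset ℕ → Finset ℕ := fun B => B.map (Equiv.swap i j).toEmbedding with hsw
    have swinj : Function.Injective sw := map_injective _
    have h1 : M.image sw ⊆ F := by
      intro C hC
      obtain ⟨B, hB, rfl⟩ := mem_image.mp hC
      by_cases hBB : B = B₀
      · rw [hBB, ← hAB, a4, ← map_swap_eq a1 a2]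
        simp only [hsw, map_map]
        have : (Equiv.swap i j).toEmbedding.trans (Equiv.swap i j).toEmbedding
            = Function.Embedding.refl _ := by ext x; simp
        rw [this, map_refl]; exact hA
      · have hiB' : i ∉ B := fun h => disjoint_left.mp (hd hB hB₀ hBB) h hiB
        obtain ⟨A', hA', hAB'⟩ := mem_image.mp (hMF hB)
        rcases hcase A' with ⟨_, _, _, b4⟩ | ⟨b1, b2⟩
        · exact absurd (by rw [← hAB', b4]; exact mem_insert_self _ _) hiB'
        · rw [b2] at hAB'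
          subst hAB'
          by_cases hjB : j ∈ A'
          · simp only [hsw]
            rw [map_swap_eq hjB hiB']
            by_contra hc
            exact b1 ⟨hjB, hiB', hc⟩
          · simp only [hsw]
            rw [map_swap_self hjB hiB']; exact hA'
    have h2 := hM _ h1 (by
      intro C hC D hD hCD
      obtain ⟨B, hB, rfl⟩ := mem_image.mp hC
      obtain ⟨B', hB', rfl⟩ := mem_image.mp hD
      exact (disjoint_map _).mpr (hd hB hB' fun h => hCD (by rw [h])))
    rwa [card_image_of_injective _ swinj] at h2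
  obtain ⟨F', h1, h2, h3, h4⟩ := ih _ hlt _ rfl hU' hM'
  exact ⟨F', h1, h2, h3, by rw [h4, card_image_of_injOn hinj]⟩

/-- A shifted family is closed under domination. -/
lemma Shifted.dom {F : Finset (Finset ℕ)} (hF : Shifted F) (A : Finset ℕ) :
    ∀ (w : ℕ) (B : Finset ℕ), ∑ b ∈ B, b = w → B ∈ F → Multiset.Rel (· ≤ ·) A.val B.val → A ∈ F := by
  intro w
  induction w using Nat.strong_induction_on with
  | _ w ih =>
  intro B hw hB hr
  by_cases hsub : A ⊆ B
  · rwa [eq_of_subset_of_card_le hsub (le_of_eq (Multiset.card_eq_card_of_rel hr).symm)]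
  obtain ⟨a, ha, haB⟩ := not_subset.mp hsub
  have e : A.val = a ::ₘ A.val.erase a := (Multiset.cons_erase ha).symm
  rw [e] at hr
  obtain ⟨b, B', hab, hr', hB'⟩ := Multiset.rel_cons_left.mp hr
  have hbB : b ∈ B := by rw [← mem_val, hB']; exact Multiset.mem_cons_self _ _
  have hlt : a < b := lt_of_le_of_ne hab fun h => haB (h ▸ hbB)
  refine ih _ ?_ (insert a (B.erase b)) rfl (hF B hB a b hlt hbB haB) ?_
  · rw [← hw, sum_insert (fun h => haB (mem_of_mem_erase h)), ← add_sum_erase B (fun a => a) hbB]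
    omega
  · rw [insert_val_of_notMem (fun h => haB (mem_of_mem_erase h)), erase_val, hB',
      Multiset.erase_cons_head, e]
    exact Multiset.Rel.cons le_rfl hr'

lemma Shifted.dom' {F : Finset (Finset ℕ)} (hF : Shifted F) {A B : Finset ℕ} (hB : B ∈ F)
    (h : Multiset.Rel (· ≤ ·) A.val B.val) : A ∈ F := hF.dom A _ B rfl hB h

/-- In a shifted family the last vertex has the least degree. -/
lemma last_vertex {H : Finset (Finset ℕ)} {N r : ℕ} (hS : Shifted H) (hU : Unif (N + 1) r H) :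
    H.card * (N + 1 - r) ≤ (H.filter fun A => N ∉ A).card * (N + 1) := by
  rcases le_or_gt (N + 1) r with hr | hr
  · rw [Nat.sub_eq_zero_of_le hr]; simp
  have h1 : (H.filter fun A => N ∈ A).card * (N + 1 - r) ≤ (H.filter fun A => N ∉ A).card * r := by
    refine card_mul_le_card_mul (fun A B => A.erase N ⊆ B) ?_ ?_
    · intro A hA
      obtain ⟨hA1, hA2⟩ := mem_filter.mp hA
      have hc : (range (N + 1) \ A).card = N + 1 - r := by
        rw [card_sdiff_of_subset (hU A hA1).1, card_range, (hU A hA1).2]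
      rw [← hc]
      refine card_le_card_of_injOn (fun x => insert x (A.erase N)) ?_ ?_
      · intro x hx
        obtain ⟨hx1, hx2⟩ := mem_sdiff.mp hx
        have hxN : x < N := lt_of_le_of_ne (Nat.lt_succ_iff.mp (mem_range.mp hx1))
          fun h => hx2 (h ▸ hA2)
        simp only [coe_filter, bipartiteAbove, mem_filter, Set.mem_ofPred_eq]
        refine ⟨⟨hS A hA1 x N hxN hA2 hx2, ?_⟩, subset_insert _ _⟩
        simp [hxN.ne']
      · intro x hx y hy hxy
        have hx2 := (mem_sdiff.mp hx).2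
        have : x ∈ insert y (A.erase N) := by
          have h : x ∈ insert x (A.erase N) := mem_insert_self _ _
          simp only at hxy
          rwa [hxy] at h
        rcases mem_insert.mp this with h | h
        · exact h
        · exact absurd (mem_of_mem_erase h) hx2
    · intro B hB
      obtain ⟨hB1, _⟩ := mem_filter.mp hB
      refine le_trans (card_le_card (t := B.image fun x => insert N (B.erase x)) ?_)
        (card_image_le.trans (hU B hB1).2.le)
      intro A hA
      simp only [bipartiteBelow, mem_filter] at hA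
      obtain ⟨⟨hA1, hA2⟩, hAB⟩ := hA
      have hc : (A.erase N).card < B.card := by
        rw [card_erase_of_mem hA2, (hU A hA1).2, (hU B hB1).2]
        have := card_pos.mpr ⟨N, hA2⟩
        rw [(hU A hA1).2] at this
        omega
      obtain ⟨x, hx1, hx2⟩ := exists_mem_notMem_of_card_lt_card hc
      refine mem_image.mpr ⟨x, hx1, ?_⟩
      have : A.erase N = B.erase x := by
        apply eq_of_subset_of_card_le
        · intro y hy
          exact mem_erase.mpr ⟨fun h => hx2 (h ▸ hy), hAB hy⟩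
        · rw [card_erase_of_mem hA2, card_erase_of_mem hx1, (hU A hA1).2, (hU B hB1).2]
      rw [← this, insert_erase hA2]
  have h2 := card_filter_add_card_filter_not (s := H) fun A => N ∈ A
  rw [← h2, add_mul]
  have : N + 1 = r + (N + 1 - r) := by omega
  calc _ ≤ (H.filter fun A => N ∉ A).card * r + (H.filter fun A => N ∉ A).card * (N + 1 - r) :=
        Nat.add_le_add_right h1 _
    _ = _ := by rw [← mul_add, ← this]

/-- The `r`-subsets of `range N` that form a member of `F` together with `v`. -/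
def link (F : Finset (Finset ℕ)) (r v N : ℕ) : Finset (Finset ℕ) :=
  (powersetCard r (range N)).filter fun G => insert v G ∈ F

lemma mem_link {F : Finset (Finset ℕ)} {r v N : ℕ} {G : Finset ℕ} :
    G ∈ link F r v N ↔ G ⊆ range N ∧ G.card = r ∧ insert v G ∈ F := by
  simp [link, mem_powersetCard, and_assoc]

lemma link_shifted {F : Finset (Finset ℕ)} (hF : Shifted F) {r v N : ℕ} (hv : N ≤ v) :
    Shifted (link F r v N) := by
  intro G hG i j hij hj hi
  obtain ⟨h1, h2, h3⟩ := mem_link.mp hG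
  have hjN := mem_range.mp (h1 hj)
  refine mem_link.mpr ⟨?_, ?_, ?_⟩
  · exact insert_subset (mem_range.mpr (by omega)) ((erase_subset _ _).trans h1)
  · rw [← map_swap_eq hj hi, card_map, h2]
  · have := hF _ h3 i j hij (mem_insert_of_mem hj) (by
      rw [mem_insert]; rintro (h | h)
      · omega
      · exact hi h)
    rwa [erase_insert_of_ne (by omega), insert_comm] at this

lemma link_anti {F : Finset (Finset ℕ)} (hF : Shifted F) {r v v' N : ℕ} (hv : N ≤ v)
    (hvv : v ≤ v') : link F r v' N ⊆ link F r v N := by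
  intro G hG
  obtain ⟨h1, h2, h3⟩ := mem_link.mp hG
  refine mem_link.mpr ⟨h1, h2, ?_⟩
  rcases hvv.eq_or_lt with h | h
  · rwa [h]
  have a1 : v ∉ G := fun h => by have := mem_range.mp (h1 h); omega
  have a2 : v' ∉ G := fun h => by have := mem_range.mp (h1 h); omega
  have := hF _ h3 v v' h (mem_insert_self _ _) (by
    rw [mem_insert]; rintro (h | h)
    · omega
    · exact a1 h)
  rwa [erase_insert a2] at this

lemma link_density {F : Finset (Finset ℕ)} (hF : Shifted F) {r v N : ℕ} (hr : r ≤ N) :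
    ∀ N', N ≤ N' → N' ≤ v →
      (link F r v N').card * N.choose r ≤ (link F r v N).card * N'.choose r := by
  intro N' hN
  induction N', hN using Nat.le_induction with
  | base => intro _; exact le_rfl
  | succ N' hN ih =>
    intro hv
    have h1 := last_vertex (N := N') (r := r) (link_shifted hF hv)
      fun G hG => ⟨(mem_link.mp hG).1, (mem_link.mp hG).2.1⟩
    have e : (link F r v (N' + 1)).filter (fun A => N' ∉ A) = link F r v N' := by
      ext G
      simp only [mem_filter, mem_link]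
      constructor
      · rintro ⟨⟨a1, a2, a3⟩, a4⟩
        refine ⟨fun x hx => ?_, a2, a3⟩
        have := mem_range.mp (a1 hx)
        have : x ≠ N' := fun h => a4 (h ▸ hx)
        exact mem_range.mpr (by omega)
      · rintro ⟨a1, a2, a3⟩
        refine ⟨⟨a1.trans (range_subset_range.mpr (Nat.le_succ _)), a2, a3⟩, fun h => ?_⟩
        simpa using a1 h
    rw [e] at h1
    have h2 := ih (by omega)
    have h3 := Nat.choose_mul_succ_eq N' r
    have hp : 0 < N' + 1 - r := by omega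
    refine Nat.le_of_mul_le_mul_right ?_ hp
    calc _ = (link F r v (N' + 1)).card * (N' + 1 - r) * N.choose r := by ring
      _ ≤ (link F r v N').card * (N' + 1) * N.choose r := Nat.mul_le_mul_right _ h1
      _ = (link F r v N').card * N.choose r * (N' + 1) := by ring
      _ ≤ (link F r v N).card * N'.choose r * (N' + 1) := Nat.mul_le_mul_right _ h2
      _ = _ := by rw [mul_assoc, h3, mul_assoc]

/-- Members of `F` inside `range N`. -/
def inside (F : Finset (Finset ℕ)) (N : ℕ) : Finset (Finset ℕ) := F.filter fun A => A ⊆ range N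

lemma inside_le {F : Finset (Finset ℕ)} {r : ℕ} (hU : ∀ A ∈ F, A.card = r + 1) (N : ℕ) :
    ∀ n, N ≤ n → (inside F n).card ≤ (inside F N).card + ∑ v ∈ Ico N n, (link F r v v).card := by
  intro n hn
  induction n, hn using Nat.le_induction with
  | base => simp
  | succ n hn ih =>
    rw [sum_Ico_succ_top hn]
    have h : inside F (n + 1) ⊆ inside F n ∪ (link F r n n).image (insert n) := by
      intro A hA
      obtain ⟨h1, h2⟩ := mem_filter.mp hA
      have sub : A.erase n ⊆ range n := by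
        intro x hx
        have := mem_range.mp (h2 (mem_of_mem_erase hx))
        have := ne_of_mem_erase hx
        exact mem_range.mpr (by omega)
      by_cases hn : n ∈ A
      · refine mem_union_right _ (mem_image.mpr ⟨A.erase n, mem_link.mpr ⟨sub, ?_, ?_⟩, ?_⟩)
        · rw [card_erase_of_mem hn, hU A h1]; rfl
        · rwa [insert_erase hn]
        · exact insert_erase hn
      · rw [erase_eq_of_notMem hn] at sub
        exact mem_union_left _ (mem_filter.mpr ⟨h1, sub⟩)
    have := (card_le_card h).trans (card_union_le _ _)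
    have := card_image_le (s := link F r n n) (f := insert n)
    omega

lemma sum_choose_Ico (r N : ℕ) : ∀ n, N ≤ n →
    N.choose (r + 1) + ∑ v ∈ Ico N n, v.choose r = n.choose (r + 1) := by
  intro n hn
  induction n, hn using Nat.le_induction with
  | base => simp
  | succ n hn ih => rw [sum_Ico_succ_top hn, ← add_assoc, ih, Nat.choose_succ_succ', add_comm]

/-- Averaging over matchings. -/
lemma card_le_of_mat {r : ℕ} (hr : 0 < r) : ∀ (μ : ℕ) (Ω : Finset ℕ) (L : Finset (Finset ℕ)) (b : ℕ),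
    μ * r ≤ Ω.card → L ⊆ powersetCard r Ω → Mat L b → L.card * μ ≤ b * Ω.card.choose r := by
  intro μ
  induction μ with
  | zero => intros; simp
  | succ μ ih =>
    intro Ω L b hμ hL hM
    rcases Nat.eq_zero_or_pos μ with h0 | h0
    · subst h0
      rcases L.eq_empty_or_nonempty with h | ⟨G, hG⟩
      · simp [h]
      · have h1 := hM {G} (singleton_subset_iff.mpr hG) (by simp)
        have h2 := card_le_card hL
        rw [card_powersetCard] at h2
        rw [card_singleton] at h1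
        nlinarith only [h2, h1]
    have key : ∀ G ∈ powersetCard r Ω, (L.filter fun A => Disjoint A G).card * μ
        + (if G ∈ L then 1 else 0) * (Ω.card - r).choose r ≤ b * (Ω.card - r).choose r := by
      intro G hG
      obtain ⟨hG1, hG2⟩ := mem_powersetCard.mp hG
      have hc : (Ω \ G).card = Ω.card - r := by rw [card_sdiff_of_subset hG1, hG2]
      have hsub : (L.filter fun A => Disjoint A G) ⊆ powersetCard r (Ω \ G) := by
        intro A hA
        obtain ⟨a1, a2⟩ := mem_filter.mp hA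
        obtain ⟨a3, a4⟩ := mem_powersetCard.mp (hL a1)
        exact mem_powersetCard.mpr ⟨subset_sdiff.mpr ⟨a3, a2⟩, a4⟩
      have hμ' : μ * r ≤ (Ω \ G).card := by rw [hc]; rw [add_mul] at hμ; omega
      split_ifs with hGL
      · have hb := hM {G} (singleton_subset_iff.mpr hGL) (by simp)
        rw [card_singleton] at hb
        obtain ⟨b', rfl⟩ : ∃ b', b = b' + 1 := ⟨b - 1, by omega⟩
        have := ih (Ω \ G) _ b' hμ' hsub (by
          intro M hM1 hM2
          have hGM : G ∉ M := by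
            intro h
            have := (mem_filter.mp (hM1 h)).2
            rw [disjoint_self, bot_eq_empty] at this
            rw [this, card_empty] at hG2
            omega
          have := hM (insert G M) (insert_subset hGL (hM1.trans (filter_subset _ _))) (by
            rw [coe_insert]
            exact hM2.insert fun A hA _ => (mem_filter.mp (hM1 hA)).2.symm)
          rw [card_insert_of_notMem hGM] at this
          omega)
        rw [hc] at this
        rw [add_mul]; omega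
      · have := ih (Ω \ G) _ b hμ' hsub fun M hM1 hM2 => hM M (hM1.trans (filter_subset _ _)) hM2
        rw [hc] at this
        omega
    have hs := sum_le_sum key
    rw [sum_add_distrib, ← sum_mul, ← sum_mul, sum_const, card_powersetCard, smul_eq_mul] at hs
    have e1 : ∑ G ∈ powersetCard r Ω, (L.filter fun A => Disjoint A G).card
        = L.card * (Ω.card - r).choose r := by
      simp only [card_filter]
      rw [sum_comm, ← smul_eq_mul, ← sum_const]
      refine sum_congr rfl fun A hA => ?_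
      obtain ⟨a3, a4⟩ := mem_powersetCard.mp (hL hA)
      rw [← card_filter, ← a4, ← card_sdiff_of_subset a3, a4, ← card_powersetCard]
      congr 1
      ext G
      simp only [mem_filter, mem_powersetCard, subset_sdiff]
      rw [disjoint_comm]; tauto
    have e2 : ∑ G ∈ powersetCard r Ω, (if G ∈ L then 1 else 0) = L.card := by
      rw [← card_filter, filter_mem_eq_inter, inter_eq_right.mpr hL]
    rw [e1, e2] at hs
    have hp : 0 < (Ω.card - r).choose r := by
      apply Nat.choose_pos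
      have : 2 * r ≤ (μ + 1) * r := Nat.mul_le_mul_right _ (by omega)
      omega
    refine Nat.le_of_mul_le_mul_right ?_ hp
    calc _ = L.card * (Ω.card - r).choose r * μ + L.card * (Ω.card - r).choose r := by ring
      _ ≤ _ := hs
      _ = _ := by ring

end Pool.Agent.Work.EMC
end

-- merged part: Pool.Agent.Work.MP_9079fe_co.Expo
section
/-! Averaging against a standard exponential variable. -/

namespace Pool.Agent.Work.EMC
open MeasureTheory Set Real

/-- The standard exponential law. -/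
noncomputable def expE : Measure ℝ :=
  (volume.restrict (Ioi (0:ℝ))).withDensity (fun u => ENNReal.ofReal (exp (-u)))

lemma meas_dens : Measurable (fun u : ℝ => ENNReal.ofReal (exp (-u))) := by fun_prop

lemma intE (g : ℝ → ℝ) : ∫ u, g u ∂expE = ∫ u in Ioi (0:ℝ), exp (-u) * g u := by
  unfold expE
  rw [integral_withDensity_eq_integral_toReal_smul meas_dens (by simp)]
  congr 1
  ext u
  rw [ENNReal.toReal_ofReal (exp_pos _).le, smul_eq_mul]

lemma integrableE_iff (g : ℝ → ℝ) :
    Integrable g expE ↔ IntegrableOn (fun u => exp (-u) * g u) (Ioi (0:ℝ)) := by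
  unfold expE
  rw [integrable_withDensity_iff meas_dens (by simp)]
  unfold IntegrableOn
  have : (fun u => g u * (ENNReal.ofReal (exp (-u))).toReal) = fun u => exp (-u) * g u := by
    ext u
    rw [ENNReal.toReal_ofReal (exp_pos _).le, mul_comm]
  rw [this]

lemma integrableOn_exp_neg : IntegrableOn (fun u : ℝ => exp (-u)) (Ioi (0:ℝ)) := by
  simpa using exp_neg_integrableOn_Ioi 0 (b := 1) one_pos

instance : IsProbabilityMeasure expE := by
  constructor
  unfold expE
  rw [withDensity_apply _ MeasurableSet.univ, Measure.restrict_univ,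
    ← ofReal_integral_eq_lintegral_ofReal integrableOn_exp_neg
      (Filter.Eventually.of_forall fun u => (exp_pos _).le), integral_exp_neg_Ioi_zero]
  simp

lemma ae_pos : ∀ᵐ u ∂expE, 0 < u := by
  unfold expE
  apply (withDensity_absolutelyContinuous _ _).ae_le
  exact ae_restrict_mem measurableSet_Ioi

lemma integrable_id : Integrable (fun u : ℝ => u) expE := by
  rw [integrableE_iff]
  have := Real.GammaIntegral_convergent (s := 2) (by norm_num)
  refine this.congr_fun (fun u _ => ?_) measurableSet_Ioi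
  norm_num

lemma int_id : ∫ u, u ∂expE = 1 := by
  rw [intE]
  have h := Real.Gamma_eq_integral (s := 2) (by norm_num)
  rw [Real.Gamma_two] at h
  rw [h]
  refine setIntegral_congr_fun measurableSet_Ioi (fun u _ => ?_)
  norm_num

lemma int_exp {a : ℝ} (ha : 0 ≤ a) : ∫ u, exp (-(a * u)) ∂expE = 1 / (1 + a) := by
  rw [intE]
  have h := integral_exp_mul_Ioi (a := -(1 + a)) (by linarith) 0
  have e : ∀ u : ℝ, exp (-u) * exp (-(a * u)) = exp (-(1 + a) * u) := by
    intro u; rw [← exp_add]; congr 1; ring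
  simp_rw [e]
  rw [h]
  rw [mul_zero, exp_zero, neg_div_neg_eq]

lemma integrable_exp {a : ℝ} (ha : 0 ≤ a) : Integrable (fun u => exp (-(a * u))) expE := by
  refine Integrable.mono' (integrable_const (1:ℝ)) (by fun_prop) ?_
  filter_upwards [ae_pos] with u hu
  rw [Real.norm_eq_abs, abs_of_pos (exp_pos _)]
  exact exp_le_one_iff.mpr (by nlinarith)

/-- Memoryless splitting. -/
lemma splitE {g : ℝ → ℝ} (hg : Integrable g expE) {c : ℝ} (hc : 0 ≤ c) :
    ∫ u, g u ∂expE = ∫ u in Iic c, g u ∂expE + exp (-c) * ∫ u, g (c + u) ∂expE := by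
  rw [← integral_add_compl (s := Iic c) measurableSet_Iic hg, compl_Iic]
  congr 1
  rw [← integral_indicator measurableSet_Ioi, intE, intE]
  have h1 : ∫ u in Ioi (0:ℝ), exp (-u) * (Ioi c).indicator g u
      = ∫ u in Ioi c, exp (-u) * g u := by
    have : (fun u => exp (-u) * (Ioi c).indicator g u)
        = (Ioi c).indicator (fun u => exp (-u) * g u) := by
      ext u; by_cases h : u ∈ Ioi c <;> simp [h]
    rw [this, setIntegral_indicator measurableSet_Ioi, Ioi_inter_Ioi, sup_eq_right.mpr hc]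
  rw [h1]
  have h2 := (measurePreserving_add_left (volume : Measure ℝ) c).setIntegral_preimage_emb
    (measurableEmbedding_addLeft c) (fun u => exp (-u) * g u) (Ioi c)
  have h3 : (fun x => c + x) ⁻¹' Ioi c = Ioi 0 := by ext x; simp
  rw [h3] at h2
  rw [← h2, ← integral_const_mul]
  congr 1
  ext u
  rw [← mul_assoc, ← exp_add]
  congr 2
  ring

/-- Functions of at most linear growth. -/
def Good (φ : ℝ → ℝ) : Prop := Measurable φ ∧ ∃ C : ℝ, ∀ v, |φ v| ≤ C * (1 + |v|)

/-- Averaging operator: the mean of `φ (v + x E)`. -/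
noncomputable def R (x : ℝ) (φ : ℝ → ℝ) (v : ℝ) : ℝ := ∫ u, φ (v + x * u) ∂expE

lemma Good.nonneg_C {φ : ℝ → ℝ} {C : ℝ} (h : ∀ v, |φ v| ≤ C * (1 + |v|)) : 0 ≤ C := by
  have := (abs_nonneg _).trans (h 0)
  simpa using this

lemma integrable_lin (a b : ℝ) : Integrable (fun u : ℝ => a + b * |u|) expE :=
  (integrable_const a).add (integrable_id.abs.const_mul b)

lemma int_lin (a b : ℝ) : ∫ u, (a + b * |u|) ∂expE = a + b := by
  rw [integral_add (integrable_const a) (integrable_id.abs.const_mul b), integral_const_mul]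
  have : ∫ u, |u| ∂expE = 1 := by
    rw [← int_id]
    refine integral_congr_ae ?_
    filter_upwards [ae_pos] with u hu using abs_of_pos hu
  simp [this]

lemma Good.int {φ : ℝ → ℝ} (h : Good φ) (x v : ℝ) : Integrable (fun u => φ (v + x * u)) expE := by
  obtain ⟨hm, C, hC⟩ := h
  have h0 := Good.nonneg_C hC
  refine Integrable.mono' (integrable_lin (C * (1 + |v|)) (C * |x|))
    (by fun_prop : Measurable (fun u => φ (v + x * u))).aestronglyMeasurable ?_
  refine Filter.Eventually.of_forall fun u => ?_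
  have h1 := hC (v + x * u)
  have h2 : |v + x * u| ≤ |v| + |x| * |u| := by rw [← abs_mul]; exact abs_add_le _ _
  rw [Real.norm_eq_abs]
  linarith only [h1, h0, h2, mul_nonneg_of_nonpos_of_nonpos (Mathlib.Tactic.Linarith.sub_nonpos_of_le h0) (Mathlib.Tactic.Linarith.sub_nonpos_of_le h2)]

lemma Good.R {φ : ℝ → ℝ} (h : Good φ) (x : ℝ) : Good (R x φ) := by
  have h' := h
  obtain ⟨hm, C, hC⟩ := h
  have h0 := Good.nonneg_C hC
  constructor
  · have : StronglyMeasurable (fun p : ℝ × ℝ => φ (p.1 + x * p.2)) :=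
      (by fun_prop : Measurable (fun p : ℝ × ℝ => φ (p.1 + x * p.2))).stronglyMeasurable
    exact (this.integral_prod_right' (ν := expE)).measurable
  · refine ⟨C * (1 + |x|), fun v => ?_⟩
    unfold EMC.R
    have h3 : |∫ u, φ (v + x * u) ∂expE| ≤ ∫ u, (C * (1 + |v|) + (C * |x|) * |u|) ∂expE := by
      rw [← Real.norm_eq_abs]
      refine norm_integral_le_of_norm_le (integrable_lin _ _) ?_
      refine Filter.Eventually.of_forall fun u => ?_
      have h1 := hC (v + x * u)
      have h2 : |v + x * u| ≤ |v| + |x| * |u| := by rw [← abs_mul]; exact abs_add_le _ _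
      rw [Real.norm_eq_abs]
      linarith only [h1, h0, h2, mul_nonneg_of_nonpos_of_nonpos (Mathlib.Tactic.Linarith.sub_nonpos_of_le h0) (Mathlib.Tactic.Linarith.sub_nonpos_of_le h2)]
    rw [int_lin] at h3
    have := mul_nonneg h0 (mul_nonneg (abs_nonneg x) (abs_nonneg v))
    nlinarith

lemma Good.add {φ ψ : ℝ → ℝ} (h : Good φ) (h' : Good ψ) : Good (fun v => φ v + ψ v) := by
  obtain ⟨hm, C, hC⟩ := h
  obtain ⟨hm', C', hC'⟩ := h'
  refine ⟨by fun_prop, C + C', fun v => ?_⟩
  have := abs_add_le (φ v) (ψ v)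
  linarith only [this, hC, hC', hC v, hC' v]

lemma Good.smul {φ : ℝ → ℝ} (h : Good φ) (a : ℝ) : Good (fun v => a * φ v) := by
  obtain ⟨hm, C, hC⟩ := h
  refine ⟨by fun_prop, |a| * C, fun v => ?_⟩
  rw [abs_mul, mul_assoc]
  exact mul_le_mul_of_nonneg_left (hC v) (abs_nonneg a)

lemma Good.sub {φ ψ : ℝ → ℝ} (h : Good φ) (h' : Good ψ) : Good (fun v => φ v - ψ v) := by
  have := h.add (h'.smul (-1))
  simpa [sub_eq_add_neg] using this

lemma good_const (a : ℝ) : Good (fun _ => a) :=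
  ⟨by fun_prop, |a|, fun v => by linarith only [abs_nonneg a, abs_nonneg v, mul_nonneg_of_nonpos_of_nonpos (Mathlib.Tactic.Linarith.sub_nonpos_of_le (abs_nonneg a)) (Mathlib.Tactic.Linarith.sub_nonpos_of_le (abs_nonneg v))]⟩

lemma good_id : Good (fun v => v) := ⟨by fun_prop, 1, fun v => by linarith⟩

lemma Good.shift {φ : ℝ → ℝ} (h : Good φ) (c : ℝ) : Good (fun v => φ (v + c)) := by
  obtain ⟨hm, C, hC⟩ := h
  have h0 := Good.nonneg_C hC
  refine ⟨by fun_prop, C * (1 + |c|), fun v => ?_⟩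
  have h1 := hC (v + c)
  have h2 := abs_add_le v c
  have := mul_nonneg h0 (mul_nonneg (abs_nonneg c) (abs_nonneg v))
  linarith only [h1, this, h0, h2, mul_nonneg_of_nonpos_of_nonpos (Mathlib.Tactic.Linarith.sub_nonpos_of_le h0) (Mathlib.Tactic.Linarith.sub_nonpos_of_le h2)]

lemma R_add {φ ψ : ℝ → ℝ} (h : Good φ) (h' : Good ψ) (x v : ℝ) :
    R x (fun w => φ w + ψ w) v = R x φ v + R x ψ v := integral_add (h.int x v) (h'.int x v)

lemma R_smul (φ : ℝ → ℝ) (a x v : ℝ) : R x (fun w => a * φ w) v = a * R x φ v :=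
  integral_const_mul _ _

lemma R_const (a x v : ℝ) : R x (fun _ => a) v = a := by simp [R]

lemma R_id (x v : ℝ) : R x (fun w => w) v = v + x := by
  unfold R
  rw [integral_add (integrable_const v) (integrable_id.const_mul x), integral_const_mul, int_id]
  simp

lemma R_mono {φ ψ : ℝ → ℝ} (h : Good φ) (h' : Good ψ) (hle : ∀ v, φ v ≤ ψ v) (x v : ℝ) :
    R x φ v ≤ R x ψ v := integral_mono (h.int x v) (h'.int x v) fun _ => hle _

lemma R_nonneg {φ : ℝ → ℝ} (hle : ∀ v, 0 ≤ φ v) (x v : ℝ) : 0 ≤ R x φ v :=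
  integral_nonneg fun _ => hle _

lemma R_zero (φ : ℝ → ℝ) : R 0 φ = φ := by ext v; simp [R]

lemma R_shift (φ : ℝ → ℝ) (c x v : ℝ) : R x (fun w => φ (w + c)) v = R x φ (v + c) := by
  unfold R; congr 1; ext u; exact congrArg φ (by ring)

lemma R_comm {φ : ℝ → ℝ} (h : Good φ) (x y : ℝ) : R x (R y φ) = R y (R x φ) := by
  ext v
  obtain ⟨hm, C, hC⟩ := h
  have h0 := Good.nonneg_C hC
  unfold R
  rw [integral_integral_swap]
  · congr 1; ext u; congr 1; ext w; exact congrArg φ (by ring)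
  · have hI := (integrable_lin (C * (1 + |v|)) (C * |x|)).mul_prod (integrable_lin 1 |y|)
    refine Integrable.mono' hI ?_ ?_
    · exact (by fun_prop : Measurable
        (fun p : ℝ × ℝ => φ (v + x * p.1 + y * p.2))).aestronglyMeasurable
    · refine Filter.Eventually.of_forall fun p => ?_
      have h1 := hC (v + x * p.1 + y * p.2)
      have h2 : |v + x * p.1 + y * p.2| ≤ |v| + |x| * |p.1| + |y| * |p.2| := by
        rw [← abs_mul, ← abs_mul]; exact abs_add_three _ _ _
      have a1 := mul_nonneg (abs_nonneg x) (abs_nonneg p.1)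
      have a2 := mul_nonneg (abs_nonneg y) (abs_nonneg p.2)
      have a3 := abs_nonneg v
      simp only [Function.uncurry, Real.norm_eq_abs]
      calc _ ≤ C * (1 + (|v| + |x| * |p.1| + |y| * |p.2|)) := by linarith only [h1, h0, h2, mul_nonneg_of_nonpos_of_nonpos (Mathlib.Tactic.Linarith.sub_nonpos_of_le h0) (Mathlib.Tactic.Linarith.sub_nonpos_of_le h2)]
        _ ≤ C * ((1 + |v| + |x| * |p.1|) * (1 + |y| * |p.2|)) := by
          apply mul_le_mul_of_nonneg_left _ h0
          linarith only [a3, a1, a2, mul_nonneg (add_nonneg a3 a1) a2]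
        _ = _ := by ring

lemma prod_le {μ ν : Measure ℝ} {f₁ g₁ f₂ g₂ : ℝ → ℝ} (i1 : Integrable f₁ μ) (i2 : Integrable g₁ μ)
    (i3 : Integrable f₂ ν) (i4 : Integrable g₂ ν)
    (h : ∀ᵐ u ∂μ, ∀ᵐ w ∂ν, f₂ w * g₁ u ≤ f₁ u * g₂ w) :
    (∫ w, f₂ w ∂ν) * (∫ u, g₁ u ∂μ) ≤ (∫ u, f₁ u ∂μ) * ∫ w, g₂ w ∂ν := by
  rw [← integral_const_mul, ← integral_mul_const]
  refine integral_mono_ae (i2.const_mul _) (i1.mul_const _) ?_
  filter_upwards [h] with u hu
  rw [← integral_mul_const, ← integral_const_mul]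
  exact integral_mono_ae (i3.mul_const _) (i4.const_mul _) hu

/-- The ratio `b / a` is nondecreasing. -/
def TP (a b : ℝ → ℝ) : Prop := ∀ v v', v ≤ v' → a v' * b v ≤ a v * b v'

lemma TP.R {a b : ℝ → ℝ} (h : TP a b) (ha : Good a) (hb : Good b) (x : ℝ) :
    TP (R x a) (R x b) := by
  intro v v' hv
  rcases lt_trichotomy x 0 with hx | hx | hx
  · have hc : 0 ≤ (v' - v) / (-x) := div_nonneg (by linarith) (by linarith)
    set c := (v' - v) / (-x) with hcd
    have hxc : x * c = v - v' := by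
      have : x ≠ 0 := hx.ne
      rw [hcd]; field_simp; ring
    have e : ∀ f : ℝ → ℝ, Good f → EMC.R x f v' =
        ∫ u in Iic c, f (v' + x * u) ∂expE + exp (-c) * EMC.R x f v := by
      intro f hf
      unfold EMC.R
      rw [splitE (hf.int x v') hc]
      congr 3; ext u; congr 1; linarith only [hxc, mul_add x c u]
    rw [e a ha, e b hb]
    have key := prod_le (μ := expE.restrict (Iic c)) (ν := expE)
      (hb.int x v').restrict (ha.int x v').restrict (hb.int x v) (ha.int x v) (by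
        filter_upwards [ae_restrict_mem measurableSet_Iic] with u hu
        filter_upwards [ae_pos] with w hw
        have hu' : u ≤ c := hu
        have := h (v + x * w) (v' + x * u) (by linarith only [hxc, hx, hw, hu', mul_pos_of_neg_of_neg (Mathlib.Tactic.Linarith.sub_neg_of_lt hx) (Mathlib.Tactic.Linarith.sub_neg_of_lt hw), mul_nonneg_of_nonpos_of_nonpos (le_of_lt (Mathlib.Tactic.Linarith.sub_neg_of_lt hx)) (Mathlib.Tactic.Linarith.sub_nonpos_of_le hu')])
        linarith)
    unfold EMC.R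
    linarith only [key]
  · subst hx; rw [R_zero, R_zero]; exact h v v' hv
  · have hc : 0 ≤ (v' - v) / x := div_nonneg (by linarith) hx.le
    set c := (v' - v) / x with hcd
    have hxc : x * c = v' - v := by rw [hcd]; field_simp
    have e : ∀ f : ℝ → ℝ, Good f → EMC.R x f v =
        ∫ u in Iic c, f (v + x * u) ∂expE + exp (-c) * EMC.R x f v' := by
      intro f hf
      unfold EMC.R
      rw [splitE (hf.int x v) hc]
      congr 3; ext u; congr 1; linarith only [hxc, mul_add x c u]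
    rw [e a ha, e b hb]
    have key := prod_le (μ := expE.restrict (Iic c)) (ν := expE)
      (ha.int x v).restrict (hb.int x v).restrict (ha.int x v') (hb.int x v') (by
        filter_upwards [ae_restrict_mem measurableSet_Iic] with u hu
        filter_upwards [ae_pos] with w hw
        have hu' : u ≤ c := hu
        exact h (v + x * u) (v' + x * w) (by linarith only [hxc, hx, hw, hu', mul_pos_of_neg_of_neg (Mathlib.Tactic.Linarith.sub_neg_of_lt hx) (Mathlib.Tactic.Linarith.sub_neg_of_lt hw), mul_nonneg_of_nonpos_of_nonpos (le_of_lt (Mathlib.Tactic.Linarith.sub_neg_of_lt hx)) (Mathlib.Tactic.Linarith.sub_nonpos_of_le hu')]))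
    unfold EMC.R
    linarith only [key]

end Pool.Agent.Work.EMC
end

-- merged part: Pool.Agent.Work.MP_9079fe_co.Ops
section
/-! Explicit averages, the resolvent identity, and signed sums of exponentials. -/

namespace Pool.Agent.Work.EMC
open MeasureTheory Set Real

/-- Indicator of the nonpositive half line. -/
noncomputable def chi (v : ℝ) : ℝ := if v ≤ 0 then 1 else 0
/-- Negative part. -/
noncomputable def ngp (v : ℝ) : ℝ := max (-v) 0
/-- Positive part. -/
noncomputable def psp (v : ℝ) : ℝ := max v 0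

lemma good_chi : Good chi := by
  constructor
  · unfold chi
    exact Measurable.ite measurableSet_Iic measurable_const measurable_const
  · refine ⟨1, fun v => ?_⟩
    unfold chi
    split_ifs <;> simp
    positivity

lemma good_ngp : Good ngp := by
  constructor
  · unfold ngp; fun_prop
  · refine ⟨1, fun v => ?_⟩
    unfold ngp
    rw [abs_of_nonneg (le_max_right _ _)]
    apply max_le <;> linarith only [neg_abs_le v, abs_nonneg v]

lemma psp_eq (v : ℝ) : psp v = v + ngp v := by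
  unfold psp ngp
  rcases le_total v 0 with h | h
  · rw [max_eq_right h, max_eq_left (by linarith)]; ring
  · rw [max_eq_left h, max_eq_right (by linarith)]; ring

lemma good_psp : Good psp := by
  have : psp = fun v => v + ngp v := funext psp_eq
  rw [this]; exact good_id.add good_ngp

lemma chi_nonneg (v : ℝ) : 0 ≤ chi v := by unfold chi; split_ifs <;> norm_num
lemma chi_le_one (v : ℝ) : chi v ≤ 1 := by unfold chi; split_ifs <;> norm_num
lemma chi_anti {v w : ℝ} (h : v ≤ w) : chi w ≤ chi v := by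
  unfold chi; split_ifs with h1 h2
  · exact le_rfl
  · exact absurd (h.trans h1) h2
  · norm_num
  · exact le_rfl
lemma chi_of_nonpos {v : ℝ} (h : v ≤ 0) : chi v = 1 := by simp [chi, h]
lemma chi_of_pos {v : ℝ} (h : 0 < v) : chi v = 0 := by simp [chi, h]
lemma ngp_nonneg (v : ℝ) : 0 ≤ ngp v := le_max_right _ _
lemma psp_nonneg (v : ℝ) : 0 ≤ psp v := le_max_right _ _
lemma ngp_of_nonneg {v : ℝ} (h : 0 ≤ v) : ngp v = 0 := max_eq_right (by linarith)
lemma ngp_of_nonpos {v : ℝ} (h : v ≤ 0) : ngp v = -v := max_eq_left (by linarith)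

instance : NullSingletonClass expE := by
  constructor
  intro x
  unfold expE
  apply withDensity_absolutelyContinuous
  simp

lemma intE_congr {f g : ℝ → ℝ} (h : ∀ u, 0 < u → f u = g u) :
    ∫ u, f u ∂expE = ∫ u, g u ∂expE := by
  refine integral_congr_ae ?_
  filter_upwards [ae_pos] with u hu using h u hu

lemma int_aff (a b : ℝ) : ∫ u, (a + b * u) ∂expE = a + b := R_id b a

lemma R_chi_nn {x v : ℝ} (hx : x ≤ 0) (hv : v ≤ 0) : R x chi v = 1 := by
  unfold R
  rw [intE_congr (g := fun _ => 1) fun u hu => chi_of_nonpos (by linarith only [hv, hx, hu, mul_nonneg_of_nonpos_of_nonpos (Mathlib.Tactic.Linarith.sub_nonpos_of_le hx) (le_of_lt (Mathlib.Tactic.Linarith.sub_neg_of_lt hu))])]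
  simp

lemma R_chi_pp {x v : ℝ} (hx : 0 < x) (hv : 0 ≤ v) : R x chi v = 0 := by
  unfold R
  rw [intE_congr (g := fun _ => 0) fun u hu => chi_of_pos (by linarith only [hv, hx, hu, mul_pos hx hu])]
  simp

lemma R_chi_np {x v : ℝ} (hx : x < 0) (hv : 0 ≤ v) : R x chi v = exp (v / x) := by
  have hc : 0 ≤ -(v / x) := by
    have := div_nonpos_of_nonneg_of_nonpos hv hx.le
    linarith
  have hxc : x * -(v / x) = -v := by have := hx.ne; field_simp
  unfold R
  rw [splitE (good_chi.int x v) hc, integral_Iic_eq_integral_Iio,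
    setIntegral_congr_fun (g := fun _ => 0) measurableSet_Iio,
    intE_congr (f := fun u => chi (v + x * (-(v / x) + u))) (g := fun _ => 1)]
  · simp
  · intro u hu; exact chi_of_nonpos (by linarith only [hxc, hx, hu, mul_add x (-(v / x)) u, mul_pos_of_neg_of_neg (Mathlib.Tactic.Linarith.sub_neg_of_lt hx) (Mathlib.Tactic.Linarith.sub_neg_of_lt hu)])
  · intro u hu
    have hu' : u < -(v / x) := hu
    exact chi_of_pos (by nlinarith)

lemma R_chi_pn {x v : ℝ} (hx : 0 < x) (hv : v ≤ 0) : R x chi v = 1 - exp (v / x) := by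
  have hc : 0 ≤ -(v / x) := by
    have := div_nonpos_of_nonpos_of_nonneg hv hx.le
    linarith
  have hxc : x * -(v / x) = -v := by have := hx.ne'; field_simp
  have h1 := splitE (g := fun _ => (1:ℝ)) (integrable_const _) hc
  unfold R
  rw [splitE (good_chi.int x v) hc,
    setIntegral_congr_fun (g := fun _ => 1) measurableSet_Iic,
    intE_congr (f := fun u => chi (v + x * (-(v / x) + u))) (g := fun _ => 0)]
  · simp at h1 ⊢
    linarith only [h1]
  · intro u hu; exact chi_of_pos (by linarith only [hxc, hx, hu, mul_add x (-(v / x)) u, mul_pos hx hu])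
  · intro u hu
    have hu' : u ≤ -(v / x) := hu
    exact chi_of_nonpos (by linarith only [hxc, hx, hu', mul_nonneg_of_nonpos_of_nonpos (le_of_lt (Mathlib.Tactic.Linarith.sub_neg_of_lt hx)) (Mathlib.Tactic.Linarith.sub_nonpos_of_le hu')])

/-- The basic identity. -/
lemma R_ngp (x v : ℝ) : R x ngp v + x * R x chi v = ngp v := by
  rcases le_or_gt x 0 with hx | hx
  · rcases le_or_gt v 0 with hv | hv
    · rw [R_chi_nn hx hv, ngp_of_nonpos hv]
      unfold R
      rw [intE_congr (g := fun u => -v + (-x) * u), int_aff]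
      · ring
      · intro u hu; rw [ngp_of_nonpos (by nlinarith)]; ring
    · rcases hx.eq_or_lt with hx | hx
      · subst hx; simp [R_zero]
      rw [R_chi_np hx hv.le, ngp_of_nonneg hv.le]
      have hc : 0 ≤ -(v / x) := by
        have := div_nonpos_of_nonneg_of_nonpos hv.le hx.le
        linarith
      have hxc : x * -(v / x) = -v := by have := hx.ne; field_simp
      unfold R
      rw [splitE (good_ngp.int x v) hc,
        setIntegral_congr_fun (g := fun _ => 0) measurableSet_Iic,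
        intE_congr (f := fun u => ngp (v + x * (-(v / x) + u))) (g := fun u => 0 + (-x) * u),
        int_aff]
      · simp; ring
      · intro u hu
        rw [ngp_of_nonpos (by nlinarith [mul_add x (-(v / x)) u])]
        nlinarith [mul_add x (-(v / x)) u]
      · intro u hu
        have hu' : u ≤ -(v / x) := hu
        exact ngp_of_nonneg (by nlinarith)
  · rcases le_or_gt 0 v with hv | hv
    · rw [R_chi_pp hx hv, ngp_of_nonneg hv]
      unfold R
      rw [intE_congr (g := fun _ => 0)]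
      · simp
      · intro u hu; exact ngp_of_nonneg (by nlinarith [mul_pos hx hu])
    · rw [R_chi_pn hx hv.le, ngp_of_nonpos hv.le]
      have hc : 0 ≤ -(v / x) := by
        have := div_nonpos_of_nonpos_of_nonneg hv.le hx.le
        linarith
      have hxc : x * -(v / x) = -v := by have := hx.ne'; field_simp
      have h1 := splitE (g := fun u => -v + (-x) * u) (good_id.int (-x) (-v)) hc
      rw [int_aff, intE_congr (f := fun u => -v + -x * (-(v / x) + u))
        (g := fun u => 0 + (-x) * u) (fun u _ => by nlinarith [mul_add x (-(v / x)) u]),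
        int_aff] at h1
      unfold R
      rw [splitE (good_ngp.int x v) hc,
        setIntegral_congr_fun (g := fun u => -v + (-x) * u) measurableSet_Iic,
        intE_congr (f := fun u => ngp (v + x * (-(v / x) + u))) (g := fun u => 0)]
      · simp only [neg_neg, integral_zero, mul_zero, add_zero] at h1 ⊢
        linarith only [h1]
      · intro u hu
        exact ngp_of_nonneg (by linarith only [hxc, hx, hu, mul_add x (-(v / x)) u, mul_pos hx hu])
      · intro u hu
        have hu' : u ≤ -(v / x) := hu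
        show ngp (v + x * u) = -v + (-x) * u
        rw [ngp_of_nonpos (by linarith only [hxc, hx, hu', mul_nonneg_of_nonpos_of_nonpos (le_of_lt (Mathlib.Tactic.Linarith.sub_neg_of_lt hx)) (Mathlib.Tactic.Linarith.sub_nonpos_of_le hu')])]; ring

lemma R_psp (x v : ℝ) : R x psp v = psp v + x * (1 - R x chi v) := by
  have : psp = fun v => v + ngp v := funext psp_eq
  rw [this, R_add good_id good_ngp, R_id]
  have := R_ngp x v
  simp only
  linarith

/-- Resolvent identity. -/
lemma resolvent (x y v : ℝ) : (x - y) * R x (R y chi) v = x * R x chi v - y * R y chi v := by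
  have h1 : ∀ a b : ℝ, R b (R a ngp) v + a * R b (R a chi) v = ngp v - b * R b chi v := by
    intro a b
    have e : (fun w => R a ngp w + a * R a chi w) = ngp := funext (R_ngp a)
    have := R_add (good_ngp.R a) ((good_chi.R a).smul a) b v
    rw [e, R_smul] at this
    linarith [R_ngp b v]
  have h2 := h1 x y
  have h3 := h1 y x
  rw [R_comm good_ngp y x, R_comm good_chi y x] at h2
  linarith

/-- Iterated averaging along a list. -/
noncomputable def TL : List ℝ → (ℝ → ℝ) → ℝ → ℝ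
  | [], φ => φ
  | x :: l, φ => R x (TL l φ)

lemma Good.TL {φ : ℝ → ℝ} (h : Good φ) : ∀ l : List ℝ, Good (TL l φ)
  | [] => h
  | x :: l => (Good.TL h l).R x

lemma TL_perm {φ : ℝ → ℝ} (h : Good φ) {l l' : List ℝ} (p : l.Perm l') : TL l φ = TL l' φ := by
  induction p with
  | nil => rfl
  | cons x _ ih => simp only [TL, ih]
  | swap x y l => simp only [TL]; exact R_comm (h.TL l) y x
  | trans _ _ ih1 ih2 => exact ih1.trans ih2

/-- `T M φ v` is the mean of `φ (v + Σ x E_x)` over independent exponentials, `x ∈ M`. -/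
noncomputable def T (M : Multiset ℝ) (φ : ℝ → ℝ) : ℝ → ℝ := TL M.toList φ

lemma T_zero (φ : ℝ → ℝ) : T 0 φ = φ := by simp [T, TL]

lemma T_cons {φ : ℝ → ℝ} (h : Good φ) (x : ℝ) (M : Multiset ℝ) :
    T (x ::ₘ M) φ = R x (T M φ) := by
  unfold T
  rw [TL_perm h (l' := x :: M.toList)]
  · rfl
  · rw [← Multiset.coe_eq_coe, Multiset.coe_toList, ← Multiset.cons_coe, Multiset.coe_toList]

lemma Good.T {φ : ℝ → ℝ} (h : Good φ) (M : Multiset ℝ) : Good (T M φ) := h.TL _

lemma T_cons' {φ : ℝ → ℝ} (h : Good φ) (x : ℝ) (M : Multiset ℝ) :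
    T (x ::ₘ M) φ = T M (R x φ) := by
  induction M using Multiset.induction_on with
  | empty => rw [T_cons h, T_zero, T_zero]
  | cons y M ih => rw [Multiset.cons_swap, T_cons h, ih, T_cons (h.R x)]

lemma T_lin {φ ψ : ℝ → ℝ} (h : Good φ) (h' : Good ψ) (a b : ℝ) (M : Multiset ℝ) :
    T M (fun w => a * φ w + b * ψ w) = fun v => a * T M φ v + b * T M ψ v := by
  induction M using Multiset.induction_on with
  | empty => simp [T_zero]
  | cons y M ih =>
    rw [T_cons ((h.smul a).add (h'.smul b)), T_cons h, T_cons h', ih]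
    ext v
    rw [R_add ((h.T M).smul a) ((h'.T M).smul b), R_smul, R_smul]

lemma T_mono {φ ψ : ℝ → ℝ} (h : Good φ) (h' : Good ψ) (hle : ∀ v, φ v ≤ ψ v) (M : Multiset ℝ) :
    ∀ v, T M φ v ≤ T M ψ v := by
  induction M using Multiset.induction_on with
  | empty => simpa [T_zero] using hle
  | cons y M ih =>
    rw [T_cons h, T_cons h']
    exact R_mono (h.T M) (h'.T M) ih y

lemma T_const (a : ℝ) (M : Multiset ℝ) : T M (fun _ => a) = fun _ => a := by
  induction M using Multiset.induction_on with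
  | empty => simp [T_zero]
  | cons y M ih => rw [T_cons (good_const a), ih]; ext v; exact R_const _ _ _

lemma T_id (M : Multiset ℝ) : T M (fun w => w) = fun v => v + M.sum := by
  induction M using Multiset.induction_on with
  | empty => simp [T_zero]
  | cons y M ih =>
    rw [T_cons good_id, ih]; ext v
    rw [R_add good_id (good_const _), R_id, R_const, Multiset.sum_cons]; ring

lemma T_shift {φ : ℝ → ℝ} (h : Good φ) (c : ℝ) (M : Multiset ℝ) :
    T M (fun w => φ (w + c)) = fun v => T M φ (v + c) := by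
  induction M using Multiset.induction_on with
  | empty => simp [T_zero]
  | cons y M ih => rw [T_cons (h.shift c), T_cons h, ih]; ext v; exact R_shift _ _ _ _

lemma TP.T {a b : ℝ → ℝ} (h : TP a b) (ha : Good a) (hb : Good b) (M : Multiset ℝ) :
    TP (T M a) (T M b) := by
  induction M using Multiset.induction_on with
  | empty => simpa [T_zero] using h
  | cons y M ih => rw [T_cons ha, T_cons hb]; exact ih.R (ha.T M) (hb.T M) y

lemma T_nonneg {φ : ℝ → ℝ} (h : Good φ) (hle : ∀ v, 0 ≤ φ v) (M : Multiset ℝ) (v : ℝ) :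
    0 ≤ T M φ v := by
  have := T_mono (good_const 0) h hle M v
  rwa [T_const] at this

lemma T_anti {φ : ℝ → ℝ} (h : Good φ) (ha : ∀ v w, v ≤ w → φ w ≤ φ v) (M : Multiset ℝ)
    {v w : ℝ} (hvw : v ≤ w) : T M φ w ≤ T M φ v := by
  have := T_mono (h.shift (w - v)) h (fun u => ha _ _ (by linarith)) M v
  rw [T_shift h] at this
  simpa using this

lemma T_psp (M : Multiset ℝ) (v : ℝ) : T M psp v = v + M.sum + T M ngp v := by
  have e : psp = fun w => 1 * (fun w => w) w + 1 * ngp w := by ext w; simp [psp_eq]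
  rw [e, T_lin good_id good_ngp, T_id]; simp

end Pool.Agent.Work.EMC
end

-- merged part: Pool.Agent.Work.MP_9079fe_co.Gruen
section
/-! A Grünbaum type bound for signed sums of exponentials, and Jensen bounds. -/

namespace Pool.Agent.Work.EMC
open MeasureTheory Set Real

lemma T_psp_ge (M : Multiset ℝ) (v : ℝ) : psp (v + M.sum) ≤ T M psp v := by
  unfold psp
  apply max_le
  · have := T_psp M v
    have h := T_nonneg good_ngp ngp_nonneg M v
    unfold psp at this
    linarith
  · exact T_nonneg good_psp psp_nonneg M v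

lemma le_psp (v : ℝ) : v ≤ psp v := le_max_left _ _

lemma psp_mono {v w : ℝ} (h : v ≤ w) : psp v ≤ psp w := max_le_max h le_rfl

lemma T_psp_mono (M : Multiset ℝ) {v w : ℝ} (hvw : v ≤ w) : T M psp v ≤ T M psp w := by
  have := T_mono good_psp (good_psp.shift (w - v)) (fun u => psp_mono (by linarith)) M v
  rw [T_shift good_psp] at this
  simpa using this

lemma TP_psp {h : ℝ} (hh : 0 ≤ h) : TP psp (fun w => psp (w + -h)) := by
  intro v v' hv
  rcases le_total (v + -h) 0 with h1 | h1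
  · have : psp (v + -h) = 0 := max_eq_right h1
    simp only [this, mul_zero]
    exact mul_nonneg (psp_nonneg _) (psp_nonneg _)
  · show max v' 0 * max (v + -h) 0 ≤ max v 0 * max (v' + -h) 0
    rw [max_eq_left (by linarith), max_eq_left h1, max_eq_left (by linarith),
      max_eq_left (by linarith)]
    nlinarith

lemma logconc (M : Multiset ℝ) {h : ℝ} (hh : 0 ≤ h) {w w' : ℝ} (hw : w ≤ w') :
    T M psp w' * T M psp (w - h) ≤ T M psp w * T M psp (w' - h) := by
  have := (TP_psp hh).T good_psp (good_psp.shift (-h)) M w w' hw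
  rw [T_shift good_psp] at this
  simpa [sub_eq_add_neg] using this

lemma tail_bound (M : Multiset ℝ) (v : ℝ) (hm : 0 < T M psp v) {ε y : ℝ} (hε : 0 < ε)
    (hy : 0 < y) :
    T M psp (v - y) ≤
      T M psp v * exp (-(1 / (exp 1 * T M psp v - (v + M.sum) + ε) * y)) := by
  set H := T M psp with hH
  set m := H v with hmd
  set y0 := exp 1 * m - (v + M.sum) with hy0
  have hμ : v + M.sum ≤ m := (le_psp _).trans (T_psp_ge M v)
  have he : 1 < exp 1 := by linarith [add_one_lt_exp (x := 1) one_ne_zero]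
  have hy0p : 0 < y0 := by linarith only [hμ, hm, he, mul_pos_of_neg_of_neg (Mathlib.Tactic.Linarith.sub_neg_of_lt hm) (Mathlib.Tactic.Linarith.sub_neg_of_lt he)]
  obtain ⟨j, hj⟩ : ∃ j : ℕ, y / ε < j := exists_nat_gt _
  have hjp : (0:ℝ) < j := lt_trans (div_pos hy hε) hj
  set h := y / j with hh
  have hhp : 0 < h := div_pos hy hjp
  have hhε : h ≤ ε := by
    rw [hh, div_le_iff₀ hjp]; rw [div_lt_iff₀ hε] at hj; linarith
  have hjh : j * h = y := by rw [hh]; field_simp
  set N := ⌈y0 / h⌉₊ with hN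
  have hN1 : y0 ≤ N * h := by
    have := Nat.le_ceil (y0 / h); rwa [div_le_iff₀ hhp] at this
  have hN2 : N * h ≤ y0 + ε := by
    have := (Nat.ceil_lt_add_one (div_pos hy0p hhp).le).le
    have h2 : (N:ℝ) * h ≤ (y0 / h + 1) * h := mul_le_mul_of_nonneg_right this hhp.le
    rw [add_mul, div_mul_cancel₀ _ hhp.ne'] at h2
    linarith only [hhε, h2]
  have hH1 : m ≤ H (v + h) := T_psp_mono M (by linarith only [hhp])
  have hH1p : 0 < H (v + h) := lt_of_lt_of_le hm hH1
  set r := m / H (v + h) with hr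
  have hrp : 0 < r := div_pos hm hH1p
  have hrm : r * H (v + h) = m := by rw [hr]; field_simp
  have low : ∀ i : ℕ, H (v - i * h) ≤ r ^ i * m := by
    intro i
    induction i with
    | zero => simp [hmd]
    | succ i ih =>
      have h1 := logconc M hhp.le (w := v - i * h) (w' := v + h) (by linarith only [hhp, (Nat.cast_nonneg i : (0:ℝ) ≤ i), mul_nonneg_of_nonpos_of_nonpos (Mathlib.Tactic.Linarith.sub_nonpos_of_le (Mathlib.Tactic.Linarith.natCast_nonneg ℝ i)) (le_of_lt (Mathlib.Tactic.Linarith.sub_neg_of_lt hhp))])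
      rw [← hH, add_sub_cancel_right, ← hmd] at h1
      have e : v - ((i + 1 : ℕ) : ℝ) * h = v - i * h - h := by push_cast; ring
      rw [e]
      have h2 : H (v - i * h - h) ≤ r * H (v - i * h) := by
        rw [← hrm] at h1
        have : H (v + h) * H (v - i * h - h) ≤ H (v + h) * (r * H (v - i * h)) := by linarith only [h1]
        exact le_of_mul_le_mul_left this hH1p
      calc _ ≤ r * H (v - i * h) := h2
        _ ≤ r * (r ^ i * m) := mul_le_mul_of_nonneg_left ih hrp.le
        _ = _ := by ring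
  have up : ∀ i : ℕ, r ^ i * H (v + i * h) ≤ m := by
    intro i
    induction i with
    | zero => simp [hmd]
    | succ i ih =>
      have h1 := logconc M hhp.le (w := v + h) (w' := v + i * h + h)
        (by linarith only [hhp, (Nat.cast_nonneg i : (0:ℝ) ≤ i), mul_nonneg_of_nonpos_of_nonpos (Mathlib.Tactic.Linarith.sub_nonpos_of_le (Mathlib.Tactic.Linarith.natCast_nonneg ℝ i)) (le_of_lt (Mathlib.Tactic.Linarith.sub_neg_of_lt hhp))])
      rw [← hH, add_sub_cancel_right, add_sub_cancel_right, ← hmd] at h1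
      have e : v + ((i + 1 : ℕ) : ℝ) * h = v + i * h + h := by push_cast; ring
      rw [e]
      have h2 : r * H (v + i * h + h) ≤ H (v + i * h) := by
        rw [← hrm] at h1
        have : H (v + h) * (r * H (v + i * h + h)) ≤ H (v + h) * H (v + i * h) := by linarith only [h1]
        exact le_of_mul_le_mul_left this hH1p
      calc _ = r ^ i * (r * H (v + i * h + h)) := by ring
        _ ≤ r ^ i * H (v + i * h) := mul_le_mul_of_nonneg_left h2 (pow_pos hrp i).le
        _ ≤ m := ih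
  have h3 : r ^ N * exp 1 ≤ 1 := by
    have h4 : v + N * h + M.sum ≤ H (v + N * h) := (le_psp _).trans (T_psp_ge M _)
    have h5 : r ^ N * (exp 1 * m) ≤ m :=
      le_trans (mul_le_mul_of_nonneg_left (by linarith only [hN1, h4]) (pow_pos hrp N).le) (up N)
    have : m * (r ^ N * exp 1) ≤ m * 1 := by linarith only [h5]
    exact le_of_mul_le_mul_left this hm
  have h6 : N * log r ≤ -1 := by
    have := log_le_log (by positivity) h3
    rw [log_mul (pow_pos hrp N).ne' (exp_pos 1).ne', log_pow, log_exp, log_one] at this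
    linarith only [this]
  have hlr : log r ≤ 0 := by
    by_contra hc
    push Not at hc
    linarith only [h6, hc, mul_nonneg (Nat.cast_nonneg N : (0:ℝ) ≤ N) hc.le]
  have h7 : j * log r ≤ -(1 / (y0 + ε) * y) := by
    have hp : 0 < y0 + ε := by linarith only [hε, hy0p]
    have : (y0 + ε) * (j * log r) ≤ -y := by
      have a1 : (y0 + ε) * log r ≤ N * h * log r := by linarith only [hN2, hlr, mul_nonneg_of_nonpos_of_nonpos (Mathlib.Tactic.Linarith.sub_nonpos_of_le hN2) (Mathlib.Tactic.Linarith.sub_nonpos_of_le hlr)]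
      have a2 : N * h * log r ≤ -h := by linarith only [hhp, h6, mul_nonneg_of_nonpos_of_nonpos (le_of_lt (Mathlib.Tactic.Linarith.sub_neg_of_lt hhp)) (Mathlib.Tactic.Linarith.sub_nonpos_of_le h6)]
      linarith only [hjh, a1, a2, mul_nonneg_of_nonpos_of_nonpos (Mathlib.Tactic.Linarith.sub_nonpos_of_le (Mathlib.Tactic.Linarith.natCast_nonneg ℝ j)) (Mathlib.Tactic.Linarith.sub_nonpos_of_le a1), mul_nonneg_of_nonpos_of_nonpos (Mathlib.Tactic.Linarith.sub_nonpos_of_le (Mathlib.Tactic.Linarith.natCast_nonneg ℝ j)) (Mathlib.Tactic.Linarith.sub_nonpos_of_le a2)]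
    rw [one_div, ← div_eq_inv_mul, ← neg_div, le_div_iff₀ hp]
    linarith only [this]
  have h8 : r ^ j ≤ exp (-(1 / (y0 + ε) * y)) := by
    rw [← exp_log (pow_pos hrp j), log_pow]
    exact exp_le_exp.mpr h7
  have := low j
  rw [hjh] at this
  linarith only [this, hm, h8, mul_nonneg_of_nonpos_of_nonpos (le_of_lt (Mathlib.Tactic.Linarith.sub_neg_of_lt hm)) (Mathlib.Tactic.Linarith.sub_nonpos_of_le h8)]

lemma T_chi_le_one (M : Multiset ℝ) (v : ℝ) : T M chi v ≤ 1 := by
  have := T_mono good_chi (good_const 1) chi_le_one M v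
  rwa [T_const] at this

lemma T_cons_psp (x : ℝ) (M : Multiset ℝ) (v : ℝ) :
    T (x ::ₘ M) psp v = T M psp v + x * (1 - T (x ::ₘ M) chi v) := by
  rw [T_cons' good_psp, T_cons' good_chi]
  have e : R x psp = fun w => 1 * (fun w => 1 * psp w + x * (fun _ => (1:ℝ)) w) w
      + (-x) * R x chi w := by
    ext w; rw [R_psp]; ring
  rw [e, T_lin ((good_psp.smul 1).add ((good_const 1).smul x)) (good_chi.R x),
    T_lin good_psp (good_const 1), T_const]
  ring

lemma T_cons_ngp (x : ℝ) (M : Multiset ℝ) (v : ℝ) :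
    T (x ::ₘ M) ngp v = T M ngp v - x * T (x ::ₘ M) chi v := by
  have h1 := T_cons_psp x M v
  rw [T_psp, T_psp, Multiset.sum_cons] at h1
  linarith only [h1]

/-- Grünbaum type bound. -/
lemma gruen (M : Multiset ℝ) (v : ℝ) {η : ℝ} (hη : 0 < η) :
    T M psp v ≤ (η + exp 1 * T M psp v - (v + M.sum)) * (1 - T ((-η) ::ₘ M) chi v) := by
  set m := T M psp v with hmd
  set Q := 1 - T ((-η) ::ₘ M) chi v with hQ
  have hQ0 : 0 ≤ Q := by linarith [T_chi_le_one ((-η) ::ₘ M) v]
  have hμ : v + M.sum ≤ m := (le_psp _).trans (T_psp_ge M v)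
  have he : 1 < exp 1 := by linarith [add_one_lt_exp (x := 1) one_ne_zero]
  have hm0 : 0 ≤ m := T_nonneg good_psp psp_nonneg M v
  rcases hm0.eq_or_lt with hm | hm
  · rw [← hm] at hμ ⊢
    exact mul_nonneg (by linarith) hQ0
  set y0 := exp 1 * m - (v + M.sum) with hy0
  have hy0p : 0 < y0 := by linarith only [hμ, he, hm, mul_pos_of_neg_of_neg (Mathlib.Tactic.Linarith.sub_neg_of_lt he) (Mathlib.Tactic.Linarith.sub_neg_of_lt hm)]
  have key : ∀ ε : ℝ, 0 < ε → m ≤ (η + y0) * Q + ε := by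
    intro ε hε
    have hp : 0 < y0 + ε := by linarith
    have ha : 0 ≤ η / (y0 + ε) := div_nonneg hη.le hp.le
    have h1 : T ((-η) ::ₘ M) psp v ≤ m * (1 / (1 + η / (y0 + ε))) := by
      rw [T_cons good_psp, ← int_exp ha, ← integral_const_mul]
      refine integral_mono_ae ((good_psp.T M).int _ _) ((integrable_exp ha).const_mul m) ?_
      filter_upwards [ae_pos] with u hu
      have := tail_bound M v hm hε (mul_pos hη hu)
      have e1 : v + -η * u = v - η * u := by ring
      have e2 : η / (y0 + ε) * u = 1 / (y0 + ε) * (η * u) := by ring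
      rw [e1, e2]
      exact this
    rw [T_cons_psp, ← hmd, ← hQ] at h1
    have e : 1 / (1 + η / (y0 + ε)) = 1 - η / (η + y0 + ε) := by field_simp; ring
    rw [e] at h1
    have h2 : η * (m / (η + y0 + ε)) ≤ η * Q := by
      have : m * (η / (η + y0 + ε)) = η * (m / (η + y0 + ε)) := by ring
      linarith only [h1, this]
    have h3 := le_of_mul_le_mul_left h2 hη
    rw [div_le_iff₀ (by linarith only [hη, hy0p, hε])] at h3
    have hQ1 : Q ≤ 1 := by linarith only [T_nonneg good_chi chi_nonneg ((-η) ::ₘ M) v]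
    linarith only [h3, hε, hQ1, mul_nonneg_of_nonpos_of_nonpos (le_of_lt (Mathlib.Tactic.Linarith.sub_neg_of_lt hε)) (Mathlib.Tactic.Linarith.sub_nonpos_of_le hQ1)]
  have := le_of_forall_pos_le_add key
  rw [hy0] at this
  linarith

lemma T_cons_psp_ge (x : ℝ) (M : Multiset ℝ) (v : ℝ) :
    R x psp (v + M.sum) ≤ T (x ::ₘ M) psp v := by
  rw [T_cons good_psp, ← R_shift]
  exact R_mono (good_psp.shift _) (good_psp.T M) (T_psp_ge M) x v

/-- Each summand forces a spread of the centred sum. -/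
lemma abs_le_spread {x : ℝ} {M : Multiset ℝ} (hx : x ∈ M) :
    |x| ≤ exp 1 * T M psp (-M.sum) := by
  obtain ⟨M', rfl⟩ := Multiset.exists_cons_of_mem hx
  have h := T_cons_psp_ge x M' (-(x ::ₘ M').sum)
  have e : -(x ::ₘ M').sum + M'.sum = -x := by rw [Multiset.sum_cons]; ring
  rw [e, R_psp] at h
  have h1 : exp 1 * exp (-1) = 1 := by rw [← exp_add]; simp
  have hp := exp_pos 1
  have key : exp (-1) * |x| ≤ T (x ::ₘ M') psp (-(x ::ₘ M').sum) := by
    rcases lt_trichotomy x 0 with h0 | h0 | h0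
    · rw [R_chi_np h0 (by linarith), neg_div, div_self h0.ne,
        show psp (-x) = -x from max_eq_left (by linarith)] at h
      rw [abs_of_neg h0]; linarith
    · subst h0
      simpa using T_nonneg good_psp psp_nonneg _ _
    · rw [R_chi_pn h0 (by linarith), neg_div, div_self h0.ne',
        show psp (-x) = 0 from max_eq_right (by linarith)] at h
      rw [abs_of_pos h0]; linarith
  calc |x| = exp 1 * (exp (-1) * |x|) := by rw [← mul_assoc, h1, one_mul]
    _ ≤ _ := mul_le_mul_of_nonneg_left key hp.le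

lemma spread_same {g : ℝ} {M : Multiset ℝ} (hg : 0 < g) (hx : (-g) ∈ M) (h1 : 1 ≤ M.sum + g) :
    1 + (exp 1 - 2) * (1 - g) ≤ exp 1 * T M psp 0 := by
  obtain ⟨M', rfl⟩ := Multiset.exists_cons_of_mem hx
  have h := T_cons_psp_ge (-g) M' 0
  rw [Multiset.sum_cons] at h1
  have h2 : R (-g) psp 1 ≤ R (-g) psp (0 + M'.sum) := by
    have := R_mono good_psp (good_psp.shift (M'.sum - 1)) (fun u => psp_mono (by linarith)) (-g) 1
    rw [R_shift] at this
    simpa using this
  rw [R_psp, R_chi_np (by linarith) zero_le_one, show psp 1 = 1 from max_eq_left zero_le_one] at h2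
  have h3 : exp 1 * exp (1 / -g) = exp (1 - 1 / g) := by rw [← exp_add]; congr 1; ring
  have h4 := add_one_le_exp (1 - 1 / g)
  have h5 : g * (1 / g) = 1 := by field_simp
  have hp := exp_pos 1
  have h6 : exp 1 * (1 + -g * (1 - exp (1 / -g))) ≤ exp 1 * T (-g ::ₘ M') psp 0 :=
    mul_le_mul_of_nonneg_left (h2.trans h) hp.le
  have h7 : g * (1 - 1 / g + 1) ≤ g * exp (1 - 1 / g) := mul_le_mul_of_nonneg_left h4 hg.le
  linarith only [h5, h6, h7, hg, h3, Mathlib.Tactic.Linarith.mul_zero_eq (Mathlib.Tactic.Linarith.sub_neg_of_lt hg) (sub_eq_zero_of_eq h3)]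

end Pool.Agent.Work.EMC
end

-- merged part: Pool.Agent.Work.MP_9079fe_co.Chain
section
/-! Chain measures and the insertion of a further two point variable. -/

namespace Pool.Agent.Work.EMC
open MeasureTheory Set Real

/-- Probability that the signed sum of exponentials with coefficients `M` is nonpositive. -/
noncomputable def kap (M : Multiset ℝ) : ℝ := T M chi 0

/-- The lower values of a list of two point variables. -/
def downs (l : List (ℝ × ℝ)) : Multiset ℝ := (l.map fun p => -p.2 : List ℝ)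

@[simp] lemma downs_nil : downs [] = 0 := rfl
@[simp] lemma downs_cons (p : ℝ × ℝ) (l : List (ℝ × ℝ)) :
    downs (p :: l) = (-p.2) ::ₘ downs l := rfl

lemma downs_insert (n : ℝ × ℝ) (l₁ l₂ : List (ℝ × ℝ)) :
    downs (l₁ ++ n :: l₂) = (-n.2) ::ₘ downs (l₁ ++ l₂) := by
  induction l₁ with
  | nil => rfl
  | cons p l ih => simp only [List.cons_append, downs_cons, ih]; exact Multiset.cons_swap _ _ _

/-- Increments of `F` along the chain, weighted by the edge values. -/
noncomputable def chAux (F : Multiset ℝ → ℝ) : Multiset ℝ → List (ℝ × ℝ) → ℝ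
  | _, [] => 0
  | U, p :: l => kap (p.1 ::ₘ (-p.2) ::ₘ (U + downs l)) *
      (F (p.1 ::ₘ (U + downs l)) - F ((-p.2) ::ₘ (U + downs l))) + chAux F (p.1 ::ₘ U) l

/-- Mean of `F` under the chain measure. -/
noncomputable def ch (F : Multiset ℝ → ℝ) (l : List (ℝ × ℝ)) : ℝ := F (downs l) + chAux F 0 l

lemma kap_res (x y : ℝ) (V : Multiset ℝ) :
    (x - y) * kap (x ::ₘ y ::ₘ V) = x * kap (x ::ₘ V) - y * kap (y ::ₘ V) := by
  unfold kap
  rw [T_cons' good_chi x (y ::ₘ V), T_cons' (good_chi.R x) y V, T_cons' good_chi, T_cons' good_chi,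
    R_comm good_chi y x]
  have h1 := congrFun (T_lin ((good_chi.R y).R x) (good_const 0) (x - y) 0 V) 0
  have h2 := congrFun (T_lin (good_chi.R x) (good_chi.R y) x (-y) V) 0
  have e : (fun w => (x - y) * R x (R y chi) w + 0 * (fun _ => (0:ℝ)) w)
      = fun w => x * R x chi w + -y * R y chi w := by
    ext w; rw [resolvent]; ring
  rw [e] at h1
  linarith only [h1, h2]

lemma kap_nonneg (M : Multiset ℝ) : 0 ≤ kap M := T_nonneg good_chi chi_nonneg M 0
lemma kap_le_one (M : Multiset ℝ) : kap M ≤ 1 := T_chi_le_one M 0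

lemma R_le_of_anti {φ : ℝ → ℝ} (h : Good φ) (ha : ∀ v w, v ≤ w → φ w ≤ φ v) {x : ℝ} (hx : 0 ≤ x)
    (v : ℝ) : R x φ v ≤ φ v := by
  have : R x φ v ≤ ∫ _, φ v ∂expE := by
    refine integral_mono_ae (h.int x v) (integrable_const _) ?_
    filter_upwards [ae_pos] with u hu using ha _ _ (by linarith only [hx, hu, mul_nonneg_of_nonpos_of_nonpos (Mathlib.Tactic.Linarith.sub_nonpos_of_le hx) (le_of_lt (Mathlib.Tactic.Linarith.sub_neg_of_lt hu))])
  simpa using this

lemma le_R_of_anti {φ : ℝ → ℝ} (h : Good φ) (ha : ∀ v w, v ≤ w → φ w ≤ φ v) {x : ℝ} (hx : x ≤ 0)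
    (v : ℝ) : φ v ≤ R x φ v := by
  have : ∫ _, φ v ∂expE ≤ R x φ v := by
    refine integral_mono_ae (integrable_const _) (h.int x v) ?_
    filter_upwards [ae_pos] with u hu using ha _ _ (by linarith only [hx, hu, mul_nonneg_of_nonpos_of_nonpos (Mathlib.Tactic.Linarith.sub_nonpos_of_le hx) (le_of_lt (Mathlib.Tactic.Linarith.sub_neg_of_lt hu))])
  simpa using this

lemma T_chi_anti (M : Multiset ℝ) : ∀ v w, v ≤ w → T M chi w ≤ T M chi v :=
  fun _ _ h => T_anti good_chi (fun _ _ => chi_anti) M h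

lemma kap_cons_le {x : ℝ} (hx : 0 ≤ x) (M : Multiset ℝ) : kap (x ::ₘ M) ≤ kap M := by
  unfold kap; rw [T_cons good_chi]; exact R_le_of_anti (good_chi.T M) (T_chi_anti M) hx 0

lemma le_kap_cons {x : ℝ} (hx : x ≤ 0) (M : Multiset ℝ) : kap M ≤ kap (x ::ₘ M) := by
  unfold kap; rw [T_cons good_chi]; exact le_R_of_anti (good_chi.T M) (T_chi_anti M) hx 0

lemma kap_of_nonpos {M : Multiset ℝ} (h : ∀ x ∈ M, x ≤ 0) : kap M = 1 := by
  induction M using Multiset.induction_on with
  | empty => simp [kap, T_zero, chi]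
  | cons x M ih =>
    apply le_antisymm (kap_le_one _)
    rw [← ih fun y hy => h y (Multiset.mem_cons_of_mem hy)]
    exact le_kap_cons (h x (Multiset.mem_cons_self _ _)) M

lemma kap_pos_cons {M : Multiset ℝ} (h : ∀ x ∈ M, 0 ≤ x) {b : ℝ} (hb : 0 < b) :
    kap (b ::ₘ M) = 0 := by
  induction M using Multiset.induction_on with
  | empty =>
    unfold kap; rw [T_cons good_chi, T_zero]; exact R_chi_pp hb le_rfl
  | cons x M ih =>
    apply le_antisymm _ (kap_nonneg _)
    rw [← ih fun y hy => h y (Multiset.mem_cons_of_mem hy), Multiset.cons_swap]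
    exact kap_cons_le (h x (Multiset.mem_cons_self _ _)) _

lemma R_pos {φ : ℝ → ℝ} (h : Good φ) (h0 : ∀ v, 0 ≤ φ v) {x v c : ℝ} (hc : 0 ≤ c)
    (hp : ∀ u, 0 < u → 0 < φ (v + x * (c + u))) : 0 < R x φ v := by
  unfold R
  rw [splitE (h.int x v) hc]
  have h1 : 0 ≤ ∫ u in Iic c, φ (v + x * u) ∂expE := integral_nonneg fun _ => h0 _
  have h2 : 0 < ∫ u, φ (v + x * (c + u)) ∂expE := by
    have hi : Integrable (fun u => φ (v + x * (c + u))) expE := by
      have := h.int x (v + x * c)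
      refine this.congr (Filter.Eventually.of_forall fun u => ?_)
      exact congrArg φ (by ring)
    rw [integral_pos_iff_support_of_nonneg (fun _ => h0 _) hi]
    have : (univ : Set ℝ) ≤ᵐ[expE] Function.support fun u => φ (v + x * (c + u)) := by
      filter_upwards [ae_pos] with u hu _ using (hp u hu).ne'
    have h3 := measure_mono_ae this
    rw [measure_univ] at h3
    exact lt_of_lt_of_le one_pos h3
  have := mul_pos (exp_pos (-c)) h2
  linarith

lemma T_pos {φ : ℝ → ℝ} (h : Good φ) (hp : ∀ v, 0 < φ v) (M : Multiset ℝ) : ∀ v, 0 < T M φ v := by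
  induction M using Multiset.induction_on with
  | empty => simpa [T_zero] using hp
  | cons x M ih =>
    intro v
    rw [T_cons h]
    exact R_pos (h.T M) (fun v => (ih v).le) le_rfl fun u _ => ih _

/-- Drop of the edge value when `b E` is added. -/
noncomputable def fa (b : ℝ) (v : ℝ) : ℝ := 1 * chi v + (-1) * R b chi v
/-- Rise of the edge value when `g E` is subtracted. -/
noncomputable def fb (g : ℝ) (v : ℝ) : ℝ := 1 * R (-g) chi v + (-1) * chi v

lemma good_fa (b : ℝ) : Good (fa b) := (good_chi.smul 1).add ((good_chi.R b).smul (-1))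
lemma good_fb (g : ℝ) : Good (fb g) := ((good_chi.R (-g)).smul 1).add (good_chi.smul (-1))

lemma T_fa (b : ℝ) (L : Multiset ℝ) : T L (fa b) 0 = kap L - kap (b ::ₘ L) := by
  unfold kap
  rw [T_cons' good_chi]
  have := congrFun (T_lin good_chi (good_chi.R b) 1 (-1) L) 0
  unfold fa; linarith only [this]

lemma T_fb (g : ℝ) (L : Multiset ℝ) : T L (fb g) 0 = kap ((-g) ::ₘ L) - kap L := by
  unfold kap
  rw [T_cons' good_chi]
  have := congrFun (T_lin (good_chi.R (-g)) good_chi 1 (-1) L) 0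
  unfold fb; linarith only [this]

lemma TP_fab {b g : ℝ} (hb : 0 < b) (hg : 0 < g) : TP (fa b) (fb g) := by
  intro v v' hv
  have a0 : ∀ w, 0 ≤ fa b w := fun w => by
    have := R_le_of_anti good_chi (fun _ _ => chi_anti) hb.le w
    unfold fa; linarith
  have b0 : ∀ w, 0 ≤ fb g w := fun w => by
    have := le_R_of_anti good_chi (fun _ _ => chi_anti) (x := -g) (by linarith) w
    unfold fb; linarith
  have : fa b v' * fb g v = 0 := by
    rcases le_or_gt v 0 with h | h
    · have : fb g v = 0 := by unfold fb; rw [R_chi_nn (by linarith) h, chi_of_nonpos h]; ring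
      rw [this, mul_zero]
    · have : fa b v' = 0 := by
        unfold fa; rw [R_chi_pp hb (by linarith), chi_of_pos (by linarith)]; ring
      rw [this, zero_mul]
  rw [this]
  exact mul_nonneg (a0 _) (b0 _)

lemma fa_pos {b γ : ℝ} (hb : 0 < b) (hγ : 0 < γ) (V : Multiset ℝ) :
    0 < T ((-γ) ::ₘ V) (fa b) 0 := by
  rw [T_cons' (good_fa b)]
  apply T_pos ((good_fa b).R _)
  intro v
  have a0 : ∀ w, 0 ≤ fa b w := fun w => by
    have := R_le_of_anti good_chi (fun _ _ => chi_anti) hb.le w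
    unfold fa; linarith
  refine R_pos (good_fa b) a0 (c := |v| / γ) (by positivity) fun u hu => ?_
  have h1 : γ * (|v| / γ) = |v| := by field_simp
  have h2 : v + -γ * (|v| / γ + u) ≤ 0 := by linarith only [h1, hγ, hu, le_abs_self v, mul_pos_of_neg_of_neg (Mathlib.Tactic.Linarith.sub_neg_of_lt hγ) (Mathlib.Tactic.Linarith.sub_neg_of_lt hu)]
  unfold fa
  rw [R_chi_pn hb h2, chi_of_nonpos h2]
  linarith only [exp_pos ((v + -γ * (|v| / γ + u)) / b)]

/-- Weight of the chains in which the new variable comes after the given edge. -/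
noncomputable def theta (b g : ℝ) (L : Multiset ℝ) : ℝ :=
  T L (fa b) 0 / (T L (fa b) 0 + T L (fb g) 0)

lemma T_fa_nonneg {b : ℝ} (hb : 0 ≤ b) (L : Multiset ℝ) : 0 ≤ T L (fa b) 0 := by
  rw [T_fa]; linarith [kap_cons_le hb L]

lemma T_fb_nonneg {g : ℝ} (hg : 0 ≤ g) (L : Multiset ℝ) : 0 ≤ T L (fb g) 0 := by
  rw [T_fb]; linarith [le_kap_cons (x := -g) (by linarith) L]

lemma theta_nonneg {b g : ℝ} (hb : 0 ≤ b) (hg : 0 ≤ g) (L : Multiset ℝ) : 0 ≤ theta b g L :=
  div_nonneg (T_fa_nonneg hb L) (add_nonneg (T_fa_nonneg hb L) (T_fb_nonneg hg L))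

lemma theta_le_one {b g : ℝ} (hb : 0 ≤ b) (hg : 0 ≤ g) (L : Multiset ℝ) : theta b g L ≤ 1 :=
  div_le_one_of_le₀ (by linarith [T_fb_nonneg hg L])
    (add_nonneg (T_fa_nonneg hb L) (T_fb_nonneg hg L))

lemma theta_spec {b g : ℝ} (hb : 0 ≤ b) (hg : 0 ≤ g) (L : Multiset ℝ) :
    theta b g L * (kap ((-g) ::ₘ L) - kap (b ::ₘ L)) = kap L - kap (b ::ₘ L) := by
  have e : kap ((-g) ::ₘ L) - kap (b ::ₘ L) = T L (fa b) 0 + T L (fb g) 0 := by
    rw [T_fa, T_fb]; ring
  rw [e, ← T_fa]
  unfold theta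
  by_cases h : T L (fa b) 0 + T L (fb g) 0 = 0
  · rw [h, mul_zero]; linarith only [h, hg, hb, T_fa_nonneg hb L, T_fb_nonneg hg L]
  · field_simp

lemma theta_anti {b g β γ γ' : ℝ} (hb : 0 ≤ b) (hg : 0 < g) (hβ : 0 ≤ β) (hγ : 0 < γ)
    (hγ' : 0 < γ') (W : Multiset ℝ) :
    theta b g (β ::ₘ (-γ') ::ₘ W) ≤ theta b g ((-γ) ::ₘ (-γ') ::ₘ W) := by
  rcases hb.eq_or_lt with hb0 | hb0
  · subst hb0
    have : T (β ::ₘ (-γ') ::ₘ W) (fa 0) 0 = 0 := by
      rw [T_fa]; unfold kap; rw [T_cons good_chi 0, R_zero]; ring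
    unfold theta
    rw [this, zero_div]
    exact theta_nonneg le_rfl hg.le _
  set V := (-γ') ::ₘ W with hV
  have p1 : 0 < T (β ::ₘ V) (fa b) 0 := by rw [hV, Multiset.cons_swap]; exact fa_pos hb0 hγ' _
  have p2 : 0 < T ((-γ) ::ₘ V) (fa b) 0 := fa_pos hb0 hγ _
  have q1 := T_fb_nonneg hg.le (β ::ₘ V)
  have q2 := T_fb_nonneg hg.le ((-γ) ::ₘ V)
  have key : T (β ::ₘ V) (fa b) 0 * T ((-γ) ::ₘ V) (fb g) 0 ≤
      T ((-γ) ::ₘ V) (fa b) 0 * T (β ::ₘ V) (fb g) 0 := by
    rw [T_cons (good_fa b) β V, T_cons (good_fa b) (-γ) V, T_cons (good_fb g) β V,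
      T_cons (good_fb g) (-γ) V]
    have tp := (TP_fab hb0 hg).T (good_fa b) (good_fb g) V
    refine prod_le (((good_fa b).T V).int _ _) (((good_fb g).T V).int _ _)
      (((good_fa b).T V).int _ _) (((good_fb g).T V).int _ _) ?_
    filter_upwards [ae_pos] with u hu
    filter_upwards [ae_pos] with w hw
    exact tp _ _ (by linarith only [hβ, hw, hγ, hu, mul_nonneg_of_nonpos_of_nonpos (Mathlib.Tactic.Linarith.sub_nonpos_of_le hβ) (le_of_lt (Mathlib.Tactic.Linarith.sub_neg_of_lt hw)), mul_pos_of_neg_of_neg (Mathlib.Tactic.Linarith.sub_neg_of_lt hγ) (Mathlib.Tactic.Linarith.sub_neg_of_lt hu)])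
  unfold theta
  rw [div_le_div_iff₀ (by linarith) (by linarith only [p2, q2])]
  linarith only [key]

lemma theta_J {b g : ℝ} (hb : 0 ≤ b) (hg : 0 < g) (x : ℝ) (V : Multiset ℝ) :
    (b + g) * (theta b g (x ::ₘ V) * kap (b ::ₘ (-g) ::ₘ V)
      + (1 - theta b g (x ::ₘ V)) * kap (b ::ₘ x ::ₘ V)) - g * kap (x ::ₘ V)
      = b * kap (b ::ₘ V) := by
  have h0 := theta_spec hb hg.le (x ::ₘ V)
  have h1 := kap_res b (-g) V
  have h2 := kap_res b x V
  have h3 := kap_res (-g) x V
  linear_combination (x + g) * h0 + theta b g (x ::ₘ V) * (h1 + h3 - h2) + h2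

/-- The average of `F` over a further two point variable with values `b` and `-g`. -/
noncomputable def avg2 (b g : ℝ) (F : Multiset ℝ → ℝ) (M : Multiset ℝ) : ℝ :=
  g * F (b ::ₘ M) + b * F ((-g) ::ₘ M)

/-- Weight needed at the next edge. -/
noncomputable def nextTheta (b g : ℝ) (U : Multiset ℝ) : List (ℝ × ℝ) → ℝ
  | [] => 0
  | p :: l => theta b g (p.1 ::ₘ (-p.2) ::ₘ (U + downs l))

lemma ins_aux (F : Multiset ℝ → ℝ) {b g : ℝ} (hb : 0 ≤ b) (hg : 0 < g) (l : List (ℝ × ℝ)) :
    ∀ (U : Multiset ℝ) (θ B : ℝ), (∀ x ∈ U, 0 ≤ x) → (∀ p ∈ l, 0 ≤ p.1 ∧ 0 < p.2) →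
      nextTheta b g U l ≤ θ →
      (∀ l₁ l₂, l = l₁ ++ l₂ → chAux F U (l₁ ++ (b, g) :: l₂) ≤ B) →
      chAux (avg2 b g F) U l
        + ((b + g) * θ * kap (b ::ₘ (-g) ::ₘ (U + downs l)) - b * kap (b ::ₘ (U + downs l)))
          * (F (b ::ₘ (U + downs l)) - F ((-g) ::ₘ (U + downs l)))
        - (b + g) * (1 - θ) * chAux F (b ::ₘ U) l ≤ (b + g) * θ * B := by
  have hbg : 0 < b + g := by linarith
  induction l with
  | nil =>
    intro U θ B hU _ hθ hB
    have h1 := hB [] [] rfl
    simp only [List.nil_append, chAux, downs_nil, add_zero, nextTheta] at h1 hθ ⊢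
    have h2 : b * kap (b ::ₘ U) = 0 := by
      rcases hb.eq_or_lt with h | h
      · rw [← h, zero_mul]
      · rw [kap_pos_cons hU h, mul_zero]
    rw [h2]
    have := mul_le_mul_of_nonneg_left h1 (mul_nonneg hbg.le hθ)
    linarith only [this]
  | cons p l ih =>
    intro U θ B hU hl hθ hB
    obtain ⟨β, γ⟩ := p
    have hp := hl (β, γ) List.mem_cons_self
    simp only at hp
    set W := U + downs l with hW
    set θ' := theta b g (β ::ₘ (-γ) ::ₘ W) with hθ'
    have hθθ : θ' ≤ θ := hθ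
    have eS : U + downs ((β, γ) :: l) = (-γ) ::ₘ W := by
      rw [downs_cons, hW, Multiset.add_cons]
    have eS' : β ::ₘ U + downs l = β ::ₘ W := by rw [hW, Multiset.cons_add]
    have eb : b ::ₘ U + downs l = b ::ₘ W := by rw [hW, Multiset.cons_add]
    have h1 := hB [] ((β, γ) :: l) rfl
    have ih' := ih (β ::ₘ U) θ'
      (B - kap ((-g) ::ₘ β ::ₘ (-γ) ::ₘ W) * (F ((-g) ::ₘ β ::ₘ W) - F ((-g) ::ₘ (-γ) ::ₘ W)))
      (by
        intro x hx
        rcases Multiset.mem_cons.mp hx with h | h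
        · rw [h]; exact hp.1
        · exact hU x h)
      (fun q hq => hl q (List.mem_cons_of_mem _ hq))
      (by
        cases l with
        | nil => exact theta_nonneg hb hg.le _
        | cons q l =>
          have hq := hl q (List.mem_cons_of_mem _ List.mem_cons_self)
          simp only [nextTheta]
          have := theta_anti hb hg hq.1 hp.2 hq.2 (β ::ₘ U + downs l)
          refine this.trans (le_of_eq ?_)
          rw [hθ', hW, downs_cons, Multiset.add_cons, Multiset.cons_add]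
          congr 1
          rw [Multiset.cons_swap (-q.2) β, Multiset.cons_swap (-γ) β])
      (by
        intro l₁ l₂ hl12
        have h2 := hB ((β, γ) :: l₁) l₂ (by rw [hl12]; rfl)
        simp only [List.cons_append, chAux, downs_insert, ← hl12, Multiset.add_cons, ← hW] at h2
        rw [Multiset.cons_swap (-γ) (-g), Multiset.cons_swap β (-g),
          Multiset.cons_swap β (-g)] at h2
        linarith)
    rw [eS'] at ih'
    simp only [List.nil_append, chAux, eS, eb] at h1
    simp only [chAux, eS, eb, ← hW, avg2]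
    rw [Multiset.cons_swap (-γ) b, Multiset.cons_swap β b, Multiset.cons_swap β b,
      Multiset.cons_swap β b] at h1 ⊢
    have j1 := theta_J hb hg β ((-γ) ::ₘ W)
    have j2 := theta_J hb hg (-γ) (β ::ₘ W)
    rw [Multiset.cons_swap (-γ) β] at j2
    have j0 := theta_spec hb hg.le (β ::ₘ (-γ) ::ₘ W)
    rw [← hθ'] at j0 j1 j2
    have h3 := mul_le_mul_of_nonneg_left h1 (mul_nonneg hbg.le (sub_nonneg.mpr hθθ))
    set Fu0 := F (b ::ₘ (-γ) ::ₘ W)
    set Fd0 := F ((-g) ::ₘ (-γ) ::ₘ W)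
    set Fu1 := F (b ::ₘ β ::ₘ W)
    set Fd1 := F ((-g) ::ₘ β ::ₘ W)
    have key : kap (β ::ₘ (-γ) ::ₘ W) * (g * Fu1 + b * Fd1 - (g * Fu0 + b * Fd0))
        + ((b + g) * θ' * kap (b ::ₘ (-g) ::ₘ (-γ) ::ₘ W) - b * kap (b ::ₘ (-γ) ::ₘ W)) * (Fu0 - Fd0)
        - (b + g) * (1 - θ') * (kap (b ::ₘ β ::ₘ (-γ) ::ₘ W) * (Fu1 - Fu0))
        = ((b + g) * θ' * kap (b ::ₘ (-g) ::ₘ β ::ₘ W) - b * kap (b ::ₘ β ::ₘ W)) * (Fu1 - Fd1)
          + (b + g) * θ' * (kap ((-g) ::ₘ β ::ₘ (-γ) ::ₘ W) * (Fd1 - Fd0)) := by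
      linear_combination (Fu0 - Fd0) * j1 - (Fu1 - Fd1) * j2 - (b + g) * (Fd1 - Fd0) * j0
    linarith only [h3, ih', key]

/-- Insertion principle. -/
lemma ins (F : Multiset ℝ → ℝ) {b g : ℝ} (hb : 0 ≤ b) (hg : 0 < g) (l : List (ℝ × ℝ))
    (hl : ∀ p ∈ l, 0 ≤ p.1 ∧ 0 < p.2)
    (hB : ∀ l₁ l₂, l = l₁ ++ l₂ → ch F (l₁ ++ (b, g) :: l₂) ≤ 0) : ch (avg2 b g F) l ≤ 0 := by
  have h := ins_aux F hb hg l 0 1 (-F ((-g) ::ₘ downs l)) (by simp) hl
    (by cases l with
      | nil => exact zero_le_one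
      | cons p l => exact theta_le_one hb hg.le _)
    (by
      intro l₁ l₂ h12
      have := hB l₁ l₂ h12
      unfold ch at this
      rw [downs_insert, ← h12] at this
      linarith)
  have hd : ∀ x ∈ downs l, x ≤ 0 := by
    intro x hx
    simp only [downs, Multiset.mem_coe, List.mem_map] at hx
    obtain ⟨p, hp, rfl⟩ := hx
    linarith [(hl p hp).2]
  have h1 := kap_res b (-g) (downs l)
  rw [kap_of_nonpos (M := (-g) ::ₘ downs l) (by
    intro x hx
    rcases Multiset.mem_cons.mp hx with h | h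
    · rw [h]; linarith
    · exact hd x h)] at h1
  simp only [zero_add] at h
  unfold ch avg2
  unfold avg2 at h
  have e : (b + g) * 1 * kap (b ::ₘ (-g) ::ₘ downs l) - b * kap (b ::ₘ downs l) = g := by linarith
  rw [e] at h
  linarith

end Pool.Agent.Work.EMC
end

-- merged part: Pool.Agent.Work.MP_9079fe_co.ChainBound
section
/-! The inequality on a single chain. -/

namespace Pool.Agent.Work.EMC
open MeasureTheory Set Real

/-- Indicator of `u ≤ s`. -/
noncomputable def ind (u s : ℝ) : ℝ := if u ≤ s then 1 else 0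

/-- The test function: number of entries whose removal leaves a sum at least one, minus `e k` times
the indicator of a negative sum. -/
noncomputable def testG (k : ℕ) (M : Multiset ℝ) : ℝ :=
  (M.map fun x => ind (1 + x) M.sum).sum - exp 1 * k * (1 - ind 0 M.sum)

lemma ind_nonneg (u s : ℝ) : 0 ≤ ind u s := by unfold ind; split_ifs <;> norm_num
lemma ind_of_le {u s : ℝ} (h : u ≤ s) : ind u s = 1 := by simp [ind, h]
lemma ind_of_lt {u s : ℝ} (h : s < u) : ind u s = 0 := by simp [ind, h]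
lemma ind_anti {u u' : ℝ} (h : u ≤ u') (s : ℝ) : ind u' s ≤ ind u s := by
  rcases le_or_gt u' s with h1 | h1
  · rw [ind_of_le h1, ind_of_le (h.trans h1)]
  · rw [ind_of_lt h1]; exact ind_nonneg _ _

lemma e_bounds : 2 < exp 1 ∧ exp 1 < 3 :=
  ⟨by linarith only [exp_one_gt_d9], by linarith [exp_one_lt_d9]⟩

lemma realA {Q m x P a : ℝ} (ha : exp 1 * a = exp 1 - 1) (hQ : 0 ≤ Q) (hD : exp 1 * Q < 1)
    (hm : m ≤ (1 + exp 1 * m) * Q) (hx : |x| ≤ exp 1 * m) (hP : P ≤ a) (hP' : P * (1 + x) ≤ m) :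
    P ≤ exp 1 * Q - a * x * (1 - exp 1 * Q) := by
  obtain ⟨e2, e3⟩ := e_bounds
  set e := exp 1
  have ha0 : 0 < a := by (refine lt_of_not_ge fun h_nl => ?_; linarith only [h_nl, ha, e3, e2, mul_pos_of_neg_of_neg (Mathlib.Tactic.Linarith.sub_neg_of_lt e2) (Mathlib.Tactic.Linarith.sub_neg_of_lt e2), mul_pos_of_neg_of_neg (Mathlib.Tactic.Linarith.sub_neg_of_lt e2) (Mathlib.Tactic.Linarith.sub_neg_of_lt e3), mul_nonneg_of_nonpos_of_nonpos (le_of_lt (Mathlib.Tactic.Linarith.sub_neg_of_lt e2)) (Mathlib.Tactic.Linarith.sub_nonpos_of_le h_nl)])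
  set D := 1 - e * Q with hDd
  have hDp : 0 < D := by linarith
  set μ := Q / D with hμ
  have hμD : μ * D = Q := by rw [hμ]; field_simp
  have hmμ : m ≤ μ := by rw [hμ, le_div_iff₀ hDp]; linarith only [hm]
  have hμ0 : 0 ≤ μ := div_nonneg hQ hDp.le
  have hx1 : x ≤ e * μ := (le_abs_self x).trans (hx.trans (by (refine le_of_not_gt fun h_nl => ?_; linarith only [h_nl, hm, hμD, hD, e2, mul_pos_of_neg_of_neg (Mathlib.Tactic.Linarith.sub_neg_of_lt hD) (Mathlib.Tactic.Linarith.sub_neg_of_lt h_nl), mul_nonneg_of_nonpos_of_nonpos (Mathlib.Tactic.Linarith.sub_nonpos_of_le hm) (le_of_lt (Mathlib.Tactic.Linarith.sub_neg_of_lt e2)), Mathlib.Tactic.Linarith.mul_zero_eq (Mathlib.Tactic.Linarith.sub_neg_of_lt e2) (sub_eq_zero_of_eq hμD)])))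
  have e1 : e * Q - a * x * D = (e * μ - a * x) * D := by rw [← hμD]; ring
  rw [e1]
  rcases le_or_gt (a * (1 + x)) μ with h | h
  · have h1 : (e * μ + a - μ) * D ≤ (e * μ - a * x) * D :=
      mul_le_mul_of_nonneg_right (by linarith) hDp.le
    have h2 : (e * μ + a - μ) * D = a := by
      have : (e * μ + a - μ) * D = (e - 1) * (μ * D) + a * D := by ring
      rw [this, hμD, hDd]; linear_combination (-Q) * ha
    linarith only [hP, h1, h2]
  · have hx0 : 0 < 1 + x := by
      by_contra hc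
      push Not at hc
      linarith only [hP', hmμ, h, hP, hc, mul_nonneg_of_nonpos_of_nonpos (Mathlib.Tactic.Linarith.sub_nonpos_of_le hP) (Mathlib.Tactic.Linarith.sub_nonpos_of_le hc)]
    have h1 : (1 + x) * ((e * μ - a * x) * D) - μ = (e * μ - x) * (a * (1 + x) - μ) * D := by
      have h3 : (1 + e * μ) * D = 1 := by rw [add_mul, mul_assoc, hμD, hDd]; ring
      linear_combination μ * h3 - (μ * (1 + x) * D) * ha
    have h2 : 0 ≤ (e * μ - x) * (a * (1 + x) - μ) * D :=
      mul_nonneg (mul_nonneg (by linarith only [hx1]) (by linarith)) hDp.le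
    have : (1 + x) * P ≤ (1 + x) * ((e * μ - a * x) * D) := by linarith only [hP', hmμ, h1, h2]
    exact le_of_mul_le_mul_left this hx0

lemma realB {Q M g a : ℝ} (ha : exp 1 * a = exp 1 - 1) (hD : exp 1 * Q < 1)
    (hg1 : g ≤ 1) (hg0 : 0 ≤ g) (hM : 1 + (exp 1 - 2) * (1 - g) ≤ exp 1 * M)
    (hQ : M ≤ (g + exp 1 * M) * Q) :
    1 - Q ≤ exp 1 * Q - a * (-g) * (1 - exp 1 * Q) := by
  obtain ⟨e2, e3⟩ := e_bounds
  set e := exp 1
  set u := 1 - g with hu
  have hu0 : 0 ≤ u := by linarith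
  have hu1 : u ≤ 1 := by linarith
  have h1 : (1 + (e - 2) * u) * (1 - e * Q) ≤ e * M * (1 - e * Q) :=
    mul_le_mul_of_nonneg_right hM (by linarith)
  have h2 : e * (M * (1 - e * Q)) ≤ e * (g * Q) :=
    mul_le_mul_of_nonneg_left (by linarith) (by linarith)
  have h3 : 1 + (e - 2) * u ≤ e * Q * (2 + (e - 3) * u) := by
    have : g = 1 - u := by linarith
    rw [this] at h2
    linarith only [h1, h2]
  have hp : 0 < 2 + (e - 3) * u := by linarith only [hg0, e2, e3, hg1, mul_nonneg_of_nonpos_of_nonpos (Mathlib.Tactic.Linarith.sub_nonpos_of_le hg1) (le_of_lt (Mathlib.Tactic.Linarith.sub_neg_of_lt e2))]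
  have hp' : 0 ≤ 2 + (e - 1) * u := by linarith only [hg1, hp]
  have h4 := mul_le_mul_of_nonneg_right h3 hp'
  have h5 : (2 + (e - 3) * u) * (1 + (e - 1) * u) ≤
      (2 + (e - 3) * u) * (e * Q * (2 + (e - 1) * u)) := by
    linarith only [h4, hu0, e2, e3, mul_nonneg (mul_nonneg hu0 hu0) (show 0 ≤ e - 1 by linarith)]
  have h6 := le_of_mul_le_mul_left h5 hp
  have h7 : e * (1 - Q) ≤ e * (e * Q - a * (-g) * (1 - e * Q)) := by
    have : g = 1 - u := by linarith only []
    rw [this]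
    have h8 : e * (e * Q - a * (-(1 - u)) * (1 - e * Q))
        = e * e * Q + (e - 1) * (1 - u) * (1 - e * Q) := by
      linear_combination (1 - u) * (1 - e * Q) * ha
    rw [h8]
    linarith only [h6]
  exact le_of_mul_le_mul_left h7 (by linarith only [e2, e3])

lemma chAux_thr (u : ℝ) (l : List (ℝ × ℝ)) : ∀ U : Multiset ℝ, (∀ p ∈ l, 0 ≤ p.1 ∧ 0 < p.2) →
    (u ≤ (U + downs l).sum → chAux (fun M => ind u M.sum) U l = 0) ∧
    ((U + downs l).sum < u → chAux (fun M => ind u M.sum) U l ≤ kap (U + downs l) ∧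
      chAux (fun M => ind u M.sum) U l * (u - (U + downs l).sum) ≤ T (U + downs l) ngp 0) := by
  induction l with
  | nil =>
    intro U _
    simp only [chAux, zero_mul, implies_true, true_and]
    exact fun _ => ⟨kap_nonneg _, T_nonneg good_ngp ngp_nonneg _ _⟩
  | cons p l ih =>
    intro U hl
    obtain ⟨β, γ⟩ := p
    have hp := hl (β, γ) List.mem_cons_self
    simp only at hp
    have ih' := ih (β ::ₘ U) fun q hq => hl q (List.mem_cons_of_mem _ hq)
    set W := U + downs l with hW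
    have eS : U + downs ((β, γ) :: l) = (-γ) ::ₘ W := by
      rw [downs_cons, hW, Multiset.add_cons]
    have eS' : β ::ₘ U + downs l = β ::ₘ W := by rw [hW, Multiset.cons_add]
    rw [eS'] at ih'
    simp only [chAux, eS, ← hW, Multiset.sum_cons] at ih' ⊢
    have k1 : kap (β ::ₘ (-γ) ::ₘ W) ≤ kap ((-γ) ::ₘ W) := kap_cons_le hp.1 _
    have k2 : kap (β ::ₘ W) ≤ kap (β ::ₘ (-γ) ::ₘ W) := by
      rw [Multiset.cons_swap]; exact le_kap_cons (by linarith) _
    have k0 := kap_nonneg (β ::ₘ (-γ) ::ₘ W)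
    have n1 : T ((-γ) ::ₘ W) ngp 0 = T (β ::ₘ W) ngp 0 + (β + γ) * kap (β ::ₘ (-γ) ::ₘ W) := by
      have := kap_res β (-γ) W
      rw [T_cons_ngp, T_cons_ngp]
      unfold kap at this ⊢
      linarith only [this]
    have n0 := T_nonneg good_ngp ngp_nonneg (β ::ₘ W) 0
    constructor
    · intro h
      rw [ih'.1 (by linarith), ind_of_le h, ind_of_le (by linarith)]; ring
    · intro h
      rw [ind_of_lt h]
      rcases le_or_gt u (β + W.sum) with h1 | h1
      · rw [ih'.1 h1, ind_of_le h1]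
        constructor
        · linarith
        · linarith only [n1, n0, k0, h1, mul_nonneg_of_nonpos_of_nonpos (Mathlib.Tactic.Linarith.sub_nonpos_of_le k0) (Mathlib.Tactic.Linarith.sub_nonpos_of_le h1)]
      · obtain ⟨a1, a2⟩ := ih'.2 h1
        rw [ind_of_lt h1]
        constructor
        · linarith
        · linarith only [n1, a2, hp, k2, a1, mul_nonneg_of_nonpos_of_nonpos (Mathlib.Tactic.Linarith.sub_nonpos_of_le hp.left) (Mathlib.Tactic.Linarith.sub_nonpos_of_le k2), mul_nonneg_of_nonpos_of_nonpos (Mathlib.Tactic.Linarith.sub_nonpos_of_le hp.left) (Mathlib.Tactic.Linarith.sub_nonpos_of_le a1), mul_nonneg_of_nonpos_of_nonpos (le_of_lt (Mathlib.Tactic.Linarith.sub_neg_of_lt hp.right)) (Mathlib.Tactic.Linarith.sub_nonpos_of_le k2), mul_nonneg_of_nonpos_of_nonpos (le_of_lt (Mathlib.Tactic.Linarith.sub_neg_of_lt hp.right)) (Mathlib.Tactic.Linarith.sub_nonpos_of_le a1)]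

lemma chAux_sum (V : Multiset ℝ) (F : ℝ → Multiset ℝ → ℝ) (l : List (ℝ × ℝ)) :
    ∀ U : Multiset ℝ, chAux (fun M => (V.map fun x => F x M).sum) U l
      = (V.map fun x => chAux (F x) U l).sum := by
  induction l with
  | nil => intro U; simp [chAux]
  | cons p l ih =>
    intro U
    simp only [chAux, ih, Multiset.sum_map_add, Multiset.sum_map_mul_left, Multiset.sum_map_sub]

lemma chAux_mono (V : Multiset ℝ) (F F' : Multiset ℝ → ℝ)
    (h : ∀ M, Multiset.Rel (· ≤ ·) V M → F M ≤ F' M) (l : List (ℝ × ℝ)) :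
    ∀ (U : Multiset ℝ) (K : ℝ), (∀ p ∈ l, 0 ≤ p.1 ∧ 0 < p.2) → kap (U + downs l) ≤ K →
      Multiset.Rel (· ≤ ·) V (U + downs l) →
      K * F (U + downs l) + chAux F U l ≤ K * F' (U + downs l) + chAux F' U l := by
  induction l with
  | nil =>
    intro U K _ hK hr
    simp only [chAux, add_zero]
    exact mul_le_mul_of_nonneg_left (h _ hr) ((kap_nonneg _).trans hK)
  | cons p l ih =>
    intro U K hl hK hr
    obtain ⟨β, γ⟩ := p
    have hp := hl (β, γ) List.mem_cons_self
    simp only at hp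
    have ih' := ih (β ::ₘ U) (kap (β ::ₘ (-γ) ::ₘ (U + downs l)))
      fun q hq => hl q (List.mem_cons_of_mem _ hq)
    set W := U + downs l with hW
    have eS : U + downs ((β, γ) :: l) = (-γ) ::ₘ W := by
      rw [downs_cons, hW, Multiset.add_cons]
    have eS' : β ::ₘ U + downs l = β ::ₘ W := by rw [hW, Multiset.cons_add]
    rw [eS'] at ih'
    rw [eS] at hK hr
    simp only [chAux, eS, ← hW]
    have k1 : kap (β ::ₘ (-γ) ::ₘ W) ≤ kap ((-γ) ::ₘ W) := kap_cons_le hp.1 _
    have k2 : kap (β ::ₘ W) ≤ kap (β ::ₘ (-γ) ::ₘ W) := by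
      rw [Multiset.cons_swap]; exact le_kap_cons (by linarith only [hp]) _
    have hr' : Multiset.Rel (· ≤ ·) V (β ::ₘ W) :=
      Multiset.Rel.trans _ hr (Multiset.Rel.cons (by linarith)
        (Multiset.rel_refl_of_refl_on fun _ _ => le_rfl))
    have h1 := ih' k2 hr'
    have h2 := mul_le_mul_of_nonneg_left (h _ hr) (show 0 ≤ K - kap (β ::ₘ (-γ) ::ₘ W) by linarith)
    linarith

lemma rel_sum_le {V M : Multiset ℝ} (h : Multiset.Rel (· ≤ ·) V M) (f : ℝ → ℝ)
    (hf : ∀ x y, x ≤ y → f x ≤ f y) : (V.map f).sum ≤ (M.map f).sum := by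
  induction h with
  | zero => simp
  | cons hab _ ih => simp only [Multiset.map_cons, Multiset.sum_cons]; linarith [hf _ _ hab]

/-- The bound at the edge where the sum becomes nonnegative. -/
lemma cross_bound {γ : ℝ} (hγ : 0 < γ) (hγ1 : γ ≤ 1) (U : Multiset ℝ) (l : List (ℝ × ℝ))
    (hl : ∀ p ∈ l, 0 ≤ p.1 ∧ 0 < p.2) (hlow : ∀ x ∈ U + downs l, -1 ≤ x)
    (hz : 0 ≤ (U + downs l).sum) :
    ((U + downs l).map fun x => kap ((-γ) ::ₘ (U + downs l)) * ind (1 + x) (U + downs l).sum
        + chAux (fun M => ind (1 + x) M.sum) U l).sum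
      ≤ exp 1 * (U + downs l).card * (1 - kap ((-γ) ::ₘ (U + downs l))) := by
  obtain ⟨e2, e3⟩ := e_bounds
  have thr := fun x => chAux_thr (1 + x) l U hl
  set V := U + downs l with hV
  set K := kap ((-γ) ::ₘ V) with hK
  set Q := 1 - K with hQ
  set z := V.sum with hzd
  have hQ0 : 0 ≤ Q := by linarith [kap_le_one ((-γ) ::ₘ V)]
  have hπK : kap V ≤ K := le_kap_cons (by linarith) V
  rcases le_or_gt 1 ((1 + exp 1) * Q) with hc | hc
  · have : ∀ x ∈ V, K * ind (1 + x) z + chAux (fun M => ind (1 + x) M.sum) U l ≤ exp 1 * Q := by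
      intro x _
      rcases le_or_gt (1 + x) z with h | h
      · rw [(thr x).1 h, ind_of_le h]; linarith
      · rw [ind_of_lt h]; linarith [((thr x).2 h).1]
    have h2 := Multiset.sum_map_le_sum_map _ _ this
    simp only [Multiset.map_const', Multiset.sum_replicate, nsmul_eq_mul] at h2
    linarith
  have hD : exp 1 * Q < 1 := by linarith
  set a := 1 - exp (-1) with had
  have hee : exp 1 * exp (-1) = 1 := by rw [← exp_add]; simp
  have ha : exp 1 * a = exp 1 - 1 := by rw [had]; linarith only [hee]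
  have ha0 : 0 ≤ a := by (refine le_of_not_gt fun h_nl => ?_; linarith only [h_nl, e2, hee, mul_pos_of_neg_of_neg (Mathlib.Tactic.Linarith.sub_neg_of_lt e2) (Mathlib.Tactic.Linarith.sub_neg_of_lt h_nl)])
  set m := T V psp (-z) with hm
  have hm0 : 0 ≤ m := T_nonneg good_psp psp_nonneg _ _
  have hmQ : m ≤ (1 + exp 1 * m) * Q := by
    have h1 := gruen V (-z) hγ
    have h2 : K ≤ T ((-γ) ::ₘ V) chi (-z) := T_chi_anti _ _ _ (by linarith)
    have h3 := T_chi_le_one ((-γ) ::ₘ V) (-z)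
    rw [← hm, ← hzd] at h1
    calc m ≤ _ := h1
      _ ≤ (1 + exp 1 * m) * Q :=
        mul_le_mul (by linarith) (by linarith) (by linarith) (by positivity)
  have hπ : 0 < m → kap V ≤ a := by
    intro hmp
    have h2 : kap V ≤ T V chi (-z) := T_chi_anti _ _ _ (by linarith)
    have key : ∀ η : ℝ, 0 < η → m ≤ exp 1 * m * (1 - kap V) + η := by
      intro η hη
      have h1 := gruen V (-z) hη
      rw [← hm, ← hzd] at h1
      have h3 : T V chi (-z) ≤ T ((-η) ::ₘ V) chi (-z) := by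
        rw [T_cons good_chi]
        exact le_R_of_anti (good_chi.T V) (T_chi_anti V) (by linarith) _
      have h4 := T_chi_le_one ((-η) ::ₘ V) (-z)
      have h5 : m ≤ (η + exp 1 * m) * (1 - kap V) :=
        h1.trans (mul_le_mul (by linarith) (by linarith) (by linarith) (by positivity))
      (refine le_of_not_gt fun h_nl => ?_; linarith only [h_nl, h5, e2, e3, hη, kap_nonneg V, mul_pos_of_neg_of_neg (Mathlib.Tactic.Linarith.sub_neg_of_lt e2) (Mathlib.Tactic.Linarith.sub_neg_of_lt h_nl), mul_pos_of_neg_of_neg (Mathlib.Tactic.Linarith.sub_neg_of_lt e3) (Mathlib.Tactic.Linarith.sub_neg_of_lt h_nl), mul_nonneg_of_nonpos_of_nonpos (le_of_lt (Mathlib.Tactic.Linarith.sub_neg_of_lt hη)) (Mathlib.Tactic.Linarith.sub_nonpos_of_le (kap_nonneg V))])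
    have h6 := le_of_forall_pos_le_add key
    have h7 : m * 1 ≤ m * (exp 1 * (1 - kap V)) := by linarith
    have h8 := le_of_mul_le_mul_left h7 hmp
    have h9 : exp 1 * kap V ≤ exp 1 * a := by linarith only [hee, h8]
    exact le_of_mul_le_mul_left h9 (exp_pos 1)
  have hN : T V ngp 0 ≤ m - z * kap V := by
    have h1 := T_mono good_ngp (((good_ngp.shift (-z)).smul 1).add (good_chi.smul (-z)))
      (fun w => by
        rcases le_or_gt w 0 with h | h
        · rw [chi_of_nonpos h, ngp_of_nonpos h, ngp_of_nonpos (by linarith)]; linarith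
        · rw [chi_of_pos h, ngp_of_nonneg h.le]; linarith [ngp_nonneg (w + -z)]) V 0
    rw [T_lin (good_ngp.shift (-z)) good_chi, T_shift good_ngp] at h1
    have h2 := T_psp V (-z)
    simp only [zero_add] at h1
    unfold kap
    linarith
  have per : ∀ x ∈ V, K * ind (1 + x) z + chAux (fun M => ind (1 + x) M.sum) U l
      ≤ exp 1 * Q - (a * (1 - exp 1 * Q)) * x := by
    intro x hx
    have hxm : |x| ≤ exp 1 * m := abs_le_spread hx
    rcases le_or_gt (1 + x) z with h | h
    · rw [(thr x).1 h, ind_of_le h]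
      have h1 := gruen V 0 hγ
      have hM0 : z ≤ T V psp 0 := by
        have := (le_psp _).trans (T_psp_ge V 0)
        linarith
      rw [zero_add, ← hzd] at h1
      change _ ≤ _ * Q at h1
      rcases le_or_gt 0 x with hx0 | hx0
      · exfalso
        have h2 : T V psp 0 ≤ exp 1 * T V psp 0 * Q :=
          h1.trans (mul_le_mul_of_nonneg_right (by linarith) hQ0)
        linarith only [hγ1, hQ0, h, h1, hx0, hγ, hc, e2, e3, h2, hz, hM0, mul_pos_of_neg_of_neg (Mathlib.Tactic.Linarith.sub_neg_of_lt hγ) (Mathlib.Tactic.Linarith.sub_neg_of_lt hc), mul_nonneg_of_nonpos_of_nonpos (le_of_lt (Mathlib.Tactic.Linarith.sub_neg_of_lt e2)) (Mathlib.Tactic.Linarith.sub_nonpos_of_le h1), mul_nonneg_of_nonpos_of_nonpos (le_of_lt (Mathlib.Tactic.Linarith.sub_neg_of_lt e3)) (Mathlib.Tactic.Linarith.sub_nonpos_of_le h2), mul_nonneg_of_nonpos_of_nonpos (Mathlib.Tactic.Linarith.sub_nonpos_of_le hz) (le_of_lt (Mathlib.Tactic.Linarith.sub_neg_of_lt hc)), mul_nonneg_of_nonpos_of_nonpos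 (Mathlib.Tactic.Linarith.sub_nonpos_of_le hQ0) (Mathlib.Tactic.Linarith.sub_nonpos_of_le h), mul_nonneg_of_nonpos_of_nonpos (Mathlib.Tactic.Linarith.sub_nonpos_of_le hQ0) (Mathlib.Tactic.Linarith.sub_nonpos_of_le hM0), mul_nonneg_of_nonpos_of_nonpos (Mathlib.Tactic.Linarith.sub_nonpos_of_le hQ0) (Mathlib.Tactic.Linarith.sub_nonpos_of_le hx0), mul_nonneg_of_nonpos_of_nonpos (le_of_lt (Mathlib.Tactic.Linarith.sub_neg_of_lt hc)) (Mathlib.Tactic.Linarith.sub_nonpos_of_le hM0)]
      · have h2 := spread_same (g := -x) (M := V) (by linarith) (by simpa using hx) (by linarith)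
        have h3 := realB (Q := Q) (M := T V psp 0) ha hD (g := -x) (by linarith only [hlow, hx, hlow x hx])
          (by linarith) h2 (h1.trans (mul_le_mul_of_nonneg_right (by linarith only [hγ1, h]) hQ0))
        linarith only [h3]
    · rw [ind_of_lt h]
      obtain ⟨a1, a2⟩ := (thr x).2 h
      set P := chAux (fun M => ind (1 + x) M.sum) U l
      have b1 : P * (1 + x) ≤ m := by (refine le_of_not_gt fun h_nl => ?_; linarith only [h_nl, hN, a2, e2, e3, hz, a1, mul_pos_of_neg_of_neg (Mathlib.Tactic.Linarith.sub_neg_of_lt e2) (Mathlib.Tactic.Linarith.sub_neg_of_lt h_nl), mul_pos_of_neg_of_neg (Mathlib.Tactic.Linarith.sub_neg_of_lt e3) (Mathlib.Tactic.Linarith.sub_neg_of_lt h_nl), mul_nonneg_of_nonpos_of_nonpos (Mathlib.Tactic.Linarith.sub_nonpos_of_le hz) (Mathlib.Tactic.Linarith.sub_nonpos_of_le a1)])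
      have b2 : P ≤ a := by
        rcases hm0.eq_or_lt with h0 | h0
        · rw [← h0] at hxm b1
          have : x = 0 := by simpa using hxm
          rw [this] at b1
          linarith only [ha0, b1]
        · exact a1.trans (hπ h0)
      have := realA ha hQ0 hD hmQ hxm b2 b1
      linarith only [this]
  have h2 := Multiset.sum_map_le_sum_map _ _ per
  have h4 : (V.map fun x => a * (1 - exp 1 * Q) * x).sum = a * (1 - exp 1 * Q) * z := by
    rw [Multiset.sum_map_mul_left, Multiset.map_id']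
  rw [Multiset.sum_map_sub, h4] at h2
  simp only [Multiset.map_const', Multiset.sum_replicate, nsmul_eq_mul] at h2
  have h3 : 0 ≤ a * (1 - exp 1 * Q) * z := mul_nonneg (mul_nonneg ha0 (by linarith only [hQ0, hc])) hz
  linarith only [h2, h3]

lemma chain_aux (k : ℕ) (l : List (ℝ × ℝ)) : ∀ U : Multiset ℝ, (∀ x ∈ U, 0 ≤ x) →
    (∀ p ∈ l, 0 ≤ p.1 ∧ 0 < p.2 ∧ p.2 ≤ 1) → U.card + l.length = k → (U + downs l).sum < 0 →
    testG k (U + downs l) + chAux (testG k) U l ≤ 0 := by
  induction l with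
  | nil =>
    intro U hU _ _ h
    exact absurd (Multiset.sum_nonneg (by simpa using hU)) (not_le.mpr h)
  | cons p l ih =>
    intro U hU hl hk hs
    obtain ⟨β, γ⟩ := p
    have hp := hl (β, γ) List.mem_cons_self
    simp only at hp
    have hl' : ∀ q ∈ l, 0 ≤ q.1 ∧ 0 < q.2 ∧ q.2 ≤ 1 := fun q hq => hl q (List.mem_cons_of_mem _ hq)
    have hU' : ∀ x ∈ β ::ₘ U, 0 ≤ x := by
      intro x hx
      rcases Multiset.mem_cons.mp hx with h | h
      · rw [h]; exact hp.1
      · exact hU x h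
    have hk' : (β ::ₘ U).card + l.length = k := by
      rw [← hk, Multiset.card_cons, List.length_cons]; ring
    have ih' := ih (β ::ₘ U) hU' hl' hk'
    have cb := cross_bound hp.2.1 hp.2.2 (β ::ₘ U) l fun q hq => ⟨(hl' q hq).1, (hl' q hq).2.1⟩
    have cm := fun F' h => chAux_mono (β ::ₘ U + downs l) (testG k) F' h l (β ::ₘ U)
      (kap ((-γ) ::ₘ (β ::ₘ U + downs l))) (fun q hq => ⟨(hl' q hq).1, (hl' q hq).2.1⟩)
      (le_kap_cons (by linarith only [hp]) _) (Multiset.rel_refl_of_refl_on fun _ _ => le_rfl)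
    have hcard : (β ::ₘ U + downs l).card = k := by
      rw [Multiset.card_add, ← hk']; simp [downs]
    set W := U + downs l with hW
    have hWlow : ∀ x ∈ W, -1 ≤ x := by
      intro x hx
      rcases Multiset.mem_add.mp hx with h | h
      · linarith only [hU, h, hU x h]
      · simp only [downs, Multiset.mem_coe, List.mem_map] at h
        obtain ⟨q, hq, rfl⟩ := h
        linarith only [hl', hq, (hl' q hq).2.2]
    have eS : U + downs ((β, γ) :: l) = (-γ) ::ₘ W := by
      rw [downs_cons, hW, Multiset.add_cons]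
    have eS' : β ::ₘ U + downs l = β ::ₘ W := by rw [hW, Multiset.cons_add]
    rw [eS'] at ih' cb cm hcard
    rw [eS] at hs
    simp only [chAux, eS, ← hW]
    have neg : ∀ y : ℝ, -1 ≤ y → (y ::ₘ W).sum < 0 → testG k (y ::ₘ W) = -(exp 1 * k) := by
      intro y hy h
      unfold testG
      rw [ind_of_lt h, Multiset.sum_eq_zero]
      · ring
      · intro w hw
        obtain ⟨x, hx, rfl⟩ := Multiset.mem_map.mp hw
        apply ind_of_lt
        rcases Multiset.mem_cons.mp hx with h1 | h1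
        · linarith only [hy, h, h1]
        · linarith only [h, hWlow, h1, hWlow x h1]
    rw [neg (-γ) (by linarith only [hp]) hs]
    rcases lt_or_ge (β ::ₘ W).sum 0 with h | h
    · have := ih' h
      rw [neg β (by linarith only [hp]) h] at this ⊢
      linarith only [this]
    · have c1 := cb (by
        intro x hx
        rcases Multiset.mem_cons.mp hx with h1 | h1
        · linarith only [hp, h1]
        · exact hWlow x h1) h
      have c2 := cm (fun M => ((β ::ₘ W).map fun x => ind (1 + x) M.sum).sum) (by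
        intro M hM
        have s1 := rel_sum_le hM (fun x => x) fun _ _ h => h
        have s2 := rel_sum_le hM (fun x => -ind (1 + x) M.sum) fun x y h =>
          neg_le_neg (ind_anti (by linarith only [h]) _)
        simp only [Multiset.map_id', Multiset.sum_map_neg] at s1 s2
        unfold testG
        rw [ind_of_le (h.trans s1)]
        linarith only [s2])
      rw [chAux_sum] at c2
      rw [Multiset.sum_map_add, Multiset.sum_map_mul_left, hcard] at c1
      rw [Multiset.cons_swap (-γ) β] at c1 c2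
      linarith only [c1, c2]

/-- The test function has nonpositive mean under every chain measure. -/
lemma chain_bound (k : ℕ) (hk : 0 < k) (l : List (ℝ × ℝ))
    (hl : ∀ p ∈ l, 0 ≤ p.1 ∧ 0 < p.2 ∧ p.2 ≤ 1) (hlen : l.length = k) : ch (testG k) l ≤ 0 := by
  have := chain_aux k l 0 (by simp) hl (by simpa using hlen) (by
    cases l with
    | nil => simp at hlen; omega
    | cons p l =>
      rw [zero_add, downs_cons, Multiset.sum_cons]
      have h1 := (hl p List.mem_cons_self).2.1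
      have h2 : (downs l).sum ≤ 0 := by
        have : ∀ x ∈ downs l, x ≤ 0 := by
          intro x hx
          simp only [downs, Multiset.mem_coe, List.mem_map] at hx
          obtain ⟨q, hq, rfl⟩ := hx
          linarith only [hl, hq, (hl q (List.mem_cons_of_mem _ hq)).2.1]
        simpa using Multiset.sum_le_card_nsmul _ 0 this
      linarith only [h1, h2])
  simpa [ch] using this

end Pool.Agent.Work.EMC
end

-- merged part: Pool.Agent.Work.MP_9079fe_co.Iid
section
/-! Sums over all sequences of `n` draws from a finite set, and the two sided inequality. -/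

namespace Pool.Agent.Work.EMC
open Real Finset

variable {α : Type*}

/-- Sum of `F` over all sequences of `n` elements of `J`, each read as a multiset. -/
noncomputable def Sm (J : Finset α) : ℕ → (Multiset α → ℝ) → ℝ
  | 0, F => F 0
  | n + 1, F => ∑ j ∈ J, Sm J n fun M => F (j ::ₘ M)

lemma Sm_sum {ι : Type*} (J : Finset α) (s : Finset ι) (n : ℕ) :
    ∀ F : ι → Multiset α → ℝ, Sm J n (fun M => ∑ i ∈ s, F i M) = ∑ i ∈ s, Sm J n (F i) := by
  induction n with
  | zero => intro F; rfl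
  | succ n ih => intro F; simp only [Sm, ih]; exact Finset.sum_comm

lemma Sm_lin (J : Finset α) (n : ℕ) (a b : ℝ) : ∀ F G : Multiset α → ℝ,
    Sm J n (fun M => a * F M + b * G M) = a * Sm J n F + b * Sm J n G := by
  induction n with
  | zero => intro F G; rfl
  | succ n ih => intro F G; simp only [Sm, ih, sum_add_distrib, mul_sum]

lemma Sm_add (J : Finset α) (n : ℕ) (F G : Multiset α → ℝ) :
    Sm J n (fun M => F M + G M) = Sm J n F + Sm J n G := by
  simpa using Sm_lin J n 1 1 F G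

lemma Sm_sub (J : Finset α) (n : ℕ) (F G : Multiset α → ℝ) :
    Sm J n (fun M => F M - G M) = Sm J n F - Sm J n G := by
  simpa [sub_eq_add_neg] using Sm_lin J n 1 (-1) F G

lemma Sm_const (J : Finset α) (n : ℕ) (c : ℝ) : Sm J n (fun _ => c) = (J.card : ℝ) ^ n * c := by
  induction n with
  | zero => simp [Sm]
  | succ n ih => simp only [Sm, ih, sum_const, nsmul_eq_mul]; ring

lemma Sm_mono (J : Finset α) (n : ℕ) : ∀ F G : Multiset α → ℝ,
    (∀ M : Multiset α, M.card = n → (∀ x ∈ M, x ∈ J) → F M ≤ G M) → Sm J n F ≤ Sm J n G := by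
  induction n with
  | zero => intro F G h; exact h 0 rfl (by simp)
  | succ n ih =>
    intro F G h
    refine sum_le_sum fun j hj => ih _ _ fun M hM hJ => h _ (by simp [hM]) ?_
    intro x hx
    rcases Multiset.mem_cons.mp hx with h1 | h1
    · rw [h1]; exact hj
    · exact hJ x h1

lemma Sm_nonneg (J : Finset α) (n : ℕ) (F : Multiset α → ℝ) (h : ∀ M, 0 ≤ F M) : 0 ≤ Sm J n F := by
  have := Sm_mono J n (fun _ => 0) F fun M _ _ => h M
  simpa [Sm_const] using this

lemma Sm_subset {J J' : Finset α} (hJ : J' ⊆ J) (n : ℕ) : ∀ F : Multiset α → ℝ,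
    (∀ M, 0 ≤ F M) → Sm J' n F ≤ Sm J n F := by
  induction n with
  | zero => intro F _; exact le_rfl
  | succ n ih =>
    intro F h
    calc Sm J' (n + 1) F ≤ ∑ j ∈ J', Sm J n fun M => F (j ::ₘ M) :=
          sum_le_sum fun j _ => ih _ fun M => h _
      _ ≤ _ := sum_le_sum_of_subset_of_nonneg hJ fun j _ _ => Sm_nonneg _ _ _ fun M => h _

lemma Sm_le_subset {J J' : Finset α} (hJ : J' ⊆ J) (n : ℕ) (F : Multiset α → ℝ)
    (h : ∀ M, F M ≤ 1) :
    Sm J n F ≤ Sm J' n F + ((J.card : ℝ) ^ n - (J'.card : ℝ) ^ n) := by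
  have := Sm_subset hJ n (fun M => 1 - F M) fun M => by linarith [h M]
  rw [Sm_sub, Sm_sub, Sm_const, Sm_const] at this
  linarith

lemma Sm_map {β : Type*} (J : Finset α) (f : α ↪ β) (n : ℕ) : ∀ F : Multiset β → ℝ,
    Sm (J.map f) n F = Sm J n fun M => F (M.map f) := by
  induction n with
  | zero => intro F; simp [Sm]
  | succ n ih => intro F; simp only [Sm, sum_map, ih, Multiset.map_cons]

lemma chAux_finsum {ι : Type*} (s : Finset ι) (F : ι → Multiset ℝ → ℝ) (l : List (ℝ × ℝ)) :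
    ∀ U : Multiset ℝ, chAux (fun M => ∑ i ∈ s, F i M) U l = ∑ i ∈ s, chAux (F i) U l := by
  induction l with
  | nil => intro U; simp [chAux]
  | cons p l ih =>
    intro U
    simp only [chAux, ih, sum_add_distrib, ← mul_sum, sum_sub_distrib]

lemma chAux_smul (c : ℝ) (F : Multiset ℝ → ℝ) (l : List (ℝ × ℝ)) :
    ∀ U : Multiset ℝ, chAux (fun M => c * F M) U l = c * chAux F U l := by
  induction l with
  | nil => intro U; simp [chAux]
  | cons p l ih => intro U; simp only [chAux, ih]; ring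

/-- Transfer from chain measures to independent draws. -/
lemma Sm_le_of_chain (J : Finset α) (z : α → ℝ) (h0 : ∑ j ∈ J, z j = 0) (h1 : ∀ j ∈ J, -1 ≤ z j)
    (hneg : ∃ j ∈ J, z j < 0) (n : ℕ) : ∀ F : Multiset ℝ → ℝ,
    (∀ l : List (ℝ × ℝ), (∀ p ∈ l, 0 ≤ p.1 ∧ 0 < p.2 ∧ p.2 ≤ 1) → l.length = n → ch F l ≤ 0) →
    Sm J n (fun M => F (M.map z)) ≤ 0 := by
  classical
  induction n with
  | zero => intro F h; simpa [ch, chAux, Sm] using h [] (by simp) rfl
  | succ n ih =>
    intro F h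
    set Jp := J.filter fun j => ¬ z j < 0 with hJp
    set Jn := J.filter fun j => z j < 0 with hJn
    set m := ∑ j ∈ Jp, z j with hm
    have hsplit : ∀ f : α → ℝ, ∑ j ∈ J, f j = ∑ j ∈ Jn, f j + ∑ j ∈ Jp, f j := fun f =>
      (sum_filter_add_sum_filter_not J (fun j => z j < 0) f).symm
    have hm' : ∑ j ∈ Jn, z j = -m := by linarith only [h0, hsplit, hsplit z]
    have hmp : 0 < m := by
      obtain ⟨j, hj, hz⟩ := hneg
      have : ∑ j ∈ Jn, z j < ∑ _j ∈ Jn, (0:ℝ) :=
        sum_lt_sum (fun i hi => (mem_filter.mp hi).2.le) ⟨j, mem_filter.mpr ⟨hj, hz⟩, hz⟩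
      simp only [sum_const_zero] at this
      linarith
    have e : Sm J (n + 1) (fun M => F (M.map z))
        = Sm J n fun M => (fun N => ∑ j ∈ J, F (z j ::ₘ N)) (M.map z) := by
      simp only [Sm, Multiset.map_cons]
      rw [Sm_sum]
    rw [e]
    refine ih (fun N => ∑ j ∈ J, F (z j ::ₘ N)) ?_
    intro l hl hlen
    have e2 : (fun N => m * ∑ j ∈ J, F (z j ::ₘ N))
        = fun N => ∑ a ∈ Jp, ∑ b ∈ Jn, avg2 (z a) (-z b) F N := by
      ext N
      simp only [avg2, neg_neg, sum_add_distrib, ← sum_mul, ← mul_sum, sum_neg_distrib, hm', ← hm]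
      rw [hsplit]; ring
    have e3 : m * ch (fun N => ∑ j ∈ J, F (z j ::ₘ N)) l
        = ∑ a ∈ Jp, ∑ b ∈ Jn, ch (avg2 (z a) (-z b) F) l := by
      have := congrFun e2 (downs l)
      simp only [ch, mul_add, sum_add_distrib]
      rw [← chAux_smul, e2, chAux_finsum, this]
      simp only [chAux_finsum]
    have e4 : ∑ a ∈ Jp, ∑ b ∈ Jn, ch (avg2 (z a) (-z b) F) l ≤ 0 := by
      refine sum_nonpos fun a ha => sum_nonpos fun b hb => ?_
      have ha' : 0 ≤ z a := not_lt.mp (mem_filter.mp ha).2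
      have hb' := mem_filter.mp hb
      refine ins F ha' (by linarith only [hb', hb'.2]) l (fun p hp => ⟨(hl p hp).1, (hl p hp).2.1⟩) ?_
      intro l₁ l₂ h12
      apply h
      · intro p hp
        rw [List.mem_append, List.mem_cons] at hp
        rcases hp with hp | hp | hp
        · exact hl p (by rw [h12]; exact List.mem_append_left _ hp)
        · rw [hp]; exact ⟨ha', by linarith [hb'.2], by linarith [h1 b hb'.1]⟩
        · exact hl p (by rw [h12]; exact List.mem_append_right _ hp)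
      · rw [← hlen, h12]; simp; ring
    by_contra hc
    push Not at hc
    linarith only [e3, e4, hmp, hc, mul_pos hmp hc]

lemma Sm_erase (J : Finset α) (z : α → ℝ) (r : ℕ) : ∀ c : ℝ,
    Sm J (r + 1) (fun M => ((M.map z).map fun x => ind (1 + x) (c + (M.map z).sum)).sum)
      = (r + 1) * J.card * Sm J r fun M => ind 1 (c + (M.map z).sum) := by
  have hi : ∀ x s : ℝ, ind (1 + x) (x + s) = ind 1 s := by
    intro x s; unfold ind; congr 1; apply propext; constructor <;> intro h <;> linarith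
  induction r with
  | zero =>
    intro c
    have : ∀ x : ℝ, ind (1 + x) (c + x) = ind 1 c := fun x => by rw [add_comm c x, hi]
    simp [Sm, this]
  | succ r ih =>
    intro c
    have e : ∀ j, Sm J (r + 1) (fun M => (((j ::ₘ M).map z).map fun x =>
        ind (1 + x) (c + ((j ::ₘ M).map z).sum)).sum)
        = Sm J (r + 1) (fun M => ind 1 (c + (M.map z).sum))
          + (r + 1) * J.card * Sm J r fun M => ind 1 (c + ((j ::ₘ M).map z).sum) := by
      intro j
      have h1 := ih (c + z j)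
      simp only [Multiset.map_cons, Multiset.sum_cons, ← add_assoc] at h1 ⊢
      rw [← h1, ← Sm_add]
      congr 1
      ext M
      rw [add_comm c (z j), add_assoc (z j), hi]
    rw [Sm]
    simp only [e, sum_add_distrib, sum_const, nsmul_eq_mul, ← mul_sum]
    have : (∑ j ∈ J, Sm J r fun M => ind 1 (c + ((j ::ₘ M).map z).sum))
        = Sm J (r + 1) (fun M => ind 1 (c + (M.map z).sum)) := rfl
    rw [this]
    push_cast
    ring

/-- For independent uniform draws of a mean zero weight bounded below by `-1`: the chance that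
`r` draws sum to at least one is at most `e` times the chance that `r + 1` draws have a negative
sum. -/
theorem two_sided (J : Finset α) (z : α → ℝ) (h0 : ∑ j ∈ J, z j = 0) (h1 : ∀ j ∈ J, -1 ≤ z j)
    (r : ℕ) :
    J.card * Sm J r (fun M => ind 1 (M.map z).sum)
      ≤ exp 1 * Sm J (r + 1) fun M => 1 - ind 0 (M.map z).sum := by
  by_cases hneg : ∃ j ∈ J, z j < 0
  · have h := Sm_le_of_chain J z h0 h1 hneg (r + 1) (testG (r + 1))
      (chain_bound (r + 1) (Nat.succ_pos r))
    have h2 := Sm_erase J z r 0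
    have h3 := Sm_lin J (r + 1) 1 (-(exp 1 * ((r + 1 : ℕ) : ℝ)))
      (fun M => ((M.map z).map fun x => ind (1 + x) (M.map z).sum).sum)
      (fun M => 1 - ind 0 (M.map z).sum)
    simp only [zero_add] at h2
    have e : (fun M : Multiset α => testG (r + 1) (M.map z)) = fun M =>
        1 * ((M.map z).map fun x => ind (1 + x) (M.map z).sum).sum
          + -(exp 1 * ((r + 1 : ℕ) : ℝ)) * (1 - ind 0 (M.map z).sum) := by
      ext M; unfold testG; ring
    rw [e, h3, h2] at h
    push_cast at h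
    have hr : (0:ℝ) < r + 1 := by positivity
    have : (r + 1 : ℝ) * (J.card * Sm J r (fun M => ind 1 (M.map z).sum))
        ≤ (r + 1) * (exp 1 * Sm J (r + 1) fun M => 1 - ind 0 (M.map z).sum) := by linarith
    exact le_of_mul_le_mul_left this hr
  · push Not at hneg
    have hz : ∀ j ∈ J, z j = 0 := (sum_eq_zero_iff_of_nonneg hneg).mp h0
    have h2 : Sm J r (fun M => ind 1 (M.map z).sum) ≤ Sm J r fun _ => 0 := by
      refine Sm_mono J r _ _ fun M _ hM => ?_
      rw [Multiset.sum_eq_zero, ind_of_lt zero_lt_one]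
      intro x hx
      obtain ⟨j, hj, rfl⟩ := Multiset.mem_map.mp hx
      exact hz j (hM j hj)
    rw [Sm_const, mul_zero] at h2
    have h3 : 0 ≤ Sm J (r + 1) fun M => 1 - ind 0 (M.map z).sum :=
      Sm_nonneg _ _ _ fun M => by unfold ind; split_ifs <;> norm_num
    have h4 := mul_nonneg (exp_pos 1).le h3
    have h5 := mul_nonpos_of_nonneg_of_nonpos (Nat.cast_nonneg (α := ℝ) J.card) h2
    linarith

/-- Counting sequences whose multiset is a set from a given uniform family. -/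
lemma Sm_family [DecidableEq α] (J : Finset α) (r : ℕ) : ∀ 𝒜 : Finset (Finset α),
    (∀ A ∈ 𝒜, A ⊆ J ∧ A.card = r) →
    Sm J r (fun M => if M ∈ 𝒜.image Finset.val then 1 else 0) = r.factorial * 𝒜.card := by
  have single : ∀ (r : ℕ) (A : Finset α), A ⊆ J → A.card = r →
      Sm J r (fun M => if M = A.val then 1 else 0) = r.factorial := by
    intro r
    induction r with
    | zero => intro A _ h; simp [Sm, card_eq_zero.mp h]
    | succ r ih =>
      intro A hA h
      rw [Sm]
      have : ∀ j ∈ J, Sm J r (fun M => if j ::ₘ M = A.val then (1:ℝ) else 0)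
          = if j ∈ A then (r.factorial : ℝ) else 0 := by
        intro j _
        split_ifs with hj
        · rw [← ih (A.erase j) ((erase_subset _ _).trans hA) (by rw [card_erase_of_mem hj, h]; rfl)]
          congr 1
          ext M
          congr 1
          apply propext
          rw [erase_val]
          constructor
          · intro h1; rw [← h1, Multiset.erase_cons_head]
          · intro h1; rw [h1]; exact Multiset.cons_erase hj
        · have : (fun M => if j ::ₘ M = A.val then (1:ℝ) else 0) = fun _ => 0 := by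
            ext M
            rw [if_neg]
            intro h1
            exact hj (by rw [← mem_val, ← h1]; exact Multiset.mem_cons_self _ _)
          rw [this, Sm_const, mul_zero]
      rw [sum_congr rfl this, ← sum_filter, sum_const, filter_mem_eq_inter, inter_eq_right.mpr hA, h,
        nsmul_eq_mul, Nat.factorial_succ]
      push_cast; ring
  intro 𝒜 h
  have e : (fun M : Multiset α => if M ∈ 𝒜.image Finset.val then (1:ℝ) else 0)
      = fun M => ∑ A ∈ 𝒜, if M = A.val then 1 else 0 := by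
    ext M
    split_ifs with hM
    · obtain ⟨A, hA, rfl⟩ := mem_image.mp hM
      rw [sum_eq_single A]
      · simp
      · intro B _ hBA; rw [if_neg]; exact fun h1 => hBA (val_injective h1).symm
      · intro h1; exact absurd hA h1
    · symm
      refine sum_eq_zero fun A hA => if_neg fun h1 => hM (mem_image.mpr ⟨A, hA, h1.symm⟩)
  rw [e, Sm_sum, sum_congr rfl fun A hA => single r A (h A hA).1 (h A hA).2]
  simp [mul_comm]

end Pool.Agent.Work.EMC
end

-- merged part: Pool.Agent.Work.MP_9079fe_co.Dense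
section
/-! Fractional duality on interval types, and the link versus non-edge inequality. -/

namespace Pool.Agent.Work.EMC
open Finset

/-- Multisets of `k` classes out of `T`. -/
def types (T k : ℕ) : Finset (Multiset ℕ) := ((range T).sym k).image Subtype.val

lemma mem_types {T k : ℕ} {τ : Multiset ℕ} : τ ∈ types T k ↔ τ.card = k ∧ ∀ a ∈ τ, a < T := by
  unfold types
  rw [mem_image]
  constructor
  · rintro ⟨σ, h, rfl⟩
    exact ⟨σ.2, fun a ha => mem_range.mp (mem_sym_iff.mp h a ha)⟩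
  · rintro ⟨h1, h2⟩
    exact ⟨⟨τ, h1⟩, mem_sym_iff.mpr fun a ha => mem_range.mpr (h2 a ha), rfl⟩

lemma map_sum_eq_count {T : ℕ} (y : ℕ → ℝ) (τ : Multiset ℕ) (h : ∀ a ∈ τ, a < T) :
    (τ.map y).sum = ∑ i ∈ range T, (τ.count i : ℝ) * y i := by
  induction τ using Multiset.induction_on with
  | empty => simp
  | cons a τ ih =>
    rw [Multiset.map_cons, Multiset.sum_cons, ih fun b hb => h b (Multiset.mem_cons_of_mem hb)]
    simp only [Multiset.count_cons, Nat.cast_add, add_mul, sum_add_distrib, Nat.cast_ite,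
      Nat.cast_one, Nat.cast_zero, ite_mul, one_mul, zero_mul, sum_ite_eq', mem_range]
    rw [if_pos (h a (Multiset.mem_cons_self _ _)), add_comm]

lemma farkas {T k : ℕ} (S : Finset (Multiset ℕ)) (hS : S ⊆ types T k) :
    (∃ x : Multiset ℕ → ℝ, (∀ τ ∈ S, 0 ≤ x τ) ∧ ∑ τ ∈ S, x τ = 1 ∧
      ∀ i < T, ∑ τ ∈ S, x τ * τ.count i = k / T) ∨
    ∃ y : ℕ → ℝ, ∀ τ ∈ S, (k / T : ℝ) * ∑ i ∈ range T, y i < (τ.map y).sum := by
  classical
  set vec : Multiset ℕ → (Fin T → ℝ) := fun τ i => τ.count (i : ℕ) with hvec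
  have hinj : Set.InjOn vec S := by
    intro τ hτ σ hσ h
    ext a
    by_cases ha : a < T
    · have := congrFun h ⟨a, ha⟩
      simpa [hvec] using this
    · rw [Multiset.count_eq_zero_of_notMem fun h => ha ((mem_types.mp (hS hτ)).2 a h),
        Multiset.count_eq_zero_of_notMem fun h => ha ((mem_types.mp (hS hσ)).2 a h)]
  by_cases hp : (fun _ => (k / T : ℝ)) ∈
      convexHull ℝ ((S.image vec : Finset (Fin T → ℝ)) : Set (Fin T → ℝ))
  · left
    obtain ⟨w, h1, h2, h3⟩ := Finset.mem_convexHull'.mp hp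
    rw [sum_image hinj] at h2 h3
    refine ⟨fun τ => w (vec τ), fun τ hτ => h1 _ (mem_image_of_mem _ hτ), h2, fun i hi => ?_⟩
    have := congrFun h3 ⟨i, hi⟩
    simpa [hvec, Finset.sum_apply] using this
  · right
    obtain ⟨f, u, h1, h2⟩ := geometric_hahn_banach_point_closed (convex_convexHull ℝ _)
      ((Finset.finite_toSet _).isClosed_convexHull ℝ) hp
    set y : ℕ → ℝ := fun i => if h : i < T then f (Pi.single ⟨i, h⟩ 1) else 0 with hy
    have hf : ∀ v : ℕ → ℝ, f (fun i : Fin T => v i) = ∑ i ∈ range T, v i * y i := by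
      intro v
      rw [sum_range, pi_eq_sum_univ' (fun i : Fin T => v i), map_sum]
      refine sum_congr rfl fun i _ => ?_
      rw [map_smul, smul_eq_mul]
      simp [hy]
    refine ⟨y, fun τ hτ => ?_⟩
    have a1 := h2 (vec τ) (subset_convexHull ℝ _ (mem_coe.mpr (mem_image_of_mem _ hτ)))
    have a2 := hf fun _ => (k / T : ℝ)
    have a3 := hf fun i => (τ.count i : ℝ)
    rw [map_sum_eq_count y τ (mem_types.mp (hS hτ)).2, mul_sum, ← a2, ← a3]
    exact h1.trans a1

lemma dual_weights {T k : ℕ} (hT : 0 < T) (S : Finset (Multiset ℕ)) (hS : S ⊆ types T k)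
    (y : ℕ → ℝ) (hy : ∀ τ ∈ S, (k / T : ℝ) * ∑ i ∈ range T, y i < (τ.map y).sum) :
    ∃ (z : ℕ → ℝ) (i₀ : ℕ), i₀ < T ∧ ∑ i ∈ range T, z i = 0 ∧ (∀ i < T, -1 ≤ z i) ∧
      (∀ τ ∈ S, 0 ≤ (τ.map z).sum) ∧ ∀ τ, i₀ ::ₘ τ ∈ S → 1 ≤ (τ.map z).sum := by
  obtain ⟨i₀, hi₀, hmin⟩ := exists_min_image (range T) y ⟨0, mem_range.mpr hT⟩
  have hTp : (0:ℝ) < T := Nat.cast_pos.mpr hT
  set μ := (∑ i ∈ range T, y i) / T - y i₀ with hμ
  have hμ0 : 0 ≤ μ := by
    have := sum_le_sum hmin
    rw [sum_const, card_range, nsmul_eq_mul] at this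
    rw [hμ, sub_nonneg, le_div_iff₀ hTp]; linarith only [this]
  have key : ∀ τ ∈ S, k * μ < (τ.map fun i => y i - y i₀).sum := by
    intro τ hτ
    have := hy τ hτ
    rw [Multiset.sum_map_sub, Multiset.map_const', Multiset.sum_replicate,
      (mem_types.mp (hS hτ)).1, nsmul_eq_mul, hμ]
    have e : (k:ℝ) * ((∑ i ∈ range T, y i) / T) = k / T * ∑ i ∈ range T, y i := by ring
    linarith only [this, e]
  have hsum : ∑ i ∈ range T, (y i - y i₀) = T * μ := by
    rw [sum_sub_distrib, sum_const, card_range, nsmul_eq_mul, hμ]; field_simp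
  rcases hμ0.eq_or_lt with h0 | h0
  · have hz : ∀ i ∈ range T, y i - y i₀ = 0 := by
      rw [← h0, mul_zero] at hsum
      exact (sum_eq_zero_iff_of_nonneg fun i hi => sub_nonneg.mpr (hmin i hi)).mp hsum
    have hno : ∀ τ, τ ∉ S := by
      intro τ hτ
      have := key τ hτ
      rw [← h0, mul_zero, Multiset.sum_eq_zero] at this
      · exact lt_irrefl _ this
      · intro x hx
        obtain ⟨a, ha, rfl⟩ := Multiset.mem_map.mp hx
        exact hz a (mem_range.mpr ((mem_types.mp (hS hτ)).2 a ha))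
    exact ⟨fun _ => 0, i₀, mem_range.mp hi₀, by simp, by simp, fun τ h => absurd h (hno τ),
      fun τ h => absurd h (hno _)⟩
  · have pos : ∀ τ ∈ S, 0 ≤ (τ.map fun i => (y i - y i₀) * μ⁻¹ - 1).sum := by
      intro τ hτ
      have := key τ hτ
      rw [Multiset.sum_map_sub, Multiset.map_const', Multiset.sum_replicate,
        (mem_types.mp (hS hτ)).1, nsmul_eq_mul, Multiset.sum_map_mul_right, ← div_eq_mul_inv,
        mul_one, sub_nonneg, le_div_iff₀ h0]
      exact this.le
    refine ⟨fun i => (y i - y i₀) * μ⁻¹ - 1, i₀, mem_range.mp hi₀, ?_, fun i hi => ?_, pos,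
      fun τ hτ => ?_⟩
    · rw [sum_sub_distrib, ← sum_mul, hsum, sum_const, card_range, nsmul_eq_mul]
      field_simp; ring
    · have := mul_nonneg (sub_nonneg.mpr (hmin i (mem_range.mpr hi))) (inv_pos.mpr h0).le
      linarith only [this]
    · have := pos _ hτ
      rw [Multiset.map_cons, Multiset.sum_cons] at this
      simp only [sub_self, zero_mul] at this
      linarith only [this]

lemma pick (f : ℕ → ℕ) (τ : Multiset ℕ) : ∀ W : Finset ℕ, τ ≤ W.val.map f →
    ∃ A ⊆ W, A.val.map f = τ := by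
  induction τ using Multiset.induction_on with
  | empty => intro W _; exact ⟨∅, empty_subset _, rfl⟩
  | cons i τ ih =>
    intro W h
    obtain ⟨v, hv, hfv⟩ := Multiset.mem_map.mp
      (Multiset.subset_of_le h (Multiset.mem_cons_self i τ))
    rw [← Multiset.cons_erase hv, Multiset.map_cons, hfv, Multiset.cons_le_cons_iff,
      ← erase_val] at h
    obtain ⟨A, hA, hA'⟩ := ih _ h
    refine ⟨insert v A, insert_subset hv (hA.trans (erase_subset _ _)), ?_⟩
    rw [insert_val_of_notMem fun h => notMem_erase v W (hA h), Multiset.map_cons, hfv, hA']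

lemma greedy {F : Finset (Finset ℕ)} (f : ℕ → ℕ) (Λ : Multiset (Multiset ℕ)) : ∀ W : Finset ℕ,
    Λ.sum ≤ W.val.map f → (∀ τ ∈ Λ, τ ≠ 0 ∧ ∀ A : Finset ℕ, A.val.map f = τ → A ∈ F) →
    ∃ M ⊆ F, (M : Set (Finset ℕ)).PairwiseDisjoint id ∧ M.card = Λ.card ∧ ∀ A ∈ M, A ⊆ W := by
  induction Λ using Multiset.induction_on with
  | empty => intro W _ _; exact ⟨∅, by simp, by simp, rfl, by simp⟩
  | cons τ Λ ih =>
    intro W h1 h2
    rw [Multiset.sum_cons] at h1
    obtain ⟨A, hA, hA'⟩ := pick f τ W ((Multiset.le_add_right _ _).trans h1)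
    have e : W.val = A.val + (W \ A).val := by
      rw [sdiff_val, add_tsub_cancel_of_le (val_le_iff.mpr hA)]
    rw [e, Multiset.map_add, hA', Multiset.add_le_add_iff_left] at h1
    obtain ⟨M, a1, a2, a3, a4⟩ := ih _ h1 fun σ hσ => h2 σ (Multiset.mem_cons_of_mem hσ)
    have hτ := h2 τ (Multiset.mem_cons_self _ _)
    have hAM : A ∉ M := by
      intro h
      obtain ⟨x, hx⟩ : A.Nonempty := by
        rw [nonempty_iff_ne_empty]; rintro rfl; exact hτ.1 hA'.symm
      exact (mem_sdiff.mp (a4 A h hx)).2 hx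
    refine ⟨insert A M, insert_subset (hτ.2 A hA') a1, ?_,
      by rw [card_insert_of_notMem hAM, a3, Multiset.card_cons], ?_⟩
    · rw [coe_insert]
      exact a2.insert fun B hB _ => (subset_sdiff.mp (a4 B hB)).2.symm
    · intro B hB
      rcases mem_insert.mp hB with h | h
      · rwa [h]
      · exact (a4 B h).trans sdiff_subset

lemma primal_bound {F : Finset (Finset ℕ)} {T k ℓ s : ℕ} (hT : 0 < T) (hk : 0 < k)
    (hM : Mat F s) (S : Finset (Multiset ℕ)) (hS : S ⊆ types T k)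
    (hfull : ∀ τ ∈ S, ∀ A : Finset ℕ, A.val.map (· / ℓ) = τ → A ∈ F)
    (x : Multiset ℕ → ℝ) (h0 : ∀ τ ∈ S, 0 ≤ x τ) (h1 : ∑ τ ∈ S, x τ = 1)
    (h2 : ∀ i < T, ∑ τ ∈ S, x τ * τ.count i = k / T) : T * ℓ ≤ k * (s + (types T k).card) := by
  have hTp : (0:ℝ) < T := Nat.cast_pos.mpr hT
  have hkp : (0:ℝ) < k := Nat.cast_pos.mpr hk
  set c : ℝ := T * ℓ / k with hc
  have hc0 : 0 ≤ c := by positivity
  obtain ⟨M, a1, a2, a3, _⟩ := greedy (F := F) (· / ℓ)
    (∑ τ ∈ S, Multiset.replicate ⌊x τ * c⌋₊ τ) (range (T * ℓ)) (by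
      rw [Multiset.le_iff_count]
      intro i
      have e : (∑ τ ∈ S, Multiset.replicate ⌊x τ * c⌋₊ τ).sum = ∑ τ ∈ S, ⌊x τ * c⌋₊ • τ := by
        rw [Multiset.sum_sum]; simp only [Multiset.sum_replicate]
      rw [e, Multiset.count_sum']
      simp only [Multiset.count_nsmul]
      by_cases hi : i < T
      · have b1 : ((∑ τ ∈ S, ⌊x τ * c⌋₊ * τ.count i : ℕ) : ℝ) ≤ ℓ := by
          push_cast
          calc _ ≤ ∑ τ ∈ S, c * (x τ * τ.count i) := sum_le_sum fun τ hτ => by
                have := Nat.floor_le (mul_nonneg (h0 τ hτ) hc0)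
                have := mul_le_mul_of_nonneg_right this (Nat.cast_nonneg (α := ℝ) (τ.count i))
                linarith only [this]
            _ = ℓ := by rw [← mul_sum, h2 i hi, hc]; field_simp
        refine (Nat.cast_le.mp b1).trans ?_
        rw [Multiset.count_map, ← filter_val, card_val]
        refine le_trans (by simp) (card_le_card (s := Ico (i * ℓ) (i * ℓ + ℓ)) fun v hv => ?_)
        obtain ⟨v1, v2⟩ := mem_Ico.mp hv
        refine mem_filter.mpr ⟨mem_range.mpr ?_, ?_⟩
        · have : (i + 1) * ℓ ≤ T * ℓ := Nat.mul_le_mul_right _ hi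
          rw [add_mul] at this; omega
        · exact (Nat.div_eq_of_lt_le v1 (by rw [add_mul]; omega)).symm
      · rw [sum_eq_zero]
        · exact Nat.zero_le _
        · intro τ hτ
          rw [Multiset.count_eq_zero_of_notMem fun h => hi ((mem_types.mp (hS hτ)).2 i h), mul_zero])
    (by
      intro τ hτ
      obtain ⟨σ, hσ, h⟩ := Multiset.mem_sum.mp hτ
      rw [Multiset.eq_of_mem_replicate h]
      refine ⟨fun h => ?_, hfull σ hσ⟩
      have := (mem_types.mp (hS hσ)).1
      rw [h, Multiset.card_zero] at this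
      omega)
  have b1 := hM M a1 a2
  rw [a3, Multiset.card_sum] at b1
  simp only [Multiset.card_replicate] at b1
  have b2 : c ≤ s + (types T k).card := by
    have b3 : ((∑ τ ∈ S, ⌊x τ * c⌋₊ : ℕ) : ℝ) ≤ s := Nat.cast_le.mpr b1
    push_cast at b3
    have b4 : ∑ τ ∈ S, x τ * c ≤ ∑ τ ∈ S, ((⌊x τ * c⌋₊ : ℝ) + 1) :=
      sum_le_sum fun τ _ => (Nat.lt_floor_add_one _).le
    rw [← sum_mul, h1, one_mul, sum_add_distrib, sum_const, nsmul_eq_mul, mul_one] at b4
    have b5 : (S.card : ℝ) ≤ (types T k).card := Nat.cast_le.mpr (card_le_card hS)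
    linarith only [b3, b4, b5]
  rw [hc, div_le_iff₀ hkp] at b2
  have : ((T * ℓ : ℕ) : ℝ) ≤ ((k * (s + (types T k).card) : ℕ) : ℝ) := by push_cast; linarith only [b2]
  exact Nat.cast_le.mp this

lemma sum_classes (z : ℕ → ℝ) {ℓ : ℕ} (hℓ : 0 < ℓ) (T : ℕ) :
    ∑ v ∈ range (T * ℓ), z (v / ℓ) = ℓ * ∑ i ∈ range T, z i := by
  induction T with
  | zero => simp
  | succ T ih =>
    rw [add_mul, one_mul, sum_range_add, ih, sum_range_succ, mul_add]
    congr 1
    rw [sum_congr rfl (g := fun _ => z T)]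
    · simp
    · intro x hx
      rw [Nat.div_eq_of_lt_le (Nat.le_add_right _ _) (by have := mem_range.mp hx; rw [add_mul]; omega)]

lemma rel_of_type {ℓ : ℕ} (hℓ : 0 < ℓ) {A M : Multiset ℕ} (h : A.map (· / ℓ) = M.map (· / ℓ)) :
    Multiset.Rel (· ≤ ·) A (M.map (· + ℓ)) := by
  rw [← Multiset.rel_eq, Multiset.rel_map] at h
  rw [Multiset.rel_map_right]
  refine h.mono fun a _ b _ hab => ?_
  have h1 := Nat.lt_mul_div_succ a hℓ
  have h2 := Nat.mul_div_le b ℓ
  rw [hab, mul_add] at h1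
  omega

/-- Link of the first outside vertex against the number of non-edges. -/
theorem dense_ineq {F : Finset (Finset ℕ)} {T r ℓ s : ℕ} (hT : 0 < T) (hℓ : 0 < ℓ)
    (hU : ∀ A ∈ F, A.card = r + 1) (hS : Shifted F) (hM : Mat F s)
    (hN : (r + 1) * (s + (types T (r + 1)).card) < T * ℓ) :
    ((T * ℓ : ℕ) : ℝ) * (r.factorial * (link F r (T * ℓ) (T * ℓ)).card
        - (((T * ℓ : ℕ) : ℝ) ^ r - ((T * ℓ - ℓ : ℕ) : ℝ) ^ r))
      ≤ Real.exp 1 * (((T * ℓ : ℕ) : ℝ) ^ (r + 1) - (r + 1).factorial * (inside F (T * ℓ)).card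
        + (((T * ℓ : ℕ) : ℝ) ^ (r + 1) - ((T * ℓ - ℓ : ℕ) : ℝ) ^ (r + 1))) := by
  classical
  set S := (types T (r + 1)).filter fun τ => ∀ A : Finset ℕ, A.val.map (· / ℓ) = τ → A ∈ F with hSd
  have hS1 : S ⊆ types T (r + 1) := filter_subset _ _
  rcases farkas S hS1 with ⟨x, h0, h1, h2⟩ | ⟨y, hy⟩
  · have := primal_bound hT (Nat.succ_pos r) hM S hS1 (fun τ hτ => (mem_filter.mp hτ).2) x h0 h1 h2
    exact absurd this (not_le.mpr hN)
  obtain ⟨z, i₀, hi₀, z0, z1, z2, z3⟩ := dual_weights hT S hS1 y hy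
  set N := T * ℓ with hNd
  have hcls : ∀ v < N, v / ℓ < T := fun v hv => (Nat.div_lt_iff_lt_mul hℓ).mpr hv
  have main := two_sided (range N) (fun v => z (v / ℓ)) (by rw [hNd, sum_classes z hℓ, z0, mul_zero])
    (fun v hv => z1 _ (hcls v (mem_range.mp hv))) r
  rw [card_range] at main
  set up : ℕ ↪ ℕ := addRightEmbedding ℓ with hup
  have hJ1 : range (N - ℓ) ⊆ range N := range_subset_range.mpr (Nat.sub_le _ _)
  have hJ2 : (range (N - ℓ)).map up ⊆ range N := by
    intro v hv
    obtain ⟨w, hw, rfl⟩ := mem_map.mp hv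
    have := mem_range.mp hw
    rw [hup, addRightEmbedding_apply]
    exact mem_range.mpr (by omega)
  have ind_le : ∀ u s : ℝ, ind u s ≤ 1 := fun u s => by unfold ind; split_ifs <;> norm_num
  have upB : Sm (range N) (r + 1) (fun M => 1 - ind 0 (M.map fun v => z (v / ℓ)).sum)
      ≤ (N : ℝ) ^ (r + 1) - (r + 1).factorial * (inside F N).card
        + ((N : ℝ) ^ (r + 1) - ((N - ℓ : ℕ) : ℝ) ^ (r + 1)) := by
    have b1 := Sm_le_subset hJ1 (r + 1) (fun M => 1 - ind 0 (M.map fun v => z (v / ℓ)).sum)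
      fun M => by linarith only [ind_nonneg 0 (M.map fun v => z (v / ℓ)).sum]
    rw [card_range, card_range] at b1
    have b2 := Sm_subset hJ2 (r + 1)
      (fun M => 1 - if M ∈ (inside F N).image Finset.val then (1:ℝ) else 0)
      fun M => by split_ifs <;> norm_num
    rw [Sm_map, Sm_sub (range N), Sm_const, card_range, mul_one,
      Sm_family _ _ (inside F N)
        fun A hA => ⟨(mem_filter.mp hA).2, hU A (mem_filter.mp hA).1⟩] at b2
    have b3 := Sm_mono (range (N - ℓ)) (r + 1)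
      (fun M => 1 - ind 0 (M.map fun v => z (v / ℓ)).sum)
      (fun M => 1 - if M.map up ∈ (inside F N).image Finset.val then (1:ℝ) else 0) (by
        intro M hMc hMJ
        split_ifs with h
        · obtain ⟨A', hA', e⟩ := mem_image.mp h
          have hτ : M.map (· / ℓ) ∈ S := by
            refine mem_filter.mpr ⟨mem_types.mpr ⟨by rw [Multiset.card_map, hMc], ?_⟩, ?_⟩
            · intro a ha
              obtain ⟨v, hv, rfl⟩ := Multiset.mem_map.mp ha
              exact hcls v (mem_range.mp (hJ1 (hMJ v hv)))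
            · intro A hA
              refine hS.dom' (mem_filter.mp hA').1 ?_
              rw [e]
              exact rel_of_type hℓ hA
          have := z2 _ hτ
          rw [Multiset.map_map] at this
          exact le_of_eq (congrArg (1 - ·) (ind_of_le this))
        · linarith only [ind_nonneg 0 (M.map fun v => z (v / ℓ)).sum])
    linarith only [b1, b2, b3]
  have lowA : r.factorial * ((link F r N N).card : ℝ) - ((N : ℝ) ^ r - ((N - ℓ : ℕ) : ℝ) ^ r)
      ≤ Sm (range N) r fun M => ind 1 (M.map fun v => z (v / ℓ)).sum := by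
    have b1 := Sm_le_subset hJ2 r
      (fun M => if M ∈ (link F r N N).image Finset.val then (1:ℝ) else 0)
      fun M => by split_ifs <;> norm_num
    rw [card_map, card_range, card_range, Sm_map,
      Sm_family _ _ _ fun A hA => ⟨(mem_link.mp hA).1, (mem_link.mp hA).2.1⟩] at b1
    have b2 := Sm_subset hJ1 r (fun M => ind 1 (M.map fun v => z (v / ℓ)).sum)
      fun M => ind_nonneg _ _
    have b3 := Sm_mono (range (N - ℓ)) r
      (fun M => if M.map up ∈ (link F r N N).image Finset.val then (1:ℝ) else 0)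
      (fun M => ind 1 (M.map fun v => z (v / ℓ)).sum) (by
        intro M hMc hMJ
        split_ifs with h
        · obtain ⟨G, hG, e⟩ := mem_image.mp h
          obtain ⟨g1, _, g3⟩ := mem_link.mp hG
          have hτ : i₀ ::ₘ M.map (· / ℓ) ∈ S := by
            refine mem_filter.mpr ⟨mem_types.mpr ⟨by simp [hMc], ?_⟩, ?_⟩
            · intro a ha
              rcases Multiset.mem_cons.mp ha with h1 | h1
              · rwa [h1]
              · obtain ⟨v, hv, rfl⟩ := Multiset.mem_map.mp h1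
                exact hcls v (mem_range.mp (hJ1 (hMJ v hv)))
            · intro A hA
              refine hS.dom' g3 ?_
              rw [insert_val_of_notMem (fun h => by simpa using g1 h), e]
              have h1 := rel_of_type hℓ (A := A.val) (M := (i₀ * ℓ) ::ₘ M) (by
                rw [hA, Multiset.map_cons, Nat.mul_div_cancel _ hℓ])
              rw [Multiset.map_cons] at h1
              refine Multiset.Rel.trans _ h1 (Multiset.Rel.cons ?_
                (Multiset.rel_refl_of_refl_on fun _ _ => le_rfl))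
              have : (i₀ + 1) * ℓ ≤ T * ℓ := Nat.mul_le_mul_right _ hi₀
              rw [add_mul] at this; omega
          have := z3 _ hτ
          rw [Multiset.map_map] at this
          exact (ind_of_le this).ge
        · exact ind_nonneg _ _)
    linarith only [b1, b2, b3]
  calc _ ≤ (N : ℝ) * Sm (range N) r fun M => ind 1 (M.map fun v => z (v / ℓ)).sum :=
        mul_le_mul_of_nonneg_left lowA (Nat.cast_nonneg _)
    _ ≤ _ := main
    _ ≤ _ := mul_le_mul_of_nonneg_left upB (Real.exp_pos 1).le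

end Pool.Agent.Work.EMC
end

-- merged part: Pool.Agent.Work.MP_9079fe_co.KWt
section
/-! Weights from duality. -/

namespace Pool.Agent.Work.EMC
open Finset

lemma kwt_dual {T k : ℕ} (hT : 0 < T) (S : Finset (Multiset ℕ)) (hS : S ⊆ types T k)
    (y : ℕ → ℝ) (hy : ∀ τ ∈ S, (k / T : ℝ) * ∑ i ∈ range T, y i < (τ.map y).sum) :
    ∃ (w : ℕ → ℝ) (i₀ : ℕ), i₀ < T ∧ w i₀ = 0 ∧ (∀ i < T, 0 ≤ w i) ∧ ∑ i ∈ range T, w i ≤ T ∧
      ∀ τ ∈ S, (k : ℝ) ≤ (τ.map w).sum := by
  obtain ⟨i₀, hi₀, hmin⟩ := exists_min_image (range T) y ⟨0, mem_range.mpr hT⟩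
  have hTp : (0:ℝ) < T := Nat.cast_pos.mpr hT
  set μ := (∑ i ∈ range T, y i) / T - y i₀ with hμ
  have hμ0 : 0 ≤ μ := by
    have := sum_le_sum hmin
    rw [sum_const, card_range, nsmul_eq_mul] at this
    rw [hμ, sub_nonneg, le_div_iff₀ hTp]; linarith only [this]
  have key : ∀ τ ∈ S, k * μ < (τ.map fun i => y i - y i₀).sum := by
    intro τ hτ
    have := hy τ hτ
    rw [Multiset.sum_map_sub, Multiset.map_const', Multiset.sum_replicate,
      (mem_types.mp (hS hτ)).1, nsmul_eq_mul, hμ]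
    have e : (k:ℝ) * ((∑ i ∈ range T, y i) / T) = k / T * ∑ i ∈ range T, y i := by ring
    linarith only [this, e]
  have hsum : ∑ i ∈ range T, (y i - y i₀) = T * μ := by
    rw [sum_sub_distrib, sum_const, card_range, nsmul_eq_mul, hμ]; field_simp
  rcases hμ0.eq_or_lt with h0 | h0
  · have hz : ∀ i ∈ range T, y i - y i₀ = 0 := by
      rw [← h0, mul_zero] at hsum
      exact (sum_eq_zero_iff_of_nonneg fun i hi => sub_nonneg.mpr (hmin i hi)).mp hsum
    have hno : ∀ τ, τ ∉ S := by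
      intro τ hτ
      have := key τ hτ
      rw [← h0, mul_zero, Multiset.sum_eq_zero] at this
      · exact lt_irrefl _ this
      · intro x hx
        obtain ⟨a, ha, rfl⟩ := Multiset.mem_map.mp hx
        exact hz a (mem_range.mpr ((mem_types.mp (hS hτ)).2 a ha))
    exact ⟨fun _ => 0, i₀, mem_range.mp hi₀, rfl, fun _ _ => le_rfl, by simp,
      fun τ h => absurd h (hno τ)⟩
  · refine ⟨fun i => (y i - y i₀) * μ⁻¹, i₀, mem_range.mp hi₀, by simp, fun i hi => ?_, ?_,
      fun τ hτ => ?_⟩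
    · exact mul_nonneg (sub_nonneg.mpr (hmin i (mem_range.mpr hi))) (inv_pos.mpr h0).le
    · rw [← sum_mul, hsum, mul_assoc, mul_inv_cancel₀ h0.ne', mul_one]
    · rw [Multiset.sum_map_mul_right, ← div_eq_mul_inv, le_div_iff₀ h0]
      exact (key τ hτ).le

theorem exists_weights {F : Finset (Finset ℕ)} {T r ℓ s : ℕ} {t : ℝ} (ht : 0 < t) (hT : 0 < T)
    (hℓ : 0 < ℓ) (hU : ∀ A ∈ F, A.card = r + 1) (hS : Shifted F) (hM : Mat F s)
    (hN : (r + 1) * (s + (types T (r + 1)).card) < T * ℓ) :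
    ∃ X : ℕ → ℝ, (∀ v, 0 ≤ X v ∧ X v ≤ t) ∧ (∀ v, T * ℓ ≤ v → X v = 0) ∧
      ∑ v ∈ range (T * ℓ), X v ≤ t / (r + 1) * (T * ℓ : ℕ) ∧
      ∀ A ∈ F, (∀ a ∈ A, ℓ ≤ a) → t ≤ ∑ a ∈ A, X (a - ℓ) := by
  classical
  set S := (types T (r + 1)).filter fun τ => ∀ A : Finset ℕ, A.val.map (· / ℓ) = τ → A ∈ F with hSd
  have hS1 : S ⊆ types T (r + 1) := filter_subset _ _
  rcases farkas S hS1 with ⟨x, h0, h1, h2⟩ | ⟨y, hy⟩
  · have := primal_bound hT (Nat.succ_pos r) hM S hS1 (fun τ hτ => (mem_filter.mp hτ).2) x h0 h1 h2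
    exact absurd this (not_le.mpr hN)
  obtain ⟨w, i₀, hi₀, w0, w1, w2, w3⟩ := kwt_dual hT S hS1 y hy
  have hk : (0 : ℝ) < r + 1 := by positivity
  have hc : 0 ≤ t / (r + 1) := by positivity
  set f : ℕ → ℕ := fun v => if v < T * ℓ then v / ℓ else i₀ with hf
  have hfT : ∀ v, f v < T := by
    intro v
    simp only [hf]
    split_ifs with h
    · exact (Nat.div_lt_iff_lt_mul hℓ).mpr h
    · exact hi₀
  have hX0 : ∀ v, 0 ≤ min t (t / (r + 1) * w (f v)) := fun v =>
    le_min ht.le (mul_nonneg hc (w1 _ (hfT v)))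
  refine ⟨fun v => min t (t / (r + 1) * w (f v)), fun v => ⟨hX0 v, min_le_left _ _⟩,
    fun v hv => ?_, ?_, fun A hA hAl => ?_⟩
  · have : f v = i₀ := if_neg (not_lt.mpr hv)
    simp only [this, w0, mul_zero]
    exact min_eq_right ht.le
  · calc ∑ v ∈ range (T * ℓ), min t (t / (r + 1) * w (f v))
        ≤ ∑ v ∈ range (T * ℓ), t / (r + 1) * w (v / ℓ) := by
          refine sum_le_sum fun v hv => ?_
          have : f v = v / ℓ := if_pos (mem_range.mp hv)
          rw [this]
          exact min_le_right _ _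
      _ = t / (r + 1) * (ℓ * ∑ i ∈ range T, w i) := by rw [← mul_sum, sum_classes w hℓ]
      _ ≤ t / (r + 1) * (T * ℓ : ℕ) := by
          refine mul_le_mul_of_nonneg_left ?_ hc
          push_cast
          rw [mul_comm (T : ℝ)]
          exact mul_le_mul_of_nonneg_left w2 (Nat.cast_nonneg _)
  · have hτ : A.val.map (fun a => f (a - ℓ)) ∈ S := by
      refine mem_filter.mpr ⟨mem_types.mpr ⟨by rw [Multiset.card_map, card_val, hU A hA], ?_⟩, ?_⟩
      · intro a ha
        obtain ⟨v, _, rfl⟩ := Multiset.mem_map.mp ha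
        exact hfT _
      · intro B hB
        refine hS.dom' hA ?_
        rw [← Multiset.rel_eq, Multiset.rel_map] at hB
        refine hB.mono fun b _ a ha hab => ?_
        have h1 := Nat.lt_mul_div_succ b hℓ
        have h3 := hAl a ha
        rw [hab] at h1
        simp only [hf] at h1
        split_ifs at h1 with h
        · have h2 := Nat.mul_div_le (a - ℓ) ℓ
          rw [mul_add] at h1
          omega
        · have : ℓ * (i₀ + 1) ≤ ℓ * T := Nat.mul_le_mul_left _ hi₀
          rw [mul_comm ℓ T] at this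
          omega
    have hw := w3 _ hτ
    rw [Multiset.map_map] at hw
    by_cases hex : ∃ a ∈ A, t ≤ t / (r + 1) * w (f (a - ℓ))
    · obtain ⟨a, ha, hle⟩ := hex
      have := single_le_sum (f := fun a => min t (t / (r + 1) * w (f (a - ℓ))))
        (fun b _ => hX0 (b - ℓ)) ha
      simp only [min_eq_left hle] at this
      exact this
    · push Not at hex
      have e : ∑ a ∈ A, min t (t / (r + 1) * w (f (a - ℓ)))
          = t / (r + 1) * ∑ a ∈ A, w (f (a - ℓ)) := by
        rw [mul_sum]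
        exact sum_congr rfl fun a ha => min_eq_right (hex a ha).le
      rw [e]
      have hw' : ((r : ℝ) + 1) ≤ ∑ a ∈ A, w (f (a - ℓ)) := by
        push_cast at hw
        exact hw
      calc t = t / (r + 1) * (r + 1) := by field_simp
        _ ≤ _ := mul_le_mul_of_nonneg_left hw' hc

end Pool.Agent.Work.EMC
end

-- merged part: Pool.Agent.Work.MP_9079fe_co.KCov
section
/-! Removing vertices of large degree. -/

namespace Pool.Agent.Work.EMC
open Finset

/-- Every small set avoiding `v` is missed by an edge through `v`. -/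
def KcovExt (F : Finset (Finset ℕ)) (Ω : Finset ℕ) (v m : ℕ) : Prop :=
  ∀ U ⊆ Ω.erase v, U.card ≤ m → ∃ A ∈ F, v ∈ A ∧ Disjoint A U

lemma kcov_mat_sub {F G : Finset (Finset ℕ)} {s : ℕ} (h : Mat F s) (hG : G ⊆ F) : Mat G s :=
  fun M hM hd => h M (hM.trans hG) hd

lemma kcov_insert_pd {M : Finset (Finset ℕ)} {A : Finset ℕ}
    (hd : (M : Set (Finset ℕ)).PairwiseDisjoint id) (hA : ∀ B ∈ M, Disjoint A B) :
    ((insert A M : Finset (Finset ℕ)) : Set (Finset ℕ)).PairwiseDisjoint id := by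
  rw [coe_insert]
  exact hd.insert fun B hB _ => hA B hB

lemma kcov_mat_erase {F : Finset (Finset ℕ)} {Ω : Finset ℕ} {r s v : ℕ}
    (hF : F ⊆ powersetCard (r + 1) Ω) (hM : Mat F (s + 1))
    (hE : KcovExt F Ω v ((r + 1) * (s + 1))) : Mat (F.filter fun A => v ∉ A) s := by
  intro M hMF hd
  by_contra hlt
  have h1 : M.card ≤ s + 1 := hM M (hMF.trans (filter_subset _ _)) hd
  have hc : M.card = s + 1 := by omega
  have hmem : ∀ B ∈ M, B ∈ F ∧ v ∉ B := fun B hB => mem_filter.mp (hMF hB)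
  obtain ⟨A, hA, hvA, hAU⟩ := hE (M.biUnion id) (by
    intro x hx
    obtain ⟨B, hB, hxB⟩ := mem_biUnion.mp hx
    refine mem_erase.mpr ⟨fun h => (hmem B hB).2 (h ▸ hxB), ?_⟩
    exact (mem_powersetCard.mp (hF (hmem B hB).1)).1 hxB) (by
    have := card_biUnion_le_card_mul M id (r + 1)
      (fun B hB => (mem_powersetCard.mp (hF (hmem B hB).1)).2.le)
    rw [hc] at this
    rw [mul_comm]; exact this)
  have hAM : A ∉ M := fun h => (hmem A h).2 hvA
  have h2 := hM (insert A M) (insert_subset hA (hMF.trans (filter_subset _ _)))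
    (kcov_insert_pd hd fun B hB => hAU.mono_right (subset_biUnion_of_mem id hB))
  rw [card_insert_of_notMem hAM] at h2
  omega

lemma kcov_deg_one {F : Finset (Finset ℕ)} {Ω : Finset ℕ} {r v : ℕ}
    (hF : F ⊆ powersetCard (r + 1) Ω) (hv : v ∈ Ω) :
    (F.filter fun A => v ∈ A).card ≤ (Ω.card - 1).choose r := by
  rw [← card_erase_of_mem hv, ← card_powersetCard]
  refine card_le_card_of_injOn (fun A => A.erase v) ?_ ?_
  · intro A hA
    obtain ⟨a1, a2⟩ := mem_filter.mp (mem_coe.mp hA)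
    obtain ⟨a3, a4⟩ := mem_powersetCard.mp (hF a1)
    refine mem_coe.mpr (mem_powersetCard.mpr ⟨erase_subset_erase _ a3, ?_⟩)
    rw [card_erase_of_mem a2, a4]; rfl
  · intro A hA B hB h
    have a2 := (mem_filter.mp (mem_coe.mp hA)).2
    have b2 := (mem_filter.mp (mem_coe.mp hB)).2
    rw [← insert_erase a2, ← insert_erase b2]
    exact congrArg _ h

lemma kcov_deg_two {F : Finset (Finset ℕ)} {Ω : Finset ℕ} {j v u : ℕ}
    (hF : F ⊆ powersetCard (j + 1 + 1) Ω) (hv : v ∈ Ω) (hu : u ∈ Ω.erase v) :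
    (F.filter fun A => v ∈ A ∧ u ∈ A).card ≤ (Ω.card - 2).choose j := by
  have h1 : ((F.filter fun A => v ∈ A).image fun A => A.erase v)
      ⊆ powersetCard (j + 1) (Ω.erase v) := by
    intro B hB
    obtain ⟨A, hA, rfl⟩ := mem_image.mp hB
    obtain ⟨a1, a2⟩ := mem_filter.mp hA
    obtain ⟨a3, a4⟩ := mem_powersetCard.mp (hF a1)
    refine mem_powersetCard.mpr ⟨erase_subset_erase _ a3, ?_⟩
    rw [card_erase_of_mem a2, a4]; rfl
  have h2 := kcov_deg_one h1 hu
  rw [card_erase_of_mem hv] at h2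
  refine le_trans ?_ h2
  refine card_le_card_of_injOn (fun A => A.erase v) ?_ ?_
  · intro A hA
    obtain ⟨a1, a2, a3⟩ := mem_filter.mp (mem_coe.mp hA)
    refine mem_coe.mpr (mem_filter.mpr ⟨mem_image.mpr ⟨A, mem_filter.mpr ⟨a1, a2⟩, rfl⟩, ?_⟩)
    exact mem_erase.mpr ⟨(mem_erase.mp hu).1, a3⟩
  · intro A hA B hB h
    have a2 := (mem_filter.mp (mem_coe.mp hA)).2.1
    have b2 := (mem_filter.mp (mem_coe.mp hB)).2.1
    rw [← insert_erase a2, ← insert_erase b2]
    exact congrArg _ h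

lemma kcov_deg_small {F : Finset (Finset ℕ)} {Ω : Finset ℕ} {j v m : ℕ}
    (hF : F ⊆ powersetCard (j + 1 + 1) Ω) (hv : v ∈ Ω) (hE : ¬ KcovExt F Ω v m) :
    (F.filter fun A => v ∈ A).card ≤ m * (Ω.card - 2).choose j := by
  unfold KcovExt at hE
  push Not at hE
  obtain ⟨U, hU, hUc, hA⟩ := hE
  have h1 : (F.filter fun A => v ∈ A) ⊆ U.biUnion fun u => F.filter fun A => v ∈ A ∧ u ∈ A := by
    intro A hA'
    obtain ⟨a1, a2⟩ := mem_filter.mp hA'
    obtain ⟨u, hu1, hu2⟩ := not_disjoint_iff.mp (hA A a1 a2)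
    exact mem_biUnion.mpr ⟨u, hu2, mem_filter.mpr ⟨a1, a2, hu1⟩⟩
  refine (card_le_card h1).trans ((card_biUnion_le_card_mul _ _ _
    fun u hu => kcov_deg_two hF hv (hU hu)).trans ?_)
  exact Nat.mul_le_mul_right _ hUc

lemma kcov_ext_of_missing {F : Finset (Finset ℕ)} {Ω : Finset ℕ} {r v m : ℕ} (hv : v ∈ Ω)
    (h : ((powersetCard (r + 1) Ω \ F).filter fun A => v ∈ A).card < (Ω.card - 1 - m).choose r) :
    KcovExt F Ω v m := by
  intro U hU hUc
  by_contra hno
  push Not at hno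
  have hc : Ω.card - 1 - m ≤ (Ω.erase v \ U).card := by
    rw [card_sdiff_of_subset hU, card_erase_of_mem hv]; omega
  have h1 := Nat.choose_le_choose r hc
  rw [← card_powersetCard r (Ω.erase v \ U)] at h1
  have hvG : ∀ G ∈ powersetCard r (Ω.erase v \ U), v ∉ G := fun G hG hvG =>
    (mem_erase.mp (mem_sdiff.mp ((mem_powersetCard.mp hG).1 hvG)).1).1 rfl
  have h2 : (powersetCard r (Ω.erase v \ U)).card
      ≤ ((powersetCard (r + 1) Ω \ F).filter fun A => v ∈ A).card := by
    refine card_le_card_of_injOn (fun G => insert v G) ?_ ?_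
    · intro G hG
      have hG' := mem_coe.mp hG
      obtain ⟨g1, g2⟩ := mem_powersetCard.mp hG'
      refine mem_coe.mpr (mem_filter.mpr ⟨mem_sdiff.mpr ⟨mem_powersetCard.mpr ⟨?_, ?_⟩, ?_⟩,
        mem_insert_self _ _⟩)
      · exact insert_subset hv (g1.trans (sdiff_subset.trans (erase_subset _ _)))
      · rw [card_insert_of_notMem (hvG G hG'), g2]
      · intro hF
        refine hno _ hF (mem_insert_self _ _) ?_
        rw [disjoint_insert_left]
        refine ⟨fun hvU => (mem_erase.mp (hU hvU)).1 rfl, ?_⟩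
        exact (subset_sdiff.mp g1).2
    · intro G hG G' hG' e
      rw [← erase_insert (hvG G (mem_coe.mp hG)), ← erase_insert (hvG G' (mem_coe.mp hG'))]
      exact congrArg (fun A => A.erase v) e
  omega

lemma kcov_cover {F : Finset (Finset ℕ)} {Ω : Finset ℕ} {r s : ℕ}
    (hF : F ⊆ powersetCard (r + 1) Ω) (hM : Mat F s) :
    ∃ T ⊆ Ω, T.card ≤ (r + 1) * s ∧ ∀ A ∈ F, ¬ Disjoint A T := by
  classical
  obtain ⟨M, hMm, hmax⟩ := exists_max_image
    (F.powerset.filter fun M : Finset (Finset ℕ) => (M : Set (Finset ℕ)).PairwiseDisjoint id) card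
    ⟨∅, mem_filter.mpr ⟨empty_mem_powerset _, by simp⟩⟩
  obtain ⟨m1, m2⟩ := mem_filter.mp hMm
  have m3 := mem_powerset.mp m1
  refine ⟨M.biUnion id, ?_, ?_, ?_⟩
  · intro x hx
    obtain ⟨B, hB, hxB⟩ := mem_biUnion.mp hx
    exact (mem_powersetCard.mp (hF (m3 hB))).1 hxB
  · have := card_biUnion_le_card_mul M id (r + 1)
      (fun B hB => (mem_powersetCard.mp (hF (m3 hB))).2.le)
    have h2 := hM M m3 m2
    refine this.trans ?_
    rw [mul_comm]; exact Nat.mul_le_mul_left _ h2
  · intro A hA hd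
    have hAM : A ∉ M := by
      intro h
      have h1 : Disjoint A A := hd.mono_right (subset_biUnion_of_mem id h)
      have h2 := (mem_powersetCard.mp (hF hA)).2
      rw [disjoint_self_iff_empty] at h1
      rw [h1] at h2
      simp at h2
    have := hmax (insert A M) (mem_filter.mpr ⟨mem_powerset.mpr (insert_subset hA m3),
      kcov_insert_pd m2 fun B hB => hd.mono_right (subset_biUnion_of_mem id hB)⟩)
    rw [card_insert_of_notMem hAM] at this
    omega

lemma kcov_choose_two {n M j : ℕ} (h : n ≤ 2 * (M + 1 - j)) : n.choose j ≤ 2 ^ j * M.choose j := by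
  have h1 := Nat.descFactorial_le_pow n j
  have h2 := Nat.pow_sub_le_descFactorial M j
  rw [Nat.descFactorial_eq_factorial_mul_choose] at h1 h2
  have h3 : n ^ j ≤ 2 ^ j * (M + 1 - j) ^ j := by
    rw [← mul_pow]; exact Nat.pow_le_pow_left h j
  have h4 : j.factorial * n.choose j ≤ j.factorial * (2 ^ j * M.choose j) := by
    calc j.factorial * n.choose j ≤ 2 ^ j * (M + 1 - j) ^ j := h1.trans h3
      _ ≤ 2 ^ j * (j.factorial * M.choose j) := Nat.mul_le_mul_left _ h2
      _ = _ := by ring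
  exact Nat.le_of_mul_le_mul_left h4 j.factorial_pos

lemma kcov_num {j S N : ℕ} (hS : 1 ≤ S)
    (hN : ((j + 2) ^ 2 * 2 ^ j * (j + 1) + 2 * j + 2) * S ≤ N) :
    (j + 2) * S * ((j + 2) * S * (N - 2).choose j)
      ≤ N.choose (j + 1 + 1) - (N - S).choose (j + 1 + 1) := by
  set P := (j + 2) ^ 2 * 2 ^ j * (j + 1) with hP
  have hjS : j ≤ j * S := Nat.le_mul_of_pos_right _ hS
  have hN' : P * S + 2 * (j * S) + 2 * S ≤ N := by
    calc P * S + 2 * (j * S) + 2 * S = (P + 2 * j + 2) * S := by ring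
      _ ≤ N := hN
  have h1 := sum_choose_Ico (j + 1) (N - S) N (Nat.sub_le _ _)
  have h2 : S * (N - S).choose (j + 1) ≤ ∑ v ∈ Ico (N - S) N, v.choose (j + 1) := by
    have := card_nsmul_le_sum (Ico (N - S) N) (fun v => v.choose (j + 1)) ((N - S).choose (j + 1))
      fun v hv => Nat.choose_le_choose _ (mem_Ico.mp hv).1
    rw [Nat.card_Ico, smul_eq_mul] at this
    have e : N - (N - S) = S := by omega
    rwa [e] at this
  have h3 : (N - 2).choose j ≤ 2 ^ j * (N - S).choose j := kcov_choose_two (by omega)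
  have h4 := Nat.choose_succ_right_eq (N - S) j
  have h5 : P * S ≤ N - S - j := by omega
  have h6 : (j + 2) * ((j + 2) * S * (N - 2).choose j) * (j + 1)
      ≤ (N - S).choose (j + 1) * (j + 1) := by
    rw [h4]
    calc (j + 2) * ((j + 2) * S * (N - 2).choose j) * (j + 1)
        ≤ (j + 2) * ((j + 2) * S * (2 ^ j * (N - S).choose j)) * (j + 1) := by gcongr
      _ = (N - S).choose j * (P * S) := by rw [hP]; ring
      _ ≤ _ := Nat.mul_le_mul_left _ h5
  have h7 := Nat.le_of_mul_le_mul_right h6 (Nat.succ_pos j)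
  have h8 : (j + 2) * S * ((j + 2) * S * (N - 2).choose j) ≤ S * (N - S).choose (j + 1) := by
    calc _ = S * ((j + 2) * ((j + 2) * S * (N - 2).choose j)) := by ring
      _ ≤ _ := Nat.mul_le_mul_left _ h7
  omega

lemma kcov_remove {F : Finset (Finset ℕ)} {Ω : Finset ℕ} {r s v : ℕ}
    (hF : F ⊆ powersetCard (r + 1) Ω) (hv : v ∈ Ω)
    (h : (F.filter fun A => v ∉ A).card
      ≤ (Ω.erase v).card.choose (r + 1) - ((Ω.erase v).card - s).choose (r + 1)) :
    F.card ≤ Ω.card.choose (r + 1) - (Ω.card - (s + 1)).choose (r + 1) := by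
  have h1 := kcov_deg_one hF hv
  have h2 := card_filter_add_card_filter_not (s := F) (fun A => v ∈ A)
  rw [card_erase_of_mem hv] at h
  have hpos : 0 < Ω.card := card_pos.mpr ⟨v, hv⟩
  obtain ⟨N, hN⟩ : ∃ N, Ω.card = N + 1 := ⟨Ω.card - 1, by omega⟩
  rw [hN] at h h1 ⊢
  have e : N + 1 - (s + 1) = N - s := by omega
  rw [e, Nat.choose_succ_succ']
  simp only [Nat.add_sub_cancel] at h h1
  have h3 := Nat.choose_le_choose (r + 1) (Nat.sub_le N s)
  omega

lemma kcov_sub_erase {F : Finset (Finset ℕ)} {Ω : Finset ℕ} {r v : ℕ}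
    (hF : F ⊆ powersetCard (r + 1) Ω) :
    (F.filter fun A => v ∉ A) ⊆ powersetCard (r + 1) (Ω.erase v) := by
  intro A hA
  obtain ⟨a1, a2⟩ := mem_filter.mp hA
  obtain ⟨a3, a4⟩ := mem_powersetCard.mp (hF a1)
  exact mem_powersetCard.mpr ⟨subset_erase.mpr ⟨a3, a2⟩, a4⟩

theorem cov_lemma (r : ℕ) (hr : 0 < r) :
    ∃ c : ℕ, ∀ (s : ℕ) (Ω D : Finset ℕ) (F : Finset (Finset ℕ)), F ⊆ powersetCard (r + 1) Ω →
      Mat F s → D ⊆ Ω → D.card ≤ s →
      (∀ v ∈ D, ((powersetCard (r + 1) Ω \ F).filter fun A => v ∈ A).card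
        < (Ω.card - 1 - (r + 1) * s).choose r) →
      c * (s - D.card) ≤ Ω.card - D.card →
      F.card ≤ Ω.card.choose (r + 1) - (Ω.card - s).choose (r + 1) := by
  obtain ⟨j, rfl⟩ : ∃ j, r = j + 1 := ⟨r - 1, by omega⟩
  refine ⟨(j + 2) ^ 2 * 2 ^ j * (j + 1) + 2 * j + 2, ?_⟩
  set c := (j + 2) ^ 2 * 2 ^ j * (j + 1) + 2 * j + 2 with hc
  intro s
  induction s with
  | zero =>
    intro Ω D F _ hM _ _ _ _
    rcases F.eq_empty_or_nonempty with h | ⟨A, hA⟩
    · simp [h]
    · have := hM {A} (singleton_subset_iff.mpr hA) (by simp)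
      simp at this
  | succ s ih =>
    intro Ω D F hF hM hD hDc hmiss hcN
    rcases D.eq_empty_or_nonempty with h | ⟨v, hv⟩
    · subst h
      simp only [card_empty, Nat.sub_zero] at hcN
      by_cases hex : ∃ v ∈ Ω, KcovExt F Ω v ((j + 1 + 1) * (s + 1))
      · obtain ⟨v, hv, hE⟩ := hex
        refine kcov_remove hF hv (ih _ ∅ _ (kcov_sub_erase hF) (kcov_mat_erase hF hM hE)
          (empty_subset _) (by simp) (by simp) ?_)
        rw [card_erase_of_mem hv]
        simp only [card_empty, Nat.sub_zero]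
        have : c * (s + 1) = c * s + c := by ring
        omega
      · push Not at hex
        obtain ⟨T, hT, hTc, hTA⟩ := kcov_cover hF hM
        have h1 : F ⊆ T.biUnion fun v => F.filter fun A => v ∈ A := by
          intro A hA
          obtain ⟨u, hu1, hu2⟩ := not_disjoint_iff.mp (hTA A hA)
          exact mem_biUnion.mpr ⟨u, hu2, mem_filter.mpr ⟨hA, hu1⟩⟩
        refine (card_le_card h1).trans ((card_biUnion_le_card_mul _ _ _
          fun u hu => kcov_deg_small hF (hT hu) (hex u (hT hu))).trans ?_)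
        refine le_trans (Nat.mul_le_mul_right _ hTc) ?_
        exact kcov_num (Nat.succ_le_succ (Nat.zero_le s)) hcN
    · have hvΩ := hD hv
      have hE := kcov_ext_of_missing hvΩ (hmiss v hv)
      have hDp : 0 < D.card := card_pos.mpr ⟨v, hv⟩
      refine kcov_remove hF hvΩ (ih _ (D.erase v) _ (kcov_sub_erase hF) (kcov_mat_erase hF hM hE)
        (erase_subset_erase _ hD) (by rw [card_erase_of_mem hv]; omega) ?_ ?_)
      · intro w hw
        refine lt_of_le_of_lt (card_le_card ?_)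
          ((hmiss w (mem_of_mem_erase hw)).trans_le (Nat.choose_le_choose _ ?_))
        · intro A hA
          obtain ⟨a1, a2⟩ := mem_filter.mp hA
          obtain ⟨a3, a4⟩ := mem_sdiff.mp a1
          obtain ⟨a5, a6⟩ := mem_powersetCard.mp a3
          refine mem_filter.mpr ⟨mem_sdiff.mpr ⟨mem_powersetCard.mpr
            ⟨a5.trans (erase_subset _ _), a6⟩, fun h => a4 (mem_filter.mpr ⟨h, ?_⟩)⟩, a2⟩
          exact (subset_erase.mp a5).2
        · rw [card_erase_of_mem hvΩ]
          have : (j + 1 + 1) * (s + 1) = (j + 1 + 1) * s + (j + 2) := by ring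
          omega
      · rw [card_erase_of_mem hv, card_erase_of_mem hvΩ]
        have e1 : s - (D.card - 1) = s + 1 - D.card := by omega
        have e2 : Ω.card - 1 - (D.card - 1) = Ω.card - D.card := by omega
        rw [e1, e2]; exact hcN

lemma kcov_link_mat {r n s : ℕ} (hn : (r + 2) * (s + 1) ≤ n + 1) {F : Finset (Finset ℕ)}
    (hM : Mat F s) (hS : Shifted F) {L : Finset (Finset ℕ)}
    (hL : Unif n (r + 1) L) (hLF : ∀ G ∈ L, insert n G ∈ F) : Mat L s := by
  intro M0 hM0 hd0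
  by_contra hlt
  obtain ⟨M, hMM, hc⟩ := exists_subset_card_eq (show s + 1 ≤ M0.card by omega)
  have hd : (M : Set (Finset ℕ)).PairwiseDisjoint id := hd0.subset (coe_subset.mpr hMM)
  have hML : M ⊆ L := hMM.trans hM0
  have hT : (M.biUnion id).card ≤ (s + 1) * (r + 1) := by
    have := card_biUnion_le_card_mul M id (r + 1) (fun B hB => (hL B (hML hB)).2.le)
    rwa [hc] at this
  have hfree : Fintype.card M ≤ (range (n + 1) \ M.biUnion id).card := by
    have := le_card_sdiff (M.biUnion id) (range (n + 1))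
    rw [card_range] at this
    rw [Fintype.card_coe, hc]
    have e : (r + 2) * (s + 1) = (s + 1) * (r + 1) + (s + 1) := by ring
    omega
  obtain ⟨φ, hφ⟩ := Function.Embedding.exists_of_card_le_finset hfree
  have hφ1 : ∀ G : M, φ G < n + 1 ∧ ∀ B ∈ M, φ G ∉ B := by
    intro G
    have := mem_sdiff.mp (mem_coe.mp (hφ ⟨G, rfl⟩))
    exact ⟨mem_range.mp this.1, fun B hB h => this.2 (mem_biUnion.mpr ⟨B, hB, h⟩)⟩
  have hdis : ∀ G G' : M, G ≠ G' →
      Disjoint (insert (φ G) (G : Finset ℕ)) (insert (φ G') (G' : Finset ℕ)) := by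
    intro G G' hne
    rw [disjoint_insert_left, disjoint_insert_right, mem_insert, not_or]
    refine ⟨⟨fun h => hne (φ.injective h), (hφ1 G).2 _ G'.2⟩, (hφ1 G').2 _ G.2, ?_⟩
    exact hd (mem_coe.mpr G.2) (mem_coe.mpr G'.2) fun h => hne (Subtype.ext h)
  have hsub : (univ.image fun G : M => insert (φ G) (G : Finset ℕ)) ⊆ F := by
    intro B hB
    obtain ⟨G, -, rfl⟩ := mem_image.mp hB
    have hGL := hML G.2
    have hnG : n ∉ (G : Finset ℕ) := fun h => lt_irrefl _ (mem_range.mp ((hL _ hGL).1 h))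
    rcases Nat.lt_succ_iff_lt_or_eq.mp (hφ1 G).1 with h | h
    · have := hS _ (hLF _ hGL) (φ G) n h (mem_insert_self _ _) (by
        rw [mem_insert, not_or]; exact ⟨h.ne, (hφ1 G).2 _ G.2⟩)
      rwa [erase_insert hnG] at this
    · rw [h]; exact hLF _ hGL
  have h2 := hM _ hsub (by
    intro B hB B' hB' hne
    obtain ⟨G, -, rfl⟩ := mem_image.mp (mem_coe.mp hB)
    obtain ⟨G', -, rfl⟩ := mem_image.mp (mem_coe.mp hB')
    exact hdis G G' fun h => hne (by rw [h]))
  rw [card_image_of_injective, card_univ, Fintype.card_coe, hc] at h2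
  · omega
  · intro G G' h
    by_contra hne
    have h3 := hdis G G' hne
    simp only at h
    rw [h, disjoint_self_iff_empty] at h3
    exact insert_ne_empty _ _ h3

theorem step_up {r n s a b : ℕ} (hn : (r + 2) * (s + 1) ≤ n + 1)
    (h1 : ∀ F, Unif n (r + 2) F → Mat F s → F.card ≤ a)
    (h2 : ∀ F, Unif n (r + 1) F → Mat F s → F.card ≤ b) :
    ∀ F, Unif (n + 1) (r + 2) F → Mat F s → F.card ≤ a + b := by
  intro F0 hU0 hM0
  obtain ⟨F, hU, hM, hS, hc⟩ := exists_shifted _ F0 rfl hU0 hM0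
  rw [← hc]
  have hsplit := card_filter_add_card_filter_not (s := F) (fun A => n ∈ A)
  have ha : (F.filter fun A => n ∉ A).card ≤ a := by
    refine h1 _ ?_ (kcov_mat_sub hM (filter_subset _ _))
    intro A hA
    obtain ⟨a1, a2⟩ := mem_filter.mp hA
    refine ⟨fun x hx => ?_, (hU A a1).2⟩
    have h3 := mem_range.mp ((hU A a1).1 hx)
    have h4 : x ≠ n := fun h => a2 (h ▸ hx)
    exact mem_range.mpr (by omega)
  have hL : Unif n (r + 1) ((F.filter fun A => n ∈ A).image fun A => A.erase n) := by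
    intro B hB
    obtain ⟨A, hA, rfl⟩ := mem_image.mp hB
    obtain ⟨a1, a2⟩ := mem_filter.mp hA
    refine ⟨fun x hx => ?_, by rw [card_erase_of_mem a2, (hU A a1).2]; rfl⟩
    obtain ⟨h4, h5⟩ := mem_erase.mp hx
    have h3 := mem_range.mp ((hU A a1).1 h5)
    exact mem_range.mpr (by omega)
  have hb := h2 _ hL (kcov_link_mat hn hM hS hL (by
    intro B hB
    obtain ⟨A, hA, rfl⟩ := mem_image.mp hB
    obtain ⟨a1, a2⟩ := mem_filter.mp hA
    rwa [insert_erase a2]))
  rw [card_image_of_injOn (by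
    intro A hA B hB h
    have a2 := (mem_filter.mp (mem_coe.mp hA)).2
    have b2 := (mem_filter.mp (mem_coe.mp hB)).2
    rw [← insert_erase a2, ← insert_erase b2]
    exact congrArg _ h)] at hb
  omega

end Pool.Agent.Work.EMC
end
end

-- merged part: Pool.Agent.Work.MP_9079fe_co.KMid
section
/-! The real inequality in the middle region. -/

namespace Pool.Agent.Work.EMC
open MeasureTheory Set Fr

theorem conv_sq {p q s vl vu v El Eu E : ℝ} (h1 : vl ≤ v) (h2 : v ≤ vu) (hl : p + q * vl ≤ El)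
    (hu : p + q * vu ≤ Eu) (hl2 : El * El ≤ s + 12 * vl)
    (hu2 : Eu * Eu ≤ s + 12 * vu) (hE0 : 0 ≤ E) (hE : E ≤ p + q * v) : E ^ 2 ≤ s + 12 * v := by
  rcases eq_or_lt_of_le (h1.trans h2) with h | h
  · have : v = vl := le_antisymm (h ▸ h2) h1
    subst this
    linarith only [hl2, hE0, hE, hl, mul_nonneg_of_nonpos_of_nonpos (Mathlib.Tactic.Linarith.sub_nonpos_of_le hE0) (Mathlib.Tactic.Linarith.sub_nonpos_of_le hE), mul_nonneg_of_nonpos_of_nonpos (Mathlib.Tactic.Linarith.sub_nonpos_of_le hE0) (Mathlib.Tactic.Linarith.sub_nonpos_of_le hl), mul_nonneg_of_nonpos_of_nonpos (Mathlib.Tactic.Linarith.sub_nonpos_of_le hE) (Mathlib.Tactic.Linarith.sub_nonpos_of_le hE), mul_nonneg_of_nonpos_of_nonpos (Mathlib.Tactic.Linarith.sub_nonpos_of_le hE) (Mathlib.Tactic.Linarith.sub_nonpos_of_le hl), mul_nonneg_of_nonpos_of_nonpos (Mathlib.Tactic.Linarith.sub_nonpos_of_le hl) (Mathlib.Tactic.Linarith.sub_nonpos_of_le hl)]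
  · obtain ⟨θ, h0, h1', hv⟩ : ∃ θ : ℝ, 0 ≤ θ ∧ θ ≤ 1 ∧ v = (1 - θ) * vl + θ * vu := by
      refine ⟨(v - vl) / (vu - vl), div_nonneg (by linarith) (by linarith), ?_, ?_⟩
      · rw [div_le_one (by linarith)]; linarith
      · have : vu - vl ≠ 0 := by linarith
        field_simp
        ring
    have a1 : (1 - θ) * (p + q * vl) ≤ (1 - θ) * El := mul_le_mul_of_nonneg_left hl (by linarith)
    have a2 : θ * (p + q * vu) ≤ θ * Eu := mul_le_mul_of_nonneg_left hu h0
    have a3 : E ≤ (1 - θ) * El + θ * Eu := by rw [hv] at hE; linarith only [hE, a1, a2]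
    have a4 : E ^ 2 ≤ ((1 - θ) * El + θ * Eu) ^ 2 := pow_le_pow_left₀ hE0 a3 2
    have a5 : (1 - θ) * (El * El) ≤ (1 - θ) * (s + 12 * vl) :=
      mul_le_mul_of_nonneg_left hl2 (by linarith)
    have a6 : θ * (Eu * Eu) ≤ θ * (s + 12 * vu) := mul_le_mul_of_nonneg_left hu2 h0
    have a7 : 0 ≤ θ * (1 - θ) * (El - Eu) ^ 2 := by
      have : 0 ≤ 1 - θ := by linarith
      positivity
    rw [hv]
    linarith only [a4, a5, a6, a7]

variable {n : ℕ} {d z v b R β : ℝ}

theorem Bounds.basic (H : Bounds n d z v b R β) (hd : 9 / 20 ≤ d) (h : 2 ≤ n) :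
    0 < v ∧ 0 < b ∧ 0 ≤ (n + 1) * v - d ∧ 3 / 10 ≤ n * v := by
  have hn : (2:ℝ) ≤ n := by exact_mod_cast h
  have h1 := H.v_lo
  rw [div_le_iff₀ (by positivity)] at h1
  have hv : 0 < v := by
    by_contra hc
    push Not at hc
    linarith only [hd, h1, hc, mul_nonneg_of_nonpos_of_nonpos (Mathlib.Tactic.Linarith.sub_nonpos_of_le (Mathlib.Tactic.Linarith.natCast_nonneg ℝ n)) (Mathlib.Tactic.Linarith.sub_nonpos_of_le hc)]
  refine ⟨hv, hv.trans_le H.v_hi, by linarith only [h1], by (refine le_of_not_gt fun h_nl => ?_; linarith only [h_nl, hn, hd, h1, mul_nonneg_of_nonpos_of_nonpos (Mathlib.Tactic.Linarith.sub_nonpos_of_le (Mathlib.Tactic.Linarith.natCast_nonneg ℝ n)) (Mathlib.Tactic.Linarith.sub_nonpos_of_le hd), mul_nonneg_of_nonpos_of_nonpos (Mathlib.Tactic.Linarith.sub_nonpos_of_le (Mathlib.Tactic.Linarith.natCast_nonneg ℝ n)) (Mathlib.Tactic.Linarith.sub_nonpos_of_le h1), mul_nonneg_of_nonpos_of_nonpos (Mathlib.Tactic.Linarith.sub_nonpos_of_le (Mathlib.Tactic.Linarith.natCast_nonneg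 ℝ n)) (le_of_lt (Mathlib.Tactic.Linarith.sub_neg_of_lt h_nl))])⟩

theorem eok_sound {b2 N1 N2 T1 x : Fr} (h : eok b2 N1 N2 T1 x = true) (hT : 0 < T1.v) :
    ∃ E : ℝ, (16 / 3 * (N2.v - 9 / 20) / T1.v - 9 / 5 + b2.v) +
      (16 / 3 / T1.v - 1 / b2.v) * x.v ≤ E ∧ E * E ≤ 16 * N1.v + 12 * x.v := by
  simp only [eok, le_iff, v_mul, v_add, v_sub, v_div, v_mk'] at h
  refine ⟨_, ?_, by simpa using h⟩
  refine le_trans ?_ (le_max_left _ _)
  have h1 : 16 / 3 * (N2.v + x.v - 9 / 20) / T1.v ≤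
      16 / (2 + 1) * max (N2.v + x.v - 9 / (19 + 1)) 0 / T1.v := by
    apply div_le_div_of_nonneg_right _ hT.le
    have := le_max_left (N2.v + x.v - 9 / (19 + 1)) 0
    linarith only [this]
  have h2 : (16 / 3 * (N2.v - 9 / 20) / T1.v - 9 / 5 + b2.v) + (16 / 3 / T1.v - 1 / b2.v) * x.v =
      16 / 3 * (N2.v + x.v - 9 / 20) / T1.v + b2.v - (9 / 5 + x.v / b2.v) := by ring
  rw [h2]
  linarith only [h1]

theorem vok_sound (H : Bounds n d z v b R β) (hd : 9 / 20 ≤ d) (h : 2 ≤ n) (hb : b ≤ 7 / 4)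
    {b2 N1 N2 vl vu T : Fr} (hb2 : b ≤ b2.v) (hN1 : N1.v ≤ n * v) (hN2 : n * v ≤ N2.v)
    (hvl : vl.v ≤ v) (hvu : v ≤ vu.v) (hk : vok b2 N1 N2 vl vu T = true) : R ≤ T.v := by
  obtain ⟨hv, hb0, hw, hN⟩ := H.basic hd h
  simp only [vok, Bool.or_eq_true, Bool.and_eq_true, le_iff, lt_iff, v_add, v_mul, v_mk'] at hk
  rcases hk with hk | ⟨⟨hT, h1⟩, h2⟩
  · refine H.V1.trans ?_
    rw [div_le_iff₀ (by linarith only [hd])]
    have := T.v_nonneg
    norm_num at hk
    linarith only [hN2, hvu, hk, hd, this, mul_nonneg_of_nonpos_of_nonpos (Mathlib.Tactic.Linarith.sub_nonpos_of_le hd) (Mathlib.Tactic.Linarith.sub_nonpos_of_le this)]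
  · norm_num at hT
    have hT1 : (sub T (mk' 1 0)).v = T.v - 1 := by
      rw [v_sub, v_mk', max_eq_left] <;> norm_num
      linarith only [hT]
    obtain ⟨El, hl, hl2⟩ := eok_sound h1 (by rw [hT1]; linarith only [hT])
    obtain ⟨Eu, hu, hu2⟩ := eok_sound h2 (by rw [hT1]; linarith only [hT])
    rw [hT1] at hl hu
    set w := (n + 1) * v - d with hwdef
    have hvb : v / b ≤ 1 := by rw [div_le_one hb0]; exact H.v_hi
    have hvb0 : 0 ≤ v / b := by positivity
    by_cases hc : 4 / 3 * w / (T.v - 1) ≤ d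
    · have h3 := H.Va d le_rfl (by linarith only [hv, hb0, hN, hvb0, hb, hvb, mul_nonneg_of_nonpos_of_nonpos (Mathlib.Tactic.Linarith.sub_nonpos_of_le hb) (le_of_lt (Mathlib.Tactic.Linarith.sub_neg_of_lt hb0)), mul_nonneg_of_nonpos_of_nonpos (Mathlib.Tactic.Linarith.sub_nonpos_of_le hb) (Mathlib.Tactic.Linarith.sub_nonpos_of_le hvb), mul_nonneg_of_nonpos_of_nonpos (Mathlib.Tactic.Linarith.sub_nonpos_of_le hvb) (Mathlib.Tactic.Linarith.sub_nonpos_of_le hvb0)])
      rw [div_le_iff₀ (by linarith only [hT])] at hc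
      have : 4 / 3 * w / d ≤ T.v - 1 := by rw [div_le_iff₀ (by linarith only [hd])]; linarith only [hc]
      linarith only [h3, this]
    · push Not at hc
      have hw0 : 0 < w := by
        rcases eq_or_lt_of_le hw with h0 | h0
        · rw [← h0] at hc; norm_num at hc; linarith only [hv, hN, h0, hc]
        · exact h0
      have h3 := H.Va (4 / 3 * w / (T.v - 1)) hc.le ?_
      · have : 4 / 3 * w / (4 / 3 * w / (T.v - 1)) = T.v - 1 := by
          have : T.v - 1 ≠ 0 := by linarith only [hT]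
          field_simp
        linarith only [h3, this]
      · set E := 4 * (4 / 3 * w / (T.v - 1) - d) + b - v / b with hE
        by_cases hE0 : E ≤ 0
        · have : -1 ≤ E := by linarith only [hb0, hvb, hc]
          linarith only [hb0, hN, hvb, hc, hd, hv, hE0, hw0, sq_nonneg E, mul_nonneg_of_nonpos_of_nonpos (Mathlib.Tactic.Linarith.sub_nonpos_of_le hd) (le_of_lt (Mathlib.Tactic.Linarith.sub_neg_of_lt hb0)), mul_nonneg_of_nonpos_of_nonpos (Mathlib.Tactic.Linarith.sub_nonpos_of_le hd) (le_of_lt (Mathlib.Tactic.Linarith.sub_neg_of_lt hc)), mul_nonneg_of_nonpos_of_nonpos (le_of_lt (Mathlib.Tactic.Linarith.sub_neg_of_lt hv)) (Mathlib.Tactic.Linarith.sub_nonpos_of_le hvb), mul_nonneg_of_nonpos_of_nonpos (le_of_lt (Mathlib.Tactic.Linarith.sub_neg_of_lt hv)) (Mathlib.Tactic.Linarith.sub_nonpos_of_le hE0), mul_pos_of_neg_of_neg (Mathlib.Tactic.Linarith.sub_neg_of_lt hb0) (Mathlib.Tactic.Linarith.sub_neg_of_lt hw0), mul_nonneg_of_nonpos_of_nonpos (le_of_lt (Mathlib.Tactic.Linarith.sub_neg_of_lt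 hb0)) (Mathlib.Tactic.Linarith.sub_nonpos_of_le hE0), mul_nonneg_of_nonpos_of_nonpos (Mathlib.Tactic.Linarith.sub_nonpos_of_le hN) (Mathlib.Tactic.Linarith.sub_nonpos_of_le hvb), mul_nonneg_of_nonpos_of_nonpos (Mathlib.Tactic.Linarith.sub_nonpos_of_le hN) (Mathlib.Tactic.Linarith.sub_nonpos_of_le hE0), mul_nonneg_of_nonpos_of_nonpos (Mathlib.Tactic.Linarith.sub_nonpos_of_le hvb) (Mathlib.Tactic.Linarith.sub_nonpos_of_le hE0), mul_pos_of_neg_of_neg (Mathlib.Tactic.Linarith.sub_neg_of_lt hc) (Mathlib.Tactic.Linarith.sub_neg_of_lt hw0), mul_nonneg_of_nonpos_of_nonpos (le_of_lt (Mathlib.Tactic.Linarith.sub_neg_of_lt hc)) (Mathlib.Tactic.Linarith.sub_nonpos_of_le hE0)]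
        · push Not at hE0
          have h4 : E ≤ (16 / 3 * (N2.v - 9 / 20) / (T.v - 1) - 9 / 5 + b2.v) +
              (16 / 3 / (T.v - 1) - 1 / b2.v) * v := by
            have e1 : 16 / 3 * w / (T.v - 1) ≤ 16 / 3 * (N2.v + v - 9 / 20) / (T.v - 1) := by
              apply div_le_div_of_nonneg_right _ (by linarith only [hT])
              linarith only [hd, hN2]
            have e2 : v / b2.v ≤ v / b := div_le_div_of_nonneg_left hv.le hb0 hb2
            have e3 : (16 / 3 * (N2.v - 9 / 20) / (T.v - 1) - 9 / 5 + b2.v) +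
              (16 / 3 / (T.v - 1) - 1 / b2.v) * v =
              16 / 3 * (N2.v + v - 9 / 20) / (T.v - 1) - 9 / 5 + b2.v - v / b2.v := by ring
            have e4 : E = 16 / 3 * w / (T.v - 1) - 4 * d + b - v / b := by rw [hE]; ring
            rw [e3, e4]
            linarith only [hd, hb2, e1, e2]
          have := conv_sq hvl hvu hl hu hl2 hu2 hE0.le h4
          linarith only [hN1, this]

theorem xl_le {b1 b2 N1 N : ℝ} (hd : 9 / 20 ≤ d) (hb0 : 0 ≤ b) (h1 : b1 ≤ b) (h2 : b ≤ b2)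
    (hN : N1 ≤ N) :
    min (max (N1 + b1 * (9 / 20) - b1 * b1) 0) (max (N1 + b2 * (9 / 20) - b2 * b2) 0) ≤
      max (N - b * (b - d)) 0 := by
  have h3 : N1 + b * (9 / 20) - b * b ≤ N - b * (b - d) := by linarith only [hN, hd, hb0, mul_nonneg_of_nonpos_of_nonpos (Mathlib.Tactic.Linarith.sub_nonpos_of_le hd) (Mathlib.Tactic.Linarith.sub_nonpos_of_le hb0)]
  by_cases hc : b + b1 ≤ 9 / 20
  · refine (min_le_left _ _).trans (max_le_max_right _ ?_)
    linarith only [h3, h1, hc, mul_nonneg_of_nonpos_of_nonpos (Mathlib.Tactic.Linarith.sub_nonpos_of_le h1) (Mathlib.Tactic.Linarith.sub_nonpos_of_le hc)]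
  · refine (min_le_right _ _).trans (max_le_max_right _ ?_)
    linarith only [h3, h1, h2, hc, mul_nonneg_of_nonpos_of_nonpos (Mathlib.Tactic.Linarith.sub_nonpos_of_le h1) (Mathlib.Tactic.Linarith.sub_nonpos_of_le h2), mul_nonneg_of_nonpos_of_nonpos (Mathlib.Tactic.Linarith.sub_nonpos_of_le h2) (Mathlib.Tactic.Linarith.sub_nonpos_of_le h2), mul_nonneg_of_nonpos_of_nonpos (Mathlib.Tactic.Linarith.sub_nonpos_of_le h2) (le_of_lt (Mathlib.Tactic.Linarith.sub_neg_of_lt (lt_of_not_ge hc)))]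

theorem q5_sound (H : Bounds n d z v b R β) (hd : 9 / 20 ≤ d) (hb0 : 0 < b)
    {b1 b2 N2 xl ω : ℝ} (h1 : b1 ≤ b) (h2 : b ≤ b2) (hN : n * v ≤ N2)
    (hx : xl ≤ max (n * v - b * (b - d)) 0) (hu : b2 + 11 / 20 ≤ ω)
    (hω : N2 + ω * (b2 + 11 / 20) ≤ ω * ω) : b1 + xl / ω ≤ β := by
  have hω0 : 0 < ω := by linarith only [hb0, h2, hu]
  rcases le_total (n * v - b * (b - d)) 0 with hc | hc
  · rw [max_eq_right hc] at hx
    have : xl / ω ≤ 0 := div_nonpos_of_nonpos_of_nonneg hx hω0.le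
    linarith only [h1, this, H, H.Q1]
  · rw [max_eq_left hc] at hx
    have h3 := H.Q5 ω (by linarith only [hd, h2, hu]) (by linarith only [hd, h2, hN, hω, hb0, hu, mul_nonneg_of_nonpos_of_nonpos (Mathlib.Tactic.Linarith.sub_nonpos_of_le hd) (le_of_lt (Mathlib.Tactic.Linarith.sub_neg_of_lt hb0)), mul_nonneg_of_nonpos_of_nonpos (Mathlib.Tactic.Linarith.sub_nonpos_of_le hd) (Mathlib.Tactic.Linarith.sub_nonpos_of_le h2), mul_nonneg_of_nonpos_of_nonpos (Mathlib.Tactic.Linarith.sub_nonpos_of_le hd) (Mathlib.Tactic.Linarith.sub_nonpos_of_le hu), mul_nonneg_of_nonpos_of_nonpos (le_of_lt (Mathlib.Tactic.Linarith.sub_neg_of_lt hb0)) (Mathlib.Tactic.Linarith.sub_nonpos_of_le h2), mul_nonneg_of_nonpos_of_nonpos (Mathlib.Tactic.Linarith.sub_nonpos_of_le h2) (Mathlib.Tactic.Linarith.sub_nonpos_of_le h2), mul_nonneg_of_nonpos_of_nonpos (Mathlib.Tactic.Linarith.sub_nonpos_of_le h2) (Mathlib.Tactic.Linarith.sub_nonpos_of_le hu)])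
    have : xl / ω ≤ (n * v - b * (b - d)) / ω := div_le_div_of_nonneg_right hx hω0.le
    linarith only [h1, h3, this]

theorem cDir_ge {m0 W Wu m a a' B io Z al : ℝ} (hz : 0 ≤ z) (hZ : z ≤ Z)
    (hm1 : 1 ≤ m0) (hm2 : m0 ≤ 1 + io / 2) (hdp : 9 / 20 / (1 + io * (9 / 20)) ≤ d / m0)
    (hW0 : 0 ≤ W) (hW : W ≤ Wu) (ha : 0 ≤ a) (ha' : a ≤ a') (hB : 0 ≤ B) (hal : al = 1 + a + B)
    (hma : m + a' = al) :
    1 / al + 9 / 20 / (1 + io * (9 / 20)) / (al * (al + 1)) +
      a * (1 / (al * al) + 9 / 20 / (1 + io * (9 / 20)) * (al + (al + 1)) /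
        (al * (al + 1) * (al * (al + 1)))) +
      Wu * Z / ((al + 1 + io / 2) * (al + 1 + io / 2) * (1 + a + 1 + io / 2)) -
      Wu * (1 + Z) / (al * al * (1 + a)) ≤ cDir d z m0 W m a' B := by
  have hio : 0 ≤ io := by linarith only [hm1, hm2]
  have hal0 : 0 < al := by linarith only [ha, hB, hal]
  set dp := 9 / 20 / (1 + io * (9 / 20)) with hdpdef
  have hdp0 : 0 ≤ dp := by positivity
  unfold cDir
  rw [hma]
  have e0 : al - B = 1 + a := by linarith only [hal]
  have e1 : al + m0 - B = 1 + a + m0 := by linarith only [hal]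
  rw [e0, e1]
  have t0 : dp / (al * (al + 1)) ≤ d / m0 * (1 / al - 1 / (al + m0)) := by
    have : 1 / (al + m0) ≤ 1 / (al + 1) := one_div_le_one_div_of_le (by linarith only [ha, hB, hal]) (by linarith only [hm1])
    have e : dp / (al * (al + 1)) = dp * (1 / al - 1 / (al + 1)) := by field_simp; ring
    have p : 0 ≤ 1 / al - 1 / (al + 1) := by
      have : 1 / (al + 1) ≤ 1 / al := one_div_le_one_div_of_le hal0 (by linarith only [])
      linarith only [this]
    rw [e]
    exact mul_le_mul hdp (by linarith only [this]) p (hdp0.trans hdp)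
  have t1 : dp * (al + (al + 1)) / (al * (al + 1) * (al * (al + 1))) ≤
      d / m0 * (1 / al ^ 2 - 1 / (al + m0) ^ 2) := by
    have : 1 / (al + m0) ^ 2 ≤ 1 / (al + 1) ^ 2 :=
      one_div_le_one_div_of_le (by positivity) (pow_le_pow_left₀ (by linarith only [ha, hB, hal]) (by linarith only [hm1]) 2)
    have e : dp * (al + (al + 1)) / (al * (al + 1) * (al * (al + 1))) =
        dp * (1 / al ^ 2 - 1 / (al + 1) ^ 2) := by field_simp; ring
    have p : 0 ≤ 1 / al ^ 2 - 1 / (al + 1) ^ 2 := by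
      have : 1 / (al + 1) ^ 2 ≤ 1 / al ^ 2 :=
        one_div_le_one_div_of_le (by positivity) (pow_le_pow_left₀ hal0.le (by linarith only []) 2)
      linarith only [this]
    rw [e]
    exact mul_le_mul hdp (by linarith only [this]) p (hdp0.trans hdp)
  have t2 : a * (1 / (al * al) + dp * (al + (al + 1)) / (al * (al + 1) * (al * (al + 1)))) ≤
      a' * (1 / al ^ 2 + d / m0 * (1 / al ^ 2 - 1 / (al + m0) ^ 2)) := by
    apply mul_le_mul ha' _ (by positivity) (ha.trans ha')
    have : 1 / (al * al) = 1 / al ^ 2 := by rw [sq]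
    linarith only [t1, this]
  set P := 1 / (al ^ 2 * (1 + a)) with hP
  set Q := 1 / ((al + m0) ^ 2 * (1 + a + m0)) with hQ
  set Qu := 1 / ((al + 1 + io / 2) ^ 2 * (1 + a + 1 + io / 2)) with hQu
  have q1 : Qu ≤ Q := by
    apply one_div_le_one_div_of_le (by positivity)
    apply mul_le_mul (pow_le_pow_left₀ (by linarith only [hm1, ha, hB, hal]) (by linarith only [hm2]) 2) (by linarith only [hm2]) (by linarith only [hm1, ha])
      (by positivity)
  have q2 : Qu ≤ P := by
    apply one_div_le_one_div_of_le (by positivity)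
    apply mul_le_mul (pow_le_pow_left₀ (by linarith only [ha, hB, hal]) (by linarith only [hm1, hm2]) 2) (by linarith only [hm1, hm2]) (by linarith only [ha])
      (by positivity)
  have q0 : 0 ≤ P := by positivity
  have t3 : W * ((1 + z) / (al ^ 2 * (1 + a)) - z / ((al + m0) ^ 2 * (1 + a + m0))) ≤
      Wu * (P + Z * (P - Qu)) := by
    have e : (1 + z) / (al ^ 2 * (1 + a)) - z / ((al + m0) ^ 2 * (1 + a + m0)) =
        P + z * (P - Q) := by rw [hP, hQ]; ring
    rw [e]
    have i1 : z * (P - Q) ≤ Z * (P - Qu) := by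
      have : z * (P - Q) ≤ z * (P - Qu) := mul_le_mul_of_nonneg_left (by linarith only [q1]) hz
      have : z * (P - Qu) ≤ Z * (P - Qu) := mul_le_mul_of_nonneg_right hZ (by linarith only [q2])
      linarith
    have i2 : 0 ≤ P + Z * (P - Qu) := by
      have : 0 ≤ Z * (P - Qu) := mul_nonneg (hz.trans hZ) (by linarith only [q2])
      linarith only [q0, this]
    calc W * (P + z * (P - Q)) ≤ W * (P + Z * (P - Qu)) :=
          mul_le_mul_of_nonneg_left (by linarith only [i1]) hW0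
      _ ≤ Wu * (P + Z * (P - Qu)) := mul_le_mul_of_nonneg_right hW i2
  have e5 : Wu * Z / ((al + 1 + io / 2) * (al + 1 + io / 2) * (1 + a + 1 + io / 2)) -
      Wu * (1 + Z) / (al * al * (1 + a)) = -(Wu * (P + Z * (P - Qu))) := by
    rw [hP, hQu, sq, sq]; ring
  linarith only [t0, t2, t3, e5]

theorem qd_sound (H : Bounds n d z v b R β) (hd : 9 / 20 ≤ d) (hd2 : d ≤ 1 / 2) (h : 2 ≤ n)
    (hz : 0 ≤ z) {Z b2 io wm a : Fr} {b1 N1 N2 vu xl : ℝ} (hZ : z ≤ Z.v) (h1 : b1 ≤ b)
    (h2 : b ≤ b2.v) (hb2 : b2.v ≤ 1 / 2) (hN0 : 0 ≤ N1) (hN1 : N1 ≤ n * v) (hN2 : n * v ≤ N2)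
    (hvu : v ≤ vu) (hio : vu / (N1 + vu) ≤ io.v) (hio2 : io.v * (N2 + vu) ≤ 1)
    (hwm : N2 + vu - 9 / 20 ≤ wm.v) (hx : xl ≤ max (n * v - b * (b - d)) 0) :
    b1 + xl * (cLo Z b2 io wm a).v ≤ β := by
  obtain ⟨hv, hb0, hw, hN⟩ := H.basic hd h
  have hc0 := (cLo Z b2 io wm a).v_nonneg
  rcases le_total (n * v - b * (b - d)) 0 with hc | hc
  · rw [max_eq_right hc] at hx
    have : xl * (cLo Z b2 io wm a).v ≤ 0 := mul_nonpos_of_nonpos_of_nonneg hx hc0
    linarith only [h1, this, H, H.Q1]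
  rw [max_eq_left hc] at hx
  have hn : (2:ℝ) ≤ n := by exact_mod_cast h
  have ha := a.v_nonneg
  have hι : 1 / ((n:ℝ) + 1) ≤ io.v := by
    refine le_trans ?_ hio
    rw [div_le_div_iff₀ (by positivity) (by linarith only [hN0, hvu, hv])]
    linarith only [hN1, hvu, mul_nonneg_of_nonpos_of_nonpos (Mathlib.Tactic.Linarith.sub_nonpos_of_le (Mathlib.Tactic.Linarith.natCast_nonneg ℝ n)) (Mathlib.Tactic.Linarith.sub_nonpos_of_le hvu)]
  have hι0 : 0 < 1 / ((n:ℝ) + 1) := by positivity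
  have hdι : d / (n + 1) = d * (1 / ((n:ℝ) + 1)) := by ring
  have hQ := H.QD (a.v + b2.v - b) b2.v (by linarith only [h2, ha]) (by linarith only [h2, hb0]) (by linarith only [h2, hb2, hb0])
    (by rw [hdι]; linarith only [h2, hι0, hd, mul_nonneg_of_nonpos_of_nonpos (Mathlib.Tactic.Linarith.sub_nonpos_of_le hd) (le_of_lt (Mathlib.Tactic.Linarith.sub_neg_of_lt hι0))]) hc
  have hge : (cLo Z b2 io wm a).v ≤ max (cD n d z v (1 + b) (a.v + b2.v - b) b2.v) 0 := by
    simp only [cLo, v_sub, v_add, v_mul, v_div, v_inv, v_mk']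
    apply max_le_max_right
    have := cDir_ge (d := d) (m0 := 1 + d / (n + 1)) (W := (1 + d / (n + 1)) * ((n + 1) * v - d))
      (Wu := (1 + io.v * (9 / 20)) * wm.v) (m := 1 + b) (a := a.v) (a' := a.v + b2.v - b)
      (B := b2.v) (io := io.v) (al := 1 + a.v + b2.v) hz hZ (by rw [hdι]; linarith only [hι0, hd, mul_nonneg_of_nonpos_of_nonpos (Mathlib.Tactic.Linarith.sub_nonpos_of_le hd) (le_of_lt (Mathlib.Tactic.Linarith.sub_neg_of_lt hι0))])
      (by rw [hdι]; linarith only [hι, hd2, hι0, mul_nonneg_of_nonpos_of_nonpos (Mathlib.Tactic.Linarith.sub_nonpos_of_le hd2) (le_of_lt (Mathlib.Tactic.Linarith.sub_neg_of_lt hι0))]) ?_ (by positivity) ?_ ha (by linarith only [h2]) b2.v_nonneg rfl (by ring)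
    · unfold cD
      refine le_trans (le_of_eq ?_) this
      norm_num
      ring
    · rw [div_le_div_iff₀ (by linarith only [h2, hb2, hb0, hι, hι0]) (by positivity), hdι]
      linarith only [hd, hι, mul_nonneg_of_nonpos_of_nonpos (Mathlib.Tactic.Linarith.sub_nonpos_of_le hd) (Mathlib.Tactic.Linarith.sub_nonpos_of_le hι)]
    · rw [hdι]
      have s1 : (1 + d * (1 / ((n:ℝ) + 1))) * ((n + 1) * v - d) ≤
          (1 + d * io.v) * (N2 + vu - d) :=
        mul_le_mul (by linarith only [hι, hd, mul_nonneg_of_nonpos_of_nonpos (Mathlib.Tactic.Linarith.sub_nonpos_of_le hd) (Mathlib.Tactic.Linarith.sub_nonpos_of_le hι)]) (by linarith only [hN2, hvu]) hw (by linarith only [h2, hb2, hb0, hι, hι0, hd, mul_nonneg_of_nonpos_of_nonpos (Mathlib.Tactic.Linarith.sub_nonpos_of_le hd) (Mathlib.Tactic.Linarith.sub_nonpos_of_le hι), mul_nonneg_of_nonpos_of_nonpos (Mathlib.Tactic.Linarith.sub_nonpos_of_le hd) (le_of_lt (Mathlib.Tactic.Linarith.sub_neg_of_lt hι0))])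
      have s2 : (1 + d * io.v) * (N2 + vu - d) ≤ (1 + io.v * (9 / 20)) * (N2 + vu - 9 / 20) := by
        have : 0 ≤ (d - 9 / 20) * (1 - io.v * (N2 + vu) + io.v * (d + 9 / 20)) := by
          apply mul_nonneg (by linarith only [hd])
          linarith only [hio2, hι, hι0, hd, mul_nonneg_of_nonpos_of_nonpos (Mathlib.Tactic.Linarith.sub_nonpos_of_le hd) (Mathlib.Tactic.Linarith.sub_nonpos_of_le hι), mul_nonneg_of_nonpos_of_nonpos (Mathlib.Tactic.Linarith.sub_nonpos_of_le hd) (le_of_lt (Mathlib.Tactic.Linarith.sub_neg_of_lt hι0))]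
        linarith only [this]
      have s3 : (1 + io.v * (9 / 20)) * (N2 + vu - 9 / 20) ≤ (1 + io.v * (9 / 20)) * wm.v :=
        mul_le_mul_of_nonneg_left hwm (by linarith only [h2, hb2, hb0, hι, hι0])
      linarith only [s1, s2, s3]
  have s4 : xl * (cLo Z b2 io wm a).v ≤ (n * v - b * (b - d)) * (cLo Z b2 io wm a).v :=
    mul_le_mul_of_nonneg_right hx hc0
  rcases le_total (cD n d z v (1 + b) (a.v + b2.v - b) b2.v) 0 with h3 | h3
  · rw [max_eq_right h3] at hge
    have : (cLo Z b2 io wm a).v = 0 := le_antisymm hge hc0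
    rw [this]
    linarith only [h1, H, H.Q1]
  · rw [max_eq_left h3] at hge
    have := mul_le_mul_of_nonneg_left hge hc
    linarith only [h1, hQ, s4, this]

/-- Context for the middle region. -/
structure MidC (n : ℕ) (d z v b R β : ℝ) (Z Y f1 f2 : Fr) : Prop where
  H : Bounds n d z v b R β
  hd : 9 / 20 ≤ d
  hd2 : d ≤ 1 / 2
  h : 2 ≤ n
  hz : 0 < z
  hZ : z ≤ Z.v
  hY : Z.v * Y.v < 1
  hb : b ≤ 7 / 4
  hf1 : f1.v * (n * v) ≤ v
  hf2 : v ≤ f2.v * (n * v)
  hout : ¬ (b ≤ 3 / 10 ∧ (n + 1) * v - d ≤ 3 / 5)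

theorem MidC.fin {Z Y f1 f2 : Fr} (M : MidC n d z v b R β Z Y f1 f2) {T : Fr} {q : ℕ}
    (hT : T.v ≤ β) (hR : R ≤ (dn (mul Y T) q).v) : z * R < β := by
  obtain ⟨hv, hb0, hw, hN⟩ := M.H.basic M.hd M.h
  have h1 := hR.trans (dn_le _ _)
  rw [v_mul] at h1
  have hβ : 0 < β := hb0.trans_le M.H.Q1
  have h2 : Y.v * T.v ≤ Y.v * β := mul_le_mul_of_nonneg_left hT Y.v_nonneg
  have h3 : z * R ≤ z * (Y.v * β) := mul_le_mul_of_nonneg_left (h1.trans h2) M.hz.le
  have h4 : z * (Y.v * β) ≤ Z.v * (Y.v * β) :=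
    mul_le_mul_of_nonneg_right M.hZ (mul_nonneg Y.v_nonneg hβ.le)
  have h5 := mul_lt_mul_of_pos_right M.hY hβ
  linarith only [h3, h4, h5]

theorem tM_sound {Z Y f1 f2 : Fr} (M : MidC n d z v b R β Z Y f1 f2) {b1 b2 N1 N2 : Fr}
    (h1 : b1.v ≤ b) (h2 : b ≤ b2.v) (h3 : N1.v ≤ n * v) (h4 : n * v ≤ N2.v)
    (ht : tM Z Y f1 f2 b1 b2 N1 N2 = true) : z * R < β := by
  obtain ⟨hv, hb0, hw, hN⟩ := M.H.basic M.hd M.h
  have hvl : (mul f1 N1).v ≤ v := by
    rw [v_mul]; exact (mul_le_mul_of_nonneg_left h3 f1.v_nonneg).trans M.hf1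
  have hvu : v ≤ (mn b2 (mul f2 N2)).v := by
    rw [v_mn, v_mul]
    exact le_min (M.H.v_hi.trans h2) (M.hf2.trans (mul_le_mul_of_nonneg_left h4 f2.v_nonneg))
  have hxl : (mn (sub (add N1 (mul b1 (mk' 9 19))) (mul b1 b1))
      (sub (add N1 (mul b2 (mk' 9 19))) (mul b2 b2))).v ≤ max (n * v - b * (b - d)) 0 := by
    simp only [v_mn, v_sub, v_add, v_mul, v_mk']
    have := xl_le M.hd hb0.le h1 h2 h3
    norm_num at this ⊢
    exact this
  have hd := M.hd
  simp only [tM, Bool.or_eq_true, Bool.and_eq_true, le_iff, lt_iff] at ht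
  rcases ht with (((ht | ht) | ⟨ht, ht'⟩) | ⟨⟨ha, hb⟩, hc⟩) | ⟨⟨ha, hb⟩, hc⟩
  · linarith only [h2, hvl, ht, M, M.H.v_hi]
  · rw [v_add, v_mk'] at ht
    norm_num at ht
    linarith only [h4, hw, hvu, hd, ht]
  · exfalso
    apply M.hout
    rw [v_mk'] at ht
    rw [v_sub, v_add, v_mk', v_mk'] at ht'
    have := (le_max_left _ _).trans ht'
    norm_num at ht this
    constructor
    · linarith only [h2, ht]
    · linarith only [h4, hvu, hd, this]
  · refine M.fin ?_ (vok_sound M.H M.hd M.h M.hb h2 h3 h4 hvl hvu hc)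
    rw [v_add, v_div]
    simp only [v_add, v_mul, v_mk'] at ha hb
    norm_num at ha hb
    exact q5_sound M.H M.hd hb0 h1 h2 h4 hxl ha hb
  · refine M.fin ?_ (vok_sound M.H M.hd M.h M.hb h2 h3 h4 hvl hvu hc)
    rw [v_add, v_mul]
    rw [v_mk'] at ha
    rw [v_mul, v_add, v_mk'] at hb
    norm_num at ha hb
    refine qd_sound M.H M.hd M.hd2 M.h M.hz.le M.hZ h1 h2 (by linarith only [ha]) N1.v_nonneg h3 h4 hvu ?_
      hb ?_ hxl
    · refine le_trans (le_of_eq ?_) (le_up _ _)
      rw [v_div, v_add]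
    · rw [v_sub, v_add, v_mk']
      norm_num

theorem bbM_sound {Z Y f1 f2 : Fr} (M : MidC n d z v b R β Z Y f1 f2) (k : ℕ) :
    ∀ i1 i2 j1 j2 : ℕ, (i1:ℝ) / 1048576 ≤ b → b ≤ (i2:ℝ) / 1048576 →
      (j1:ℝ) / 1048576 ≤ n * v → n * v ≤ (j2:ℝ) / 1048576 →
      bbM Z Y f1 f2 k i1 i2 j1 j2 = true → z * R < β := by
  induction k with
  | zero => intro i1 i2 j1 j2 _ _ _ _ h; simp [bbM] at h
  | succ k ih =>
    intro i1 i2 j1 j2 h1 h2 h3 h4 h
    rw [bbM, Bool.or_eq_true] at h
    rcases h with h | h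
    · refine tM_sound M ?_ ?_ ?_ ?_ h <;> rw [v_mk'] <;> norm_num <;> assumption
    · revert h
      generalize Nat.ble _ _ = c
      generalize Nat.div (Nat.add i1 i2) 2 = im
      generalize Nat.div (Nat.add j1 j2) 2 = jm
      intro h
      cases c with
      | true =>
        rw [cond_true, Bool.and_eq_true] at h
        rcases le_total b ((im:ℝ) / 1048576) with h5 | h5
        · exact ih _ _ _ _ h1 h5 h3 h4 h.1
        · exact ih _ _ _ _ h5 h2 h3 h4 h.2
      | false =>
        rw [cond_false, Bool.and_eq_true] at h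
        rcases le_total (n * v) ((jm:ℝ) / 1048576) with h5 | h5
        · exact ih _ _ _ _ h1 h2 h3 h5 h.1
        · exact ih _ _ _ _ h1 h2 h5 h4 h.2

theorem real_mid' (C : Crit n d z) (H : Bounds n d z v b R β) (h : 2 ≤ n) (hb : b ≤ 7 / 4)
    (hN : n * v ≤ 36) (hout : ¬ (b ≤ 3 / 10 ∧ (n + 1) * v - d ≤ 3 / 5)) : z * R < β := by
  obtain ⟨hv, hb0, hw, hN0⟩ := H.basic C.d_lo h
  rcases eq_or_lt_of_le h with h2 | h3
  · have hn : (n:ℝ) = 2 := by exact_mod_cast h2.symm
    refine bbM_sound ⟨H, C.d_lo, C.d_hi, h, C.z_pos, ?_, ?_, hb, ?_, ?_, hout⟩ _ _ _ _ _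
      ?_ ?_ ?_ ?_ bbM_B
    · rw [v_mk']; have := C.z_le3 h2.symm; norm_num; linarith only [this]
    · rw [v_mk', v_mk']; norm_num
    · rw [v_mk', hn]; norm_num; linarith only []
    · rw [v_mk', hn]; norm_num; linarith only []
    all_goals norm_num
    all_goals linarith only [hb0, hb, hN0, hN]
  · have hn : (3:ℝ) ≤ n := by exact_mod_cast h3
    refine bbM_sound ⟨H, C.d_lo, C.d_hi, h, C.z_pos, ?_, ?_, hb, ?_, ?_, hout⟩ _ _ _ _ _
      ?_ ?_ ?_ ?_ bbM_A
    · rw [v_mk']; have := C.z_le; norm_num; linarith only [this]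
    · rw [v_mk', v_mk']; norm_num
    · rw [v_mk']; norm_num; linarith only [hv]
    · rw [v_mk']; norm_num; linarith only [hv, hn, mul_nonneg_of_nonpos_of_nonpos (le_of_lt (Mathlib.Tactic.Linarith.sub_neg_of_lt hv)) (Mathlib.Tactic.Linarith.sub_nonpos_of_le hn)]
    all_goals norm_num
    all_goals linarith only [hb0, hb, hN0, hN]

theorem real_mid (C : Crit n d z) (H : Bounds n d z v b R β) (h : 2 ≤ n) (hb : b ≤ 7 / 4)
    (hN : n * v ≤ 36) (hout : ¬ (b ≤ 3 / 10 ∧ (n + 1) * v - d ≤ 7 / 10)) : z * R < β :=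
  real_mid' C H h hb hN fun hh => hout ⟨hh.1, by linarith only [hh, hh.2]⟩

end Pool.Agent.Work.EMC
end
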